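import Pool.Agent.MV68.Chords

namespace Pool.Agent.MV68

open Pool.Agent.Results.MP_15ecc6_co.DoubleCatalan

theorem SS_bot {n : ℕ} {δ : ℕ → Prop} {g : ℕ → ℕ} (_hs : St n δ g) {t : ℕ} (hgt : g t = 0)
    (a m : ℕ) : SS g a m t = 0 := by
  unfold SS
  apply Finset.sum_eq_zero
  intro j _
  unfold bb
  rw [if_neg (by omega)]

theorem SS_top {n : ℕ} {δ : ℕ → Prop} {g : ℕ → ℕ} (hs : St n δ g) {r : ℕ} (hr : r ≤ n)
    (hgr : g r = n) (a m : ℕ) (ham : a + m ≤ n + 1) :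
    SS g a m r + (if a ≤ r ∧ r < a + m then 1 else 0) = m := by
  induction m with
  | zero => rw [if_neg (by omega)]; rfl
  | succ m ih =>
    have ih' := ih (by omega)
    rw [SS_succ]
    by_cases h : a + m = r
    · have h2 : bb g (a+m) r = 0 := by rw [h]; exact bb_self g r
      rw [if_neg (by omega)] at ih'
      rw [h2, if_pos (by omega)]
      omega
    · have h1 : bb g (a+m) r = 1 := by
        have d1 : g (a+m) ≠ g r := fun hq => h (hs.inj (a+m) r (by omega) hr hq)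
        have d2 := hs.le (a+m) (by omega)
        unfold bb
        rw [if_pos (by omega)]
      rw [h1]
      have e3 : (if a ≤ r ∧ r < a + (m + 1) then 1 else 0) =
          (if a ≤ r ∧ r < a + m then 1 else 0) := by
        split_ifs <;> omega
      rw [e3]
      omega

theorem SS_inf {n : ℕ} {δ : ℕ → Prop} {g : ℕ → ℕ} (hs : St n δ g) {r t : ℕ} (hr : r ≤ n)
    (hgr : g r = n) (hgt : g t = 0) (a m : ℕ) (ham : a + m ≤ n + 1) :
    SS g a m t + m = SS g a m r + (if a ≤ r ∧ r < a + m then 1 else 0) := by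
  rw [SS_bot hs hgt, SS_top hs hr hgr a m ham, zero_add]

theorem core_inf_same_p {p k r t vr vt vp : ℕ} (hne : p ≠ r) (hne2 : (p + 2 * k + 2) ≠ t)
    (hn : vt + 2*(k+1) = vr + if p ≤ r ∧ r < p + 2*(k+1) then 1 else 0)
    (R : ((r < p ∧ (vr + vp) % 2 = 0) ∨
          (p ≤ r ∧ r ≤ p + 2*k+1 ∧ (vr + vp + (r - p)) % 2 = 0) ∨
          (p + 2*k+2 ≤ r ∧ (vr + vp + 1) % 2 = 0)))
    (T : ((t < p ∧ (vt + vp) % 2 = 0) ∨
          (p ≤ t ∧ t ≤ p + 2*k+1 ∧ (vt + vp + (t - p)) % 2 = 0) ∨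
          (p + 2*k+2 ≤ t ∧ (vt + vp + 1) % 2 = 0))) :
    (r % 2 = p % 2 ∧ p < r) ∨ (r % 2 ≠ p % 2 ∧ (p + 2 * k + 2) < r) ↔
      (t % 2 = p % 2 ∧ (p + 2 * k + 2) < t) ∨ (t % 2 ≠ p % 2 ∧ p < t) := by
  rcases R with ⟨r1, r2⟩ | ⟨r1, r1', r2⟩ | ⟨r1, r2⟩ <;>
    first
      | rw [if_neg (by omega)] at hn
      | rw [if_pos (by omega)] at hn
  all_goals
    rcases T with ⟨t1, t2⟩ | ⟨t1, t1', t2⟩ | ⟨t1, t2⟩ <;> constructor <;>
      rintro (⟨x, y⟩ | ⟨x, y⟩) <;> omega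

theorem core_inf_same_q {q k r t vr vt vp : ℕ} (hne : (q + 2 * k + 2) ≠ r) (hne2 : q ≠ t)
    (hn : vt + 2*(k+1) = vr + if q ≤ r ∧ r < q + 2*(k+1) then 1 else 0)
    (R : ((r < q ∧ (vr + vp + 1) % 2 = 0) ∨
          (q ≤ r ∧ r ≤ q + 2*k+1 ∧ (vr + vp + (r - q)) % 2 = 0) ∨
          (q + 2*k+2 ≤ r ∧ (vr + vp) % 2 = 0)))
    (T : ((t < q ∧ (vt + vp + 1) % 2 = 0) ∨
          (q ≤ t ∧ t ≤ q + 2*k+1 ∧ (vt + vp + (t - q)) % 2 = 0) ∨
          (q + 2*k+2 ≤ t ∧ (vt + vp) % 2 = 0))) :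
    (r % 2 = (q + 2 * k + 2) % 2 ∧ (q + 2 * k + 2) < r) ∨ (r % 2 ≠ (q + 2 * k + 2) % 2 ∧ q < r) ↔
      (t % 2 = (q + 2 * k + 2) % 2 ∧ q < t) ∨ (t % 2 ≠ (q + 2 * k + 2) % 2 ∧ (q + 2 * k + 2) < t) := by
  rcases R with ⟨r1, r2⟩ | ⟨r1, r1', r2⟩ | ⟨r1, r2⟩ <;>
    first
      | rw [if_neg (by omega)] at hn
      | rw [if_pos (by omega)] at hn
  all_goals
    rcases T with ⟨t1, t2⟩ | ⟨t1, t1', t2⟩ | ⟨t1, t2⟩ <;> constructor <;>
      rintro (⟨x, y⟩ | ⟨x, y⟩) <;> omega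

theorem core_inf_diff_p {p k r t vr vt vp : ℕ}
    (hn : vt + 2*k = vr + if p+1 ≤ r ∧ r < p+1 + 2*k then 1 else 0)
    (R : (((r ≤ p ∨ p+2*k+1 ≤ r) ∧ vr % 2 = vp % 2) ∨
          (p+1 ≤ r ∧ r < p+2*k+1 ∧ (vr + vp + 1 + (r - p - 1)) % 2 = 0)))
    (T : (((t ≤ p ∨ p+2*k+1 ≤ t) ∧ vt % 2 = vp % 2) ∨
          (p+1 ≤ t ∧ t < p+2*k+1 ∧ (vt + vp + 1 + (t - p - 1)) % 2 = 0))) :
    (r % 2 = p % 2 ∧ ((p < r ∧ r < (p + 2 * k + 1)) ∨ ((p + 2 * k + 1) < r ∧ r < p))) ↔
      (t % 2 ≠ p % 2 ∧ ((p < t ∧ t < (p + 2 * k + 1)) ∨ ((p + 2 * k + 1) < t ∧ t < p))) := by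
  rcases R with ⟨r1, r2⟩ | ⟨r1, r1', r2⟩ <;>
    first
      | rw [if_neg (by omega)] at hn
      | rw [if_pos (by omega)] at hn
  all_goals
    rcases T with ⟨t1, t2⟩ | ⟨t1, t1', t2⟩ <;> constructor <;>
      intro hx <;> omega

theorem core_inf_diff_q {q k r t vr vt vp : ℕ}
    (hn : vt + 2*k = vr + if q+1 ≤ r ∧ r < q+1 + 2*k then 1 else 0)
    (R : (((r ≤ q ∨ q+2*k+1 ≤ r) ∧ vr % 2 = vp % 2) ∨
          (q+1 ≤ r ∧ r < q+2*k+1 ∧ (vr + vp + 0 + (r - q - 1)) % 2 = 0)))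
    (T : (((t ≤ q ∨ q+2*k+1 ≤ t) ∧ vt % 2 = vp % 2) ∨
          (q+1 ≤ t ∧ t < q+2*k+1 ∧ (vt + vp + 0 + (t - q - 1)) % 2 = 0))) :
    (r % 2 = (q + 2 * k + 1) % 2 ∧ (((q + 2 * k + 1) < r ∧ r < q) ∨ (q < r ∧ r < (q + 2 * k + 1)))) ↔
      (t % 2 ≠ (q + 2 * k + 1) % 2 ∧ (((q + 2 * k + 1) < t ∧ t < q) ∨ (q < t ∧ t < (q + 2 * k + 1)))) := by
  rcases R with ⟨r1, r2⟩ | ⟨r1, r1', r2⟩ <;>
    first
      | rw [if_neg (by omega)] at hn
      | rw [if_pos (by omega)] at hn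
  all_goals
    rcases T with ⟨t1, t2⟩ | ⟨t1, t1', t2⟩ <;> constructor <;>
      intro hx <;> omega

/-- Chords do not separate the two outermost sides. -/
theorem chord_inf {n : ℕ} {δ : ℕ → Prop} {g : ℕ → ℕ} (hs : St n δ g) {p q r t : ℕ} (hp : p ≤ n)
    (hq : q ≤ n) (hr : r ≤ n) (ht : t ≤ n) (hpq : g q = g p + 1) (hgr : g r = n) (hgt : g t = 0) :
    Btw (Up n p) (Lo n q) (Up n r) ↔ Btw (Up n p) (Lo n q) (Lo n t) := by
  have hqn := hs.le q hq
  have hne : p ≠ r := fun h => by rw [h] at hpq; omega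
  have hne2 : q ≠ t := fun h => by rw [h] at hpq; omega
  have hpqne : p ≠ q := fun h => by rw [h] at hpq; omega
  have hrtne : r ≠ t := fun h => by rw [h] at hgr; omega
  rcases Nat.lt_or_ge p q with hlt | hge
  · -- lo = p, hi = q
    rcases Nat.mod_two_eq_zero_or_one (q - p) with hpar | hpar
    · obtain ⟨k, hk⟩ : ∃ k, q = p + 2 * k + 2 := ⟨(q - p)/2 - 1, by omega⟩
      subst hk
      obtain ⟨o1, o2, o3⟩ := odd_case hs (lo := p) (k := k) hq (Or.inl hpq)
      have hn := SS_inf hs hr hgr hgt p (2*(k+1)) (by omega)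
      have b1 : bb g (p+2*k+2) p = 0 := by unfold bb; rw [if_neg (by omega)]
      have b2 : bb g p (p+2*k+2) = 1 := by unfold bb; rw [if_pos (by omega)]
      have R : (r < p ∧ (SS g p (2*(k+1)) r + SS g p (2*(k+1)) p) % 2 = 0) ∨
          (p ≤ r ∧ r ≤ p + 2*k+1 ∧ (SS g p (2*(k+1)) r + SS g p (2*(k+1)) p + (r - p)) % 2 = 0) ∨
          (p + 2*k+2 ≤ r ∧ (SS g p (2*(k+1)) r + SS g p (2*(k+1)) p + 1) % 2 = 0) := by
        rcases Nat.lt_or_ge r p with h | h
        · left; have := o1 r h; rw [b1] at this; exact ⟨h, this⟩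
        · rcases Nat.lt_or_ge r (p+2*k+2) with h' | h'
          · right; left
            have := o2 (r - p) (by omega)
            have e : p + (r - p) = r := by omega
            rw [e] at this
            exact ⟨h, by omega, this⟩
          · right; right
            have := o3 r h' hr
            rw [b2] at this
            exact ⟨h', this⟩
      have T : (t < p ∧ (SS g p (2*(k+1)) t + SS g p (2*(k+1)) p) % 2 = 0) ∨
          (p ≤ t ∧ t ≤ p + 2*k+1 ∧ (SS g p (2*(k+1)) t + SS g p (2*(k+1)) p + (t - p)) % 2 = 0) ∨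
          (p + 2*k+2 ≤ t ∧ (SS g p (2*(k+1)) t + SS g p (2*(k+1)) p + 1) % 2 = 0) := by
        rcases Nat.lt_or_ge t p with h | h
        · left; have := o1 t h; rw [b1] at this; exact ⟨h, this⟩
        · rcases Nat.lt_or_ge t (p+2*k+2) with h' | h'
          · right; left
            have := o2 (t - p) (by omega)
            have e : p + (t - p) = t := by omega
            rw [e] at this
            exact ⟨h, by omega, this⟩
          · right; right
            have := o3 t h' ht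
            rw [b2] at this
            exact ⟨h', this⟩
      rw [btw_up_same hp hq hr (by omega), btw_lo_same hp hq ht (by omega)]
      exact core_inf_same_p hne hne2 hn R T
    · obtain ⟨k, hk⟩ : ∃ k, q = p + 2 * k + 1 := ⟨(q - p)/2, by omega⟩
      subst hk
      obtain ⟨e1, e2⟩ := even_case hs (lo := p) (k := k) hq (Or.inl hpq)
      have hn := SS_inf hs hr hgr hgt (p+1) (2*k) (by omega)
      have b2 : bb g p (p+2*k+1) = 1 := by unfold bb; rw [if_pos (by omega)]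
      have R : ((r ≤ p ∨ p+2*k+1 ≤ r) ∧ SS g (p+1) (2*k) r % 2 = SS g (p+1) (2*k) p % 2) ∨
          (p+1 ≤ r ∧ r < p+2*k+1 ∧
            (SS g (p+1) (2*k) r + SS g (p+1) (2*k) p + 1 + (r - p - 1)) % 2 = 0) := by
        by_cases h : r ≤ p ∨ p+2*k+1 ≤ r
        · left; exact ⟨h, e1 r hr h⟩
        · right
          have := e2 (r - p - 1) (by omega)
          have e : p + 1 + (r - p - 1) = r := by omega
          rw [e, b2] at this
          exact ⟨by omega, by omega, this⟩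
      have T : ((t ≤ p ∨ p+2*k+1 ≤ t) ∧ SS g (p+1) (2*k) t % 2 = SS g (p+1) (2*k) p % 2) ∨
          (p+1 ≤ t ∧ t < p+2*k+1 ∧
            (SS g (p+1) (2*k) t + SS g (p+1) (2*k) p + 1 + (t - p - 1)) % 2 = 0) := by
        by_cases h : t ≤ p ∨ p+2*k+1 ≤ t
        · left; exact ⟨h, e1 t ht h⟩
        · right
          have := e2 (t - p - 1) (by omega)
          have e : p + 1 + (t - p - 1) = t := by omega
          rw [e, b2] at this
          exact ⟨by omega, by omega, this⟩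
      rw [btw_up_diff hp hq hr (by omega), btw_lo_diff hp hq ht (by omega)]
      exact core_inf_diff_p hn R T
  · -- lo = q, hi = p
    rcases Nat.mod_two_eq_zero_or_one (p - q) with hpar | hpar
    · obtain ⟨k, hk⟩ : ∃ k, p = q + 2 * k + 2 := ⟨(p - q)/2 - 1, by omega⟩
      subst hk
      obtain ⟨o1, o2, o3⟩ := odd_case hs (lo := q) (k := k) hp (Or.inr hpq)
      have hn := SS_inf hs hr hgr hgt q (2*(k+1)) (by omega)
      have b1 : bb g (q+2*k+2) q = 1 := by unfold bb; rw [if_pos (by omega)]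
      have b2 : bb g q (q+2*k+2) = 0 := by unfold bb; rw [if_neg (by omega)]
      have R : (r < q ∧ (SS g q (2*(k+1)) r + SS g q (2*(k+1)) q + 1) % 2 = 0) ∨
          (q ≤ r ∧ r ≤ q + 2*k+1 ∧ (SS g q (2*(k+1)) r + SS g q (2*(k+1)) q + (r - q)) % 2 = 0) ∨
          (q + 2*k+2 ≤ r ∧ (SS g q (2*(k+1)) r + SS g q (2*(k+1)) q) % 2 = 0) := by
        rcases Nat.lt_or_ge r q with h | h
        · left; have := o1 r h; rw [b1] at this; exact ⟨h, this⟩
        · rcases Nat.lt_or_ge r (q+2*k+2) with h' | h'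
          · right; left
            have := o2 (r - q) (by omega)
            have e : q + (r - q) = r := by omega
            rw [e] at this
            exact ⟨h, by omega, this⟩
          · right; right
            have := o3 r h' hr
            rw [b2] at this
            exact ⟨h', this⟩
      have T : (t < q ∧ (SS g q (2*(k+1)) t + SS g q (2*(k+1)) q + 1) % 2 = 0) ∨
          (q ≤ t ∧ t ≤ q + 2*k+1 ∧ (SS g q (2*(k+1)) t + SS g q (2*(k+1)) q + (t - q)) % 2 = 0) ∨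
          (q + 2*k+2 ≤ t ∧ (SS g q (2*(k+1)) t + SS g q (2*(k+1)) q) % 2 = 0) := by
        rcases Nat.lt_or_ge t q with h | h
        · left; have := o1 t h; rw [b1] at this; exact ⟨h, this⟩
        · rcases Nat.lt_or_ge t (q+2*k+2) with h' | h'
          · right; left
            have := o2 (t - q) (by omega)
            have e : q + (t - q) = t := by omega
            rw [e] at this
            exact ⟨h, by omega, this⟩
          · right; right
            have := o3 t h' ht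
            rw [b2] at this
            exact ⟨h', this⟩
      rw [btw_up_same hp hq hr (by omega), btw_lo_same hp hq ht (by omega)]
      exact core_inf_same_q hne hne2 hn R T
    · obtain ⟨k, hk⟩ : ∃ k, p = q + 2 * k + 1 := ⟨(p - q)/2, by omega⟩
      subst hk
      obtain ⟨e1, e2⟩ := even_case hs (lo := q) (k := k) hp (Or.inr hpq)
      have hn := SS_inf hs hr hgr hgt (q+1) (2*k) (by omega)
      have b2 : bb g q (q+2*k+1) = 0 := by unfold bb; rw [if_neg (by omega)]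
      have R : ((r ≤ q ∨ q+2*k+1 ≤ r) ∧ SS g (q+1) (2*k) r % 2 = SS g (q+1) (2*k) q % 2) ∨
          (q+1 ≤ r ∧ r < q+2*k+1 ∧
            (SS g (q+1) (2*k) r + SS g (q+1) (2*k) q + 0 + (r - q - 1)) % 2 = 0) := by
        by_cases h : r ≤ q ∨ q+2*k+1 ≤ r
        · left; exact ⟨h, e1 r hr h⟩
        · right
          have := e2 (r - q - 1) (by omega)
          have e : q + 1 + (r - q - 1) = r := by omega
          rw [e, b2] at this
          exact ⟨by omega, by omega, this⟩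
      have T : ((t ≤ q ∨ q+2*k+1 ≤ t) ∧ SS g (q+1) (2*k) t % 2 = SS g (q+1) (2*k) q % 2) ∨
          (q+1 ≤ t ∧ t < q+2*k+1 ∧
            (SS g (q+1) (2*k) t + SS g (q+1) (2*k) q + 0 + (t - q - 1)) % 2 = 0) := by
        by_cases h : t ≤ q ∨ q+2*k+1 ≤ t
        · left; exact ⟨h, e1 t ht h⟩
        · right
          have := e2 (t - q - 1) (by omega)
          have e : q + 1 + (t - q - 1) = t := by omega
          rw [e, b2] at this
          exact ⟨by omega, by omega, this⟩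
      rw [btw_up_diff hp hq hr (by omega), btw_lo_diff hp hq ht (by omega)]
      exact core_inf_diff_q hn R T

end Pool.Agent.MV68
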