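import Pool.Agent.MV68.FaceSt
import Pool.Agent.MV68.ChordInf

namespace Pool.Agent.MV68

open Pool.Agent.Results.MP_15ecc6_co.DoubleCatalan

open Classical in
theorem sgz_A {n : ℕ} {δ : ℕ → Prop} {r : ℕ} (hr : r < n) :
    sgz n δ r = if Vy δ r then 1 else -1 := by
  unfold sgz
  rw [Nat.mod_eq_of_lt (show r < 2*n+2 by omega), if_pos hr]

open Classical in
theorem sgz_B {n : ℕ} {δ : ℕ → Prop} {r : ℕ} (h1 : n < r) (h2 : r < 2*n+1) :
    sgz n δ r = if Vy δ (2*n-r) then -1 else 1 := by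
  unfold sgz
  rw [Nat.mod_eq_of_lt (show r < 2*n+2 by omega), if_neg (by omega), if_pos ⟨h1, h2⟩]

theorem sgz_n {n : ℕ} {δ : ℕ → Prop} : sgz n δ n = -1 := by
  unfold sgz
  rw [Nat.mod_eq_of_lt (show n < 2*n+2 by omega), if_neg (by omega), if_neg (by omega)]

theorem sgz_last {n : ℕ} {δ : ℕ → Prop} : sgz n δ (2*n+1) = -1 := by
  unfold sgz
  rw [Nat.mod_eq_of_lt (show 2*n+1 < 2*n+2 by omega), if_neg (by omega), if_neg (by omega)]

theorem thz_A (n : ℕ) (δ : ℕ → Prop) (r : ℕ) (hr : r ≤ n) : thz n δ r = hh δ r := by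
  classical
  induction r with
  | zero => rfl
  | succ r ih =>
    show thz n δ r + sgz n δ r = hh δ r + (if Vy δ r then 1 else -1)
    rw [ih (by omega), sgz_A (by omega)]

theorem thz_B (n : ℕ) (δ : ℕ → Prop) (x : ℕ) (hx : x ≤ n) :
    thz n δ (2*n+1-x) = hh δ x - 1 := by
  classical
  obtain ⟨d, hd⟩ : ∃ d, x + d = n := ⟨n - x, by omega⟩
  induction d generalizing x with
  | zero =>
    have hxn : x = n := by omega
    subst hxn
    have e : 2*x+1-x = x + 1 := by omega
    rw [e]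
    show thz x δ x + sgz x δ x = _
    rw [thz_A x δ x le_rfl, sgz_n]
    ring
  | succ d ih =>
    have ih' := ih (x+1) (by omega) (by omega)
    have e : 2*n+1-x = (2*n+1-(x+1)) + 1 := by omega
    rw [e]
    show thz n δ (2*n+1-(x+1)) + sgz n δ (2*n+1-(x+1)) = _
    rw [ih', sgz_B (by omega) (by omega)]
    have e2 : 2*n - (2*n+1-(x+1)) = x := by omega
    rw [e2]
    show hh δ x + (if Vy δ x then 1 else -1) - 1 + _ = _
    split_ifs <;> ring

theorem thz_add (n : ℕ) (δ : ℕ → Prop) (z : ℕ) : thz n δ (z + (2*n+2)) = thz n δ z - 2 := by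
  classical
  induction z with
  | zero =>
    have h := thz_B n δ 0 (by omega)
    have e : 0 + (2*n+2) = (2*n+1-0) + 1 := by omega
    rw [e]
    show thz n δ (2*n+1-0) + sgz n δ (2*n+1-0) = thz n δ 0 - 2
    rw [h]
    have e2 : 2*n+1-0 = 2*n+1 := by omega
    rw [e2, sgz_last]
    show (0:ℤ) - 1 + -1 = 0 - 2
    ring
  | succ z ih =>
    have e : z + 1 + (2*n+2) = (z + (2*n+2)) + 1 := by omega
    rw [e]
    show thz n δ (z + (2*n+2)) + sgz n δ (z + (2*n+2)) = thz n δ z + sgz n δ z - 2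
    have h2 : sgz n δ (z + (2*n+2)) = sgz n δ z := by
      unfold sgz
      rw [Nat.add_mod_right]
    rw [ih, h2]
    ring

/-- The outermost sides are not separated by a chord, in terms of positions. -/
theorem inf_pos {n : ℕ} {δ : ℕ → Prop} {g : ℕ → ℕ} (hs : St n δ g) {top bot : ℕ}
    (htop : top ≤ n) (hbot : bot ≤ n) (hgt : g top = n) (hgb : g bot = 0) {a b : ℕ}
    (ha : a ≤ 2*n+1) (hb : b ≤ 2*n+1) (hab : a % 2 ≠ b % 2) (gab : gp n g a = gp n g b) :
    Btw a b (Up n top) ↔ Btw a b (Lo n bot) := by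
  have core : ∀ a b : ℕ, a ≤ 2*n+1 → b ≤ 2*n+1 → a % 2 = 0 → b % 2 = 1 → gp n g a = gp n g b →
      (Btw a b (Up n top) ↔ Btw a b (Lo n bot)) := by
    intro a b ha hb pa pb gab
    have e1 := eq_Up ha pa
    have e2 := eq_Lo hb pb
    rw [gp_even pa, gp_odd pb] at gab
    have := chord_inf hs (p := seg n a) (q := seg n b) (seg_le ha) (seg_le hb) htop hbot
      (by omega) hgt hgb
    rw [e1, e2] at this
    exact this
  have bs : ∀ a b c : ℕ, Btw a b c ↔ Btw b a c := by
    intro a b c; unfold Btw; omega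
  rcases Nat.mod_two_eq_zero_or_one a with pa | pa
  · exact core a b ha hb pa (by omega) gab
  · rw [bs a b, bs a b]
    exact core b a hb ha (by omega) pa gab.symm

theorem win_sep {N x a b z a' b' z' : ℕ} (hxa : x < a) (haz : a < z) (hzb : z < b)
    (hbx : b < x + N) (la : a' < N) (lb : b' < N) (lz : z' < N) (wa : a' = a ∨ a' + N = a)
    (wb : b' = b ∨ b' + N = b) (wz : z' = z ∨ z' + N = z) :
    ¬ (Btw a' b' x ↔ Btw a' b' z') := by
  unfold Btw
  rcases wa with rfl | rfl <;> rcases wb with rfl | rfl <;> rcases wz with rfl | rfl <;> omega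

theorem win_in {N x a b z a' b' z' w W : ℕ} (hxa : x < a) (haz : a < z) (hzb : z < b)
    (hbx : b < x + N) (la : a' < N) (lb : b' < N) (lz : z' < N) (lw : w < N)
    (wa : a' = a ∨ a' + N = a)
    (wb : b' = b ∨ b' + N = b) (wz : z' = z ∨ z' + N = z) (hW1 : x < W) (hW2 : W < x + N)
    (hW : w = W ∨ w + N = W) (hwa : w ≠ a') (hwb : w ≠ b')
    (h : Btw a' b' z' ↔ Btw a' b' w) : a < W ∧ W < b := by
  unfold Btw at h
  rcases wa with rfl | rfl <;> rcases wb with rfl | rfl <;> rcases wz with rfl | rfl <;>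
    rcases hW with rfl | rfl <;> omega

theorem fwd_lift {n : ℕ} {δ : ℕ → Prop} {g : ℕ → ℕ} (hs : St n δ g) {top bot : ℕ}
    (htop : top ≤ n) (hbot : bot ≤ n) (hgt : g top = n) (hgb : g bot = 0) {a b : ℕ}
    (hxa : Up n top < a) (hab : a < b) (hbx : b < Up n top + (2*n+2)) (hp : a % 2 ≠ b % 2)
    (hG : GG n g a = GG n g b) : thz n δ b = thz n δ a + 1 := by
  have hc := Cir.of_St hs
  refine face_label (face_of_St hs) (nox_of_Cir hc) (fun z => rfl) hab (by omega) hp hG ?_
  have hx1 := Up_bd (n := n) htop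
  have hx2 := Up_mod (n := n) htop
  have hy1 := Lo_bd (n := n) hbot
  have hxm : Up n top / (2*n+2) = 0 := Nat.div_eq_of_lt (by omega)
  -- reduction of positions in the window
  have hwin : ∀ z, Up n top < z → z < Up n top + (2*n+2) →
      z % (2*n+2) ≤ 2*n+1 ∧ z % (2*n+2) % 2 = z % 2 ∧
        (z % (2*n+2) = z ∨ z % (2*n+2) + (2*n+2) = z) := by
    intro z h1 h2
    have w := mod_window (N := 2*n+2) (a := Up n top) (x := z) (by omega) (by omega) h2
    rw [hxm, Nat.mul_zero, Nat.add_zero] at w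
    have l : z % (2*n+2) < 2*n+2 := Nat.mod_lt _ (by omega)
    exact ⟨by omega, mod_par n z, w⟩
  obtain ⟨la, pa, wa⟩ := hwin a hxa (by omega)
  obtain ⟨lb, pb, wb⟩ := hwin b (by omega) hbx
  intro z hz1 hz2
  by_cases hza : z = a
  · subst hza
    exact ⟨b, by omega, by omega, Ne.symm hp, hG.symm⟩
  by_cases hzb : z = b
  · subst hzb
    exact ⟨a, by omega, by omega, hp, hG⟩
  have haz : a < z := by omega
  have hzb' : z < b := by omega
  obtain ⟨lz, pz, wz⟩ := hwin z (by omega) (by omega)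
  clear hwin hxm
  have hpab : a % (2*n+2) % 2 ≠ b % (2*n+2) % 2 := by rw [pa, pb]; exact hp
  have la' : a % (2*n+2) < 2*n+2 := Nat.lt_of_le_of_lt la (Nat.lt_succ_self _)
  have lb' : b % (2*n+2) < 2*n+2 := Nat.lt_of_le_of_lt lb (Nat.lt_succ_self _)
  have lz' : z % (2*n+2) < 2*n+2 := Nat.lt_of_le_of_lt lz (Nat.lt_succ_self _)
  have hzx : z % (2*n+2) ≠ Up n top := by
    rcases wz with h | h <;> omega
  have hzy : z % (2*n+2) ≠ Lo n bot := by
    intro h
    have hinf := inf_pos hs htop hbot hgt hgb la lb hpab hG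
    rw [← h] at hinf
    exact win_sep hxa haz hzb' hbx la' lb' lz' wa wb wz hinf
  have hza' : z % (2*n+2) ≠ a % (2*n+2) := by
    rcases wz with h | h <;> rcases wa with h' | h' <;> omega
  have hzb'' : z % (2*n+2) ≠ b % (2*n+2) := by
    rcases wz with h | h <;> rcases wb with h' | h' <;> omega
  have hgz : 0 ≤ gp n g (z % (2*n+2)) ∧ gp n g (z % (2*n+2)) < n := by
    have h1 := hs.le _ (seg_le lz)
    rcases Nat.mod_two_eq_zero_or_one (z % (2*n+2)) with h0 | h0
    · rw [gp_even h0]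
      refine ⟨Int.natCast_nonneg _, ?_⟩
      by_contra hcon
      have h2 : g (seg n (z % (2*n+2))) = g top := by
        rw [hgt]
        have : (n : ℤ) ≤ (g (seg n (z % (2*n+2))) : ℤ) := not_lt.1 hcon
        exact le_antisymm h1 (by exact_mod_cast this)
      have h3 := hs.inj _ _ (seg_le lz) htop h2
      apply hzx
      rw [← h3, eq_Up lz h0]
    · rw [gp_odd h0]
      have h4 : g (seg n (z % (2*n+2))) ≠ 0 := by
        intro h4
        have h3 := hs.inj _ _ (seg_le lz) hbot (h4.trans hgb.symm)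
        apply hzy
        rw [← h3, eq_Lo lz h0]
      clear wz wa wb hG
      constructor <;> omega
  obtain ⟨w, hw1, hw2, hw3⟩ := gp_partner hc lz hgz.1 hgz.2
  have hwx : w ≠ Up n top := by
    intro h
    rw [h, gp_Up htop, hgt] at hw3
    have := hgz.2
    rw [← hw3] at this
    exact lt_irrefl _ this
  have hnx := gp_nx hc la lb lz hw1 hpab (Ne.symm hw2) hG hw3.symm hza' hzb''
  have lw' : w < 2*n+2 := Nat.lt_of_le_of_lt hw1 (Nat.lt_succ_self _)
  have hwa : w ≠ a % (2*n+2) := by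
    intro h
    subst h
    have h2 : gp n g (b % (2*n+2)) = gp n g (z % (2*n+2)) := by
      rw [← hw3]; exact hG.symm
    have h3 := gp_inj hc lb lz (by clear hnx wa wb wz; omega) h2
    exact hzb'' h3.symm
  have hwb : w ≠ b % (2*n+2) := by
    intro h
    subst h
    have h2 : gp n g (a % (2*n+2)) = gp n g (z % (2*n+2)) := by
      rw [← hw3]; exact hG
    have h3 := gp_inj hc la lz (by clear hnx wa wb wz; omega) h2
    exact hza' h3.symm
  have hwz2 : w % 2 ≠ z % 2 := by rw [← pz]; exact hw2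
  by_cases hwlt : Up n top < w
  · have hin := win_in hxa haz hzb' hbx la' lb' lz' lw' wa wb wz (W := w) hwlt
      (by clear hnx wa wb wz; omega) (Or.inl rfl) hwa hwb hnx
    refine ⟨w, hin.1.le, Nat.lt_succ_of_lt hin.2, hwz2, ?_⟩
    show gp n g (w % (2*n+2)) = gp n g (z % (2*n+2))
    rw [Nat.mod_eq_of_lt lw', hw3]
  · have hin := win_in hxa haz hzb' hbx la' lb' lz' lw' wa wb wz (W := w + (2*n+2))
      (by clear hnx wa wb wz; omega) (by clear hnx wa wb wz; omega) (Or.inr rfl) hwa hwb hnx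
    refine ⟨w + (2*n+2), hin.1.le, Nat.lt_succ_of_lt hin.2, ?_, ?_⟩
    · clear hnx wa wb wz hin
      omega
    · show gp n g ((w + (2*n+2)) % (2*n+2)) = gp n g (z % (2*n+2))
      rw [Nat.add_mod_right, Nat.mod_eq_of_lt lw', hw3]

theorem inf_lift {n : ℕ} {δ : ℕ → Prop} {g : ℕ → ℕ} (hs : St n δ g) {top bot : ℕ}
    (htop : top ≤ n) (hbot : bot ≤ n) (hgt : g top = n) (hgb : g bot = 0) {a b y : ℕ}
    (hxa : Up n top < a) (hab : a < b) (hbx : b < Up n top + (2*n+2)) (hp : a % 2 ≠ b % 2)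
    (hG : GG n g a = GG n g b) (hay : a < y) (hyb : y < b) (hy : GG n g y = -1) : False := by
  have hx1 := Up_bd (n := n) htop
  have hxm : Up n top / (2*n+2) = 0 := Nat.div_eq_of_lt (by omega)
  have hwin : ∀ z, Up n top < z → z < Up n top + (2*n+2) →
      z % (2*n+2) ≤ 2*n+1 ∧ z % (2*n+2) % 2 = z % 2 ∧
        (z % (2*n+2) = z ∨ z % (2*n+2) + (2*n+2) = z) := by
    intro z h1 h2
    have w := mod_window (N := 2*n+2) (a := Up n top) (x := z) (by omega) (by omega) h2
    rw [hxm, Nat.mul_zero, Nat.add_zero] at w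
    have l : z % (2*n+2) < 2*n+2 := Nat.mod_lt _ (by omega)
    exact ⟨by omega, mod_par n z, w⟩
  obtain ⟨la, pa, wa⟩ := hwin a hxa (by omega)
  obtain ⟨lb, pb, wb⟩ := hwin b (by omega) hbx
  obtain ⟨lz, pz, wz⟩ := hwin y (by omega) (by omega)
  have hpab : a % (2*n+2) % 2 ≠ b % (2*n+2) % 2 := by rw [pa, pb]; exact hp
  have la' : a % (2*n+2) < 2*n+2 := Nat.lt_of_le_of_lt la (Nat.lt_succ_self _)
  have lb' : b % (2*n+2) < 2*n+2 := Nat.lt_of_le_of_lt lb (Nat.lt_succ_self _)
  have lz' : y % (2*n+2) < 2*n+2 := Nat.lt_of_le_of_lt lz (Nat.lt_succ_self _)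
  have hgy : gp n g (y % (2*n+2)) = -1 := hy
  have hyy : y % (2*n+2) = Lo n bot := by
    rcases Nat.mod_two_eq_zero_or_one (y % (2*n+2)) with h0 | h0
    · exfalso
      rw [gp_even h0] at hgy
      have := Int.natCast_nonneg (g (seg n (y % (2*n+2))))
      rw [hgy] at this
      exact absurd this (by decide)
    · rw [gp_odd h0] at hgy
      have h2 : g (seg n (y % (2*n+2))) = g bot := by
        rw [hgb]
        have : (g (seg n (y % (2*n+2))) : ℤ) = 0 := by linarith
        exact_mod_cast this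
      have h3 := hs.inj _ _ (seg_le lz) hbot h2
      rw [← h3, eq_Lo lz h0]
  have hinf := inf_pos hs htop hbot hgt hgb la lb hpab hG
  rw [← hyy] at hinf
  exact win_sep hxa hay hyb hbx la' lb' lz' wa wb wz hinf

theorem labU_eq {n : ℕ} {δ : ℕ → Prop} {p : ℕ} (hp : p ≤ n) :
    labU δ p = thz n δ (Up n p) := by
  unfold labU Up
  split_ifs
  · rw [thz_A n δ p hp]
  · rw [thz_B n δ p hp]

theorem labL_eq {n : ℕ} {δ : ℕ → Prop} {q : ℕ} (hq : q ≤ n) :
    labL δ q = thz n δ (Lo n q) := by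
  unfold labL Lo
  split_ifs
  · rw [thz_B n δ q hq]
  · rw [thz_A n δ q hq]

theorem GG_of_lt {n : ℕ} {g : ℕ → ℕ} {z : ℕ} (hz : z ≤ 2*n+1) : GG n g z = gp n g z := by
  unfold GG
  rw [Nat.mod_eq_of_lt (by omega)]

theorem GG_add {n : ℕ} {g : ℕ → ℕ} (z : ℕ) : GG n g (z + (2*n+2)) = GG n g z := by
  unfold GG
  rw [Nat.add_mod_right]

theorem fwd_Rl {n : ℕ} {δ : ℕ → Prop} {g : ℕ → ℕ} (hs : St n δ g) {top bot : ℕ}
    (htop : top ≤ n) (hbot : bot ≤ n) (hgt : g top = n) (hgb : g bot = 0) {p q : ℕ}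
    (hp : p ≤ n) (hq : q ≤ n) (hpq : g q = g p + 1) :
    Rl (Up n top) (Up n p) (Lo n q) (labU δ p) (labL δ q) := by
  rw [labU_eq hp, labL_eq hq]
  have hu1 := Up_bd (n := n) hp
  have hl1 := Lo_bd (n := n) hq
  have hx1 := Up_bd (n := n) htop
  have hu2 := Up_mod (n := n) hp
  have hl2 := Lo_mod (n := n) hq
  have hx2 := Up_mod (n := n) htop
  have hGe : GG n g (Up n p) = GG n g (Lo n q) := by
    rw [GG_of_lt hu1, GG_of_lt hl1, gp_Up hp, gp_Lo hq, hpq]
    push_cast
    ring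
  have hux : Up n p ≠ Up n top := by
    intro h
    have h1 := congrArg (gp n g) h
    rw [gp_Up hp, gp_Up htop, hgt] at h1
    have := hs.le q hq
    omega
  have key := fun {a b : ℕ} => fwd_lift hs htop hbot hgt hgb (a := a) (b := b)
  have au := thz_add n δ (Up n p)
  have al := thz_add n δ (Lo n q)
  have gu := GG_add (n := n) (g := g) (Up n p)
  have gl := GG_add (n := n) (g := g) (Lo n q)
  refine ⟨fun hul => ⟨fun hx => ?_, fun hx => ?_⟩, fun hlu => ⟨fun hx => ?_, fun hx => ?_⟩⟩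
  · have := key (a := Lo n q) (b := Up n p + (2*n+2)) (by omega) (by omega) (by omega)
      (by omega) (by rw [gu, hGe])
    rw [au] at this
    omega
  · by_cases h : Up n top < Up n p
    · exact key (by omega) (by omega) (by omega) (by omega) hGe
    · have := key (a := Up n p + (2*n+2)) (b := Lo n q + (2*n+2)) (by omega) (by omega)
        (by omega) (by omega) (by rw [gu, gl, hGe])
      rw [au, al] at this
      omega
  · have := key (a := Up n p) (b := Lo n q + (2*n+2)) (by omega) (by omega) (by omega)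
      (by omega) (by rw [gl, hGe])
    rw [al] at this
    omega
  · by_cases h : Up n top < Lo n q
    · exact key (by omega) (by omega) (by omega) (by omega) hGe.symm
    · have := key (a := Lo n q + (2*n+2)) (b := Up n p + (2*n+2)) (by omega) (by omega)
        (by omega) (by omega) (by rw [gu, gl, hGe])
      rw [au, al] at this
      omega

end Pool.Agent.MV68
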