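import Pool.Agent.MV68.Insert
import Pool.Agent.MV68.Forward

namespace Pool.Agent.MV68

open Pool.Agent.Results.MP_15ecc6_co.DoubleCatalan

theorem build {L n : ℕ} {δ : ℕ → Prop} {K : ℕ → ℕ → Prop} {top bot : ℕ} (hL : n + 1 ≤ L)
    (hK : KS L (n+1) δ K top bot) {g' : ℕ → ℕ} {c : ℕ} (hs : St n δ g') (hc : c ≤ n + 1)
    (hadj : ∀ p q, p ≤ n + 1 → q ≤ n + 1 → (insf n c g' q = insf n c g' p + 1 ↔ K p q))
    (hgt : insf n c g' top = n + 1) (hgb : insf n c g' bot = 0) : St (n+1) δ (insf n c g') := by
  classical
  set g := insf n c g' with hg
  have hCir : Cir (n+1) g := by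
    refine ⟨fun x hx => insf_le hs hc hx, fun x y hx hy h => insf_inj hs hx hy h,
      fun d hd => insf_surj hs hc hd, ?_⟩
    intro p q r t hp hq hr ht hpq hrt hne
    have h1 := hK.nc p q r t ((hadj p q hp hq).1 hpq) ((hadj r t hr ht).1 hrt) hne
    rw [Up_shp hL hp, Lo_shp hL hq, Up_shp hL hr, Lo_shp hL ht, Btw_shp, Btw_shp] at h1
    exact h1
  have harc : ∀ i j, i < n → j < n → i ≠ j → i % 2 = n % 2 → j % 2 = n % 2 →
      ¬ Interleave (g i) (g (i+1)) (g j) (g (j+1)) := by
    intro i j hi hj hij hin hjn
    rw [hg, insf_il (by omega) (by omega) (by omega) (by omega)]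
    rcases Nat.lt_or_ge i j with h | h
    · exact hs.nc i j h hj (by omega)
    · rw [interleave_comm]
      exact hs.nc j i (by omega) hi (by omega)
  have hnc : ∀ i j, i < j → j < n + 1 → i % 2 = j % 2 →
      ¬ Interleave (g i) (g (i+1)) (g j) (g (j+1)) := by
    intro i j hij hj hp
    by_cases hjn : j = n
    · subst hjn
      exact visible hCir harc hij hp
    · rw [hg, insf_il (by omega) (by omega) (by omega) (by omega)]
      exact hs.nc i j hij (by omega) hp
  -- the directions which `g` has
  let δ' : ℕ → Prop := fun i => if i = n then g n < g (n+1) else δ i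
  have hδn : δ' n ↔ g n < g (n+1) := by
    show (if n = n then g n < g (n+1) else δ n) ↔ _
    rw [if_pos rfl]
  have hδi : ∀ i, i ≠ n → (δ' i ↔ δ i) := by
    intro i hi
    show (if i = n then g n < g (n+1) else δ i) ↔ _
    rw [if_neg hi]
  have hzero : ∀ x, n + 1 < x → g x = 0 := by
    intro x hx
    rw [hg]
    unfold insf
    rw [if_neg (by omega), if_neg (by omega)]
  have hs' : St (n+1) δ' g := by
    refine ⟨hzero, fun x hx => insf_le hs hc hx, fun x y hx hy h => insf_inj hs hx hy h, hnc, ?_⟩
    intro i hi
    by_cases hin : i = n
    · subst hin; exact hδn.symm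
    · rw [hδi i hin, hg, insf_lt (by omega) (by omega)]
      exact hs.dir i (by omega)
  have hh0 : ∀ i, i ≤ n → hh δ' i = hh δ i := by
    intro i hi
    apply hh_congr
    intro j hj
    exact hδi j (by omega)
  have hfin : hh δ' (n+1) = hh δ (n+1) → (δ' n ↔ δ n) := by
    intro h
    have e1 : hh δ' (n+1) = hh δ' n + (if Vy δ' n then 1 else -1) := rfl
    have e2 : hh δ (n+1) = hh δ n + (if Vy δ n then 1 else -1) := rfl
    rw [e1, e2, hh0 n le_rfl] at h
    have h3 : (Vy δ' n ↔ Vy δ n) := by
      by_cases h1 : Vy δ' n <;> by_cases h2 : Vy δ n
      · exact ⟨fun _ => h2, fun _ => h1⟩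
      · rw [if_pos h1, if_neg h2] at h; omega
      · rw [if_neg h1, if_pos h2] at h; omega
      · exact ⟨fun hh => absurd hh h1, fun hh => absurd hh h2⟩
    unfold Vy at h3
    rcases Nat.mod_two_eq_zero_or_one n with hp | hp
    · constructor
      · intro h4
        rcases h3.1 (Or.inl ⟨hp, h4⟩) with ⟨_, h5⟩ | ⟨h5, _⟩
        · exact h5
        · omega
      · intro h4
        rcases h3.2 (Or.inl ⟨hp, h4⟩) with ⟨_, h5⟩ | ⟨h5, _⟩
        · exact h5
        · omega
    · constructor
      · intro h4
        by_contra h6
        rcases h3.2 (Or.inr ⟨hp, h6⟩) with ⟨h5, _⟩ | ⟨_, h5⟩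
        · omega
        · exact h5 h4
      · intro h4
        by_contra h6
        rcases h3.1 (Or.inr ⟨hp, h6⟩) with ⟨h5, _⟩ | ⟨_, h5⟩
        · omega
        · exact h5 h4
  have htopn := hK.topn
  have hbotn := hK.botn
  have htip : hh δ' (n+1) = hh δ (n+1) := by
    by_cases hb : bot = n + 1
    · have ht : top ≠ n + 1 := by
        intro ht
        rw [ht] at hgt
        rw [hb] at hgb
        omega
      obtain ⟨qu, hqu⟩ := hK.tot (n+1) le_rfl (Ne.symm ht)
      have hqun := (hK.dom _ _ hqu).2
      have hqt : qu ≠ n + 1 := fun h => hK.tip hL (h ▸ hqu)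
      have h1 := hK.lab _ _ hqu
      have h2 := fwd_Rl hs' htopn hbotn hgt hgb le_rfl hqun ((hadj _ _ le_rfl hqun).2 hqu)
      rw [Up_shp hL htopn, Up_shp hL (le_refl (n+1)), Lo_shp hL hqun, Rl_shp] at h1
      have e : labL δ' qu = labL δ qu := by
        unfold labL; rw [hh0 qu (by omega)]
      rw [e] at h2
      have h3 := Rl_a (UpL_ne_Lo le_rfl hqun) h1 h2
      unfold labU at h3
      split_ifs at h3 <;> omega
    · obtain ⟨pd, hpd⟩ := hK.sur (n+1) le_rfl (Ne.symm hb)
      have hpdn := (hK.dom _ _ hpd).1
      have hpt : pd ≠ n + 1 := fun h => hK.tip hL (h ▸ hpd)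
      have h1 := hK.lab _ _ hpd
      have h2 := fwd_Rl hs' htopn hbotn hgt hgb hpdn le_rfl ((hadj _ _ hpdn le_rfl).2 hpd)
      rw [Up_shp hL htopn, Up_shp hL hpdn, Lo_shp hL (le_refl (n+1)), Rl_shp] at h1
      have e : labU δ' pd = labU δ pd := by
        unfold labU; rw [hh0 pd (by omega)]
      rw [e] at h2
      have h3 := Rl_b (UpL_ne_Lo hpdn le_rfl) h1 h2
      unfold labL at h3
      split_ifs at h3 <;> omega
  refine ⟨hzero, fun x hx => insf_le hs hc hx, fun x y hx hy h => insf_inj hs hx hy h, hnc, ?_⟩
  intro i hi
  by_cases hin : i = n
  · subst hin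
    exact hδn.symm.trans (hfin htip)
  · rw [hg, insf_lt (by omega) (by omega)]
    exact hs.dir i (by omega)

theorem KS.exists_St {L : ℕ} {δ : ℕ → Prop} : ∀ (n : ℕ) (K : ℕ → ℕ → Prop) (top bot : ℕ), n ≤ L →
    KS L n δ K top bot → ∃ g, St n δ g ∧ g top = n ∧ g bot = 0 ∧
      ∀ p q, p ≤ n → q ≤ n → (g q = g p + 1 ↔ K p q) := by
  intro n
  induction n with
  | zero =>
    intro K top bot _ hK
    refine ⟨fun _ => 0, ⟨fun _ _ => rfl, fun _ _ => le_rfl, fun x y hx hy _ => by omega,
      fun i j _ hj => by omega, fun i hi => by omega⟩, rfl, rfl, ?_⟩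
    intro p q hp hq
    have htop := hK.topn
    constructor
    · intro h; simp at h
    · intro h
      exfalso
      have : p = top := by omega
      subst this
      exact hK.ntop _ h
  | succ n ih =>
    intro K top bot hL hK
    by_cases hb : bot = n + 1
    · -- the new segment is at the bottom
      have ht : top ≠ n + 1 := by
        intro ht
        rw [ht, hb] at hK
        exact KS.not_both hK hL
      obtain ⟨qu, hqu⟩ := hK.tot (n+1) le_rfl (Ne.symm ht)
      obtain ⟨g', hs, hgt, hgb, hadj⟩ := ih (Kr n K) top qu (by omega) (hK.remove_bot hL ht hb hqu)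
      have hqun := (hK.dom _ _ hqu).2
      have hqt : qu ≠ n + 1 := fun h => hK.tip hL (h ▸ hqu)
      have htopn := hK.topn
      have ho : ∀ x, x ≤ n → insf n 0 g' x = g' x + 1 := by
        intro x hx; rw [insf_old hx, if_neg (by omega)]
      have htt := insf_tip n 0 g'
      have hnadj : ∀ p q, p ≤ n + 1 → q ≤ n + 1 → (insf n 0 g' q = insf n 0 g' p + 1 ↔ K p q) := by
        intro p q hp hq
        by_cases hp' : p = n + 1
        · subst hp'
          by_cases hq' : q = n + 1
          · subst hq'
            exact ⟨fun h => by omega, fun h => absurd h (hK.tip hL)⟩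
          · rw [htt, ho q (by omega)]
            constructor
            · intro h
              have := hs.inj q qu (by omega) (by omega) (by omega)
              rw [this]; exact hqu
            · intro h
              rw [hK.fn _ _ _ h hqu, hgb]
        · by_cases hq' : q = n + 1
          · subst hq'
            rw [htt]
            exact ⟨fun h => by omega, fun h => absurd (hb ▸ h) (hK.nbot p)⟩
          · rw [ho q (by omega), ho p (by omega)]
            have h1 := hadj p q (by omega) (by omega)
            constructor
            · intro h
              rcases h1.1 (by omega) with ⟨h2, _, _⟩ | ⟨h2, _⟩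
              · exact h2
              · exact absurd (hb ▸ h2) (hK.nbot p)
            · intro h
              have := h1.2 (Or.inl ⟨h, by omega, by omega⟩)
              omega
      have hgt' : insf n 0 g' top = n + 1 := by rw [ho top (by omega), hgt]
      have hgb' : insf n 0 g' bot = 0 := by rw [hb]; exact htt
      exact ⟨insf n 0 g', build hL hK hs (by omega) hnadj hgt' hgb', hgt', hgb', hnadj⟩
    · obtain ⟨pd, hpd⟩ := hK.sur (n+1) le_rfl (Ne.symm hb)
      have hpdn := (hK.dom _ _ hpd).1
      have hpt : pd ≠ n + 1 := fun h => hK.tip hL (h ▸ hpd)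
      have hbotn := hK.botn
      have htopn := hK.topn
      by_cases ht : top = n + 1
      · -- the new segment is at the top
        obtain ⟨g', hs, hgt, hgb, hadj⟩ := ih (Kr n K) pd bot (by omega)
          (hK.remove_top hL ht hb hpd)
        have ho : ∀ x, x ≤ n → insf n (n+1) g' x = g' x := by
          intro x hx
          have := hs.le x hx
          rw [insf_old hx, if_pos (by omega)]
        have htt := insf_tip n (n+1) g'
        have hnadj : ∀ p q, p ≤ n + 1 → q ≤ n + 1 →
            (insf n (n+1) g' q = insf n (n+1) g' p + 1 ↔ K p q) := by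
          intro p q hp hq
          by_cases hp' : p = n + 1
          · subst hp'
            by_cases hq' : q = n + 1
            · subst hq'
              exact ⟨fun h => by omega, fun h => absurd h (hK.tip hL)⟩
            · rw [htt, ho q (by omega)]
              have := hs.le q (by omega)
              exact ⟨fun h => by omega, fun h => absurd h (ht ▸ hK.ntop q)⟩
          · by_cases hq' : q = n + 1
            · subst hq'
              rw [htt, ho p (by omega)]
              constructor
              · intro h
                have := hs.inj p pd (by omega) (by omega) (by omega)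
                rw [this]; exact hpd
              · intro h
                rw [hK.inj _ _ _ h hpd, hgt]
            · rw [ho q (by omega), ho p (by omega)]
              have h1 := hadj p q (by omega) (by omega)
              constructor
              · intro h
                rcases h1.1 h with ⟨h2, _, _⟩ | ⟨_, h2⟩
                · exact h2
                · exact absurd h2 (ht ▸ hK.ntop q)
              · intro h
                exact h1.2 (Or.inl ⟨h, by omega, by omega⟩)
        have hgt' : insf n (n+1) g' top = n + 1 := by rw [ht]; exact htt
        have hgb' : insf n (n+1) g' bot = 0 := by rw [ho bot (by omega), hgb]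
        exact ⟨insf n (n+1) g', build hL hK hs le_rfl hnadj hgt' hgb', hgt', hgb', hnadj⟩
      · -- the new segment is in the middle
        obtain ⟨qu, hqu⟩ := hK.tot (n+1) le_rfl (Ne.symm ht)
        have hqun := (hK.dom _ _ hqu).2
        have hqt : qu ≠ n + 1 := fun h => hK.tip hL (h ▸ hqu)
        obtain ⟨g', hs, hgt, hgb, hadj⟩ := ih (Kr n K) top bot (by omega)
          (hK.remove_mid hL ht hb)
        have hpq := (hadj pd qu (by omega) (by omega)).2 (Or.inr ⟨hpd, hqu⟩)
        have hqle := hs.le qu (by omega)
        have htt := insf_tip n (g' pd + 1) g'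
        have ho : ∀ x, x ≤ n → insf n (g' pd + 1) g' x = if g' x < g' pd + 1 then g' x
            else g' x + 1 := fun x hx => insf_old hx
        have hnadj : ∀ p q, p ≤ n + 1 → q ≤ n + 1 →
            (insf n (g' pd + 1) g' q = insf n (g' pd + 1) g' p + 1 ↔ K p q) := by
          intro p q hp hq
          by_cases hp' : p = n + 1
          · subst hp'
            by_cases hq' : q = n + 1
            · subst hq'
              exact ⟨fun h => by omega, fun h => absurd h (hK.tip hL)⟩
            · rw [htt, ho q (by omega)]
              constructor
              · intro h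
                have := hs.inj q qu (by omega) (by omega) (by split_ifs at h <;> omega)
                rw [this]; exact hqu
              · intro h
                rw [hK.fn _ _ _ h hqu]
                split_ifs <;> omega
          · by_cases hq' : q = n + 1
            · subst hq'
              rw [htt, ho p (by omega)]
              constructor
              · intro h
                have := hs.inj p pd (by omega) (by omega) (by split_ifs at h <;> omega)
                rw [this]; exact hpd
              · intro h
                rw [hK.inj _ _ _ h hpd]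
                split_ifs <;> omega
            · rw [ho q (by omega), ho p (by omega)]
              have h1 := hadj p q (by omega) (by omega)
              constructor
              · intro h
                have h3 : g' q = g' p + 1 ∧ g' p ≠ g' pd := by
                  split_ifs at h <;> omega
                rcases h1.1 h3.1 with ⟨h2, _, _⟩ | ⟨h2, _⟩
                · exact h2
                · exact absurd (by rw [hK.inj _ _ _ h2 hpd]) h3.2
              · intro h
                have h2 := h1.2 (Or.inl ⟨h, by omega, by omega⟩)
                have h3 : g' p ≠ g' pd := by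
                  intro h4
                  have h5 := hs.inj p pd (by omega) (by omega) h4
                  subst h5
                  have := hK.fn _ _ _ h hpd
                  omega
                split_ifs <;> omega
        have htle := hs.inj top
        have hgt' : insf n (g' pd + 1) g' top = n + 1 := by
          rw [ho top (by omega), hgt, if_neg (by omega)]
        have hgb' : insf n (g' pd + 1) g' bot = 0 := by
          rw [ho bot (by omega), hgb, if_pos (by omega)]
        exact ⟨insf n (g' pd + 1) g', build hL hK hs (by omega) hnadj hgt' hgb', hgt', hgb', hnadj⟩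

end Pool.Agent.MV68
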