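import Pool.Agent.MV68.SpecDefs
import Pool.Agent.MV68.Build

namespace Pool.Agent.MV68

open Pool.Agent.Results.MP_15ecc6_co.DoubleCatalan

theorem sgz_pm (n : ℕ) (δ : ℕ → Prop) (z : ℕ) : sgz n δ z = 1 ∨ sgz n δ z = -1 := by
  classical
  unfold sgz
  split_ifs <;> simp

theorem thz_par (n : ℕ) (δ : ℕ → Prop) (z : ℕ) : (thz n δ z - z) % 2 = 0 := by
  induction z with
  | zero => rfl
  | succ z ih =>
    have e : thz n δ (z+1) = thz n δ z + sgz n δ z := rfl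
    rw [e]
    rcases sgz_pm n δ z with h | h <;> rw [h] <;> push_cast <;> omega

/-- Lift of a residue to the window after `x`. -/
def lft (n x r : ℕ) : ℕ := if x < r then r else r + (2*n+2)

def res (n z : ℕ) : ℕ := if z < 2*n+2 then z else z - (2*n+2)

theorem mod_res {n z : ℕ} (hz : z < 2 * (2*n+2)) : z % (2*n+2) = res n z := by
  unfold res
  split_ifs with h
  · exact Nat.mod_eq_of_lt h
  · rw [Nat.mod_eq_sub_mod (by omega), Nat.mod_eq_of_lt (by omega)]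

theorem lft_res {n x z : ℕ} (hx : x < 2*n+2) (h1 : x < z) (h2 : z < x + (2*n+2)) :
    lft n x (res n z) = z := by
  unfold lft res; split_ifs <;> omega

theorem res_ne {n x z : ℕ} (hx : x < 2*n+2) (h1 : x < z) (h2 : z < x + (2*n+2)) :
    res n z ≠ x := by
  unfold res; split_ifs <;> omega

theorem res_lt {n x z : ℕ} (hx : x < 2*n+2) (h2 : z < x + (2*n+2)) : res n z ≤ 2*n+1 := by
  unfold res; split_ifs <;> omega

theorem res_par {n z : ℕ} : res n z % 2 = z % 2 := by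
  unfold res; split_ifs <;> omega

theorem lft_par {n x r : ℕ} : lft n x r % 2 = r % 2 := by
  unfold lft; split_ifs <;> omega

theorem lft_gt {n x r : ℕ} (hx : x < 2*n+2) : x < lft n x r := by
  unfold lft; split_ifs <;> omega

theorem lft_lt {n x r : ℕ} (hr : r ≤ 2*n+1) (hne : r ≠ x) : lft n x r < x + (2*n+2) := by
  unfold lft; split_ifs <;> omega

theorem lft_inj {n x r s : ℕ} (hr : r ≤ 2*n+1) (hs : s ≤ 2*n+1)
    (h : lft n x r = lft n x s) : r = s := by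
  unfold lft at h; split_ifs at h <;> omega

theorem res_lft {n x r : ℕ} (hx : x < 2*n+2) (hr : r ≤ 2*n+1) : res n (lft n x r) = r := by
  unfold lft res; split_ifs <;> omega

theorem btw_same {n x a b c : ℕ} (ha : a ≤ 2*n+1) (hb : b ≤ 2*n+1) (hc : c ≤ 2*n+1)
    (hxa : a ≠ x) (hxb : b ≠ x) (hxc : c ≠ x) (h : x < a ↔ x < b) :
    Btw (lft n x a) (lft n x b) (lft n x c) ↔ Btw a b c := by
  unfold Btw lft
  split_ifs <;> omega

theorem btw_diff {n x a b c : ℕ} (ha : a ≤ 2*n+1) (hb : b ≤ 2*n+1) (hc : c ≤ 2*n+1)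
    (hxa : a ≠ x) (hxb : b ≠ x) (hxc : c ≠ x) (hca : c ≠ a) (hcb : c ≠ b)
    (h : ¬ (x < a ↔ x < b)) :
    Btw (lft n x a) (lft n x b) (lft n x c) ↔ ¬ Btw a b c := by
  unfold Btw lft
  split_ifs <;> omega

section

variable {n j m : ℕ} {δ : ℕ → Prop} {f₁ f₂ : ℕ → ℕ}

/-- The two matchings together. -/
def FF12 (j m : ℕ) (f₁ f₂ : ℕ → ℕ) (z : ℕ) : ℕ := if z < 2*j+2*m+1 then f₁ z else f₂ z

theorem FF12_one {z : ℕ} (hz : z < 2*j+2*m+1) : FF12 j m f₁ f₂ z = f₁ z := by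
  unfold FF12; rw [if_pos hz]

theorem FF12_two {z : ℕ} (hz : 2*j+2*m+1 ≤ z) : FF12 j m f₁ f₂ z = f₂ z := by
  unfold FF12; rw [if_neg (by omega)]

/-- The properties of the joint matching on the window. -/
theorem FF12_spec (h : TS n δ j m f₁ f₂) {z : ℕ} (h1 : 2*j < z) (h2 : z < 2*j + (2*n+2))
    (h3 : z ≠ 2*j+2*m+1) :
    2*j < FF12 j m f₁ f₂ z ∧ FF12 j m f₁ f₂ z < 2*j + (2*n+2) ∧
    FF12 j m f₁ f₂ z ≠ 2*j+2*m+1 ∧ FF12 j m f₁ f₂ z ≠ z ∧
    FF12 j m f₁ f₂ (FF12 j m f₁ f₂ z) = z ∧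
    (z < FF12 j m f₁ f₂ z → thz n δ (FF12 j m f₁ f₂ z) = thz n δ z + 1) ∧
    (z < FF12 j m f₁ f₂ z → ∀ w, z < w → w < FF12 j m f₁ f₂ z →
      z < FF12 j m f₁ f₂ w ∧ FF12 j m f₁ f₂ w < FF12 j m f₁ f₂ z ∧ w ≠ 2*j+2*m+1) := by
  have hm := h.hm
  rcases Nat.lt_or_ge z (2*j+2*m+1) with hz | hz
  · have e := FF12_one (j := j) (m := m) (f₁ := f₁) (f₂ := f₂) hz
    have a1 := h.p₁.lo z (by omega) (by omega)
    have a2 := h.p₁.hi z (by omega) (by omega)
    have a3 := h.p₁.ne z (by omega) (by omega)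
    have a4 := h.p₁.inv z (by omega) (by omega)
    rw [e]
    refine ⟨by omega, by omega, by omega, a3, ?_, h.p₁.lab z (by omega) (by omega), ?_⟩
    · rw [FF12_one (by omega)]; exact a4
    · intro _ w hw1 hw2
      have := h.p₁.nc z w (by omega) (by omega) hw1 hw2
      rw [FF12_one (by omega)]
      exact ⟨this.1, this.2, by omega⟩
  · have e := FF12_two (j := j) (m := m) (f₁ := f₁) (f₂ := f₂) hz
    have a1 := h.p₂.lo z (by omega) (by omega)
    have a2 := h.p₂.hi z (by omega) (by omega)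
    have a3 := h.p₂.ne z (by omega) (by omega)
    have a4 := h.p₂.inv z (by omega) (by omega)
    rw [e]
    refine ⟨by omega, by omega, by omega, a3, ?_, h.p₂.lab z (by omega) (by omega), ?_⟩
    · rw [FF12_two (by omega)]; exact a4
    · intro _ w hw1 hw2
      have := h.p₂.nc z w (by omega) (by omega) hw1 hw2
      rw [FF12_two (by omega)]
      exact ⟨this.1, this.2, by omega⟩

theorem FF12_par (h : TS n δ j m f₁ f₂) {z : ℕ} (h1 : 2*j < z) (h2 : z < 2*j + (2*n+2))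
    (h3 : z ≠ 2*j+2*m+1) : FF12 j m f₁ f₂ z % 2 ≠ z % 2 := by
  obtain ⟨a1, a2, a3, a4, a5, a6, _⟩ := FF12_spec h h1 h2 h3
  obtain ⟨b1, b2, b3, b4, b5, b6, _⟩ := FF12_spec h a1 a2 a3
  have p1 := thz_par n δ z
  have p2 := thz_par n δ (FF12 j m f₁ f₂ z)
  rcases Nat.lt_or_gt_of_ne a4 with hlt | hlt
  · rw [a5] at b6
    have := b6 hlt
    omega
  · have := a6 hlt
    omega

theorem FF12_nc (h : TS n δ j m f₁ f₂) {a c : ℕ} (a1 : 2*j < a) (a2 : a < 2*j + (2*n+2))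
    (a3 : a ≠ 2*j+2*m+1) (c1 : 2*j < c) (c2 : c < 2*j + (2*n+2)) (c3 : c ≠ 2*j+2*m+1) :
    Btw a (FF12 j m f₁ f₂ a) c ↔ Btw a (FF12 j m f₁ f₂ a) (FF12 j m f₁ f₂ c) := by
  obtain ⟨x1, x2, x3, x4, x5, _, x7⟩ := FF12_spec h a1 a2 a3
  obtain ⟨_, _, _, _, _, _, y7⟩ := FF12_spec h x1 x2 x3
  obtain ⟨z1, z2, z3, _, z5, _, _⟩ := FF12_spec h c1 c2 c3
  rw [x5] at y7
  unfold Btw
  constructor
  · rintro (⟨h1, h2⟩ | ⟨h1, h2⟩)
    · have := x7 (by omega) c h1 h2
      omega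
    · have := y7 (by omega) c h1 h2
      omega
  · rintro (⟨h1, h2⟩ | ⟨h1, h2⟩)
    · have := x7 (by omega) _ h1 h2
      rw [z5] at this
      omega
    · have := y7 (by omega) _ h1 h2
      rw [z5] at this
      omega

theorem FF12_noty (h : TS n δ j m f₁ f₂) {a : ℕ} (a1 : 2*j < a) (a2 : a < 2*j + (2*n+2))
    (a3 : a ≠ 2*j+2*m+1) : ¬ Btw a (FF12 j m f₁ f₂ a) (2*j+2*m+1) := by
  obtain ⟨x1, x2, x3, x4, x5, _, x7⟩ := FF12_spec h a1 a2 a3
  obtain ⟨_, _, _, _, _, _, y7⟩ := FF12_spec h x1 x2 x3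
  rw [x5] at y7
  unfold Btw
  rintro (⟨h1, h2⟩ | ⟨h1, h2⟩)
  · have := x7 (by omega) _ h1 h2
    omega
  · have := y7 (by omega) _ h1 h2
    omega

/-- The adjacency relation given by the matchings. -/
def KK (n j m : ℕ) (f₁ f₂ : ℕ → ℕ) (p q : ℕ) : Prop :=
  p ≤ n ∧ q ≤ n ∧ Up n p ≠ 2*j ∧
    FF12 j m f₁ f₂ (lft n (2*j) (Up n p)) = lft n (2*j) (Lo n q)

theorem labU_thz (n : ℕ) (δ : ℕ → Prop) {p : ℕ} (hp : p ≤ n) : thz n δ (Up n p) = labU δ p := by
  unfold Up labU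
  split_ifs with h
  · exact thz_A n δ p hp
  · exact thz_B n δ p hp

theorem labL_thz (n : ℕ) (δ : ℕ → Prop) {q : ℕ} (hq : q ≤ n) : thz n δ (Lo n q) = labL δ q := by
  unfold Lo labL
  split_ifs with h
  · exact thz_B n δ q hq
  · exact thz_A n δ q hq

theorem KK_KS (h : TS n δ j m f₁ f₂) :
    KS n n δ (KK n j m f₁ f₂) (seg n (2*j)) (seg n (res n (2*j+2*m+1))) := by
  have hj := h.hj
  have hm := h.hm
  have hx : 2*j < 2*n+2 := by omega
  have hy1 : 2*j < 2*j+2*m+1 := by omega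
  have hy2 : 2*j+2*m+1 < 2*j+(2*n+2) := by omega
  have hry := res_lt hx hy2
  have hryp : res n (2*j+2*m+1) % 2 = 1 := by rw [res_par]; omega
  have eT : Up n (seg n (2*j)) = 2*j := eq_Up (by omega) (by omega)
  have eB : Lo n (seg n (res n (2*j+2*m+1))) = res n (2*j+2*m+1) := eq_Lo hry hryp
  have ely : lft n (2*j) (res n (2*j+2*m+1)) = 2*j+2*m+1 := lft_res hx hy1 hy2
  -- positions of upper sides
  have hU : ∀ p, p ≤ n → Up n p ≠ 2*j → 2*j < lft n (2*j) (Up n p) ∧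
      lft n (2*j) (Up n p) < 2*j+(2*n+2) ∧ lft n (2*j) (Up n p) ≠ 2*j+2*m+1 := by
    intro p hp hne
    refine ⟨lft_gt hx, lft_lt (Up_bd hp) hne, ?_⟩
    have := lft_par (n := n) (x := 2*j) (r := Up n p)
    have := Up_mod hp
    omega
  have hLne : ∀ q, q ≤ n → Lo n q ≠ 2*j := by
    intro q hq
    have := Lo_mod hq
    omega
  refine ⟨fun p q hK => ⟨hK.1, hK.2.1⟩, ?_, ?_, ?_, ?_, seg_le (by omega), seg_le hry, ?_, ?_, ?_,
    ?_, ?_⟩
  · rintro p q q' ⟨hp, hq, hne, e⟩ ⟨_, hq', _, e'⟩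
    exact LoL_inj hq hq' (lft_inj (Lo_bd hq) (Lo_bd hq') (e.symm.trans e'))
  · rintro p p' q ⟨hp, hq, hne, e⟩ ⟨hp', _, hne', e'⟩
    obtain ⟨u1, u2, u3⟩ := hU p hp hne
    obtain ⟨v1, v2, v3⟩ := hU p' hp' hne'
    have s1 := (FF12_spec h u1 u2 u3).2.2.2.2.1
    have s2 := (FF12_spec h v1 v2 v3).2.2.2.2.1
    rw [e] at s1
    rw [e'] at s2
    exact UpL_inj hp hp' (lft_inj (Up_bd hp) (Up_bd hp') (s1.symm.trans s2))
  · intro p hp hpt
    have hne : Up n p ≠ 2*j := fun hh => hpt (UpL_inj hp (seg_le (by omega)) (hh.trans eT.symm))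
    obtain ⟨u1, u2, u3⟩ := hU p hp hne
    obtain ⟨s1, s2, s3, _, _, _, _⟩ := FF12_spec h u1 u2 u3
    have s4 := FF12_par h u1 u2 u3
    have s5 := lft_par (n := n) (x := 2*j) (r := Up n p)
    have s6 := Up_mod hp
    have s7 := res_par (n := n) (z := FF12 j m f₁ f₂ (lft n (2*j) (Up n p)))
    have s8 := res_lt hx s2
    refine ⟨seg n (res n (FF12 j m f₁ f₂ (lft n (2*j) (Up n p)))), hp, seg_le s8, hne, ?_⟩
    rw [eq_Lo s8 (by omega), lft_res hx s1 s2]
  · intro q hq hqb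
    have w1 : 2*j < lft n (2*j) (Lo n q) := lft_gt hx
    have w2 : lft n (2*j) (Lo n q) < 2*j+(2*n+2) := lft_lt (Lo_bd hq) (hLne q hq)
    have w3 : lft n (2*j) (Lo n q) ≠ 2*j+2*m+1 := by
      intro hh
      apply hqb
      apply LoL_inj hq (seg_le hry)
      rw [eB]
      exact lft_inj (Lo_bd hq) hry (hh.trans ely.symm)
    obtain ⟨s1, s2, s3, _, s5, _, _⟩ := FF12_spec h w1 w2 w3
    have s4 := FF12_par h w1 w2 w3
    have s6 := Lo_mod hq
    have s7 := lft_par (n := n) (x := 2*j) (r := Lo n q)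
    have s8 := res_lt hx s2
    have s9 := res_par (n := n) (z := FF12 j m f₁ f₂ (lft n (2*j) (Lo n q)))
    have s10 : Up n (seg n (res n (FF12 j m f₁ f₂ (lft n (2*j) (Lo n q))))) =
        res n (FF12 j m f₁ f₂ (lft n (2*j) (Lo n q))) := eq_Up s8 (by omega)
    refine ⟨seg n (res n (FF12 j m f₁ f₂ (lft n (2*j) (Lo n q)))), seg_le s8, hq, ?_, ?_⟩
    · rw [s10]; exact res_ne hx s1 s2
    · rw [s10, lft_res hx s1 s2, s5]
  · rintro q ⟨_, _, hne, _⟩
    exact hne eT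
  · rintro p ⟨hp, _, hne, e⟩
    obtain ⟨u1, u2, u3⟩ := hU p hp hne
    rw [eB, ely] at e
    exact (FF12_spec h u1 u2 u3).2.2.1 e
  · rintro p q r t ⟨hp, hq, hne, e⟩ ⟨hr, ht, hner, er⟩ hpr
    obtain ⟨u1, u2, u3⟩ := hU p hp hne
    obtain ⟨v1, v2, v3⟩ := hU r hr hner
    have k := FF12_nc h u1 u2 u3 v1 v2 v3
    rw [e, er] at k
    have d1 : Up n r ≠ Up n p := fun hh => hpr (UpL_inj hr hp hh).symm
    have d2 : Lo n t ≠ Lo n q := by
      intro hh
      have e3 : FF12 j m f₁ f₂ (lft n (2*j) (Up n p)) = FF12 j m f₁ f₂ (lft n (2*j) (Up n r)) := by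
        rw [e, er, hh]
      have s1 := (FF12_spec h u1 u2 u3).2.2.2.2.1
      have s2 := (FF12_spec h v1 v2 v3).2.2.2.2.1
      rw [e3] at s1
      exact hpr (UpL_inj hp hr (lft_inj (Up_bd hp) (Up_bd hr) (s1.symm.trans s2)))
    by_cases hs : (2*j < Up n p ↔ 2*j < Lo n q)
    · rw [btw_same (Up_bd hp) (Lo_bd hq) (Up_bd hr) hne (hLne q hq) hner hs,
        btw_same (Up_bd hp) (Lo_bd hq) (Lo_bd ht) hne (hLne q hq) (hLne t ht) hs] at k
      exact k
    · rw [btw_diff (Up_bd hp) (Lo_bd hq) (Up_bd hr) hne (hLne q hq) hner d1 (UpL_ne_Lo hr hq) hs,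
        btw_diff (Up_bd hp) (Lo_bd hq) (Lo_bd ht) hne (hLne q hq) (hLne t ht)
          (Ne.symm (UpL_ne_Lo hp ht)) d2 hs] at k
      exact not_iff_not.1 k
  · rintro p q ⟨hp, hq, hne, e⟩
    obtain ⟨u1, u2, u3⟩ := hU p hp hne
    have k := FF12_noty h u1 u2 u3
    rw [e, ← ely] at k
    have hnb : res n (2*j+2*m+1) ≠ 2*j := by omega
    have d1 : res n (2*j+2*m+1) ≠ Up n p := by have := Up_mod hp; omega
    have d2 : res n (2*j+2*m+1) ≠ Lo n q := by
      intro hh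
      rw [← hh, ely] at e
      exact (FF12_spec h u1 u2 u3).2.2.1 e
    rw [eT, eB]
    by_cases hs : (2*j < Up n p ↔ 2*j < Lo n q)
    · rw [btw_same (Up_bd hp) (Lo_bd hq) hry hne (hLne q hq) hnb hs] at k
      have k2 : ¬ Btw (Up n p) (Lo n q) (2*j) := by unfold Btw; omega
      exact ⟨fun hh => absurd hh k2, fun hh => absurd hh k⟩
    · rw [btw_diff (Up_bd hp) (Lo_bd hq) hry hne (hLne q hq) hnb d1 d2 hs, not_not] at k
      have hnq := hLne q hq
      have k2 : Btw (Up n p) (Lo n q) (2*j) := by unfold Btw; omega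
      exact ⟨fun _ => k, fun _ => k2⟩
  · rintro p q ⟨hp, hq, hne, e⟩
    obtain ⟨u1, u2, u3⟩ := hU p hp hne
    obtain ⟨s1, s2, s3, s4, s5, s6, _⟩ := FF12_spec h u1 u2 u3
    obtain ⟨_, _, _, _, _, t6, _⟩ := FF12_spec h s1 s2 s3
    rw [s5] at t6
    rw [e] at s4 s6 t6
    have b1 := labU_thz n δ hp
    have b2 := labL_thz n δ hq
    have b3 := thz_add n δ (Up n p)
    have b4 := thz_add n δ (Lo n q)
    have hnq := hLne q hq
    have hub := Up_bd hp
    have hlb := Lo_bd hq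
    rw [eT]
    unfold Rl
    unfold lft at s4 s6 t6
    rw [← b1, ← b2]
    by_cases c1 : 2*j < Up n p
    · by_cases c2 : 2*j < Lo n q
      · rw [if_pos c1, if_pos c2] at s6 t6
        exact ⟨fun hlt => ⟨fun hh => by omega, fun _ => s6 hlt⟩,
          fun hlt => ⟨fun hh => by omega, fun _ => t6 hlt⟩⟩
      · rw [if_pos c1, if_neg c2, b4] at s6
        have := s6 (by omega)
        exact ⟨fun hlt => by omega, fun hlt => ⟨fun _ => by omega, fun hh => by omega⟩⟩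
    · by_cases c2 : 2*j < Lo n q
      · rw [if_neg c1, if_pos c2, b3] at t6
        have := t6 (by omega)
        exact ⟨fun hlt => ⟨fun _ => by omega, fun hh => by omega⟩, fun hlt => by omega⟩
      · rw [if_neg c1, if_neg c2, b3, b4] at s6 t6
        refine ⟨fun hlt => ⟨fun hh => by omega, fun _ => ?_⟩,
          fun hlt => ⟨fun hh => by omega, fun _ => ?_⟩⟩
        · have := s6 (by omega); omega
        · have := t6 (by omega); omega

theorem sp_surj (h : TS n δ j m f₁ f₂) : ∃ g, St n δ g ∧ SP n g j m f₁ f₂ := by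
  obtain ⟨g, hs, hgt, hgb, hadj⟩ := KS.exists_St n _ _ _ le_rfl (KK_KS h)
  have hj := h.hj
  have hm := h.hm
  have hx : 2*j < 2*n+2 := by omega
  have hy1 : 2*j < 2*j+2*m+1 := by omega
  have hy2 : 2*j+2*m+1 < 2*j+(2*n+2) := by omega
  have hGe : ∀ z, z < 2 * (2*n+2) → z % 2 = 0 → GG n g z = g (seg n (res n z)) := by
    intro z hz hp
    unfold GG gp
    rw [mod_res hz, if_pos (by rw [res_par]; exact hp)]
  have hGo : ∀ z, z < 2 * (2*n+2) → z % 2 = 1 → GG n g z = (g (seg n (res n z)) : ℤ) - 1 := by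
    intro z hz hp
    unfold GG gp
    rw [mod_res hz, if_neg (by rw [res_par]; omega)]
  -- even positions
  have hE : ∀ z, 2*j < z → z < 2*j+(2*n+2) → z ≠ 2*j+2*m+1 → z % 2 = 0 →
      GG n g (FF12 j m f₁ f₂ z) = GG n g z := by
    intro z z1 z2 z3 zp
    obtain ⟨s1, s2, s3, s4, s5, _, _⟩ := FF12_spec h z1 z2 z3
    have s6 := FF12_par h z1 z2 z3
    have r1 := res_lt hx z2
    have r2 := res_lt hx s2
    have r3 := res_par (n := n) (z := z)
    have r4 := res_par (n := n) (z := FF12 j m f₁ f₂ z)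
    have e1 : Up n (seg n (res n z)) = res n z := eq_Up r1 (by omega)
    have e2 : Lo n (seg n (res n (FF12 j m f₁ f₂ z))) = res n (FF12 j m f₁ f₂ z) :=
      eq_Lo r2 (by omega)
    have hK : KK n j m f₁ f₂ (seg n (res n z)) (seg n (res n (FF12 j m f₁ f₂ z))) := by
      refine ⟨seg_le r1, seg_le r2, ?_, ?_⟩
      · rw [e1]; exact res_ne hx z1 z2
      · rw [e1, e2, lft_res hx z1 z2, lft_res hx s1 s2]
    have := (hadj _ _ (seg_le r1) (seg_le r2)).2 hK
    rw [hGe z (by omega) zp, hGo _ (by omega) (by omega), this]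
    push_cast
    ring
  have hA : ∀ z, 2*j < z → z < 2*j+(2*n+2) → z ≠ 2*j+2*m+1 →
      GG n g (FF12 j m f₁ f₂ z) = GG n g z := by
    intro z z1 z2 z3
    rcases Nat.mod_two_eq_zero_or_one z with zp | zp
    · exact hE z z1 z2 z3 zp
    · obtain ⟨s1, s2, s3, s4, s5, _, _⟩ := FF12_spec h z1 z2 z3
      have s6 := FF12_par h z1 z2 z3
      have := hE _ s1 s2 s3 (by omega)
      rw [s5] at this
      exact this.symm
  refine ⟨g, hs, ?_, ?_, ?_, ?_⟩
  · rw [hGe (2*j) (by omega) (by omega)]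
    have e : res n (2*j) = 2*j := by unfold res; rw [if_pos hx]
    rw [e, hgt]
  · rw [hGo (2*j+2*m+1) (by omega) (by omega), hgb]
    norm_num
  · intro z z1 z2
    have := hA z (by omega) (by omega) (by omega)
    rw [FF12_one (by omega)] at this
    exact this
  · intro z z1 z2
    have := hA z (by omega) (by omega) (by omega)
    rw [FF12_two (by omega)] at this
    exact this

end

end Pool.Agent.MV68
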