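import Pool.Agent.MV68.Lift

namespace Pool.Agent.MV68

open Pool.Agent.Results.MP_15ecc6_co.DoubleCatalan

theorem gp_even {n z : ℕ} {g : ℕ → ℕ} (h : z % 2 = 0) : gp n g z = (g (seg n z) : ℤ) := by
  unfold gp; rw [if_pos h]

theorem gp_odd {n z : ℕ} {g : ℕ → ℕ} (h : z % 2 = 1) : gp n g z = (g (seg n z) : ℤ) - 1 := by
  unfold gp; rw [if_neg (by omega)]

theorem mod_par (n z : ℕ) : z % (2*n+2) % 2 = z % 2 :=
  Nat.mod_mod_of_dvd z ⟨n+1, by ring⟩

theorem mod_succ_lt {N z : ℕ} (h : z % N + 1 < N) : (z + 1) % N = z % N + 1 := by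
  have h1 : z + 1 = (z % N + 1) + N * (z / N) := by
    have := Nat.mod_add_div z N; omega
  rw [h1, Nat.add_mul_mod_self_left, Nat.mod_eq_of_lt h]

theorem mod_succ_eq {N z : ℕ} (h : z % N + 1 = N) : (z + 1) % N = 0 := by
  have h1 : z + 1 = (z % N + 1) + N * (z / N) := by
    have := Nat.mod_add_div z N; omega
  rw [h1, Nat.add_mul_mod_self_left, h, Nat.mod_self]

theorem seg_low {n z : ℕ} (h : z ≤ n) : seg n z = z := by
  unfold seg; rw [if_pos h]

theorem seg_high {n z : ℕ} (h : n < z) : seg n z = 2 * n + 1 - z := by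
  unfold seg; rw [if_neg (by omega)]

/-- The four kinds of steps. `x` is the segment at the position, `y` the next one. -/
theorem step_cases (n : ℕ) (g : ℕ → ℕ) (z : ℕ) :
    (∃ i x y, i < n ∧ i % 2 = z % 2 ∧ ((x = i ∧ y = i + 1) ∨ (x = i + 1 ∧ y = i)) ∧
      ((z % 2 = 0 ∧ GG n g z = (g x : ℤ) ∧ GG n g (z+1) = (g y : ℤ) - 1) ∨
       (z % 2 = 1 ∧ GG n g z = (g x : ℤ) - 1 ∧ GG n g (z+1) = (g y : ℤ))) ∧
      (∀ δ : ℕ → Prop, sgz n δ z = 1 ↔ ((x = i ∧ Vy δ i) ∨ (x = i + 1 ∧ ¬ Vy δ i)))) ∨
    (∃ x, x ≤ n ∧ (∀ j, j < n → j % 2 = z % 2 → x ≠ j ∧ x ≠ j + 1) ∧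
      ((z % 2 = 0 ∧ GG n g z = (g x : ℤ) ∧ GG n g (z+1) = (g x : ℤ) - 1) ∨
       (z % 2 = 1 ∧ GG n g z = (g x : ℤ) - 1 ∧ GG n g (z+1) = (g x : ℤ))) ∧
      (∀ δ : ℕ → Prop, sgz n δ z = -1)) := by
  classical
  have hr : z % (2*n+2) < 2*n+2 := Nat.mod_lt _ (by omega)
  have hp := mod_par n z
  set r := z % (2*n+2) with hrdef
  have hG : GG n g z = gp n g r := rfl
  have hG1 : GG n g (z+1) = gp n g ((z+1) % (2*n+2)) := rfl
  by_cases h1 : r < n
  · left
    have hs : (z+1) % (2*n+2) = r + 1 := mod_succ_lt (by omega)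
    rw [hs] at hG1
    refine ⟨r, r, r+1, h1, hp, Or.inl ⟨rfl, rfl⟩, ?_, ?_⟩
    · rcases Nat.mod_two_eq_zero_or_one r with h0 | h0
      · left
        refine ⟨by omega, ?_, ?_⟩
        · rw [hG, gp_even h0, seg_low (by omega)]
        · rw [hG1, gp_odd (by omega), seg_low (by omega)]
      · right
        refine ⟨by omega, ?_, ?_⟩
        · rw [hG, gp_odd h0, seg_low (by omega)]
        · rw [hG1, gp_even (by omega), seg_low (by omega)]
    · intro δ
      unfold sgz
      rw [← hrdef, if_pos h1]
      constructor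
      · intro h
        left
        refine ⟨rfl, ?_⟩
        by_contra hc
        rw [if_neg hc] at h
        omega
      · rintro (⟨_, h⟩ | ⟨h, _⟩)
        · rw [if_pos h]
        · omega
  · by_cases h2 : r = n
    · right
      have hs : (z+1) % (2*n+2) = r + 1 := mod_succ_lt (by omega)
      rw [hs] at hG1
      refine ⟨n, le_rfl, ?_, ?_, ?_⟩
      · intro j hj hjp
        omega
      · rcases Nat.mod_two_eq_zero_or_one r with h0 | h0
        · left
          refine ⟨by omega, ?_, ?_⟩
          · rw [hG, gp_even h0, seg_low (by omega), h2]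
          · rw [hG1, gp_odd (by omega), seg_high (by omega)]
            congr 2
            congr 1
            omega
        · right
          refine ⟨by omega, ?_, ?_⟩
          · rw [hG, gp_odd h0, seg_low (by omega), h2]
          · rw [hG1, gp_even (by omega), seg_high (by omega)]
            congr 2
            omega
      · intro δ
        unfold sgz
        rw [← hrdef, if_neg (by omega), if_neg (by omega)]
    · by_cases h3 : r < 2*n+1
      · left
        have hs : (z+1) % (2*n+2) = r + 1 := mod_succ_lt (by omega)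
        rw [hs] at hG1
        have e1 : seg n r = (2*n - r) + 1 := by rw [seg_high (by omega)]; omega
        have e2 : seg n (r+1) = 2*n - r := by rw [seg_high (by omega)]; omega
        refine ⟨2*n - r, 2*n - r + 1, 2*n - r, by omega, by omega, Or.inr ⟨rfl, rfl⟩, ?_, ?_⟩
        · rcases Nat.mod_two_eq_zero_or_one r with h0 | h0
          · left
            refine ⟨by omega, ?_, ?_⟩
            · rw [hG, gp_even h0, e1]
            · rw [hG1, gp_odd (by omega), e2]
          · right
            refine ⟨by omega, ?_, ?_⟩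
            · rw [hG, gp_odd h0, e1]
            · rw [hG1, gp_even (by omega), e2]
        · intro δ
          unfold sgz
          rw [← hrdef, if_neg h1, if_pos ⟨by omega, h3⟩]
          constructor
          · intro h
            right
            refine ⟨rfl, ?_⟩
            by_contra hc
            rw [if_pos hc] at h
            omega
          · rintro (⟨h, _⟩ | ⟨_, h⟩)
            · omega
            · rw [if_neg h]
      · right
        have h4 : r = 2*n+1 := by omega
        have hs : (z+1) % (2*n+2) = 0 := mod_succ_eq (by omega)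
        rw [hs] at hG1
        refine ⟨0, by omega, ?_, ?_, ?_⟩
        · intro j hj hjp
          omega
        · right
          refine ⟨by omega, ?_, ?_⟩
          · rw [hG, gp_odd (by omega)]
            congr 2
            congr 1
            rw [h4, seg_high (by omega)]
            omega
          · rw [hG1, gp_even (by omega), seg_low (by omega)]
        · intro δ
          unfold sgz
          rw [← hrdef, if_neg (by omega), if_neg (by omega)]

/-- The sides of an arc at both ends of a crease. -/
theorem arc_iff {n : ℕ} {δ : ℕ → Prop} {g : ℕ → ℕ} (hs : St n δ g) {i j : ℕ} (hi : i < n)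
    (hj : j < n) (hp : j % 2 = i % 2) {x y : ℕ}
    (hxy : (x = i ∧ y = i + 1) ∨ (x = i + 1 ∧ y = i)) :
    (((min (g j) (g (j+1)) : ℕ) : ℤ) ≤ (g x : ℤ) ∧ (g x : ℤ) < ((max (g j) (g (j+1)) : ℕ) : ℤ)) ↔
      (((min (g j) (g (j+1)) : ℕ) : ℤ) ≤ (g y : ℤ) - 1 ∧
        (g y : ℤ) - 1 < ((max (g j) (g (j+1)) : ℕ) : ℤ)) := by
  by_cases hij : j = i
  · subst hij
    have d : g j ≠ g (j+1) := fun h => by
      have := hs.inj j (j+1) (by omega) (by omega) h; omega
    rcases hxy with ⟨rfl, rfl⟩ | ⟨rfl, rfl⟩ <;> omega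
  · have hI : ¬ Interleave (g i) (g (i+1)) (g j) (g (j+1)) := by
      rcases Nat.lt_or_ge i j with h | h
      · exact hs.nc i j h hj hp.symm
      · intro hI
        exact hs.nc j i (by omega) hi hp (interleave_comm.1 hI)
    have d1 : g i ≠ g j := fun h => by have := hs.inj i j (by omega) (by omega) h; omega
    have d2 : g i ≠ g (j+1) := fun h => by have := hs.inj i (j+1) (by omega) (by omega) h; omega
    have d3 : g (i+1) ≠ g j := fun h => by have := hs.inj (i+1) j (by omega) (by omega) h; omega
    have d4 : g (i+1) ≠ g (j+1) := fun h => by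
      have := hs.inj (i+1) (j+1) (by omega) (by omega) h; omega
    have d5 : g i ≠ g (i+1) := fun h => by have := hs.inj i (i+1) (by omega) (by omega) h; omega
    have d6 : g j ≠ g (j+1) := fun h => by have := hs.inj j (j+1) (by omega) (by omega) h; omega
    unfold Interleave at hI
    rcases hxy with ⟨rfl, rfl⟩ | ⟨rfl, rfl⟩ <;> omega

/-- The two sides of a segment that is not an end of the arc. -/
theorem arc_iff_same {n : ℕ} {δ : ℕ → Prop} {g : ℕ → ℕ} (hs : St n δ g) {x j : ℕ} (hx : x ≤ n)
    (hj : j < n) (h1 : x ≠ j) (h2 : x ≠ j + 1) :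
    (((min (g j) (g (j+1)) : ℕ) : ℤ) ≤ (g x : ℤ) ∧ (g x : ℤ) < ((max (g j) (g (j+1)) : ℕ) : ℤ)) ↔
      (((min (g j) (g (j+1)) : ℕ) : ℤ) ≤ (g x : ℤ) - 1 ∧
        (g x : ℤ) - 1 < ((max (g j) (g (j+1)) : ℕ) : ℤ)) := by
  have d1 : g x ≠ g j := fun h => h1 (hs.inj x j hx (by omega) h)
  have d2 : g x ≠ g (j+1) := fun h => h2 (hs.inj x (j+1) hx (by omega) h)
  omega

theorem face_of_St {n : ℕ} {δ : ℕ → Prop} {g : ℕ → ℕ} (hs : St n δ g) :
    Face (2*n+2) (GG n g) (sgz n δ) (EE n g) where
  refl := fun c m j _ _ => Iff.rfl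
  symm := fun c m m' h j hj hc => (h j hj hc).symm
  trans := fun c m m' m'' h h' j hj hc => (h j hj hc).trans (h' j hj hc)
  step := by
    intro z j hj hjp
    rcases step_cases n g z with ⟨i, x, y, hi, hip, hxy, hv, _⟩ | ⟨x, hx, hne, hv, _⟩
    · rcases hv with ⟨_, h1, h2⟩ | ⟨_, h1, h2⟩
      · rw [h1, h2]
        exact arc_iff hs hi hj (by omega) hxy
      · rw [h1, h2]
        have hyx : (y = i ∧ x = i + 1) ∨ (y = i + 1 ∧ x = i) := by omega
        exact (arc_iff hs hi hj (by omega) hyx).symm
    · obtain ⟨n1, n2⟩ := hne j hj hjp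
      rcases hv with ⟨_, h1, h2⟩ | ⟨_, h1, h2⟩
      · rw [h1, h2]
        exact arc_iff_same hs hx hj n1 n2
      · rw [h1, h2]
        exact (arc_iff_same hs hx hj n1 n2).symm
  sg := by
    intro z
    unfold sgz
    split_ifs <;> simp
  plusE := by
    intro z m hz hz0 hE
    rcases step_cases n g z with ⟨i, x, y, hi, hip, hxy, hv, hsg⟩ | ⟨x, hx, hne, hv, hsg⟩
    · have hV := (hsg δ).1 hz
      have hd := hs.dir i hi
      have d : g i ≠ g (i+1) := fun h => by have := hs.inj i (i+1) (by omega) (by omega) h; omega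
      have hlt : g x < g y := by
        unfold Vy at hV
        rcases hxy with ⟨rfl, rfl⟩ | ⟨rfl, rfl⟩
        · have : δ x := by
            rcases hV with ⟨_, h⟩ | ⟨h, _⟩
            · rcases h with ⟨_, h⟩ | ⟨h, _⟩
              · exact h
              · omega
            · omega
          exact hd.2 this
        · have : ¬ δ y := by
            rcases hV with ⟨h, _⟩ | ⟨_, h⟩
            · omega
            · intro h'
              exact h (Or.inl ⟨by omega, h'⟩)
          have h3 : ¬ g y < g (y+1) := fun h => this (hd.1 h)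
          omega
      rcases hv with ⟨_, h1, h2⟩ | ⟨h, _, _⟩
      · have h4 := hE i hi (by omega)
        rw [h1] at h4 ⊢
        rw [h2]
        rcases hxy with ⟨rfl, rfl⟩ | ⟨rfl, rfl⟩ <;> omega
      · omega
    · rw [hsg δ] at hz
      omega
  plusO := by
    intro z m hz hz0 hE
    rcases step_cases n g z with ⟨i, x, y, hi, hip, hxy, hv, hsg⟩ | ⟨x, hx, hne, hv, hsg⟩
    · have hV := (hsg δ).1 hz
      have hd := hs.dir i hi
      have d : g i ≠ g (i+1) := fun h => by have := hs.inj i (i+1) (by omega) (by omega) h; omega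
      have hlt : g y < g x := by
        unfold Vy at hV
        rcases hxy with ⟨rfl, rfl⟩ | ⟨rfl, rfl⟩
        · have : ¬ δ x := by
            rcases hV with ⟨_, h⟩ | ⟨h, _⟩
            · rcases h with ⟨h, _⟩ | ⟨_, h⟩
              · omega
              · exact h
            · omega
          have h3 : ¬ g x < g (x+1) := fun h => this (hd.1 h)
          omega
        · have : δ y := by
            rcases hV with ⟨h, _⟩ | ⟨_, h⟩
            · omega
            · by_contra h'
              exact h (Or.inr ⟨by omega, h'⟩)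
          exact hd.2 this
      rcases hv with ⟨h, _, _⟩ | ⟨_, h1, h2⟩
      · omega
      · have h4 := hE i hi (by omega)
        rw [h1] at h4 ⊢
        rw [h2]
        rcases hxy with ⟨rfl, rfl⟩ | ⟨rfl, rfl⟩ <;> omega
    · rw [hsg δ] at hz
      omega
  minusE := by
    intro z hz hz0
    rcases step_cases n g z with ⟨i, x, y, hi, hip, hxy, hv, hsg⟩ | ⟨x, hx, hne, hv, hsg⟩
    · have hV : ¬ ((x = i ∧ Vy δ i) ∨ (x = i + 1 ∧ ¬ Vy δ i)) := by
        intro h
        have := (hsg δ).2 h
        omega
      have hd := hs.dir i hi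
      have d : g i ≠ g (i+1) := fun h => by have := hs.inj i (i+1) (by omega) (by omega) h; omega
      have hlt : g y < g x := by
        rcases hxy with ⟨rfl, rfl⟩ | ⟨rfl, rfl⟩
        · have h3 : ¬ g x < g (x+1) := by
            intro h
            apply hV
            left
            exact ⟨rfl, Or.inl ⟨by omega, hd.1 h⟩⟩
          omega
        · by_contra hc
          apply hV
          right
          refine ⟨rfl, ?_⟩
          rintro (⟨_, h⟩ | ⟨h, _⟩)
          · have := hd.2 h
            omega
          · omega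
      rcases hv with ⟨_, h1, h2⟩ | ⟨h, _, _⟩
      · rw [h1, h2]; omega
      · omega
    · rcases hv with ⟨_, h1, h2⟩ | ⟨h, _, _⟩
      · rw [h1, h2]; omega
      · omega
  minusO := by
    intro z hz hz0
    rcases step_cases n g z with ⟨i, x, y, hi, hip, hxy, hv, hsg⟩ | ⟨x, hx, hne, hv, hsg⟩
    · have hV : ¬ ((x = i ∧ Vy δ i) ∨ (x = i + 1 ∧ ¬ Vy δ i)) := by
        intro h
        have := (hsg δ).2 h
        omega
      have hd := hs.dir i hi
      have d : g i ≠ g (i+1) := fun h => by have := hs.inj i (i+1) (by omega) (by omega) h; omega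
      have hlt : g x < g y := by
        rcases hxy with ⟨rfl, rfl⟩ | ⟨rfl, rfl⟩
        · by_contra hc
          apply hV
          left
          refine ⟨rfl, Or.inr ⟨by omega, fun h => ?_⟩⟩
          exact hc (hd.2 h)
        · by_contra hc
          apply hV
          right
          refine ⟨rfl, ?_⟩
          rintro (⟨h, _⟩ | ⟨_, h⟩)
          · omega
          · apply h
            apply hd.1
            omega
      rcases hv with ⟨h, _, _⟩ | ⟨_, h1, h2⟩
      · omega
      · rw [h1, h2]; omega
    · rcases hv with ⟨h, _, _⟩ | ⟨_, h1, h2⟩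
      · omega
      · rw [h1, h2]; omega
  inj := by
    intro z z' hp hG hlt
    have hc := Cir.of_St hs
    have e1 := mod_par n z
    have e2 := mod_par n z'
    have l1 : z % (2*n+2) < 2*n+2 := Nat.mod_lt _ (by omega)
    have l2 : z' % (2*n+2) < 2*n+2 := Nat.mod_lt _ (by omega)
    have h1 : z % (2*n+2) = z' % (2*n+2) :=
      gp_inj hc (by omega) (by omega) (by omega) hG
    have h2 := Nat.mod_add_div z (2*n+2)
    have h3 := Nat.mod_add_div z' (2*n+2)
    have h4 : z / (2*n+2) < z' / (2*n+2) := by
      by_contra hcon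
      have h5 : z' / (2*n+2) ≤ z / (2*n+2) := by omega
      have h6 := Nat.mul_le_mul_left (2*n+2) h5
      omega
    have h5 : z / (2*n+2) + 1 ≤ z' / (2*n+2) := h4
    have h6 := Nat.mul_le_mul_left (2*n+2) h5
    rw [Nat.mul_add, Nat.mul_one] at h6
    omega

theorem mod_window {N a x : ℕ} (hN : 0 < N) (h1 : a ≤ x) (h2 : x < a + N) :
    x % N + N * (a / N) = x ∨ x % N + N * (a / N) + N = x := by
  have e1 := Nat.mod_add_div x N
  have h3 : a / N ≤ x / N := Nat.div_le_div_right h1
  have h4 : x / N ≤ a / N + 1 := by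
    rw [← Nat.add_div_right a hN]
    exact Nat.div_le_div_right (by omega)
  rcases Nat.lt_or_ge (a / N) (x / N) with h | h
  · right
    have h5 : x / N = a / N + 1 := by omega
    rw [h5, Nat.mul_add, Nat.mul_one] at e1
    omega
  · left
    have h5 : x / N = a / N := by omega
    rw [h5] at e1
    exact e1

theorem nox_of_Cir {n : ℕ} {g : ℕ → ℕ} (hc : Cir n g) : NoX (2*n+2) (GG n g) := by
  intro a b c d hac hcb hbd hda hab gab hcd gcd
  have la : a % (2*n+2) < 2*n+2 := Nat.mod_lt _ (by omega)
  have lb : b % (2*n+2) < 2*n+2 := Nat.mod_lt _ (by omega)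
  have lc : c % (2*n+2) < 2*n+2 := Nat.mod_lt _ (by omega)
  have ld : d % (2*n+2) < 2*n+2 := Nat.mod_lt _ (by omega)
  have pa := mod_par n a
  have pb := mod_par n b
  have pc := mod_par n c
  have pd := mod_par n d
  have wa := Nat.mod_add_div a (2*n+2)
  have wb := mod_window (N := 2*n+2) (a := a) (x := b) (by omega) (by omega) (by omega)
  have wc := mod_window (N := 2*n+2) (a := a) (x := c) (by omega) (by omega) (by omega)
  have wd := mod_window (N := 2*n+2) (a := a) (x := d) (by omega) (by omega) (by omega)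
  generalize (2*n+2) * (a / (2*n+2)) = M at *
  have key := gp_nx hc (a := a % (2*n+2)) (b := b % (2*n+2)) (c := c % (2*n+2))
    (d := d % (2*n+2)) (by omega) (by omega) (by omega) (by omega) (by omega) (by omega)
    gab gcd
  generalize a % (2*n+2) = a' at *
  generalize b % (2*n+2) = b' at *
  generalize c % (2*n+2) = c' at *
  generalize d % (2*n+2) = d' at *
  have n1 : c' ≠ a' := by omega
  have n2 : c' ≠ b' := by omega
  have key2 := key n1 n2
  clear key gab gcd pa pb pc pd hab hcd
  unfold Btw at key2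
  rcases wb with wb | wb <;> rcases wc with wc | wc <;> rcases wd with wd | wd <;> omega

end Pool.Agent.MV68
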