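import Pool.Agent.MV68.SpecDefs
import Pool.Agent.MV68.FaceSt

namespace Pool.Agent.MV68

open Pool.Agent.Results.MP_15ecc6_co.DoubleCatalan

/-- two positions of the same parity at distance less than the period with the same gap -/
theorem spu_inj {n : ℕ} {δ : ℕ → Prop} {g : ℕ → ℕ} (hs : St n δ g) {z z' : ℕ}
    (hp : z % 2 = z' % 2) (hG : GG n g z = GG n g z') (h1 : z < z' + (2*n+2))
    (h2 : z' < z + (2*n+2)) : z = z' := by
  rcases lt_trichotomy z z' with h | h | h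
  · have := (face_of_St hs).inj z z' hp hG h
    omega
  · exact h
  · have := (face_of_St hs).inj z' z hp.symm hG.symm h
    omega

/-- a matching inside a window whose chords join equal gaps joins positions of different parity -/
theorem spu_par {n : ℕ} {δ : ℕ → Prop} {g : ℕ → ℕ} (hs : St n δ g) {th : ℕ → ℤ} {a m : ℕ}
    {f : ℕ → ℕ} (hm : m ≤ n) (h : PM th a m f)
    (he : ∀ z, a ≤ z → z < a+2*m → GG n g (f z) = GG n g z) {z : ℕ} (hz : a ≤ z)
    (hz' : z < a+2*m) : f z % 2 ≠ z % 2 := by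
  intro hp
  have h1 := h.lo z hz hz'
  have h2 := h.hi z hz hz'
  exact h.ne z hz hz' (spu_inj hs hp (he z hz hz') (by omega) (by omega))

theorem spu_fun {n : ℕ} {δ : ℕ → Prop} {g : ℕ → ℕ} (hs : St n δ g) {th : ℕ → ℤ} {a m : ℕ}
    {f f' : ℕ → ℕ} (hm : m ≤ n) (h : PM th a m f) (h' : PM th a m f')
    (he : ∀ z, a ≤ z → z < a+2*m → GG n g (f z) = GG n g z)
    (he' : ∀ z, a ≤ z → z < a+2*m → GG n g (f' z) = GG n g z) : f = f' := by
  funext z
  by_cases hz : a ≤ z ∧ z < a + 2*m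
  · obtain ⟨hz1, hz2⟩ := hz
    have p1 := spu_par hs hm h he hz1 hz2
    have p2 := spu_par hs hm h' he' hz1 hz2
    have l1 := h.lo z hz1 hz2
    have u1 := h.hi z hz1 hz2
    have l2 := h'.lo z hz1 hz2
    have u2 := h'.hi z hz1 hz2
    exact spu_inj hs (by omega) ((he z hz1 hz2).trans (he' z hz1 hz2).symm) (by omega) (by omega)
  · rw [h.out z (by omega), h'.out z (by omega)]

theorem sp_unique {n : ℕ} {δ : ℕ → Prop} {g : ℕ → ℕ} (hs : St n δ g) {j m j' m' : ℕ}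
    {f₁ f₂ f₁' f₂' : ℕ → ℕ} (h : TS n δ j m f₁ f₂) (hg : SP n g j m f₁ f₂)
    (h' : TS n δ j' m' f₁' f₂') (hg' : SP n g j' m' f₁' f₂') :
    j = j' ∧ m = m' ∧ f₁ = f₁' ∧ f₂ = f₂' := by
  have a1 := h.hj
  have a2 := h.hm
  have a3 := h'.hj
  have a4 := h'.hm
  have ej : j = j' := by
    have := spu_inj hs (z := 2*j) (z' := 2*j') (by omega) (hg.top.trans hg'.top.symm)
      (by omega) (by omega)
    omega
  subst ej
  have em : m = m' := by
    have := spu_inj hs (z := 2*j+2*m+1) (z' := 2*j+2*m'+1) (by omega)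
      (hg.bot.trans hg'.bot.symm) (by omega) (by omega)
    omega
  subst em
  exact ⟨rfl, rfl, spu_fun hs a2 h.p₁ h'.p₁ hg.e₁ hg'.e₁,
    spu_fun hs (Nat.sub_le n m) h.p₂ h'.p₂ hg.e₂ hg'.e₂⟩

theorem spu_top {n : ℕ} {g : ℕ → ℕ} {j m : ℕ} {f₁ f₂ : ℕ → ℕ} (hj : j ≤ n)
    (hg : SP n g j m f₁ f₂) : g (seg n (2*j)) = n := by
  have h1 := hg.top
  unfold GG gp at h1
  rw [Nat.mod_eq_of_lt (by omega : 2*j < 2*n+2), if_pos (by omega)] at h1
  exact_mod_cast h1

/-- the partner of the upper side of `p` -/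
theorem spu_adj {n : ℕ} {δ : ℕ → Prop} {g g' : ℕ → ℕ} (hs : St n δ g) (hs' : St n δ g') {j m : ℕ}
    {f₁ f₂ : ℕ → ℕ} (h : TS n δ j m f₁ f₂) (hg : SP n g j m f₁ f₂) (hg' : SP n g' j m f₁ f₂)
    {p q : ℕ} (hp : p ≤ n) (hq : q ≤ n) (hpq : g q = g p + 1) : g' q = g' p + 1 := by
  have a1 := h.hj
  have a2 := h.hm
  have hgq := hs.le q hq
  have hU := Up_bd (n := n) hp
  have hUm := Up_mod (n := n) hp
  have hne : Up n p ≠ 2*j := by
    intro hU2
    have h1 := spu_top a1 hg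
    rw [← hU2, seg_Up hp] at h1
    omega
  -- the lift
  obtain ⟨z, hz1, hz2, hz3, hz4⟩ : ∃ z, 2*j < z ∧ z < 2*j + (2*n+2) ∧ z % 2 = 0 ∧
      z % (2*n+2) = Up n p := by
    rcases Nat.lt_or_ge (2*j) (Up n p) with h1 | h1
    · exact ⟨Up n p, h1, by omega, hUm, Nat.mod_eq_of_lt (by omega)⟩
    · exact ⟨Up n p + (2*n+2), by omega, by omega, by omega, by
        rw [Nat.add_mod_right]; exact Nat.mod_eq_of_lt (by omega)⟩
  obtain ⟨w, hw1, hw2, hw3⟩ : ∃ w, w % 2 ≠ z % 2 ∧ GG n g w = GG n g z ∧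
      GG n g' w = GG n g' z := by
    rcases Nat.lt_or_ge z (2*j+1+2*m) with h1 | h1
    · exact ⟨f₁ z, spu_par hs a2 h.p₁ hg.e₁ (by omega) h1, hg.e₁ z (by omega) h1,
        hg'.e₁ z (by omega) h1⟩
    · exact ⟨f₂ z, spu_par hs (Nat.sub_le n m) h.p₂ hg.e₂ (by omega) (by omega),
        hg.e₂ z (by omega) (by omega), hg'.e₂ z (by omega) (by omega)⟩
  have hwN : w % (2*n+2) ≤ 2*n+1 := by
    have := Nat.mod_lt w (by omega : 0 < 2*n+2)
    omega
  have hwp : (w % (2*n+2)) % 2 = 1 := by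
    rw [Nat.mod_mod_of_dvd w ⟨n+1, by ring⟩]
    omega
  have key : ∀ g : ℕ → ℕ, GG n g w = GG n g z → (g (seg n (w % (2*n+2))) : ℤ) - 1 = g p := by
    intro g hG
    unfold GG at hG
    rw [hz4, gp_Up hp] at hG
    rw [← hG]
    unfold gp
    rw [if_neg (by omega)]
  have k1 := key g hw2
  have k2 := key g' hw3
  have hseg := seg_le (n := n) hwN
  have e : seg n (w % (2*n+2)) = q := hs.inj _ _ hseg hq (by omega)
  rw [e] at k2
  omega

theorem sp_inj {n : ℕ} {δ : ℕ → Prop} {g g' : ℕ → ℕ} (hs : St n δ g) (hs' : St n δ g') {j m : ℕ}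
    {f₁ f₂ : ℕ → ℕ} (h : TS n δ j m f₁ f₂) (hg : SP n g j m f₁ f₂) (hg' : SP n g' j m f₁ f₂) :
    g = g' := by
  have hj := h.hj
  have key : ∀ i x, x ≤ n → g x + i = n → g' x + i = n := by
    intro i
    induction i with
    | zero =>
      intro x hx hgx
      have h1 := spu_top hj hg
      have h2 := spu_top hj hg'
      have h3 : x = seg n (2*j) := hs.inj _ _ hx (seg_le (by omega)) (by omega)
      rw [h3]
      omega
    | succ i ih =>
      intro x hx hgx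
      obtain ⟨y, hy, hgy⟩ := hs.surj (g x + 1) (by omega)
      have h1 := ih y hy (by omega)
      have h2 := spu_adj hs hs' h hg hg' hx hy hgy
      omega
  funext x
  by_cases hx : x ≤ n
  · have h1 := hs.le x hx
    have h2 := key (n - g x) x hx (by omega)
    omega
  · rw [hs.zero x (by omega), hs'.zero x (by omega)]

end Pool.Agent.MV68
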