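import Pool.Agent.MV68.SpExists
import Pool.Agent.MV68.SpUnique
import Pool.Agent.MV68.SpSurj

namespace Pool.Agent.MV68

open Pool.Agent.Results.MP_15ecc6_co.DoubleCatalan

theorem sgz_cases (n : ℕ) (δ : ℕ → Prop) (z : ℕ) :
    thz n δ (z+1) = thz n δ z + 1 ∨ thz n δ (z+1) = thz n δ z - 1 := by
  have h : sgz n δ z = 1 ∨ sgz n δ z = -1 := by
    unfold sgz
    split_ifs <;> first | exact Or.inl rfl | exact Or.inr rfl
  have h1 : thz n δ (z+1) = thz n δ z + sgz n δ z := rfl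
  rw [h1]
  rcases h with h | h
  · left; rw [h]
  · right; rw [h]; ring

theorem card_TS (n : ℕ) (δ : ℕ → Prop) :
    Set.ncard {t : ℕ × ℕ × (ℕ → ℕ) × (ℕ → ℕ) | TS n δ t.1 t.2.1 t.2.2.1 t.2.2.2} =
      ∑ j ∈ Finset.range (n+1), ∑ m ∈ Finset.range (n+1),
        cm (thz n δ) m (2*j+1) * cm (thz n δ) (n-m) (2*j+2*m+2) := by
  classical
  let F : ℕ → ℕ → Finset (ℕ → ℕ) := fun a m => (PM_finite (thz n δ) a m).toFinset
  have hF : ∀ a m f, f ∈ F a m ↔ PM (thz n δ) a m f := by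
    intro a m f
    exact Set.Finite.mem_toFinset _
  have hFc : ∀ a m, (F a m).card = cm (thz n δ) m a := by
    intro a m
    rw [← PM_ncard (thz n δ) (sgz_cases n δ) m a]
    exact (Set.ncard_eq_toFinset_card _ _).symm
  let U : ℕ × ℕ → Finset (ℕ × ℕ × (ℕ → ℕ) × (ℕ → ℕ)) := fun q =>
    (F (2*q.1+1) q.2 ×ˢ F (2*q.1+2*q.2+2) (n-q.2)).image (fun f => (q.1, q.2, f.1, f.2))
  have hU : ∀ q t, t ∈ U q ↔ t.1 = q.1 ∧ t.2.1 = q.2 ∧ PM (thz n δ) (2*q.1+1) q.2 t.2.2.1 ∧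
      PM (thz n δ) (2*q.1+2*q.2+2) (n-q.2) t.2.2.2 := by
    intro q t
    show t ∈ (F (2*q.1+1) q.2 ×ˢ F (2*q.1+2*q.2+2) (n-q.2)).image
      (fun f => (q.1, q.2, f.1, f.2)) ↔ _
    rw [Finset.mem_image]
    constructor
    · rintro ⟨⟨f1, f2⟩, hp, rfl⟩
      rw [Finset.mem_product, hF, hF] at hp
      exact ⟨rfl, rfl, hp.1, hp.2⟩
    · rintro ⟨h1, h2, h3, h4⟩
      refine ⟨(t.2.2.1, t.2.2.2), ?_, ?_⟩
      · rw [Finset.mem_product, hF, hF]
        exact ⟨h3, h4⟩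
      · obtain ⟨a, b, c, d⟩ := t
        simp only at h1 h2
        subst h1
        subst h2
        rfl
  have hset : {t : ℕ × ℕ × (ℕ → ℕ) × (ℕ → ℕ) | TS n δ t.1 t.2.1 t.2.2.1 t.2.2.2} =
      ↑((Finset.range (n+1) ×ˢ Finset.range (n+1)).biUnion U) := by
    ext t
    rw [Set.mem_ofPred_eq, Finset.mem_coe, Finset.mem_biUnion]
    constructor
    · intro h
      refine ⟨(t.1, t.2.1), ?_, ?_⟩
      · rw [Finset.mem_product, Finset.mem_range, Finset.mem_range]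
        exact ⟨Nat.lt_succ_of_le h.hj, Nat.lt_succ_of_le h.hm⟩
      · rw [hU]
        exact ⟨rfl, rfl, h.p₁, h.p₂⟩
    · rintro ⟨q, hq, ht⟩
      rw [Finset.mem_product, Finset.mem_range, Finset.mem_range] at hq
      rw [hU] at ht
      obtain ⟨h1, h2, h3, h4⟩ := ht
      rw [← h1, ← h2] at h3 h4 hq
      exact ⟨Nat.le_of_lt_succ hq.1, Nat.le_of_lt_succ hq.2, h3, h4⟩
  rw [hset, Set.ncard_coe_finset, Finset.card_biUnion]
  · rw [Finset.sum_product]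
    refine Finset.sum_congr rfl fun j _ => Finset.sum_congr rfl fun m _ => ?_
    show ((F (2*j+1) m ×ˢ F (2*j+2*m+2) (n-m)).image (fun f => (j, m, f.1, f.2))).card = _
    rw [Finset.card_image_of_injective, Finset.card_product, hFc, hFc]
    intro f f' h
    simp only [Prod.mk.injEq, true_and] at h
    exact Prod.ext h.1 h.2
  · intro q _ q' _ hqq
    show Disjoint (U q) (U q')
    rw [Finset.disjoint_left]
    intro t ht ht'
    rw [hU] at ht ht'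
    exact hqq (Prod.ext (ht.1.symm.trans ht'.1) (ht.2.1.symm.trans ht'.2.1))

theorem card_St' (n : ℕ) (δ : ℕ → Prop) :
    Set.ncard {g : ℕ → ℕ | St n δ g} =
      ∑ j ∈ Finset.range (n+1), ∑ m ∈ Finset.range (n+1),
        cm (thz n δ) m (2*j+1) * cm (thz n δ) (n-m) (2*j+2*m+2) := by
  rw [← card_TS]
  have hex : ∀ g : ℕ → ℕ, St n δ g → ∃ t : ℕ × ℕ × (ℕ → ℕ) × (ℕ → ℕ),
      TS n δ t.1 t.2.1 t.2.2.1 t.2.2.2 ∧ SP n g t.1 t.2.1 t.2.2.1 t.2.2.2 := by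
    intro g hg
    obtain ⟨j, m, f1, f2, h1, h2⟩ := sp_exists hg
    exact ⟨(j, m, f1, f2), h1, h2⟩
  choose T hT1 hT2 using hex
  refine Set.ncard_congr (fun g hg => T g hg) ?_ ?_ ?_
  · intro g hg
    exact hT1 g hg
  · intro g g' hg hg' h
    have h' : T g hg = T g' hg' := h
    have h2 := hT2 g' hg'
    rw [← h'] at h2
    exact sp_inj hg hg' (hT1 g hg) (hT2 g hg) h2
  · intro t ht
    obtain ⟨g, hg, hsp⟩ := sp_surj (n := n) (δ := δ) (j := t.1) (m := t.2.1) (f₁ := t.2.2.1)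
      (f₂ := t.2.2.2) ht
    refine ⟨g, hg, ?_⟩
    obtain ⟨e1, e2, e3, e4⟩ := sp_unique hg (hT1 g hg) (hT2 g hg) ht hsp
    show T g hg = t
    exact Prod.ext e1 (Prod.ext e2 (Prod.ext e3 e4))

end Pool.Agent.MV68
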