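import Pool.Agent.MV68.DCBase

namespace Pool.Agent.MV68

open Pool.Agent.Results.MP_15ecc6_co.DoubleCatalan

/-- indicator of `g x < g y` -/
def bb (g : ℕ → ℕ) (x y : ℕ) : ℕ := if g x < g y then 1 else 0

/-- number of elements of `[a, a+m)` below `y` -/
def SS (g : ℕ → ℕ) (a m y : ℕ) : ℕ := ∑ j ∈ Finset.range m, bb g (a + j) y

theorem SS_zero (g : ℕ → ℕ) (a y : ℕ) : SS g a 0 y = 0 := rfl

theorem SS_succ (g : ℕ → ℕ) (a m y : ℕ) : SS g a (m+1) y = SS g a m y + bb g (a+m) y := by
  unfold SS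
  rw [Finset.sum_range_succ]

theorem SS_succ' (g : ℕ → ℕ) (a m y : ℕ) : SS g a (m+1) y = bb g a y + SS g (a+1) m y := by
  induction m with
  | zero => rw [SS_succ, SS_zero, SS_zero, add_zero]; ring
  | succ m ih =>
    rw [SS_succ, ih, SS_succ]
    have : a + (m+1) = a + 1 + m := by omega
    rw [this]
    ring

theorem key_pair {n : ℕ} {δ : ℕ → Prop} {g : ℕ → ℕ} (hs : St n δ g) {i j : ℕ} (hi : i < n)
    (hj : j < n) (hij : i ≠ j) (hp : i % 2 = j % 2) :
    (bb g j i + bb g j (i+1) + (bb g (j+1) i + bb g (j+1) (i+1))) % 2 = 0 := by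
  have hI : ¬ Interleave (g i) (g (i+1)) (g j) (g (j+1)) := by
    rcases Nat.lt_or_ge i j with h | h
    · exact hs.nc i j h hj hp
    · intro hI
      exact hs.nc j i (by omega) hi hp.symm (interleave_comm.1 hI)
  have d1 : g i ≠ g j := fun h => by have := hs.inj i j (by omega) (by omega) h; omega
  have d2 : g i ≠ g (j+1) := fun h => by have := hs.inj i (j+1) (by omega) (by omega) h; omega
  have d3 : g (i+1) ≠ g j := fun h => by have := hs.inj (i+1) j (by omega) (by omega) h; omega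
  have d4 : g (i+1) ≠ g (j+1) := fun h => by
    have := hs.inj (i+1) (j+1) (by omega) (by omega) h; omega
  have d5 : g i ≠ g (i+1) := fun h => by have := hs.inj i (i+1) (by omega) (by omega) h; omega
  have d6 : g j ≠ g (j+1) := fun h => by have := hs.inj j (j+1) (by omega) (by omega) h; omega
  unfold Interleave at hI
  unfold bb
  split_ifs <;> omega

theorem key_same {n : ℕ} {δ : ℕ → Prop} {g : ℕ → ℕ} (hs : St n δ g) {i : ℕ} (hi : i < n) :
    (bb g i i + bb g i (i+1) + (bb g (i+1) i + bb g (i+1) (i+1))) % 2 = 1 := by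
  have d5 : g i ≠ g (i+1) := fun h => by have := hs.inj i (i+1) (by omega) (by omega) h; omega
  unfold bb
  split_ifs <;> omega

/-- Parity: an interval made of pairs of the parity of the crease `i`. -/
theorem key {n : ℕ} {δ : ℕ → Prop} {g : ℕ → ℕ} (hs : St n δ g) {i : ℕ} (hi : i < n) (a k : ℕ)
    (hak : a + 2 * k ≤ n + 1) (hp : i % 2 = a % 2) :
    (SS g a (2*k) i + SS g a (2*k) (i+1)) % 2 = if a ≤ i ∧ i < a + 2 * k then 1 else 0 := by
  induction k with
  | zero =>
    rw [if_neg (by omega)]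
    rfl
  | succ k ih =>
    have ih' := ih (by omega)
    have e : 2 * (k+1) = 2 * k + 1 + 1 := by omega
    rw [e, SS_succ, SS_succ, SS_succ, SS_succ]
    by_cases hij : i = a + 2 * k
    · have h1 := key_same hs hi
      rw [if_neg (by omega)] at ih'
      rw [if_pos (by omega)]
      have e2 : a + (2 * k + 1) = i + 1 := by omega
      rw [e2, ← hij]
      omega
    · have h1 := key_pair hs hi (show a + 2 * k < n by omega) hij (by omega)
      have e2 : a + (2 * k + 1) = a + 2 * k + 1 := by omega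
      rw [e2]
      have e3 : (if a ≤ i ∧ i < a + (2 * k + 1 + 1) then 1 else 0) =
          (if a ≤ i ∧ i < a + 2 * k then 1 else 0) := by
        split_ifs <;> omega
      rw [e3]
      omega

theorem bb_self (g : ℕ → ℕ) (x : ℕ) : bb g x x = 0 := by
  unfold bb
  rw [if_neg (lt_irrefl _)]

/-- Adjacent heights `lo`, `hi` see the other segments in the same way. -/
theorem bb_adj {n : ℕ} {δ : ℕ → Prop} {g : ℕ → ℕ} (hs : St n δ g) {lo hi y : ℕ} (hlo : lo ≤ n)
    (hhi : hi ≤ n) (hy : y ≤ n) (hadj : g hi = g lo + 1 ∨ g lo = g hi + 1) (h1 : y ≠ lo)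
    (h2 : y ≠ hi) : bb g lo y = bb g hi y := by
  have d1 : g y ≠ g lo := fun h => h1 (hs.inj y lo hy hlo h)
  have d2 : g y ≠ g hi := fun h => h2 (hs.inj y hi hy hhi h)
  unfold bb
  split_ifs <;> omega

theorem SS_adj {n : ℕ} {δ : ℕ → Prop} {g : ℕ → ℕ} (hs : St n δ g) {lo hi : ℕ} (hlo : lo ≤ n)
    (hhi : hi ≤ n) (hadj : g hi = g lo + 1 ∨ g lo = g hi + 1) (m : ℕ) (hm : lo + 1 + m ≤ hi) :
    SS g (lo+1) m lo = SS g (lo+1) m hi := by
  unfold SS
  apply Finset.sum_congr rfl
  intro j hj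
  rw [Finset.mem_range] at hj
  have d1 : g (lo+1+j) ≠ g lo := fun h => by
    have := hs.inj (lo+1+j) lo (by omega) (by omega) h
    omega
  have d2 : g (lo+1+j) ≠ g hi := fun h => by
    have := hs.inj (lo+1+j) hi (by omega) (by omega) h
    omega
  unfold bb
  split_ifs <;> omega

/-- Even case: `hi - lo` odd. -/
theorem even_case {n : ℕ} {δ : ℕ → Prop} {g : ℕ → ℕ} (hs : St n δ g) {lo k : ℕ}
    (hhi : lo + 2 * k + 1 ≤ n) (hadj : g (lo+2*k+1) = g lo + 1 ∨ g lo = g (lo+2*k+1) + 1) :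
    (∀ y, y ≤ n → (y ≤ lo ∨ lo + 2 * k + 1 ≤ y) →
      SS g (lo+1) (2*k) y % 2 = SS g (lo+1) (2*k) lo % 2) ∧
    (∀ b, b < 2 * k → (SS g (lo+1) (2*k) (lo+1+b) + SS g (lo+1) (2*k) lo + bb g lo (lo+2*k+1) + b) % 2
      = 0) := by
  have hL : ∀ y, SS g lo (2*(k+1)) y = bb g lo y + SS g (lo+1) (2*k) y + bb g (lo+2*k+1) y := by
    intro y
    have e : 2 * (k+1) = (2*k+1) + 1 := by omega
    rw [e, SS_succ, SS_succ']
    have e2 : lo + (2*k+1) = lo + 2 * k + 1 := by omega
    rw [e2]
  have hV : ∀ y, y ≤ n → y ≠ lo → y ≠ lo+2*k+1 →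
      SS g lo (2*(k+1)) y % 2 = SS g (lo+1) (2*k) y % 2 := by
    intro y hy h1 h2
    have := bb_adj hs (lo := lo) (hi := lo+2*k+1) (y := y) (by omega) (by omega) hy hadj h1 h2
    rw [hL]
    omega
  have hlohi : SS g (lo+1) (2*k) lo = SS g (lo+1) (2*k) (lo+2*k+1) :=
    SS_adj hs (by omega) (by omega) hadj (2*k) (by omega)
  have hbb : bb g lo (lo+2*k+1) + bb g (lo+2*k+1) lo = 1 := by
    unfold bb
    split_ifs <;> omega
  refine ⟨?_, ?_⟩
  · intro y hy hyc
    rcases hyc with hyc | hyc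
    · -- below lo: descending induction
      obtain ⟨d, hd⟩ : ∃ d, y + d = lo := ⟨lo - y, by omega⟩
      induction d generalizing y with
      | zero =>
        have : y = lo := by omega
        rw [this]
      | succ d ih =>
        have ih' := ih (y+1) (by omega) (by omega) (by omega)
        rcases Nat.mod_two_eq_zero_or_one (y + lo) with hpar | hpar
        · -- y ≡ lo : use L ; then y+1 ≠ lo by parity
          have hk := key hs (i := y) (by omega) lo (k+1) (by omega) (by omega)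
          rw [if_neg (by omega)] at hk
          have h1 := hV y (by omega) (by omega) (by omega)
          have h2 := hV (y+1) (by omega) (by omega) (by omega)
          omega
        · have hk := key hs (i := y) (by omega) (lo+1) k (by omega) (by omega)
          rw [if_neg (by omega)] at hk
          omega
    · obtain ⟨d, hd⟩ : ∃ d, y = lo + 2 * k + 1 + d := ⟨y - (lo+2*k+1), by omega⟩
      induction d generalizing y with
      | zero =>
        have : y = lo + 2 * k + 1 := by omega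
        rw [this, hlohi]
      | succ d ih =>
        obtain ⟨z, rfl⟩ : ∃ z, y = z + 1 := ⟨y - 1, by omega⟩
        have ih' := ih z (by omega) (by omega) (by omega)
        rcases Nat.mod_two_eq_zero_or_one (z + lo) with hpar | hpar
        · have hk := key hs (i := z) (by omega) lo (k+1) (by omega) (by omega)
          rw [if_neg (by omega)] at hk
          have h1 := hV z (by omega) (by omega) (by omega)
          have h2 := hV (z+1) (by omega) (by omega) (by omega)
          omega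
        · have hk := key hs (i := z) (by omega) (lo+1) k (by omega) (by omega)
          rw [if_neg (by omega)] at hk
          omega
  · intro b hb
    induction b with
    | zero =>
      have hk := key hs (i := lo) (by omega) lo (k+1) (by omega) rfl
      rw [if_pos (by omega)] at hk
      have h1 := hL lo
      have h2 := hV (lo+1) (by omega) (by omega) (by omega)
      have h3 := bb_self g lo
      simp only [add_zero]
      omega
    | succ b ih =>
      have ih' := ih (by omega)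
      rcases Nat.mod_two_eq_zero_or_one b with hpar | hpar
      · have hk := key hs (i := lo+1+b) (by omega) (lo+1) k (by omega) (by omega)
        rw [if_pos (by omega)] at hk
        have e : lo + 1 + (b+1) = lo + 1 + b + 1 := by omega
        rw [e]
        omega
      · have hk := key hs (i := lo+1+b) (by omega) lo (k+1) (by omega) (by omega)
        rw [if_pos (by omega)] at hk
        have h1 := hV (lo+1+b) (by omega) (by omega) (by omega)
        have h2 := hV (lo+1+b+1) (by omega) (by omega) (by omega)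
        have e : lo + 1 + (b+1) = lo + 1 + b + 1 := by omega
        rw [e]
        omega


/-- Odd case: `hi - lo` even, `hi = lo + 2k + 2`. -/
theorem odd_case {n : ℕ} {δ : ℕ → Prop} {g : ℕ → ℕ} (hs : St n δ g) {lo k : ℕ}
    (hhi : lo + 2 * k + 2 ≤ n) (hadj : g (lo+2*k+2) = g lo + 1 ∨ g lo = g (lo+2*k+2) + 1) :
    (∀ y, y < lo → (SS g lo (2*(k+1)) y + SS g lo (2*(k+1)) lo + bb g (lo+2*k+2) lo) % 2 = 0) ∧
    (∀ b, b ≤ 2 * k + 1 → (SS g lo (2*(k+1)) (lo+b) + SS g lo (2*(k+1)) lo + b) % 2 = 0) ∧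
    (∀ y, lo + 2 * k + 2 ≤ y → y ≤ n →
      (SS g lo (2*(k+1)) y + SS g lo (2*(k+1)) lo + bb g lo (lo+2*k+2)) % 2 = 0) := by
  -- `A y` : elements of `[lo, hi)` below `y`; `B y` : elements of `(lo, hi]` below `y`
  have hA : ∀ y, SS g lo (2*(k+1)) y = bb g lo y + SS g (lo+1) (2*k+1) y := by
    intro y
    have e : 2 * (k+1) = (2*k+1) + 1 := by omega
    rw [e, SS_succ']
  have hB : ∀ y, SS g (lo+1) (2*(k+1)) y = SS g (lo+1) (2*k+1) y + bb g (lo+2*k+2) y := by
    intro y
    have e : 2 * (k+1) = (2*k+1) + 1 := by omega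
    rw [e, SS_succ]
    have e2 : lo + 1 + (2*k+1) = lo + 2 * k + 2 := by omega
    rw [e2]
  have hAB : ∀ y, y ≤ n → y ≠ lo → y ≠ lo+2*k+2 →
      SS g lo (2*(k+1)) y = SS g (lo+1) (2*(k+1)) y := by
    intro y hy h1 h2
    have := bb_adj hs (lo := lo) (hi := lo+2*k+2) (y := y) (by omega) (by omega) hy hadj h1 h2
    rw [hA, hB]
    omega
  have hlohi : SS g (lo+1) (2*k+1) lo = SS g (lo+1) (2*k+1) (lo+2*k+2) :=
    SS_adj hs (by omega) (by omega) hadj (2*k+1) (by omega)
  have hself := bb_self g lo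
  have hself2 := bb_self g (lo+2*k+2)
  have hAlo := hA lo
  have hBlo := hB lo
  have hAhi := hA (lo+2*k+2)
  refine ⟨?_, ?_, ?_⟩
  · intro y hy
    obtain ⟨d, hd⟩ : ∃ d, y + d + 1 = lo := ⟨lo - y - 1, by omega⟩
    induction d generalizing y with
    | zero =>
      have hy1 : y + 1 = lo := by omega
      have hk := key hs (i := y) (by omega) (lo+1) (k+1) (by omega) (by omega)
      rw [if_neg (by omega), hy1] at hk
      have h1 := hAB y (by omega) (by omega) (by omega)
      omega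
    | succ d ih =>
      have ih' := ih (y+1) (by omega) (by omega)
      have h1 := hAB y (by omega) (by omega) (by omega)
      have h2 := hAB (y+1) (by omega) (by omega) (by omega)
      rcases Nat.mod_two_eq_zero_or_one (y + lo) with hpar | hpar
      · have hk := key hs (i := y) (by omega) lo (k+1) (by omega) (by omega)
        rw [if_neg (by omega)] at hk
        omega
      · have hk := key hs (i := y) (by omega) (lo+1) (k+1) (by omega) (by omega)
        rw [if_neg (by omega)] at hk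
        omega
  · intro b hb
    induction b with
    | zero =>
      simp only [add_zero]
      omega
    | succ b ih =>
      have ih' := ih (by omega)
      have e : lo + (b+1) = lo + b + 1 := by omega
      rw [e]
      rcases Nat.mod_two_eq_zero_or_one b with hpar | hpar
      · have hk := key hs (i := lo+b) (by omega) lo (k+1) (by omega) (by omega)
        rw [if_pos (by omega)] at hk
        omega
      · have hk := key hs (i := lo+b) (by omega) (lo+1) (k+1) (by omega) (by omega)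
        rw [if_pos (by omega)] at hk
        have h1 := hAB (lo+b) (by omega) (by omega) (by omega)
        have h2 := hAB (lo+b+1) (by omega) (by omega) (by omega)
        omega
  · intro y hy hyn
    obtain ⟨d, hd⟩ : ∃ d, y = lo + 2 * k + 2 + d := ⟨y - (lo+2*k+2), by omega⟩
    induction d generalizing y with
    | zero =>
      have hy0 : y = lo + 2 * k + 2 := by omega
      rw [hy0]
      omega
    | succ d ih =>
      obtain ⟨z, rfl⟩ : ∃ z, y = z + 1 := ⟨y - 1, by omega⟩
      have ih' := ih z (by omega) (by omega) (by omega)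
      rcases Nat.mod_two_eq_zero_or_one (z + lo) with hpar | hpar
      · have hk := key hs (i := z) (by omega) lo (k+1) (by omega) (by omega)
        rw [if_neg (by omega)] at hk
        omega
      · have hk := key hs (i := z) (by omega) (lo+1) (k+1) (by omega) (by omega)
        rw [if_neg (by omega)] at hk
        have h1 := hAB z (by omega) (by omega) (by omega)
        have h2 := hAB (z+1) (by omega) (by omega) (by omega)
        omega

/-- Number of elements of `[a, a+m)` below the next height. -/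
theorem SS_next {n : ℕ} {δ : ℕ → Prop} {g : ℕ → ℕ} (hs : St n δ g) {r t : ℕ} (hr : r ≤ n)
    (ht : t ≤ n) (hrt : g t = g r + 1) (a m : ℕ) (ham : a + m ≤ n + 1) :
    SS g a m t = SS g a m r + if a ≤ r ∧ r < a + m then 1 else 0 := by
  induction m with
  | zero => rw [if_neg (by omega)]; rfl
  | succ m ih =>
    rw [SS_succ, SS_succ, ih (by omega)]
    by_cases h : a + m = r
    · have h1 : bb g (a+m) t = 1 := by
        unfold bb; rw [if_pos]; rw [h]; omega
      have h2 : bb g (a+m) r = 0 := by rw [h]; exact bb_self g r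
      rw [h1, h2, if_neg (by omega), if_pos (by omega)]
    · have h1 : bb g (a+m) t = bb g (a+m) r := by
        have d1 : g (a+m) ≠ g r := fun hq => h (hs.inj (a+m) r (by omega) hr hq)
        unfold bb
        split_ifs <;> omega
      rw [h1]
      have e3 : (if a ≤ r ∧ r < a + (m + 1) then 1 else 0) =
          (if a ≤ r ∧ r < a + m then 1 else 0) := by
        split_ifs <;> omega
      rw [e3]
      omega

/-- Position on the circle of the upper side of `S_x`. -/
def Up (n x : ℕ) : ℕ := if x % 2 = 0 then x else 2 * n + 1 - x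

/-- Position on the circle of the lower side of `S_x`. -/
def Lo (n x : ℕ) : ℕ := if x % 2 = 0 then 2 * n + 1 - x else x

/-- `z` lies strictly between `a` and `b`. -/
def Btw (a b z : ℕ) : Prop := (a < z ∧ z < b) ∨ (b < z ∧ z < a)

theorem btw_up_same {n p q r : ℕ} (hp : p ≤ n) (hq : q ≤ n) (hr : r ≤ n) (h : p % 2 = q % 2) :
    Btw (Up n p) (Lo n q) (Up n r) ↔ (r % 2 = p % 2 ∧ p < r) ∨ (r % 2 ≠ p % 2 ∧ q < r) := by
  unfold Btw Up Lo
  split_ifs <;> omega

theorem btw_lo_same {n p q t : ℕ} (hp : p ≤ n) (hq : q ≤ n) (ht : t ≤ n) (h : p % 2 = q % 2) :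
    Btw (Up n p) (Lo n q) (Lo n t) ↔ (t % 2 = p % 2 ∧ q < t) ∨ (t % 2 ≠ p % 2 ∧ p < t) := by
  unfold Btw Up Lo
  split_ifs <;> omega

theorem btw_up_diff {n p q r : ℕ} (hp : p ≤ n) (hq : q ≤ n) (hr : r ≤ n) (h : p % 2 ≠ q % 2) :
    Btw (Up n p) (Lo n q) (Up n r) ↔ (r % 2 = p % 2 ∧ ((p < r ∧ r < q) ∨ (q < r ∧ r < p))) := by
  unfold Btw Up Lo
  split_ifs <;> omega

theorem btw_lo_diff {n p q t : ℕ} (hp : p ≤ n) (hq : q ≤ n) (ht : t ≤ n) (h : p % 2 ≠ q % 2) :
    Btw (Up n p) (Lo n q) (Lo n t) ↔ (t % 2 ≠ p % 2 ∧ ((p < t ∧ t < q) ∨ (q < t ∧ t < p))) := by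
  unfold Btw Up Lo
  split_ifs <;> omega

theorem core_same_p {p k r t vr vt vp : ℕ} (hne : p ≠ r) (hne2 : (p + 2 * k + 2) ≠ t)
    (hn : vt = vr + if p ≤ r ∧ r < p + 2*(k+1) then 1 else 0)
    (R : ((r < p ∧ (vr + vp) % 2 = 0) ∨
          (p ≤ r ∧ r ≤ p + 2*k+1 ∧ (vr + vp + (r - p)) % 2 = 0) ∨
          (p + 2*k+2 ≤ r ∧ (vr + vp + 1) % 2 = 0)))
    (T : ((t < p ∧ (vt + vp) % 2 = 0) ∨
          (p ≤ t ∧ t ≤ p + 2*k+1 ∧ (vt + vp + (t - p)) % 2 = 0) ∨
          (p + 2*k+2 ≤ t ∧ (vt + vp + 1) % 2 = 0))) :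
    (r % 2 = p % 2 ∧ p < r) ∨ (r % 2 ≠ p % 2 ∧ (p + 2 * k + 2) < r) ↔
      (t % 2 = p % 2 ∧ (p + 2 * k + 2) < t) ∨ (t % 2 ≠ p % 2 ∧ p < t) := by
  rcases R with ⟨r1, r2⟩ | ⟨r1, r1', r2⟩ | ⟨r1, r2⟩ <;>
    first
      | rw [if_neg (by omega)] at hn
      | rw [if_pos (by omega)] at hn
  all_goals
    rcases T with ⟨t1, t2⟩ | ⟨t1, t1', t2⟩ | ⟨t1, t2⟩ <;> constructor <;>
      rintro (⟨x, y⟩ | ⟨x, y⟩) <;> omega

theorem core_same_q {q k r t vr vt vp : ℕ} (hne : (q + 2 * k + 2) ≠ r) (hne2 : q ≠ t)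
    (hn : vt = vr + if q ≤ r ∧ r < q + 2*(k+1) then 1 else 0)
    (R : ((r < q ∧ (vr + vp + 1) % 2 = 0) ∨
          (q ≤ r ∧ r ≤ q + 2*k+1 ∧ (vr + vp + (r - q)) % 2 = 0) ∨
          (q + 2*k+2 ≤ r ∧ (vr + vp) % 2 = 0)))
    (T : ((t < q ∧ (vt + vp + 1) % 2 = 0) ∨
          (q ≤ t ∧ t ≤ q + 2*k+1 ∧ (vt + vp + (t - q)) % 2 = 0) ∨
          (q + 2*k+2 ≤ t ∧ (vt + vp) % 2 = 0))) :
    (r % 2 = (q + 2 * k + 2) % 2 ∧ (q + 2 * k + 2) < r) ∨ (r % 2 ≠ (q + 2 * k + 2) % 2 ∧ q < r) ↔
      (t % 2 = (q + 2 * k + 2) % 2 ∧ q < t) ∨ (t % 2 ≠ (q + 2 * k + 2) % 2 ∧ (q + 2 * k + 2) < t) := by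
  rcases R with ⟨r1, r2⟩ | ⟨r1, r1', r2⟩ | ⟨r1, r2⟩ <;>
    first
      | rw [if_neg (by omega)] at hn
      | rw [if_pos (by omega)] at hn
  all_goals
    rcases T with ⟨t1, t2⟩ | ⟨t1, t1', t2⟩ | ⟨t1, t2⟩ <;> constructor <;>
      rintro (⟨x, y⟩ | ⟨x, y⟩) <;> omega

theorem core_diff_p {p k r t vr vt vp : ℕ}
    (hn : vt = vr + if p+1 ≤ r ∧ r < p+1 + 2*k then 1 else 0)
    (R : (((r ≤ p ∨ p+2*k+1 ≤ r) ∧ vr % 2 = vp % 2) ∨
          (p+1 ≤ r ∧ r < p+2*k+1 ∧ (vr + vp + 1 + (r - p - 1)) % 2 = 0)))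
    (T : (((t ≤ p ∨ p+2*k+1 ≤ t) ∧ vt % 2 = vp % 2) ∨
          (p+1 ≤ t ∧ t < p+2*k+1 ∧ (vt + vp + 1 + (t - p - 1)) % 2 = 0))) :
    (r % 2 = p % 2 ∧ ((p < r ∧ r < (p + 2 * k + 1)) ∨ ((p + 2 * k + 1) < r ∧ r < p))) ↔
      (t % 2 ≠ p % 2 ∧ ((p < t ∧ t < (p + 2 * k + 1)) ∨ ((p + 2 * k + 1) < t ∧ t < p))) := by
  rcases R with ⟨r1, r2⟩ | ⟨r1, r1', r2⟩ <;>
    first
      | rw [if_neg (by omega)] at hn
      | rw [if_pos (by omega)] at hn
  all_goals
    rcases T with ⟨t1, t2⟩ | ⟨t1, t1', t2⟩ <;> constructor <;>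
      intro hx <;> omega

theorem core_diff_q {q k r t vr vt vp : ℕ}
    (hn : vt = vr + if q+1 ≤ r ∧ r < q+1 + 2*k then 1 else 0)
    (R : (((r ≤ q ∨ q+2*k+1 ≤ r) ∧ vr % 2 = vp % 2) ∨
          (q+1 ≤ r ∧ r < q+2*k+1 ∧ (vr + vp + 0 + (r - q - 1)) % 2 = 0)))
    (T : (((t ≤ q ∨ q+2*k+1 ≤ t) ∧ vt % 2 = vp % 2) ∨
          (q+1 ≤ t ∧ t < q+2*k+1 ∧ (vt + vp + 0 + (t - q - 1)) % 2 = 0))) :
    (r % 2 = (q + 2 * k + 1) % 2 ∧ (((q + 2 * k + 1) < r ∧ r < q) ∨ (q < r ∧ r < (q + 2 * k + 1)))) ↔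
      (t % 2 ≠ (q + 2 * k + 1) % 2 ∧ (((q + 2 * k + 1) < t ∧ t < q) ∨ (q < t ∧ t < (q + 2 * k + 1)))) := by
  rcases R with ⟨r1, r2⟩ | ⟨r1, r1', r2⟩ <;>
    first
      | rw [if_neg (by omega)] at hn
      | rw [if_pos (by omega)] at hn
  all_goals
    rcases T with ⟨t1, t2⟩ | ⟨t1, t1', t2⟩ <;> constructor <;>
      intro hx <;> omega

/-- Chords do not cross. -/
theorem chord {n : ℕ} {δ : ℕ → Prop} {g : ℕ → ℕ} (hs : St n δ g) {p q r t : ℕ} (hp : p ≤ n)
    (hq : q ≤ n) (hr : r ≤ n) (ht : t ≤ n) (hpq : g q = g p + 1) (hrt : g t = g r + 1)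
    (hne : p ≠ r) :
    Btw (Up n p) (Lo n q) (Up n r) ↔ Btw (Up n p) (Lo n q) (Lo n t) := by
  have hne2 : q ≠ t := fun h => by
    rw [h] at hpq
    exact hne (hs.inj p r hp hr (by omega))
  have hpqne : p ≠ q := fun h => by rw [h] at hpq; omega
  have hrtne : r ≠ t := fun h => by rw [h] at hrt; omega
  rcases Nat.lt_or_ge p q with hlt | hge
  · -- lo = p, hi = q
    rcases Nat.mod_two_eq_zero_or_one (q - p) with hpar | hpar
    · obtain ⟨k, hk⟩ : ∃ k, q = p + 2 * k + 2 := ⟨(q - p)/2 - 1, by omega⟩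
      subst hk
      obtain ⟨o1, o2, o3⟩ := odd_case hs (lo := p) (k := k) hq (Or.inl hpq)
      have hn := SS_next hs hr ht hrt p (2*(k+1)) (by omega)
      have b1 : bb g (p+2*k+2) p = 0 := by unfold bb; rw [if_neg (by omega)]
      have b2 : bb g p (p+2*k+2) = 1 := by unfold bb; rw [if_pos (by omega)]
      have R : (r < p ∧ (SS g p (2*(k+1)) r + SS g p (2*(k+1)) p) % 2 = 0) ∨
          (p ≤ r ∧ r ≤ p + 2*k+1 ∧ (SS g p (2*(k+1)) r + SS g p (2*(k+1)) p + (r - p)) % 2 = 0) ∨
          (p + 2*k+2 ≤ r ∧ (SS g p (2*(k+1)) r + SS g p (2*(k+1)) p + 1) % 2 = 0) := by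
        rcases Nat.lt_or_ge r p with h | h
        · left; have := o1 r h; rw [b1] at this; exact ⟨h, this⟩
        · rcases Nat.lt_or_ge r (p+2*k+2) with h' | h'
          · right; left
            have := o2 (r - p) (by omega)
            have e : p + (r - p) = r := by omega
            rw [e] at this
            exact ⟨h, by omega, this⟩
          · right; right
            have := o3 r h' hr
            rw [b2] at this
            exact ⟨h', this⟩
      have T : (t < p ∧ (SS g p (2*(k+1)) t + SS g p (2*(k+1)) p) % 2 = 0) ∨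
          (p ≤ t ∧ t ≤ p + 2*k+1 ∧ (SS g p (2*(k+1)) t + SS g p (2*(k+1)) p + (t - p)) % 2 = 0) ∨
          (p + 2*k+2 ≤ t ∧ (SS g p (2*(k+1)) t + SS g p (2*(k+1)) p + 1) % 2 = 0) := by
        rcases Nat.lt_or_ge t p with h | h
        · left; have := o1 t h; rw [b1] at this; exact ⟨h, this⟩
        · rcases Nat.lt_or_ge t (p+2*k+2) with h' | h'
          · right; left
            have := o2 (t - p) (by omega)
            have e : p + (t - p) = t := by omega
            rw [e] at this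
            exact ⟨h, by omega, this⟩
          · right; right
            have := o3 t h' ht
            rw [b2] at this
            exact ⟨h', this⟩
      rw [btw_up_same hp hq hr (by omega), btw_lo_same hp hq ht (by omega)]
      exact core_same_p hne hne2 hn R T
    · obtain ⟨k, hk⟩ : ∃ k, q = p + 2 * k + 1 := ⟨(q - p)/2, by omega⟩
      subst hk
      obtain ⟨e1, e2⟩ := even_case hs (lo := p) (k := k) hq (Or.inl hpq)
      have hn := SS_next hs hr ht hrt (p+1) (2*k) (by omega)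
      have b2 : bb g p (p+2*k+1) = 1 := by unfold bb; rw [if_pos (by omega)]
      have R : ((r ≤ p ∨ p+2*k+1 ≤ r) ∧ SS g (p+1) (2*k) r % 2 = SS g (p+1) (2*k) p % 2) ∨
          (p+1 ≤ r ∧ r < p+2*k+1 ∧
            (SS g (p+1) (2*k) r + SS g (p+1) (2*k) p + 1 + (r - p - 1)) % 2 = 0) := by
        by_cases h : r ≤ p ∨ p+2*k+1 ≤ r
        · left; exact ⟨h, e1 r hr h⟩
        · right
          have := e2 (r - p - 1) (by omega)
          have e : p + 1 + (r - p - 1) = r := by omega
          rw [e, b2] at this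
          exact ⟨by omega, by omega, this⟩
      have T : ((t ≤ p ∨ p+2*k+1 ≤ t) ∧ SS g (p+1) (2*k) t % 2 = SS g (p+1) (2*k) p % 2) ∨
          (p+1 ≤ t ∧ t < p+2*k+1 ∧
            (SS g (p+1) (2*k) t + SS g (p+1) (2*k) p + 1 + (t - p - 1)) % 2 = 0) := by
        by_cases h : t ≤ p ∨ p+2*k+1 ≤ t
        · left; exact ⟨h, e1 t ht h⟩
        · right
          have := e2 (t - p - 1) (by omega)
          have e : p + 1 + (t - p - 1) = t := by omega
          rw [e, b2] at this
          exact ⟨by omega, by omega, this⟩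
      rw [btw_up_diff hp hq hr (by omega), btw_lo_diff hp hq ht (by omega)]
      exact core_diff_p hn R T
  · -- lo = q, hi = p
    rcases Nat.mod_two_eq_zero_or_one (p - q) with hpar | hpar
    · obtain ⟨k, hk⟩ : ∃ k, p = q + 2 * k + 2 := ⟨(p - q)/2 - 1, by omega⟩
      subst hk
      obtain ⟨o1, o2, o3⟩ := odd_case hs (lo := q) (k := k) hp (Or.inr hpq)
      have hn := SS_next hs hr ht hrt q (2*(k+1)) (by omega)
      have b1 : bb g (q+2*k+2) q = 1 := by unfold bb; rw [if_pos (by omega)]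
      have b2 : bb g q (q+2*k+2) = 0 := by unfold bb; rw [if_neg (by omega)]
      have R : (r < q ∧ (SS g q (2*(k+1)) r + SS g q (2*(k+1)) q + 1) % 2 = 0) ∨
          (q ≤ r ∧ r ≤ q + 2*k+1 ∧ (SS g q (2*(k+1)) r + SS g q (2*(k+1)) q + (r - q)) % 2 = 0) ∨
          (q + 2*k+2 ≤ r ∧ (SS g q (2*(k+1)) r + SS g q (2*(k+1)) q) % 2 = 0) := by
        rcases Nat.lt_or_ge r q with h | h
        · left; have := o1 r h; rw [b1] at this; exact ⟨h, this⟩
        · rcases Nat.lt_or_ge r (q+2*k+2) with h' | h'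
          · right; left
            have := o2 (r - q) (by omega)
            have e : q + (r - q) = r := by omega
            rw [e] at this
            exact ⟨h, by omega, this⟩
          · right; right
            have := o3 r h' hr
            rw [b2] at this
            exact ⟨h', this⟩
      have T : (t < q ∧ (SS g q (2*(k+1)) t + SS g q (2*(k+1)) q + 1) % 2 = 0) ∨
          (q ≤ t ∧ t ≤ q + 2*k+1 ∧ (SS g q (2*(k+1)) t + SS g q (2*(k+1)) q + (t - q)) % 2 = 0) ∨
          (q + 2*k+2 ≤ t ∧ (SS g q (2*(k+1)) t + SS g q (2*(k+1)) q) % 2 = 0) := by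
        rcases Nat.lt_or_ge t q with h | h
        · left; have := o1 t h; rw [b1] at this; exact ⟨h, this⟩
        · rcases Nat.lt_or_ge t (q+2*k+2) with h' | h'
          · right; left
            have := o2 (t - q) (by omega)
            have e : q + (t - q) = t := by omega
            rw [e] at this
            exact ⟨h, by omega, this⟩
          · right; right
            have := o3 t h' ht
            rw [b2] at this
            exact ⟨h', this⟩
      rw [btw_up_same hp hq hr (by omega), btw_lo_same hp hq ht (by omega)]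
      exact core_same_q hne hne2 hn R T
    · obtain ⟨k, hk⟩ : ∃ k, p = q + 2 * k + 1 := ⟨(p - q)/2, by omega⟩
      subst hk
      obtain ⟨e1, e2⟩ := even_case hs (lo := q) (k := k) hp (Or.inr hpq)
      have hn := SS_next hs hr ht hrt (q+1) (2*k) (by omega)
      have b2 : bb g q (q+2*k+1) = 0 := by unfold bb; rw [if_neg (by omega)]
      have R : ((r ≤ q ∨ q+2*k+1 ≤ r) ∧ SS g (q+1) (2*k) r % 2 = SS g (q+1) (2*k) q % 2) ∨
          (q+1 ≤ r ∧ r < q+2*k+1 ∧
            (SS g (q+1) (2*k) r + SS g (q+1) (2*k) q + 0 + (r - q - 1)) % 2 = 0) := by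
        by_cases h : r ≤ q ∨ q+2*k+1 ≤ r
        · left; exact ⟨h, e1 r hr h⟩
        · right
          have := e2 (r - q - 1) (by omega)
          have e : q + 1 + (r - q - 1) = r := by omega
          rw [e, b2] at this
          exact ⟨by omega, by omega, this⟩
      have T : ((t ≤ q ∨ q+2*k+1 ≤ t) ∧ SS g (q+1) (2*k) t % 2 = SS g (q+1) (2*k) q % 2) ∨
          (q+1 ≤ t ∧ t < q+2*k+1 ∧
            (SS g (q+1) (2*k) t + SS g (q+1) (2*k) q + 0 + (t - q - 1)) % 2 = 0) := by
        by_cases h : t ≤ q ∨ q+2*k+1 ≤ t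
        · left; exact ⟨h, e1 t ht h⟩
        · right
          have := e2 (t - q - 1) (by omega)
          have e : q + 1 + (t - q - 1) = t := by omega
          rw [e, b2] at this
          exact ⟨by omega, by omega, this⟩
      rw [btw_up_diff hp hq hr (by omega), btw_lo_diff hp hq ht (by omega)]
      exact core_diff_q hn R T

end Pool.Agent.MV68
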