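import Pool.Agent.MV68.Chords

namespace Pool.Agent.MV68

open Pool.Agent.Results.MP_15ecc6_co.DoubleCatalan

/-- The segment with a side at position `z`. -/
def seg (n z : ℕ) : ℕ := if z ≤ n then z else 2 * n + 1 - z

/-- The gap at position `z`: gap `m` is the one between the heights `m` and `m+1`. -/
def gp (n : ℕ) (g : ℕ → ℕ) (z : ℕ) : ℤ :=
  if z % 2 = 0 then (g (seg n z) : ℤ) else (g (seg n z) : ℤ) - 1

theorem seg_le {n z : ℕ} (hz : z ≤ 2 * n + 1) : seg n z ≤ n := by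
  unfold seg; split_ifs <;> omega

theorem Up_mod {n x : ℕ} (hx : x ≤ n) : Up n x % 2 = 0 := by
  unfold Up; split_ifs <;> omega

theorem Lo_mod {n x : ℕ} (hx : x ≤ n) : Lo n x % 2 = 1 := by
  unfold Lo; split_ifs <;> omega

theorem Up_bd {n x : ℕ} (hx : x ≤ n) : Up n x ≤ 2 * n + 1 := by
  unfold Up; split_ifs <;> omega

theorem Lo_bd {n x : ℕ} (hx : x ≤ n) : Lo n x ≤ 2 * n + 1 := by
  unfold Lo; split_ifs <;> omega

theorem seg_Up {n x : ℕ} (hx : x ≤ n) : seg n (Up n x) = x := by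
  unfold seg Up; split_ifs <;> omega

theorem seg_Lo {n x : ℕ} (hx : x ≤ n) : seg n (Lo n x) = x := by
  unfold seg Lo; split_ifs <;> omega

theorem eq_Up {n z : ℕ} (hz : z ≤ 2 * n + 1) (h : z % 2 = 0) : Up n (seg n z) = z := by
  unfold seg Up; split_ifs <;> omega

theorem eq_Lo {n z : ℕ} (hz : z ≤ 2 * n + 1) (h : z % 2 = 1) : Lo n (seg n z) = z := by
  unfold seg Lo; split_ifs <;> omega

theorem gp_Up {n x : ℕ} {g : ℕ → ℕ} (hx : x ≤ n) : gp n g (Up n x) = g x := by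
  unfold gp
  rw [if_pos (Up_mod hx), seg_Up hx]

theorem gp_Lo {n x : ℕ} {g : ℕ → ℕ} (hx : x ≤ n) : gp n g (Lo n x) = (g x : ℤ) - 1 := by
  unfold gp
  rw [if_neg (by rw [Lo_mod hx]; omega), seg_Lo hx]

/-- A stack of segments whose adjacency chords do not cross. -/
structure Cir (n : ℕ) (g : ℕ → ℕ) : Prop where
  le : ∀ x, x ≤ n → g x ≤ n
  inj : ∀ x y, x ≤ n → y ≤ n → g x = g y → x = y
  surj : ∀ c, c ≤ n → ∃ x, x ≤ n ∧ g x = c
  nc : ∀ p q r t, p ≤ n → q ≤ n → r ≤ n → t ≤ n → g q = g p + 1 → g t = g r + 1 → p ≠ r →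
    (Btw (Up n p) (Lo n q) (Up n r) ↔ Btw (Up n p) (Lo n q) (Lo n t))

theorem Cir.of_St {n : ℕ} {δ : ℕ → Prop} {g : ℕ → ℕ} (hs : St n δ g) : Cir n g :=
  ⟨hs.le, hs.inj, fun c hc => hs.surj c hc,
    fun _ _ _ _ hp hq hr ht hpq hrt hne => chord hs hp hq hr ht hpq hrt hne⟩

theorem gp_inj {n : ℕ} {g : ℕ → ℕ} (hc : Cir n g) {z z' : ℕ} (hz : z ≤ 2 * n + 1)
    (hz' : z' ≤ 2 * n + 1) (hp : z % 2 = z' % 2) (h : gp n g z = gp n g z') : z = z' := by
  rcases Nat.mod_two_eq_zero_or_one z with h0 | h0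
  · have h1 : z' % 2 = 0 := by omega
    unfold gp at h
    rw [if_pos h0, if_pos h1] at h
    have := hc.inj _ _ (seg_le hz) (seg_le hz') (by omega)
    rw [← eq_Up hz h0, ← eq_Up hz' h1, this]
  · have h1 : z' % 2 = 1 := by omega
    unfold gp at h
    rw [if_neg (by omega), if_neg (by omega)] at h
    have := hc.inj _ _ (seg_le hz) (seg_le hz') (by omega)
    rw [← eq_Lo hz h0, ← eq_Lo hz' h1, this]

theorem gp_partner {n : ℕ} {g : ℕ → ℕ} (hc : Cir n g) {z : ℕ} (hz : z ≤ 2 * n + 1)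
    (h0 : 0 ≤ gp n g z) (h1 : gp n g z < n) :
    ∃ z', z' ≤ 2 * n + 1 ∧ z' % 2 ≠ z % 2 ∧ gp n g z' = gp n g z := by
  rcases Nat.mod_two_eq_zero_or_one z with h2 | h2
  · have e : gp n g z = g (seg n z) := by unfold gp; rw [if_pos h2]
    obtain ⟨y, hy, hgy⟩ := hc.surj (g (seg n z) + 1) (by omega)
    refine ⟨Lo n y, Lo_bd hy, ?_, ?_⟩
    · have := Lo_mod hy; omega
    · rw [gp_Lo hy, e, hgy]; push_cast; ring
  · have e : gp n g z = (g (seg n z) : ℤ) - 1 := by unfold gp; rw [if_neg (by omega)]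
    obtain ⟨y, hy, hgy⟩ := hc.surj (g (seg n z) - 1) (by have := hc.le _ (seg_le hz); omega)
    refine ⟨Up n y, Up_bd hy, ?_, ?_⟩
    · have := Up_mod hy; omega
    · rw [gp_Up hy, e, hgy]; omega

/-- Chords do not cross, in terms of positions. -/
theorem gp_nx {n : ℕ} {g : ℕ → ℕ} (hc : Cir n g) {a b c d : ℕ} (ha : a ≤ 2 * n + 1)
    (hb : b ≤ 2 * n + 1) (hc' : c ≤ 2 * n + 1) (hd : d ≤ 2 * n + 1) (hab : a % 2 ≠ b % 2)
    (hcd : c % 2 ≠ d % 2) (gab : gp n g a = gp n g b) (gcd : gp n g c = gp n g d) (hca : c ≠ a)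
    (hcb : c ≠ b) : Btw a b c ↔ Btw a b d := by
  -- reduce to even `a` and even `c`
  have core : ∀ a b c d : ℕ, a ≤ 2 * n + 1 → b ≤ 2 * n + 1 → c ≤ 2 * n + 1 → d ≤ 2 * n + 1 →
      a % 2 = 0 → b % 2 = 1 → c % 2 = 0 → d % 2 = 1 → gp n g a = gp n g b → gp n g c = gp n g d →
      c ≠ a → (Btw a b c ↔ Btw a b d) := by
    intro a b c d ha hb hc' hd pa pb pc pd gab gcd hca
    have e1 := eq_Up ha pa
    have e2 := eq_Lo hb pb
    have e3 := eq_Up hc' pc
    have e4 := eq_Lo hd pd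
    have s1 := seg_le ha
    have s2 := seg_le hb
    have s3 := seg_le hc'
    have s4 := seg_le hd
    unfold gp at gab gcd
    rw [if_pos pa, if_neg (by omega)] at gab
    rw [if_pos pc, if_neg (by omega)] at gcd
    have := hc.nc _ _ _ _ s1 s2 s3 s4 (by omega) (by omega) (fun h => hca (by rw [← e1, ← e3, h]))
    rw [e1, e2, e3, e4] at this
    exact this
  have bs : ∀ a b c : ℕ, Btw a b c ↔ Btw b a c := by
    intro a b c; unfold Btw; omega
  rcases Nat.mod_two_eq_zero_or_one a with pa | pa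
  · have pb : b % 2 = 1 := by omega
    rcases Nat.mod_two_eq_zero_or_one c with pc | pc
    · exact core a b c d ha hb hc' hd pa pb pc (by omega) gab gcd hca
    · have hda : d ≠ a := by
        rintro rfl
        exact hcb (gp_inj hc hc' hb (by omega) (gcd.trans gab))
      exact (core a b d c ha hb hd hc' pa pb (by omega) pc gab gcd.symm hda).symm
  · have pb : b % 2 = 0 := by omega
    rcases Nat.mod_two_eq_zero_or_one c with pc | pc
    · rw [bs a b c, bs a b d]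
      exact core b a c d hb ha hc' hd pb pa pc (by omega) gab.symm gcd hcb
    · have hdb : d ≠ b := by
        rintro rfl
        exact hca (gp_inj hc hc' ha (by omega) (gcd.trans gab.symm))
      rw [bs a b c, bs a b d]
      exact (core b a d c hb ha hd hc' pb pa (by omega) pc gab.symm gcd.symm hdb).symm

/-! Parity of the number of positions between the ends of a chord with a gap in a range -/

open Classical in
noncomputable def ir (n : ℕ) (g : ℕ → ℕ) (lo hi : ℤ) (z : ℕ) : ZMod 2 :=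
  if lo ≤ gp n g z ∧ gp n g z < hi then 1 else 0

theorem ir_eq {n : ℕ} {g : ℕ → ℕ} {lo hi : ℤ} {z z' : ℕ}
    (h : (lo ≤ gp n g z ∧ gp n g z < hi) ↔ (lo ≤ gp n g z' ∧ gp n g z' < hi)) :
    ir n g lo hi z = ir n g lo hi z' := by
  unfold ir
  by_cases h1 : lo ≤ gp n g z ∧ gp n g z < hi
  · rw [if_pos h1, if_pos (h.1 h1)]
  · rw [if_neg h1, if_neg (fun h2 => h1 (h.2 h2))]

theorem ir_iff {n : ℕ} {g : ℕ → ℕ} {lo hi : ℤ} {z z' : ℕ}
    (h : ir n g lo hi z = ir n g lo hi z') :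
    (lo ≤ gp n g z ∧ gp n g z < hi) ↔ (lo ≤ gp n g z' ∧ gp n g z' < hi) := by
  unfold ir at h
  have h10 : (1 : ZMod 2) ≠ 0 := by decide
  by_cases h1 : lo ≤ gp n g z ∧ gp n g z < hi
  · rw [if_pos h1] at h
    by_cases h2 : lo ≤ gp n g z' ∧ gp n g z' < hi
    · exact ⟨fun _ => h2, fun _ => h1⟩
    · rw [if_neg h2] at h; exact absurd h h10
  · rw [if_neg h1] at h
    by_cases h2 : lo ≤ gp n g z' ∧ gp n g z' < hi
    · rw [if_pos h2] at h; exact absurd h.symm h10
    · exact ⟨fun hh => absurd hh h1, fun hh => absurd hh h2⟩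

theorem ir_sum {n : ℕ} {g : ℕ → ℕ} (hc : Cir n g) {lo hi : ℤ} (hlo : 0 ≤ lo) (hhi : hi ≤ n)
    {a b : ℕ} (hb : b ≤ 2 * n + 1) (hlt : a < b) (hp : a % 2 ≠ b % 2)
    (hg : gp n g a = gp n g b) : ∑ z ∈ Finset.Ico (a+1) b, ir n g lo hi z = 0 := by
  classical
  have hpart : ∀ z, z ∈ Finset.Ico (a+1) b → lo ≤ gp n g z ∧ gp n g z < hi →
      ∃ z', z' ∈ Finset.Ico (a+1) b ∧ z' % 2 ≠ z % 2 ∧ gp n g z' = gp n g z := by
    intro z hz hir
    rw [Finset.mem_Ico] at hz
    obtain ⟨z', h1, h2, h3⟩ := gp_partner hc (z := z) (by omega) (by omega) (by omega)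
    refine ⟨z', ?_, h2, h3⟩
    have := gp_nx hc (a := a) (b := b) (c := z) (d := z') (by omega) hb (by omega) h1 hp
      (Ne.symm h2) hg h3.symm (by omega) (by omega)
    unfold Btw at this
    rw [Finset.mem_Ico]
    omega
  let φ : ∀ z ∈ Finset.Ico (a+1) b, ℕ := fun z hz =>
    if h : lo ≤ gp n g z ∧ gp n g z < hi then Classical.choose (hpart z hz h) else z
  have hφ : ∀ z (hz : z ∈ Finset.Ico (a+1) b) (h : lo ≤ gp n g z ∧ gp n g z < hi),
      φ z hz ∈ Finset.Ico (a+1) b ∧ φ z hz % 2 ≠ z % 2 ∧ gp n g (φ z hz) = gp n g z := by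
    intro z hz h
    have : φ z hz = Classical.choose (hpart z hz h) := by
      show (if h : lo ≤ gp n g z ∧ gp n g z < hi then Classical.choose (hpart z hz h) else z) = _
      rw [dif_pos h]
    rw [this]
    exact Classical.choose_spec (hpart z hz h)
  have hφ0 : ∀ z (hz : z ∈ Finset.Ico (a+1) b) (_ : ¬ (lo ≤ gp n g z ∧ gp n g z < hi)),
      φ z hz = z := by
    intro z hz h
    show (if h : lo ≤ gp n g z ∧ gp n g z < hi then Classical.choose (hpart z hz h) else z) = _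
    rw [dif_neg h]
  refine Finset.sum_involution φ ?_ ?_ ?_ ?_
  · intro z hz
    by_cases h : lo ≤ gp n g z ∧ gp n g z < hi
    · obtain ⟨_, _, h3⟩ := hφ z hz h
      have e : ir n g lo hi (φ z hz) = ir n g lo hi z := ir_eq (by rw [h3])
      rw [e]
      exact CharTwo.add_self_eq_zero _
    · rw [hφ0 z hz h]
      exact CharTwo.add_self_eq_zero _
  · intro z hz hne
    have h : lo ≤ gp n g z ∧ gp n g z < hi := by
      by_contra hcon
      apply hne
      unfold ir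
      rw [if_neg hcon]
    obtain ⟨_, h2, _⟩ := hφ z hz h
    intro he
    rw [he] at h2
    exact h2 rfl
  · intro z hz
    by_cases h : lo ≤ gp n g z ∧ gp n g z < hi
    · exact (hφ z hz h).1
    · rw [hφ0 z hz h]; exact hz
  · intro z hz
    by_cases h : lo ≤ gp n g z ∧ gp n g z < hi
    · obtain ⟨h1, h2, h3⟩ := hφ z hz h
      have h' : lo ≤ gp n g (φ z hz) ∧ gp n g (φ z hz) < hi := by rw [h3]; exact h
      obtain ⟨h4, h5, h6⟩ := hφ _ h1 h'
      rw [Finset.mem_Ico] at h1 h4 hz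
      exact gp_inj hc (by omega) (by omega) (by omega) (h6.trans h3)
    · have e := hφ0 z hz h
      have h' : ¬ (lo ≤ gp n g (φ z hz) ∧ gp n g (φ z hz) < hi) := by rw [e]; exact h
      have e2 := hφ0 (φ z hz) (by rw [e]; exact hz) h'
      rw [e2, e]

theorem pair_sum {n : ℕ} {g : ℕ → ℕ} {lo hi : ℤ} (a d : ℕ)
    (h : ∀ k, k < d → ir n g lo hi (a + 2 * k) = ir n g lo hi (a + 2 * k + 1)) :
    ∑ z ∈ Finset.Ico a (a + 2 * d), ir n g lo hi z = 0 := by
  induction d with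
  | zero => simp
  | succ d ih =>
    have e : a + 2 * (d+1) = (a + 2 * d + 1) + 1 := by omega
    rw [e, Finset.sum_Ico_succ_top (by omega), Finset.sum_Ico_succ_top (by omega),
      ih (fun k hk => h k (by omega)), zero_add, ← h d (by omega)]
    exact CharTwo.add_self_eq_zero _

end Pool.Agent.MV68
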