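import Mathlib

/-!
# Mountain-valley strings with many flat foldings of a strip

The periodic string `VVMMVVMM...` has exactly `C_a * C_b` folded states (`C` the Catalan numbers,
`a + b = n/2 + 2`), so the largest number `M(n)` of folded states of a string of length `n` is of
order at least `2 ^ n / n ^ 3`.

Proof idea. At the creases `1, 3, 5, ...` the next segment is forced to be next to the last one. At
the creases `2, 4, 6, ...` it may go to any gap which is not covered by an arc at coordinate `0`,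
below the last segment at the creases `2, 6, ...` and above it at the creases `4, 8, ...`. A move
down to the `k`-th of the `d` gaps below, counted from the bottom, leaves `k` gaps below and one more
gap above. So the numbers of gaps below and above perform two independent Catalan walks.
-/

namespace Pool.Agent.Results.MP_15ecc6_co.DoubleCatalan

/-- The pairs of heights `{a, b}` and `{c, d}` interleave: one of the pairs starts strictly first
(from the bottom), the other one starts strictly inside it and ends strictly above it. -/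
def Interleave (a b c d : ℕ) : Prop :=
  (min a b < min c d ∧ min c d < max a b ∧ max a b < max c d) ∨
  (min c d < min a b ∧ min a b < max c d ∧ max c d < max a b)

/-- A folded state of the strip with creases `c_1, ..., c_n` and segments `S_0, ..., S_n`, given by
the order of the segments from bottom to top: `σ i` is the height of the segment `S_i`. The crease
`c_{i+1}` joins `S_i` and `S_{i+1}` (here `i : Fin n`). Two different creases lie at the same
coordinate when their indices have the same parity, and then their pairs must not interleave. -/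
def IsFoldedState {n : ℕ} (σ : Equiv.Perm (Fin (n+1))) : Prop :=
  ∀ i j : Fin n, i ≠ j → (i : ℕ) % 2 = (j : ℕ) % 2 →
    ¬ Interleave (σ i.castSucc) (σ i.succ) (σ j.castSucc) (σ j.succ)

/-- The crease `c_{i+1}` is a valley: `i+1` is odd and `S_{i+1}` lies above `S_i`, or `i+1` is even
and `S_{i+1}` lies below `S_i`. -/
def IsValley {n : ℕ} (σ : Equiv.Perm (Fin (n+1))) (i : Fin n) : Prop :=
  ((i : ℕ) % 2 = 0 ∧ σ i.castSucc < σ i.succ) ∨ ((i : ℕ) % 2 = 1 ∧ σ i.succ < σ i.castSucc)

/-- The folded state is consistent with the string `s`; `s i = true` says that the letter of the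
crease `c_{i+1}` is `V`, and `s i = false` that it is `M`. -/
def Consistent {n : ℕ} (s : Fin n → Bool) (σ : Equiv.Perm (Fin (n+1))) : Prop :=
  ∀ i : Fin n, s i = true ↔ IsValley σ i

/-- `N(s)`, the number of folded states consistent with `s`. -/
noncomputable def numStates {n : ℕ} (s : Fin n → Bool) : ℕ :=
  Nat.card {σ : Equiv.Perm (Fin (n+1)) // IsFoldedState σ ∧ Consistent s σ}

/-- `M(n)`, the largest `N(s)` over all strings `s` of length `n`. -/
noncomputable def maxStates (n : ℕ) : ℕ := Finset.univ.sup (fun s : Fin n → Bool => numStates s)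

/-- The first `n` letters of `VVMMVVMMVVMM...`. -/
def vvmm (n : ℕ) : Fin n → Bool := fun i => decide ((i : ℕ) % 4 < 2)

/-! ## Heights as functions on the natural numbers -/

/-- `g` lists the heights of the segments `S_0, ..., S_n` of a folded state in which the crease
`c_{i+1}` leads upwards exactly when `δ i` holds. -/
structure St (n : ℕ) (δ : ℕ → Prop) (g : ℕ → ℕ) : Prop where
  zero : ∀ x, n < x → g x = 0
  le : ∀ x, x ≤ n → g x ≤ n
  inj : ∀ x y, x ≤ n → y ≤ n → g x = g y → x = y
  nc : ∀ i j, i < j → j < n → i % 2 = j % 2 → ¬ Interleave (g i) (g (i+1)) (g j) (g (j+1))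
  dir : ∀ i, i < n → (g i < g (i+1) ↔ δ i)

def Ext (m : ℕ) (h g : ℕ → ℕ) : Prop := ∀ x y, x ≤ m → y ≤ m → (g x < g y ↔ h x < h y)

theorem interleave_congr {a b c d a' b' c' d' : ℕ} (h1 : a < c ↔ a' < c') (h2 : a < d ↔ a' < d')
    (h3 : b < c ↔ b' < c') (h4 : b < d ↔ b' < d') (h5 : c < a ↔ c' < a') (h6 : d < a ↔ d' < a')
    (h7 : c < b ↔ c' < b') (h8 : d < b ↔ d' < b') :
    Interleave a b c d ↔ Interleave a' b' c' d' := by
  simp only [Interleave, lt_min_iff, min_lt_iff, lt_max_iff, max_lt_iff, h1, h2, h3, h4, h5, h6,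
    h7, h8]

theorem interleave_rev {n a b c d : ℕ} (ha : a ≤ n) (hb : b ≤ n) (hc : c ≤ n) (hd : d ≤ n)
    (h : Interleave (n - a) (n - b) (n - c) (n - d)) : Interleave a b c d := by
  have e1 : min (n - a) (n - b) = n - max a b := by omega
  have e2 : min (n - c) (n - d) = n - max c d := by omega
  have e3 : max (n - a) (n - b) = n - min a b := by omega
  have e4 : max (n - c) (n - d) = n - min c d := by omega
  unfold Interleave at h ⊢
  rw [e1, e2, e3, e4] at h
  have h1 : max a b ≤ n := max_le ha hb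
  have h2 : max c d ≤ n := max_le hc hd
  have h3 : min a b ≤ n := (min_le_left _ _).trans ha
  have h4 : min c d ≤ n := (min_le_left _ _).trans hc
  generalize max a b = x at h h1 ⊢
  generalize max c d = y at h h2 ⊢
  generalize min a b = z at h h3 ⊢
  generalize min c d = w at h h4 ⊢
  rcases h with ⟨q1, q2, q3⟩ | ⟨q1, q2, q3⟩
  · right
    refine ⟨?_, ?_, ?_⟩ <;> omega
  · left
    refine ⟨?_, ?_, ?_⟩ <;> omega

theorem St.surj {n : ℕ} {δ : ℕ → Prop} {g : ℕ → ℕ} (h : St n δ g) (c : ℕ) (hc : c ≤ n) :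
    ∃ x, x ≤ n ∧ g x = c := by
  have himg : (Finset.range (n+1)).image g = Finset.range (n+1) := by
    apply Finset.eq_of_subset_of_card_le
    · intro y hy
      rw [Finset.mem_image] at hy
      obtain ⟨x, hx, rfl⟩ := hy
      rw [Finset.mem_range] at hx ⊢
      have := h.le x (by omega)
      omega
    · rw [Finset.card_image_of_injOn]
      intro x hx y hy hxy
      simp only [Finset.coe_range, Set.mem_Iio] at hx hy
      exact h.inj x y (by omega) (by omega) hxy
  have hmem : c ∈ (Finset.range (n+1)).image g := by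
    rw [himg, Finset.mem_range]; omega
  rw [Finset.mem_image] at hmem
  obtain ⟨x, hx, hxc⟩ := hmem
  rw [Finset.mem_range] at hx
  exact ⟨x, by omega, hxc⟩

theorem St.rank {n : ℕ} {δ : ℕ → Prop} {g : ℕ → ℕ} (h : St n δ g) (x : ℕ) (hx : x ≤ n) :
    ((Finset.range (n+1)).filter (fun y => g y < g x)).card = g x := by
  have himg : ((Finset.range (n+1)).filter (fun y => g y < g x)).image g = Finset.range (g x) := by
    ext c
    simp only [Finset.mem_image, Finset.mem_filter, Finset.mem_range]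
    constructor
    · rintro ⟨y, ⟨_, hy⟩, rfl⟩; exact hy
    · intro hc
      have hxn := h.le x hx
      obtain ⟨y, hy, hyc⟩ := h.surj c (by omega)
      exact ⟨y, ⟨by omega, by omega⟩, hyc⟩
  have hcard : (((Finset.range (n+1)).filter (fun y => g y < g x)).image g).card =
      ((Finset.range (n+1)).filter (fun y => g y < g x)).card := by
    apply Finset.card_image_of_injOn
    intro a ha b hb hab
    simp only [Finset.coe_filter, Finset.mem_range, Set.mem_ofPred_eq] at ha hb
    exact h.inj a b (by omega) (by omega) hab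
  rw [← hcard, himg, Finset.card_range]

theorem St.rigid {n : ℕ} {δ δ' : ℕ → Prop} {g g' : ℕ → ℕ} (h : St n δ g) (h' : St n δ' g')
    (he : Ext n g g') : g = g' := by
  funext x
  by_cases hx : x ≤ n
  · rw [← h.rank x hx, ← h'.rank x hx]
    congr 1
    apply Finset.filter_congr
    intro y hy
    rw [Finset.mem_range] at hy
    exact (he y x (by omega) hx).symm
  · rw [h.zero x (by omega), h'.zero x (by omega)]

/-- Removing the last segment. -/
theorem St.restrict {n : ℕ} {δ : ℕ → Prop} {g : ℕ → ℕ} (h : St (n+1) δ g) :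
    ∃ h', St n δ h' ∧ Ext n h' g := by
  have hmono : ∀ x, x ≤ n → g x ≠ g (n+1) := fun x hx hxe => by
    have := h.inj x (n+1) (by omega) (by omega) hxe
    omega
  have hle : ∀ x, x ≤ n → g x ≤ n + 1 := fun x hx => h.le x (by omega)
  have hlen := h.le (n+1) (by omega)
  set r : ℕ → ℕ := fun x => if n < x then 0 else if g (n+1) < g x then g x - 1 else g x with hr
  have rval : ∀ x, x ≤ n → r x = if g (n+1) < g x then g x - 1 else g x := by
    intro x hx
    simp only [hr]
    rw [if_neg (by omega)]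
  have rlt : ∀ x y, x ≤ n → y ≤ n → (r x < r y ↔ g x < g y) := by
    intro x y hx hy
    rw [rval x hx, rval y hy]
    have h1 := hmono x hx
    have h2 := hmono y hy
    split_ifs <;> omega
  refine ⟨r, ⟨?_, ?_, ?_, ?_, ?_⟩, ?_⟩
  · intro x hx
    simp only [hr]
    rw [if_pos hx]
  · intro x hx
    rw [rval x hx]
    have h1 := hmono x hx
    have h2 := hle x hx
    split_ifs <;> omega
  · intro x y hx hy hxy
    have h1 := rlt x y hx hy
    have h2 := rlt y x hy hx
    apply h.inj x y (by omega) (by omega)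
    omega
  · intro i j hij hj hp hI
    apply h.nc i j hij (by omega) hp
    have a2 := rlt i j (by omega) (by omega)
    have a3 := rlt i (j+1) (by omega) (by omega)
    have a4 := rlt (i+1) j (by omega) (by omega)
    have a5 := rlt (i+1) (j+1) (by omega) (by omega)
    have b2 := rlt j i (by omega) (by omega)
    have b3 := rlt (j+1) i (by omega) (by omega)
    have b4 := rlt j (i+1) (by omega) (by omega)
    have b5 := rlt (j+1) (i+1) (by omega) (by omega)
    exact (interleave_congr a2 a3 a4 a5 b2 b3 b4 b5).1 hI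
  · intro i hi
    rw [rlt i (i+1) (by omega) (by omega)]
    exact h.dir i (by omega)
  · intro x y hx hy
    exact (rlt x y hx hy).symm

theorem Ext.trans {m m' : ℕ} {a b c : ℕ → ℕ} (hm : m ≤ m') (h1 : Ext m a b) (h2 : Ext m' b c) :
    Ext m a c := by
  intro x y hx hy
  rw [h2 x y (by omega) (by omega), h1 x y hx hy]

theorem St.restrict' {n m : ℕ} {δ : ℕ → Prop} {g : ℕ → ℕ} (hmn : m ≤ n) (h : St n δ g) :
    ∃ h', St m δ h' ∧ Ext m h' g := by
  induction n generalizing g with
  | zero =>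
    obtain rfl : m = 0 := by omega
    exact ⟨g, h, fun x y _ _ => Iff.rfl⟩
  | succ n ih =>
    by_cases hmn' : m = n + 1
    · subst hmn'
      exact ⟨g, h, fun x y _ _ => Iff.rfl⟩
    · obtain ⟨g1, hg1, he1⟩ := h.restrict
      obtain ⟨g2, hg2, he2⟩ := ih (by omega) hg1
      exact ⟨g2, hg2, he2.trans (by omega) he1⟩


theorem St.cut {n : ℕ} {δ : ℕ → Prop} {h : ℕ → ℕ} (hs : St n δ h) (P : ℕ → Prop)
    (hP : ∀ x y, x ≤ n → y ≤ n → h x < h y → P y → P x) :
    ∃ c, c ≤ n + 1 ∧ ∀ x, x ≤ n → (P x ↔ h x < c) := by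
  classical
  have hex : ∃ c, c = n + 1 ∨ ∃ x, x ≤ n ∧ h x = c ∧ ¬ P x := ⟨n+1, Or.inl rfl⟩
  refine ⟨Nat.find hex, Nat.find_min' hex (Or.inl rfl), ?_⟩
  intro x hx
  constructor
  · intro hPx
    by_contra hcon
    rcases Nat.find_spec hex with h1 | ⟨x0, hx0, hx0c, hx0P⟩
    · have := hs.le x hx
      omega
    · rcases Nat.lt_or_ge (h x0) (h x) with hlt | hge
      · exact hx0P (hP x0 x hx0 hx hlt hPx)
      · have he : h x0 = h x := by omega
        have := hs.inj x0 x hx0 hx he
        subst this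
        exact hx0P hPx
  · intro hlt
    by_contra hPx
    exact Nat.find_min hex hlt (Or.inr ⟨x, hx, rfl, hPx⟩)

/-- The cut at height `c` is not covered by an arc on the side of the creases of odd index. -/
def Outer (n : ℕ) (h : ℕ → ℕ) (c : ℕ) : Prop :=
  ∀ i, i < n → i % 2 = 1 → (h i < c ↔ h (i+1) < c)

structure Inv (n : ℕ) (δ : ℕ → Prop) (h : ℕ → ℕ) : Prop where
  st : St n δ h
  odd : n % 2 = 1
  yo : ∀ i, i < n → i % 2 = 1 → (h i < h n ↔ h (i+1) < h n)
  dn : ∀ c z, Outer n h c → c ≤ h n → z ≤ n → h z + 1 = c → z % 2 = 0 ∧ δ z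
  up : ∀ c z, Outer n h c → h n < c → z ≤ n → h z = c → z % 2 = 0 ∧ ¬ δ z

def ins2 (n c : ℕ) (h : ℕ → ℕ) (x : ℕ) : ℕ :=
  if x ≤ n then (if h x < c then h x else h x + 2)
  else if x = n + 1 then c + 1 else if x = n + 2 then c else 0

theorem ins2_old {n c : ℕ} {h : ℕ → ℕ} {x : ℕ} (hx : x ≤ n) :
    ins2 n c h x = if h x < c then h x else h x + 2 := by
  unfold ins2; rw [if_pos hx]

theorem ins2_one {n c : ℕ} {h : ℕ → ℕ} : ins2 n c h (n+1) = c + 1 := by
  unfold ins2; rw [if_neg (by omega), if_pos rfl]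

theorem ins2_two {n c : ℕ} {h : ℕ → ℕ} : ins2 n c h (n+2) = c := by
  unfold ins2; rw [if_neg (by omega), if_neg (by omega), if_pos rfl]

theorem ins2_lt {n c : ℕ} {h : ℕ → ℕ} {x y : ℕ} (hx : x ≤ n) (hy : y ≤ n) :
    ins2 n c h x < ins2 n c h y ↔ h x < h y := by
  rw [ins2_old hx, ins2_old hy]
  split_ifs <;> omega

theorem ins2_ext {n c : ℕ} {h : ℕ → ℕ} : Ext n h (ins2 n c h) := fun _ _ hx hy => ins2_lt hx hy

theorem ins2_st {n c : ℕ} {δ : ℕ → Prop} {h : ℕ → ℕ} (hI : Inv n δ h) (hc : c ≤ h n)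
    (ho : Outer n h c) (d1 : ¬ δ n) (d2 : ¬ δ (n+1)) : St (n+2) δ (ins2 n c h) := by
  have hs := hI.st
  have hodd := hI.odd
  have hn := hs.le n le_rfl
  refine ⟨?_, ?_, ?_, ?_, ?_⟩
  · intro x hx
    unfold ins2
    rw [if_neg (by omega), if_neg (by omega), if_neg (by omega)]
  · intro x hx
    rcases Nat.lt_or_ge n x with h1 | h1
    · have : x = n+1 ∨ x = n+2 := by omega
      rcases this with rfl | rfl
      · rw [ins2_one]; omega
      · rw [ins2_two]; omega
    · rw [ins2_old h1]
      have := hs.le x h1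
      split_ifs <;> omega
  · intro x y hx hy hxy
    have key : ∀ x, x ≤ n → ins2 n c h x ≠ c + 1 ∧ ins2 n c h x ≠ c := by
      intro x hx
      rw [ins2_old hx]
      split_ifs <;> omega
    have hx3 : x ≤ n ∨ x = n+1 ∨ x = n+2 := by omega
    have hy3 : y ≤ n ∨ y = n+1 ∨ y = n+2 := by omega
    rcases hx3 with h1 | rfl | rfl
    · rcases hy3 with h2 | rfl | rfl
      · have a1 := ins2_lt (c := c) (h := h) h1 h2
        have a2 := ins2_lt (c := c) (h := h) h2 h1
        exact hs.inj x y h1 h2 (by omega)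
      · rw [ins2_one] at hxy
        exact absurd hxy (key x h1).1
      · rw [ins2_two] at hxy
        exact absurd hxy (key x h1).2
    · rcases hy3 with h2 | rfl | rfl
      · rw [ins2_one] at hxy
        exact absurd hxy.symm (key y h2).1
      · rfl
      · rw [ins2_one, ins2_two] at hxy; omega
    · rcases hy3 with h2 | rfl | rfl
      · rw [ins2_two] at hxy
        exact absurd hxy.symm (key y h2).2
      · rw [ins2_one, ins2_two] at hxy; omega
      · rfl
  · intro i j hij hj hp hIn
    have hj3 : j < n ∨ j = n ∨ j = n + 1 := by omega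
    rcases hj3 with h1 | rfl | rfl
    · apply hs.nc i j hij h1 hp
      have a2 := ins2_lt (n := n) (c := c) (h := h) (x := i) (y := j) (by omega) (by omega)
      have a3 := ins2_lt (n := n) (c := c) (h := h) (x := i) (y := j+1) (by omega) (by omega)
      have a4 := ins2_lt (n := n) (c := c) (h := h) (x := i+1) (y := j) (by omega) (by omega)
      have a5 := ins2_lt (n := n) (c := c) (h := h) (x := i+1) (y := j+1) (by omega) (by omega)
      have b2 := ins2_lt (n := n) (c := c) (h := h) (x := j) (y := i) (by omega) (by omega)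
      have b3 := ins2_lt (n := n) (c := c) (h := h) (x := j+1) (y := i) (by omega) (by omega)
      have b4 := ins2_lt (n := n) (c := c) (h := h) (x := j) (y := i+1) (by omega) (by omega)
      have b5 := ins2_lt (n := n) (c := c) (h := h) (x := j+1) (y := i+1) (by omega) (by omega)
      exact (interleave_congr a2 a3 a4 a5 b2 b3 b4 b5).1 hIn
    · -- new arc on the odd side
      have e1 := ho i hij (by omega)
      have e2 := hI.yo i hij (by omega)
      rw [ins2_one, ins2_old (x := j) le_rfl, ins2_old (x := i) (by omega),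
        ins2_old (x := i+1) (by omega), if_neg (show ¬ h j < c by omega)] at hIn
      unfold Interleave at hIn
      split_ifs at hIn <;> omega
    · have e : i + 1 ≤ n := by omega
      rw [ins2_one, show n + 1 + 1 = n + 2 from rfl, ins2_two, ins2_old (x := i) (by omega),
        ins2_old (x := i+1) (by omega)] at hIn
      unfold Interleave at hIn
      split_ifs at hIn <;> omega
  · intro i hi
    have hi3 : i < n ∨ i = n ∨ i = n + 1 := by omega
    rcases hi3 with h1 | rfl | rfl
    · rw [ins2_lt (by omega) (by omega)]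
      exact hs.dir i h1
    · rw [ins2_one, ins2_old le_rfl, if_neg (by omega)]
      constructor
      · intro hh; omega
      · intro hh; exact absurd hh d1
    · rw [ins2_one, show n + 1 + 1 = n + 2 from rfl, ins2_two]
      constructor
      · intro hh; omega
      · intro hh; exact absurd hh d2

theorem ins2_outer_low {n c c' : ℕ} {h : ℕ → ℕ} (hodd : n % 2 = 1) (hc : c ≤ h n) (hc' : c' ≤ c) :
    Outer (n+2) (ins2 n c h) c' ↔ Outer n h c' := by
  constructor
  · intro H i hi hio
    have := H i (by omega) hio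
    rw [ins2_old (by omega), ins2_old (by omega)] at this
    split_ifs at this <;> omega
  · intro H i hi hio
    have hi2 : i < n ∨ i = n := by omega
    rcases hi2 with h1 | rfl
    · have := H i (by omega) hio
      rw [ins2_old (by omega), ins2_old (by omega)]
      split_ifs <;> omega
    · rw [ins2_one, ins2_old le_rfl, if_neg (by omega)]
      omega

theorem ins2_outer_mid {n c : ℕ} {h : ℕ → ℕ} (hodd : n % 2 = 1) (hc : c ≤ h n)
    (ho : Outer n h c) : Outer (n+2) (ins2 n c h) (c+1) := by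
  intro i hi hio
  have hi2 : i < n ∨ i = n := by omega
  rcases hi2 with h1 | rfl
  · have := ho i (by omega) hio
    rw [ins2_old (by omega), ins2_old (by omega)]
    split_ifs <;> omega
  · rw [ins2_one, ins2_old le_rfl, if_neg (by omega)]
    omega

theorem ins2_outer_high {n c c' : ℕ} {h : ℕ → ℕ} (hodd : n % 2 = 1) (hc : c ≤ h n)
    (hc' : c + 2 ≤ c') :
    Outer (n+2) (ins2 n c h) c' ↔ (Outer n h (c' - 2) ∧ h n < c' - 2) := by
  constructor
  · intro H
    constructor
    · intro i hi hio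
      have := H i (by omega) hio
      rw [ins2_old (by omega), ins2_old (by omega)] at this
      split_ifs at this <;> omega
    · have := H n (by omega) hodd
      rw [ins2_one, ins2_old le_rfl, if_neg (by omega)] at this
      omega
  · rintro ⟨H, H2⟩ i hi hio
    have hi2 : i < n ∨ i = n := by omega
    rcases hi2 with h1 | rfl
    · have := H i (by omega) hio
      rw [ins2_old (by omega), ins2_old (by omega)]
      split_ifs <;> omega
    · rw [ins2_one, ins2_old le_rfl, if_neg (by omega)]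
      omega

theorem ins2_inv {n c : ℕ} {δ : ℕ → Prop} {h : ℕ → ℕ} (hI : Inv n δ h) (hc : c ≤ h n)
    (ho : Outer n h c) (d1 : ¬ δ n) (d2 : ¬ δ (n+1)) : Inv (n+2) δ (ins2 n c h) := by
  have hodd := hI.odd
  refine ⟨ins2_st hI hc ho d1 d2, by omega, ?_, ?_, ?_⟩
  · intro i hi hio
    rw [ins2_two]
    exact ((ins2_outer_low hodd hc le_rfl).2 ho) i hi hio
  · intro c' z ho' hc' hz hzc
    rw [ins2_two] at hc'
    have hz3 : z ≤ n ∨ z = n+1 ∨ z = n+2 := by omega
    rcases hz3 with h1 | rfl | rfl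
    · rw [ins2_old h1] at hzc
      split_ifs at hzc with hh
      · exact hI.dn c' z ((ins2_outer_low hodd hc hc').1 ho') (by omega) h1 (by omega)
      · omega
    · rw [ins2_one] at hzc; omega
    · rw [ins2_two] at hzc; omega
  · intro c' z ho' hc' hz hzc
    rw [ins2_two] at hc'
    have hz3 : z ≤ n ∨ z = n+1 ∨ z = n+2 := by omega
    rcases hz3 with h1 | rfl | rfl
    · rw [ins2_old h1] at hzc
      split_ifs at hzc with hh
      · omega
      · have hh2 := (ins2_outer_high hodd hc (c' := c') (by omega)).1 ho'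
        exact hI.up (c' - 2) z hh2.1 hh2.2 h1 (by omega)
    · exact ⟨by omega, d2⟩
    · rw [ins2_two] at hzc; omega

/-- Where the next segment goes: an outer cut below the last one. -/
theorem cut_step {n : ℕ} {δ : ℕ → Prop} {h g : ℕ → ℕ} (hI : Inv n δ h) (hg : St (n+1) δ g)
    (he : Ext n h g) (d1 : ¬ δ n) :
    ∃ c, c ≤ h n ∧ Outer n h c ∧ ∀ x, x ≤ n → (g x < g (n+1) ↔ h x < c) := by
  obtain ⟨c, hc, hcx⟩ := hI.st.cut (fun x => g x < g (n+1)) (by
    intro x y hx hy hxy hyy
    have := (he x y hx hy).2 hxy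
    show g x < g (n+1)
    have h3 : g y < g (n+1) := hyy
    omega)
  have hodd := hI.odd
  refine ⟨c, ?_, ?_, hcx⟩
  · have h1 := hg.dir n (by omega)
    have h2 := hcx n le_rfl
    have h3 : ¬ (g n < g (n+1)) := fun hh => d1 (h1.1 hh)
    have h4 : ¬ (h n < c) := fun hh => h3 (h2.2 hh)
    omega
  · intro i hi hio
    have h0 := hg.nc i n hi (by omega) (by omega)
    have h1 := hI.yo i hi hio
    have h2 := hcx i (by omega)
    have h3 := hcx (i+1) (by omega)
    have h4 := he i n (by omega) le_rfl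
    have h5 := he (i+1) n (by omega) le_rfl
    have h6 : g i ≠ g (n+1) := fun hh => by
      have := hg.inj i (n+1) (by omega) (by omega) hh; omega
    have h7 : g (i+1) ≠ g (n+1) := fun hh => by
      have := hg.inj (i+1) (n+1) (by omega) (by omega) hh; omega
    have h8 : g i ≠ g n := fun hh => by
      have := hg.inj i n (by omega) (by omega) hh; omega
    have h9 : g (i+1) ≠ g n := fun hh => by
      have := hg.inj (i+1) n (by omega) (by omega) hh; omega
    have h10 := hg.dir n (by omega)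
    have h11 : ¬ (g n < g (n+1)) := fun hh => d1 (h10.1 hh)
    unfold Interleave at h0
    omega

theorem complete_step {n : ℕ} {δ : ℕ → Prop} {h g : ℕ → ℕ} (hI : Inv n δ h) (hg : St (n+2) δ g)
    (he : Ext n h g) (d1 : ¬ δ n) (d2 : ¬ δ (n+1)) :
    ∃ c, c ≤ h n ∧ Outer n h c ∧ g = ins2 n c h := by
  obtain ⟨g1, hg1, he1⟩ := (show St (n+1+1) δ g from hg).restrict
  have heh : Ext n h g1 := by
    intro x y hx hy
    rw [← he1 x y (by omega) (by omega)]
    exact he x y hx hy
  obtain ⟨c, hc, ho, hcx⟩ := cut_step hI hg1 heh d1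
  refine ⟨c, hc, ho, ?_⟩
  have hodd := hI.odd
  have hcx' : ∀ x, x ≤ n → (g x < g (n+1) ↔ h x < c) := by
    intro x hx
    rw [he1 x (n+1) (by omega) le_rfl]
    exact hcx x hx
  have hd : ¬ (g (n+1) < g (n+2)) := fun hh => d2 ((hg.dir (n+1) (by omega)).1 hh)
  have hne : g (n+1) ≠ g (n+2) := fun hh => by
    have := hg.inj (n+1) (n+2) (by omega) (by omega) hh
    omega
  have hadj : ∀ x, x ≤ n → (g x < g (n+2) ↔ h x < c) := by
    intro x hx
    constructor
    · intro hh
      exact (hcx' x hx).1 (by omega)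
    · intro hh
      by_contra hcon
      have hxne : g x ≠ g (n+2) := fun hq => by
        have := hg.inj x (n+2) (by omega) (by omega) hq
        omega
      have hcn := hI.st.le n le_rfl
      obtain ⟨z, hz, hzc⟩ := hI.st.surj (c-1) (by omega)
      obtain ⟨hz0, hzd⟩ := hI.dn c z ho hc hz (by omega)
      have hzn : z + 1 ≤ n := by omega
      have hz1 := (hI.st.dir z (by omega)).2 hzd
      have k1 := hcx' z hz
      have k2 := hcx' (z+1) hzn
      have k3 : g x ≤ g z := by
        rcases Nat.lt_or_ge (h x) (h z) with q | q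
        · exact le_of_lt ((he x z hx hz).2 q)
        · have : h x = h z := by omega
          have := hI.st.inj x z hx hz this
          rw [this]
      have k4 : g (z+1) ≠ g (n+1) := fun hq => by
        have := hg.inj (z+1) (n+1) (by omega) (by omega) hq
        omega
      have k5 := hg.nc z (n+1) (by omega) (by omega) (by omega)
      unfold Interleave at k5
      have k6 : n + 1 + 1 = n + 2 := rfl
      rw [k6] at k5
      omega
  refine hg.rigid (ins2_st hI hc ho d1 d2) ?_
  intro x y hx hy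
  have hx3 : x ≤ n ∨ x = n+1 ∨ x = n+2 := by omega
  have hy3 : y ≤ n ∨ y = n+1 ∨ y = n+2 := by omega
  have inj1 : ∀ x, x ≤ n → g x ≠ g (n+1) := fun x hx hq => by
    have := hg.inj x (n+1) (by omega) (by omega) hq
    omega
  have inj2 : ∀ x, x ≤ n → g x ≠ g (n+2) := fun x hx hq => by
    have := hg.inj x (n+2) (by omega) (by omega) hq
    omega
  rcases hx3 with h1 | rfl | rfl
  · rcases hy3 with h2 | rfl | rfl
    · rw [ins2_lt h1 h2, he x y h1 h2]
    · rw [ins2_one, ins2_old h1, hcx' x h1]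
      split_ifs <;> omega
    · rw [ins2_two, ins2_old h1, hadj x h1]
      split_ifs <;> omega
  · rcases hy3 with h2 | rfl | rfl
    · have q1 := hcx' y h2
      have q2 := inj1 y h2
      rw [ins2_one, ins2_old h2]
      split_ifs <;> omega
    · omega
    · rw [ins2_one, ins2_two]; omega
  · rcases hy3 with h2 | rfl | rfl
    · have q1 := hadj y h2
      have q2 := inj2 y h2
      rw [ins2_two, ins2_old h2]
      split_ifs <;> omega
    · rw [ins2_one, ins2_two]; omega
    · omega


/-! Mirror image -/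

def mir (n : ℕ) (g : ℕ → ℕ) (x : ℕ) : ℕ := if n < x then 0 else n - g x

theorem mir_val {n : ℕ} {g : ℕ → ℕ} {x : ℕ} (hx : x ≤ n) : mir n g x = n - g x := by
  unfold mir; rw [if_neg (by omega)]

theorem mir_lt {n m : ℕ} {δ : ℕ → Prop} {g : ℕ → ℕ} (hg : St n δ g) (hm : m ≤ n) {x y : ℕ}
    (hx : x ≤ m) (hy : y ≤ m) : mir n g x < mir n g y ↔ g y < g x := by
  rw [mir_val (by omega), mir_val (by omega)]
  have h1 := hg.le x (by omega)
  have h2 := hg.le y (by omega)
  omega

theorem mir_st {n : ℕ} {δ : ℕ → Prop} {g : ℕ → ℕ} (hg : St n δ g) :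
    St n (fun i => ¬ δ i) (mir n g) := by
  refine ⟨?_, ?_, ?_, ?_, ?_⟩
  · intro x hx
    unfold mir; rw [if_pos hx]
  · intro x hx
    rw [mir_val hx]; omega
  · intro x y hx hy hxy
    rw [mir_val hx, mir_val hy] at hxy
    have h1 := hg.le x hx
    have h2 := hg.le y hy
    exact hg.inj x y hx hy (by omega)
  · intro i j hij hj hp hIn
    apply hg.nc i j hij hj hp
    rw [mir_val (x := i) (by omega), mir_val (x := i+1) (by omega), mir_val (x := j) (by omega),
      mir_val (x := j+1) (by omega)] at hIn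
    exact interleave_rev (hg.le i (by omega)) (hg.le (i+1) (by omega)) (hg.le j (by omega))
      (hg.le (j+1) (by omega)) hIn
  · intro i hi
    rw [mir_val (by omega), mir_val (by omega)]
    have h1 := hg.le i (by omega)
    have h2 := hg.le (i+1) (by omega)
    have h3 : g i ≠ g (i+1) := fun hq => by
      have := hg.inj i (i+1) (by omega) (by omega) hq
      omega
    have h4 := hg.dir i hi
    constructor
    · intro hh hd
      have := h4.2 hd
      omega
    · intro hd
      have h5 : ¬ (g i < g (i+1)) := fun hh => hd (h4.1 hh)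
      omega

theorem mir_mir {n : ℕ} {δ : ℕ → Prop} {g : ℕ → ℕ} (hg : St n δ g) : mir n (mir n g) = g := by
  funext x
  by_cases hx : x ≤ n
  · rw [mir_val hx, mir_val hx]
    have h1 := hg.le x hx
    omega
  · unfold mir
    rw [if_pos (by omega), hg.zero x (by omega)]

theorem mir_ext {n m : ℕ} {δ δ' : ℕ → Prop} {h g : ℕ → ℕ} (hm : m ≤ n) (hh : St m δ h)
    (hg : St n δ' g) (he : Ext m h g) : Ext m (mir m h) (mir n g) := by
  intro x y hx hy
  rw [mir_lt hg hm hx hy, mir_lt hh le_rfl hx hy]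
  exact he y x hy hx

theorem mir_outer {n c : ℕ} {δ : ℕ → Prop} {h : ℕ → ℕ} (hh : St n δ h) (hc : c ≤ n + 1) :
    Outer n (mir n h) c ↔ Outer n h (n + 1 - c) := by
  constructor
  · intro H i hi hio
    have := H i hi hio
    rw [mir_val (by omega), mir_val (by omega)] at this
    have h1 := hh.le i (by omega)
    have h2 := hh.le (i+1) (by omega)
    omega
  · intro H i hi hio
    have := H i hi hio
    rw [mir_val (by omega), mir_val (by omega)]
    have h1 := hh.le i (by omega)
    have h2 := hh.le (i+1) (by omega)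
    omega

theorem mir_inv {n : ℕ} {δ : ℕ → Prop} {h : ℕ → ℕ} (hI : Inv n δ h) :
    Inv n (fun i => ¬ δ i) (mir n h) := by
  have hs := hI.st
  have hodd := hI.odd
  have hn := hs.le n le_rfl
  refine ⟨mir_st hs, hodd, ?_, ?_, ?_⟩
  · intro i hi hio
    rw [mir_val (x := i) (by omega), mir_val (x := i+1) (by omega), mir_val (x := n) le_rfl]
    have h1 := hs.le i (by omega)
    have h2 := hs.le (i+1) (by omega)
    have h3 := hI.yo i hi hio
    have h4 : h i ≠ h n := fun hq => by
      have := hs.inj i n (by omega) (by omega) hq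
      omega
    have h5 : h (i+1) ≠ h n := fun hq => by
      have := hs.inj (i+1) n (by omega) (by omega) hq
      omega
    omega
  · intro c z ho hc hz hzc
    rw [mir_val le_rfl] at hc
    rw [mir_val hz] at hzc
    have h1 := hs.le z hz
    exact hI.up (n + 1 - c) z ((mir_outer hs (by omega)).1 ho) (by omega) hz (by omega)
  · intro c z ho hc hz hzc
    rw [mir_val le_rfl] at hc
    rw [mir_val hz] at hzc
    have h1 := hs.le z hz
    have h2 := hI.dn (n + 1 - c) z ((mir_outer hs (by omega)).1 ho) (by omega) hz (by omega)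
    exact ⟨h2.1, fun hq => hq h2.2⟩

/-! Cut sets -/

open Classical in
noncomputable def DD (n : ℕ) (h : ℕ → ℕ) : Finset ℕ :=
  (Finset.range (n+2)).filter (fun c => Outer n h c ∧ c ≤ h n)

open Classical in
noncomputable def UU (n : ℕ) (h : ℕ → ℕ) : Finset ℕ :=
  (Finset.range (n+2)).filter (fun c => Outer n h c ∧ h n < c)

theorem mem_DD {n c : ℕ} {δ : ℕ → Prop} {h : ℕ → ℕ} (hs : St n δ h) :
    c ∈ DD n h ↔ Outer n h c ∧ c ≤ h n := by
  classical
  have := hs.le n le_rfl
  unfold DD
  rw [Finset.mem_filter, Finset.mem_range]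
  constructor
  · exact fun hh => hh.2
  · exact fun hh => ⟨by omega, hh⟩

theorem mem_UU {n c : ℕ} {h : ℕ → ℕ} :
    c ∈ UU n h ↔ c ≤ n + 1 ∧ Outer n h c ∧ h n < c := by
  classical
  unfold UU
  rw [Finset.mem_filter, Finset.mem_range]
  constructor
  · exact fun hh => ⟨by omega, hh.2⟩
  · exact fun hh => ⟨by omega, hh.2⟩

theorem card_DD_mir {n : ℕ} {δ : ℕ → Prop} {h : ℕ → ℕ} (hs : St n δ h) :
    (DD n (mir n h)).card = (UU n h).card := by
  have hn := hs.le n le_rfl
  apply Finset.card_nbij' (fun c => n + 1 - c) (fun c => n + 1 - c)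
  · intro c hc
    have hc' := (mem_DD (mir_st hs)).1 hc
    rw [mir_val le_rfl] at hc'
    show n + 1 - c ∈ UU n h
    exact mem_UU.2 ⟨by omega, (mir_outer hs (by omega)).1 hc'.1, by omega⟩
  · intro c hc
    have hc' := mem_UU.1 hc
    show n + 1 - c ∈ DD n (mir n h)
    apply (mem_DD (mir_st hs)).2
    rw [mir_val le_rfl, mir_outer hs (by omega)]
    have e : n + 1 - (n + 1 - c) = c := by omega
    rw [e]
    exact ⟨hc'.2.1, by omega⟩
  · intro c hc
    have hc' := (mem_DD (mir_st hs)).1 hc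
    rw [mir_val le_rfl] at hc'
    show n + 1 - (n + 1 - c) = c
    omega
  · intro c hc
    have hc' := mem_UU.1 hc
    show n + 1 - (n + 1 - c) = c
    omega

theorem card_UU_mir {n : ℕ} {δ : ℕ → Prop} {h : ℕ → ℕ} (hs : St n δ h) :
    (UU n (mir n h)).card = (DD n h).card := by
  have := card_DD_mir (mir_st hs)
  rw [mir_mir hs] at this
  exact this.symm

theorem DD_ins2 {n c : ℕ} {δ : ℕ → Prop} {h : ℕ → ℕ} (hI : Inv n δ h) (hc : c ≤ h n)
    (ho : Outer n h c) (d1 : ¬ δ n) (d2 : ¬ δ (n+1)) :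
    DD (n+2) (ins2 n c h) = (DD n h).filter (fun c' => c' ≤ c) := by
  ext c'
  rw [mem_DD (ins2_st hI hc ho d1 d2), Finset.mem_filter, mem_DD hI.st, ins2_two]
  constructor
  · rintro ⟨h1, h2⟩
    exact ⟨⟨(ins2_outer_low hI.odd hc h2).1 h1, by omega⟩, h2⟩
  · rintro ⟨⟨h1, _⟩, h2⟩
    exact ⟨(ins2_outer_low hI.odd hc h2).2 h1, h2⟩

theorem UU_ins2 {n c : ℕ} {δ : ℕ → Prop} {h : ℕ → ℕ} (hI : Inv n δ h) (hc : c ≤ h n)
    (ho : Outer n h c) :
    (UU (n+2) (ins2 n c h)).card = (UU n h).card + 1 := by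
  have hn := hI.st.le n le_rfl
  have hset : UU (n+2) (ins2 n c h) = insert (c+1) ((UU n h).image (fun c' => c' + 2)) := by
    ext c'
    rw [mem_UU, Finset.mem_insert, Finset.mem_image, ins2_two]
    constructor
    · rintro ⟨h1, h2, h3⟩
      rcases Nat.lt_or_ge c' (c+2) with h4 | h4
      · left; omega
      · right
        have h5 := (ins2_outer_high hI.odd hc h4).1 h2
        exact ⟨c' - 2, mem_UU.2 ⟨by omega, h5.1, h5.2⟩, by omega⟩
    · rintro (rfl | ⟨c1, h1, rfl⟩)
      · exact ⟨by omega, ins2_outer_mid hI.odd hc ho, by omega⟩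
      · have h2 := mem_UU.1 h1
        refine ⟨by omega, (ins2_outer_high hI.odd hc (by omega)).2 ?_, by omega⟩
        have e : c1 + 2 - 2 = c1 := by omega
        rw [e]
        exact ⟨h2.2.1, h2.2.2⟩
  rw [hset, Finset.card_insert_of_notMem, Finset.card_image_of_injective]
  · intro a b hab
    have hab' : a + 2 = b + 2 := hab
    omega
  · rw [Finset.mem_image]
    rintro ⟨c1, h1, h2⟩
    have h3 := mem_UU.1 h1
    omega

/-! Finiteness and the sets to count -/

theorem St.finite (n : ℕ) (δ : ℕ → Prop) : {g : ℕ → ℕ | St n δ g}.Finite := by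
  apply Set.Finite.subset (Set.Finite.image (fun (f : Fin (n+1) → Fin (n+1)) (x : ℕ) =>
    if hx : x < n + 1 then ((f ⟨x, hx⟩ : Fin (n+1)) : ℕ) else 0) (Set.finite_univ))
  intro g hg
  refine ⟨fun i => ⟨g i, ?_⟩, Set.mem_univ _, ?_⟩
  · have := hg.le i (by omega)
    omega
  · funext x
    by_cases hx : x < n + 1
    · simp [hx]
    · simp only [hx, dif_neg, not_false_eq_true]
      exact (hg.zero x (by omega)).symm

theorem SF_finite (N m : ℕ) (δ : ℕ → Prop) (h : ℕ → ℕ) :
    {g : ℕ → ℕ | St N δ g ∧ Ext m h g}.Finite :=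
  (St.finite N δ).subset (fun _ hg => hg.1)

noncomputable def SF (N m : ℕ) (δ : ℕ → Prop) (h : ℕ → ℕ) : Finset (ℕ → ℕ) :=
  (SF_finite N m δ h).toFinset

theorem mem_SF {N m : ℕ} {δ : ℕ → Prop} {h g : ℕ → ℕ} :
    g ∈ SF N m δ h ↔ St N δ g ∧ Ext m h g := by
  unfold SF
  rw [Set.Finite.mem_toFinset]
  rfl

theorem SF_mir {N m : ℕ} {δ : ℕ → Prop} {h : ℕ → ℕ} (hm : m ≤ N) (hh : St m δ h) :
    (SF N m δ h).card = (SF N m (fun i => ¬ δ i) (mir m h)).card := by
  apply Finset.card_nbij' (fun g => mir N g) (fun g => mir N g)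
  · intro g hg
    have hg' := mem_SF.1 hg
    exact mem_SF.2 ⟨mir_st hg'.1, mir_ext hm hh hg'.1 hg'.2⟩
  · intro g hg
    have hg' := mem_SF.1 hg
    have h1 := mir_st hg'.1
    have h2 := mir_ext hm (mir_st hh) hg'.1 hg'.2
    rw [mir_mir hh] at h2
    refine mem_SF.2 ⟨?_, h2⟩
    have h3 : (fun i => ¬ (fun i => ¬ δ i) i) = δ := by
      funext i
      exact propext not_not
    rw [h3] at h1
    exact h1
  · intro g hg
    exact mir_mir (mem_SF.1 hg).1
  · intro g hg
    exact mir_mir (mem_SF.1 hg).1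

theorem cut_unique {n : ℕ} {δ : ℕ → Prop} {h : ℕ → ℕ} (hs : St n δ h) {c c' : ℕ}
    (hc : c ≤ n + 1) (hc' : c' ≤ n + 1) (H : ∀ x, x ≤ n → (h x < c ↔ h x < c')) : c = c' := by
  rcases Nat.lt_trichotomy c c' with h1 | h1 | h1
  · obtain ⟨x, hx, hxc⟩ := hs.surj c (by omega)
    have := H x hx
    omega
  · exact h1
  · obtain ⟨x, hx, hxc⟩ := hs.surj c' (by omega)
    have := H x hx
    omega

/-- Weighted count. -/
def FF : ℕ → ℕ → ℕ
  | 0, _ => 1
  | q+1, a => ∑ k ∈ Finset.Icc 1 a, FF q (k+1)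

def Desc (r a b : ℕ) : ℕ := FF ((r+1)/2) a * FF (r/2) (b+1)

theorem Desc_succ (R a b : ℕ) :
    ∑ k ∈ Finset.Icc 1 a, Desc R (b+1) k = Desc (R+1) a b := by
  unfold Desc
  have e1 : (R + 1 + 1) / 2 = R / 2 + 1 := by omega
  rw [e1, ← Finset.mul_sum]
  show FF ((R+1)/2) (b+1) * ∑ k ∈ Finset.Icc 1 a, FF (R/2) (k+1) =
    (∑ k ∈ Finset.Icc 1 a, FF (R/2) (k+1)) * FF ((R+1)/2) (b+1)
  rw [mul_comm]

theorem sum_rank (f : ℕ → ℕ) (s : Finset ℕ) :
    ∑ c ∈ s, f ((s.filter (fun c' => c' ≤ c)).card) = ∑ k ∈ Finset.Icc 1 s.card, f k := by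
  induction s using Finset.induction_on_max with
  | empty => simp
  | insert a s hs ih =>
    have ha : a ∉ s := fun hq => lt_irrefl _ (hs a hq)
    rw [Finset.sum_insert ha, Finset.card_insert_of_notMem ha]
    have e1 : (insert a s).filter (fun c' => c' ≤ a) = insert a s := by
      apply Finset.filter_true_of_mem
      intro x hx
      rw [Finset.mem_insert] at hx
      rcases hx with rfl | hx
      · exact le_rfl
      · exact (hs x hx).le
    have e2 : ∑ c ∈ s, f (((insert a s).filter (fun c' => c' ≤ c)).card) =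
        ∑ c ∈ s, f ((s.filter (fun c' => c' ≤ c)).card) := by
      apply Finset.sum_congr rfl
      intro c hc
      congr 2
      rw [Finset.filter_insert, if_neg]
      exact not_le.2 (hs c hc)
    rw [e1, e2, ih, Finset.card_insert_of_notMem ha, Finset.sum_Icc_succ_top (by omega), add_comm]

/-- The direction pattern seen from level `n`: down, down, up, up, down, down, ... -/
def Pat (n : ℕ) (δ : ℕ → Prop) : Prop := ∀ k, (δ (n + k) ↔ 2 ≤ k % 4)

theorem Pat.neg {n : ℕ} {δ : ℕ → Prop} (hP : Pat n δ) : Pat (n+2) (fun i => ¬ δ i) := by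
  intro k
  have h1 := hP (2 + k)
  have e : n + (2 + k) = n + 2 + k := by omega
  rw [e] at h1
  show ¬ δ (n + 2 + k) ↔ _
  rw [h1]
  omega

theorem Pat.d1 {n : ℕ} {δ : ℕ → Prop} (hP : Pat n δ) : ¬ δ n := by
  have := hP 0
  intro h
  have := this.1 h
  omega

theorem Pat.d2 {n : ℕ} {δ : ℕ → Prop} (hP : Pat n δ) : ¬ δ (n+1) := by
  have := hP 1
  intro h
  have := this.1 h
  omega

theorem SF_self {n : ℕ} {δ : ℕ → Prop} {h : ℕ → ℕ} (hs : St n δ h) : (SF n n δ h).card = 1 := by
  rw [Finset.card_eq_one]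
  refine ⟨h, ?_⟩
  ext g
  rw [mem_SF, Finset.mem_singleton]
  constructor
  · rintro ⟨h1, h2⟩
    exact (hs.rigid h1 h2).symm
  · rintro rfl
    exact ⟨hs, fun x y _ _ => Iff.rfl⟩


theorem SF_half {n : ℕ} {δ : ℕ → Prop} {h : ℕ → ℕ} (hI : Inv n δ h) (hP : Pat n δ) :
    (SF (n+1) n δ h).card = (DD n h).card := by
  have hs := hI.st
  have d1 := hP.d1
  have d2 := hP.d2
  have hn := hs.le n le_rfl
  apply Finset.card_bij
    (fun g hg => Classical.choose (cut_step hI (mem_SF.1 hg).1 (mem_SF.1 hg).2 d1))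
  · intro g hg
    have hsp := Classical.choose_spec (cut_step hI (mem_SF.1 hg).1 (mem_SF.1 hg).2 d1)
    exact (mem_DD hs).2 ⟨hsp.2.1, hsp.1⟩
  · intro g hg g' hg' hgg
    have hsp := Classical.choose_spec (cut_step hI (mem_SF.1 hg).1 (mem_SF.1 hg).2 d1)
    have hsp' := Classical.choose_spec (cut_step hI (mem_SF.1 hg').1 (mem_SF.1 hg').2 d1)
    rw [← hgg] at hsp'
    obtain ⟨_, _, k1⟩ := hsp
    obtain ⟨_, _, k2⟩ := hsp'
    have hk : ∀ x, x ≤ n → (g x < g (n+1) ↔ g' x < g' (n+1)) := fun x hx =>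
      (k1 x hx).trans (k2 x hx).symm
    have m1 := (mem_SF.1 hg)
    have m2 := (mem_SF.1 hg')
    apply m1.1.rigid m2.1
    intro x y hx hy
    have hx3 : x ≤ n ∨ x = n+1 := by omega
    have hy3 : y ≤ n ∨ y = n+1 := by omega
    rcases hx3 with h1 | rfl
    · rcases hy3 with h2 | rfl
      · rw [m1.2 x y h1 h2, m2.2 x y h1 h2]
      · exact (hk x h1).symm
    · rcases hy3 with h2 | rfl
      · have q1 := hk y h2
        have q2 : g y ≠ g (n+1) := fun hq => by
          have := m1.1.inj y (n+1) (by omega) (by omega) hq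
          omega
        have q3 : g' y ≠ g' (n+1) := fun hq => by
          have := m2.1.inj y (n+1) (by omega) (by omega) hq
          omega
        omega
      · omega
  · intro c hc
    have hc' := (mem_DD hs).1 hc
    have hst : St (n+1+1) δ (ins2 n c h) := ins2_st hI hc'.2 hc'.1 d1 d2
    obtain ⟨g, hg, he⟩ := hst.restrict
    have hgx : ∀ x, x ≤ n → (g x < g (n+1) ↔ h x < c) := by
      intro x hx
      rw [← he x (n+1) (by omega) le_rfl, ins2_one, ins2_old hx]
      split_ifs <;> omega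
    have hge : Ext n h g := by
      intro x y hx hy
      rw [← he x y (by omega) (by omega)]
      exact ins2_lt hx hy
    have hgm : g ∈ SF (n+1) n δ h := mem_SF.2 ⟨hg, hge⟩
    refine ⟨g, hgm, ?_⟩
    have hsp := Classical.choose_spec (cut_step hI (mem_SF.1 hgm).1 (mem_SF.1 hgm).2 d1)
    apply cut_unique hs (by omega) (by omega)
    intro x hx
    rw [← hgx x hx]
    exact (hsp.2.2 x hx).symm

theorem main_count (t : ℕ) (ht : t ≤ 1) (r : ℕ) : ∀ (n : ℕ) (δ : ℕ → Prop) (h : ℕ → ℕ),
    Inv n δ h → Pat n δ →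
    (SF (n + 2 * r + t) n δ h).card = Desc (r + t) (DD n h).card (UU n h).card := by
  classical
  induction r with
  | zero =>
    intro n δ h hI hP
    have ht2 : t = 0 ∨ t = 1 := by omega
    rcases ht2 with rfl | rfl
    · show (SF n n δ h).card = _
      rw [SF_self hI.st]
      rfl
    · show (SF (n+1) n δ h).card = _
      rw [SF_half hI hP]
      show _ = (∑ k ∈ Finset.Icc 1 (DD n h).card, 1) * 1
      simp
  | succ r ih =>
    intro n δ h hI hP
    have d1 := hP.d1
    have d2 := hP.d2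
    have hs := hI.st
    have hset : SF (n + 2 * (r+1) + t) n δ h =
        (DD n h).biUnion (fun c => SF (n + 2 + 2 * r + t) (n+2) δ (ins2 n c h)) := by
      have eN : n + 2 * (r+1) + t = n + 2 + 2 * r + t := by omega
      rw [eN]
      ext g
      rw [mem_SF, Finset.mem_biUnion]
      constructor
      · rintro ⟨hg, he⟩
        obtain ⟨g1, hg1, he1⟩ := hg.restrict' (m := n+2) (by omega)
        have he2 : Ext n h g1 := by
          intro x y hx hy
          rw [← he1 x y (by omega) (by omega)]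
          exact he x y hx hy
        obtain ⟨c, hc, ho, rfl⟩ := complete_step hI hg1 he2 d1 d2
        exact ⟨c, (mem_DD hs).2 ⟨ho, hc⟩, mem_SF.2 ⟨hg, he1⟩⟩
      · rintro ⟨c, hc, hg⟩
        rw [mem_SF] at hg
        exact ⟨hg.1, Ext.trans (by omega) ins2_ext hg.2⟩
    rw [hset, Finset.card_biUnion]
    · have hterm : ∀ c ∈ DD n h, (SF (n + 2 + 2 * r + t) (n+2) δ (ins2 n c h)).card =
          Desc (r + t) ((UU n h).card + 1) (((DD n h).filter (fun c' => c' ≤ c)).card) := by
        intro c hc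
        have hc' := (mem_DD hs).1 hc
        have hI2 := ins2_inv hI hc'.2 hc'.1 d1 d2
        rw [SF_mir (by omega) hI2.st, ih (n+2) _ _ (mir_inv hI2) hP.neg,
          card_DD_mir hI2.st, card_UU_mir hI2.st, UU_ins2 hI hc'.2 hc'.1,
          DD_ins2 hI hc'.2 hc'.1 d1 d2]
      rw [Finset.sum_congr rfl hterm,
        sum_rank (fun k => Desc (r+t) ((UU n h).card + 1) k) (DD n h), Desc_succ]
      congr 1
      omega
    · intro c hc c' hc' hne
      show Disjoint (SF (n + 2 + 2 * r + t) (n+2) δ (ins2 n c h))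
        (SF (n + 2 + 2 * r + t) (n+2) δ (ins2 n c' h))
      rw [Finset.disjoint_left]
      intro g hg hg'
      rw [mem_SF] at hg hg'
      have k1 := (mem_DD hs).1 (Finset.mem_coe.1 hc)
      have k2 := (mem_DD hs).1 (Finset.mem_coe.1 hc')
      have hn := hs.le n le_rfl
      apply hne
      apply cut_unique hs (by omega) (by omega)
      intro x hx
      have a1 := hg.2 x (n+1) (by omega) (by omega)
      have a2 := hg'.2 x (n+1) (by omega) (by omega)
      rw [ins2_one, ins2_old hx] at a1 a2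
      split_ifs at a1 a2 <;> omega

/-! Catalan numbers -/

theorem FF_succ_one (q : ℕ) : FF (q+1) 1 = FF q 2 := by
  show ∑ k ∈ Finset.Icc 1 1, FF q (k+1) = _
  simp

theorem FF_succ_succ (q a : ℕ) : FF (q+1) (a+1) = FF (q+1) a + FF q (a+2) := by
  show ∑ k ∈ Finset.Icc 1 (a+1), FF q (k+1) = ∑ k ∈ Finset.Icc 1 a, FF q (k+1) + _
  rw [Finset.sum_Icc_succ_top (by omega)]

theorem FF_closed (q : ℕ) : ∀ d, FF (q+1) (d+1) + (2*q+2+d).choose q = (2*q+2+d).choose (q+1) := by
  induction q with
  | zero =>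
    intro d
    induction d with
    | zero => rw [FF_succ_one]; rfl
    | succ d ih =>
      rw [FF_succ_succ]
      have e : FF 0 (d + 1 + 2) = 1 := rfl
      rw [e]
      simp at ih ⊢
      omega
  | succ q ihq =>
    intro d
    induction d with
    | zero =>
      rw [FF_succ_one]
      have h1 := ihq 1
      have e1 : 2 * (q+1) + 2 + 0 = (2*q+3) + 1 := by omega
      have e2 : 2 * q + 2 + 1 = 2 * q + 3 := by omega
      rw [e2] at h1
      have h2 : (2*q+3).choose (q+1+1) = (2*q+3).choose (q+1) :=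
        Nat.choose_symm_of_eq_add (by omega)
      have h3 : (2*q+3+1).choose (q+1) = (2*q+3).choose q + (2*q+3).choose (q+1) :=
        Nat.choose_succ_succ _ _
      have h4 : (2*q+3+1).choose (q+1+1) = (2*q+3).choose (q+1) + (2*q+3).choose (q+1+1) :=
        Nat.choose_succ_succ _ _
      have e3 : (1 : ℕ) + 1 = 2 := rfl
      rw [e3] at h1
      rw [e1, h3, h4, h2]
      omega
    | succ d ihd =>
      rw [FF_succ_succ]
      have h1 := ihq (d+2)
      have e1 : 2 * (q+1) + 2 + (d+1) = (2*(q+1)+2+d) + 1 := by omega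
      have e2 : 2 * q + 2 + (d+2) = 2 * (q+1) + 2 + d := by omega
      rw [e2] at h1
      have h3 : (2*(q+1)+2+d+1).choose (q+1) =
          (2*(q+1)+2+d).choose q + (2*(q+1)+2+d).choose (q+1) := Nat.choose_succ_succ _ _
      have h4 : (2*(q+1)+2+d+1).choose (q+1+1) =
          (2*(q+1)+2+d).choose (q+1) + (2*(q+1)+2+d).choose (q+1+1) := Nat.choose_succ_succ _ _
      have e3 : d + 1 + 2 = d + 2 + 1 := by omega
      rw [e3, e1, h3, h4]
      omega

theorem FF_catalan (q : ℕ) : FF q 2 = catalan (q+1) := by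
  have h0 : FF q 2 = FF (q+1) (0+1) := (FF_succ_one q).symm
  have h1 := FF_closed q 0
  rw [← h0] at h1
  have h2 := succ_mul_catalan_eq_centralBinom (q+1)
  have h3 : (2*q+2+0).choose (q+1) * (q+1) = (2*q+2+0).choose q * (q+2) := by
    rw [Nat.choose_succ_right_eq]
    congr 1
    omega
  have h4 : (q+1).centralBinom = (2*q+2+0).choose (q+1) := by
    rw [Nat.centralBinom_eq_two_mul_choose]
    congr 1
  rw [h4] at h2
  have h5 : (q + 1 + 1) * FF q 2 = (q + 1 + 1) * catalan (q+1) := by
    rw [h2]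
    nlinarith
  exact Nat.eq_of_mul_eq_mul_left (by omega) h5

/-! The base state -/

def base (x : ℕ) : ℕ := if x = 1 then 1 else 0

theorem base_inv {δ : ℕ → Prop} (h0 : δ 0) : Inv 1 δ base := by
  have b0 : base 0 = 0 := rfl
  have b1 : base 1 = 1 := rfl
  refine ⟨⟨?_, ?_, ?_, ?_, ?_⟩, rfl, ?_, ?_, ?_⟩
  · intro x hx
    unfold base; rw [if_neg (by omega)]
  · intro x hx
    unfold base; split_ifs <;> omega
  · intro x y hx hy hxy
    unfold base at hxy
    split_ifs at hxy <;> omega
  · intro i j hij hj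
    omega
  · intro i hi
    obtain rfl : i = 0 := by omega
    rw [b0, show 0 + 1 = 1 from rfl, b1]
    exact ⟨fun _ => h0, fun _ => by omega⟩
  · intro i hi hio
    omega
  · intro c z _ hc hz hzc
    rw [b1] at hc
    have hz2 : z = 0 ∨ z = 1 := by omega
    rcases hz2 with rfl | rfl
    · exact ⟨rfl, h0⟩
    · rw [b1] at hzc; omega
  · intro c z _ hc hz hzc
    rw [b1] at hc
    have hz2 : z = 0 ∨ z = 1 := by omega
    rcases hz2 with rfl | rfl
    · rw [b0] at hzc; omega
    · rw [b1] at hzc; omega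

theorem base_DD : (DD 1 base).card = 2 := by
  classical
  have : DD 1 base = {0, 1} := by
    ext c
    unfold DD
    rw [Finset.mem_filter, Finset.mem_range, Finset.mem_insert, Finset.mem_singleton]
    constructor
    · rintro ⟨_, _, h3⟩
      have : base 1 = 1 := rfl
      omega
    · intro hc
      refine ⟨by omega, fun i hi hio => by omega, ?_⟩
      have : base 1 = 1 := rfl
      omega
  rw [this]
  rfl

theorem base_UU : (UU 1 base).card = 1 := by
  classical
  have : UU 1 base = {2} := by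
    ext c
    unfold UU
    rw [Finset.mem_filter, Finset.mem_range, Finset.mem_singleton]
    have b1 : base 1 = 1 := rfl
    constructor
    · rintro ⟨_, _, h3⟩
      omega
    · intro hc
      exact ⟨by omega, fun i hi hio => by omega, by omega⟩
  rw [this]
  rfl

/-- The directions of the string `VVMM VVMM ...`: up, down, down, up, up, down, down, ... -/
def dirs (i : ℕ) : Prop := i % 4 = 0 ∨ i % 4 = 3

theorem dirs_pat : Pat 1 dirs := by
  intro k
  unfold dirs
  omega

theorem card_St (n : ℕ) (hn : 1 ≤ n) :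
    Set.ncard {g : ℕ → ℕ | St n dirs g} = catalan ((n/2+1)/2 + 1) * catalan (n/2/2 + 1) := by
  have h0 : dirs 0 := Or.inl rfl
  have hset : {g : ℕ → ℕ | St n dirs g} = ((SF n 1 dirs base : Finset (ℕ → ℕ)) : Set (ℕ → ℕ)) := by
    ext g
    rw [Finset.mem_coe, mem_SF]
    constructor
    · intro hg
      refine ⟨hg, ?_⟩
      have hg0 := (St.dir hg 0 (by omega)).2 h0
      intro x y hx hy
      have b0 : base 0 = 0 := rfl
      have b1 : base 1 = 1 := rfl
      have hx2 : x = 0 ∨ x = 1 := by omega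
      have hy2 : y = 0 ∨ y = 1 := by omega
      have e : 0 + 1 = 1 := rfl
      rw [e] at hg0
      rcases hx2 with rfl | rfl <;> rcases hy2 with rfl | rfl <;> omega
    · exact fun hg => hg.1
  rw [hset, Set.ncard_coe_finset]
  obtain ⟨t, r, ht, hnr⟩ : ∃ t r, t ≤ 1 ∧ n = 1 + 2 * r + t := by
    refine ⟨(n+1) % 2, (n-1)/2, by omega, by omega⟩
  have hmain := main_count t ht r 1 dirs base (base_inv h0) dirs_pat
  rw [← hnr, base_DD, base_UU] at hmain
  rw [hmain]
  unfold Desc
  rw [FF_catalan, FF_catalan]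
  have e1 : n / 2 = r + t := by omega
  rw [e1]


theorem interleave_comm {a b c d : ℕ} : Interleave a b c d ↔ Interleave c d a b := by
  unfold Interleave
  omega

/-- Heights of a permutation as a function on the natural numbers. -/
def hts {n : ℕ} (σ : Equiv.Perm (Fin (n+1))) (x : ℕ) : ℕ :=
  if hx : x < n + 1 then ((σ ⟨x, hx⟩ : Fin (n+1)) : ℕ) else 0

theorem hts_val {n : ℕ} (σ : Equiv.Perm (Fin (n+1))) (x : ℕ) (hx : x < n + 1) :
    hts σ x = ((σ ⟨x, hx⟩ : Fin (n+1)) : ℕ) := by
  unfold hts; rw [dif_pos hx]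

theorem hts_st {n : ℕ} {σ : Equiv.Perm (Fin (n+1))} (h1 : IsFoldedState σ)
    (h2 : Consistent (vvmm n) σ) : St n dirs (hts σ) := by
  have hcs : ∀ i : ℕ, ∀ hi : i < n, ((σ (⟨i, hi⟩ : Fin n).castSucc : Fin (n+1)) : ℕ) = hts σ i := by
    intro i hi
    rw [hts_val σ i (by omega)]
    rfl
  have hsc : ∀ i : ℕ, ∀ hi : i < n, ((σ (⟨i, hi⟩ : Fin n).succ : Fin (n+1)) : ℕ) = hts σ (i+1) := by
    intro i hi
    rw [hts_val σ (i+1) (by omega)]
    rfl
  have hinj : ∀ x y, x ≤ n → y ≤ n → hts σ x = hts σ y → x = y := by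
    intro x y hx hy hxy
    rw [hts_val σ x (by omega), hts_val σ y (by omega)] at hxy
    have := σ.injective (Fin.ext hxy)
    exact congrArg Fin.val this
  refine ⟨?_, ?_, hinj, ?_, ?_⟩
  · intro x hx
    unfold hts; rw [dif_neg (by omega)]
  · intro x hx
    rw [hts_val σ x (by omega)]
    have := (σ ⟨x, by omega⟩ : Fin (n+1)).isLt
    omega
  · intro i j hij hj hp
    have := h1 ⟨i, by omega⟩ ⟨j, hj⟩ (fun hq => by
      have := congrArg Fin.val hq
      simp only at this
      omega) hp
    rw [hcs, hsc, hcs, hsc] at this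
    exact this
  · intro i hi
    have h3 := h2 ⟨i, hi⟩
    unfold vvmm IsValley at h3
    simp only [Fin.lt_def, decide_eq_true_eq] at h3
    rw [hcs, hsc] at h3
    have h4 : hts σ i ≠ hts σ (i+1) := fun hq => by
      have := hinj i (i+1) (by omega) (by omega) hq
      omega
    unfold dirs
    omega

theorem perm_of_st {n : ℕ} {g : ℕ → ℕ} (hg : St n dirs g) :
    ∃ σ : Equiv.Perm (Fin (n+1)), IsFoldedState σ ∧ Consistent (vvmm n) σ ∧ hts σ = g := by
  let f : Fin (n+1) → Fin (n+1) := fun i => ⟨g i, by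
    have := hg.le i (by omega)
    omega⟩
  have hf : Function.Injective f := by
    intro a b hab
    have h1 : g a = g b := congrArg Fin.val hab
    exact Fin.ext (hg.inj a b (by omega) (by omega) h1)
  let σ : Equiv.Perm (Fin (n+1)) := Equiv.ofBijective f (Finite.injective_iff_bijective.1 hf)
  have hσ : ∀ i : Fin (n+1), ((σ i : Fin (n+1)) : ℕ) = g i := fun i => rfl
  refine ⟨σ, ?_, ?_, ?_⟩
  · intro i j hij hp
    rw [hσ, hσ, hσ, hσ]
    show ¬ Interleave (g (i:ℕ)) (g ((i:ℕ)+1)) (g (j:ℕ)) (g ((j:ℕ)+1))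
    have hne : (i : ℕ) ≠ (j : ℕ) := fun hq => hij (Fin.ext hq)
    rcases Nat.lt_or_ge (i : ℕ) (j : ℕ) with h1 | h1
    · exact hg.nc i j h1 j.isLt hp
    · intro hI
      exact hg.nc j i (by omega) i.isLt hp.symm (interleave_comm.1 hI)
  · intro i
    unfold vvmm IsValley
    simp only [Fin.lt_def, decide_eq_true_eq]
    rw [hσ, hσ]
    show ((i:ℕ) % 4 < 2) ↔ (((i:ℕ) % 2 = 0 ∧ g (i:ℕ) < g ((i:ℕ)+1)) ∨
      ((i:ℕ) % 2 = 1 ∧ g ((i:ℕ)+1) < g (i:ℕ)))
    have h1 := hg.dir i i.isLt
    have h2 : g (i:ℕ) ≠ g ((i:ℕ)+1) := fun hq => by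
      have := hg.inj i (i+1) (by omega) (by omega) hq
      omega
    unfold dirs at h1
    omega
  · funext x
    by_cases hx : x < n + 1
    · rw [hts_val σ x hx]
      rfl
    · unfold hts
      rw [dif_neg hx, hg.zero x (by omega)]

theorem hts_injective {n : ℕ} {σ τ : Equiv.Perm (Fin (n+1))} (h : hts σ = hts τ) : σ = τ := by
  apply Equiv.ext
  intro i
  apply Fin.ext
  have := congrFun h i
  rw [hts_val σ i i.isLt, hts_val τ i i.isLt] at this
  exact this

theorem numStates_vvmm (n : ℕ) (hn : 1 ≤ n) :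
    numStates (vvmm n) = catalan ((n/2+1)/2 + 1) * catalan (n/2/2 + 1) := by
  rw [← card_St n hn]
  unfold numStates
  rw [← Nat.card_coe_set_eq]
  apply Nat.card_congr
  refine Equiv.ofBijective (fun σ => ⟨hts σ.1, hts_st σ.2.1 σ.2.2⟩) ⟨?_, ?_⟩
  · intro σ τ h
    have : hts σ.1 = hts τ.1 := congrArg Subtype.val h
    exact Subtype.ext (hts_injective this)
  · rintro ⟨g, hg⟩
    obtain ⟨σ, h1, h2, h3⟩ := perm_of_st hg
    exact ⟨⟨σ, h1, h2⟩, Subtype.ext h3⟩


/-! Size of the Catalan product -/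

theorem sixteen_pow_le (n : ℕ) (hn : 1 ≤ n) : 16 ^ n ≤ 4 * n * n.centralBinom ^ 2 := by
  induction n, hn using Nat.le_induction with
  | base => decide
  | succ n hn ih =>
    have h1 := Nat.succ_mul_centralBinom_succ n
    have h2 : (n+1) * 16 ^ (n+1) ≤ (n+1) * (4 * (n+1) * (n+1).centralBinom ^ 2) := by
      calc (n+1) * 16 ^ (n+1) = 16 * (n+1) * 16 ^ n := by ring
        _ ≤ 16 * (n+1) * (4 * n * n.centralBinom ^ 2) := Nat.mul_le_mul_left _ ih
        _ = 16 * (4 * n * (n+1)) * n.centralBinom ^ 2 := by ring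
        _ ≤ 16 * ((2*n+1)^2) * n.centralBinom ^ 2 := by
            apply Nat.mul_le_mul_right
            apply Nat.mul_le_mul_left
            nlinarith
        _ = 4 * (2 * (2*n+1) * n.centralBinom) ^ 2 := by ring
        _ = 4 * ((n+1) * (n+1).centralBinom) ^ 2 := by rw [h1]
        _ = (n+1) * (4 * (n+1) * (n+1).centralBinom ^ 2) := by ring
    exact Nat.le_of_mul_le_mul_left h2 (by omega)

theorem four_pow_le (a b : ℕ) (ha : 1 ≤ a) (hb : 1 ≤ b) :
    4 ^ (a+b) ≤ 2 * (a+b) * ((a+1) * (b+1)) * (catalan a * catalan b) := by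
  have h1 := sixteen_pow_le a ha
  have h2 := sixteen_pow_le b hb
  have h3 := succ_mul_catalan_eq_centralBinom a
  have h4 := succ_mul_catalan_eq_centralBinom b
  have h5 : (4 ^ (a+b)) ^ 2 ≤ (2 * (a+b) * ((a+1) * (b+1)) * (catalan a * catalan b)) ^ 2 := by
    calc (4 ^ (a+b)) ^ 2 = 16 ^ a * 16 ^ b := by
          rw [← pow_mul, mul_comm (a+b) 2, pow_mul, ← pow_add]; norm_num
      _ ≤ (4 * a * a.centralBinom ^ 2) * (4 * b * b.centralBinom ^ 2) := Nat.mul_le_mul h1 h2
      _ = (16 * (a * b)) * (a.centralBinom * b.centralBinom) ^ 2 := by ring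
      _ ≤ (2 * (a+b)) ^ 2 * (a.centralBinom * b.centralBinom) ^ 2 := by
          apply Nat.mul_le_mul_right
          nlinarith [sq_nonneg ((a:ℤ) - b), Nat.mul_le_mul_left 1 (le_refl (a*b)),
            (by
              have := sq_nonneg ((a:ℤ) - b)
              have h6 : (4 * (a * b) : ℤ) ≤ ((a:ℤ) + b) ^ 2 := by nlinarith
              exact_mod_cast h6 : 4 * (a * b) ≤ (a + b) ^ 2)]
      _ = (2 * (a+b) * ((a+1) * (b+1)) * (catalan a * catalan b)) ^ 2 := by
          rw [← h3, ← h4]; ring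
  exact (Nat.pow_le_pow_iff_left (by norm_num)).1 h5

theorem two_pow_le (n : ℕ) :
    128 * 2 ^ n ≤ (n+4) * (n+8) ^ 2 * (catalan ((n/2+1)/2 + 1) * catalan (n/2/2 + 1)) := by
  set k := n / 2 with hk
  set a := (k+1)/2 + 1 with ha
  set b := k/2 + 1 with hb
  have hab : a + b = k + 2 := by omega
  have h1 := four_pow_le a b (by omega) (by omega)
  have h2 : 8 * 2 ^ n ≤ 4 ^ (a+b) := by
    rw [hab]
    calc 8 * 2 ^ n ≤ 8 * 2 ^ (2 * k + 1) :=
          Nat.mul_le_mul_left _ (Nat.pow_le_pow_right (by norm_num) (by omega))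
      _ = 4 ^ (k+2) := by
          rw [pow_succ, pow_mul, pow_add]; norm_num; ring
  have h3 : 16 * ((a+1) * (b+1)) ≤ (n+8) ^ 2 := by
    have e1 : (a+1) + (b+1) = k + 4 := by omega
    have e2 : 4 * ((a+1) * (b+1)) ≤ (k+4) ^ 2 := by
      rw [← e1]
      have h6 : (4 * (((a:ℤ)+1) * ((b:ℤ)+1)) : ℤ) ≤ (((a:ℤ)+1) + ((b:ℤ)+1)) ^ 2 := by
        nlinarith [sq_nonneg ((a:ℤ) - b)]
      exact_mod_cast h6
    have e3 : 2 * (k+4) ≤ n + 8 := by omega
    calc 16 * ((a+1) * (b+1)) = 4 * (4 * ((a+1) * (b+1))) := by ring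
      _ ≤ 4 * (k+4) ^ 2 := Nat.mul_le_mul_left _ e2
      _ = (2 * (k+4)) ^ 2 := by ring
      _ ≤ (n+8) ^ 2 := Nat.pow_le_pow_left e3 2
  have h4 : 2 * (a+b) ≤ n + 4 := by omega
  calc 128 * 2 ^ n = 16 * (8 * 2 ^ n) := by ring
    _ ≤ 16 * (2 * (a+b) * ((a+1) * (b+1)) * (catalan a * catalan b)) :=
        Nat.mul_le_mul_left _ (h2.trans h1)
    _ = (2 * (a+b)) * (16 * ((a+1) * (b+1))) * (catalan a * catalan b) := by ring
    _ ≤ (n+4) * (n+8) ^ 2 * (catalan a * catalan b) :=
        Nat.mul_le_mul_right _ (Nat.mul_le_mul h4 h3)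

end Pool.Agent.Results.MP_15ecc6_co.DoubleCatalan
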