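import Mathlib

namespace Pool.Agent.MV68

/-- The faces of a system of nested arcs, walked around. `G z` is the gap at position `z`, `E c` the
relation of lying in the same face at the side `c`, `σ z` the sign of the step from `z` to `z+1`. -/
structure Face (N : ℕ) (G : ℕ → ℤ) (σ : ℕ → ℤ) (E : ℕ → ℤ → ℤ → Prop) : Prop where
  refl : ∀ c m, E c m m
  symm : ∀ c m m', E c m m' → E c m' m
  trans : ∀ c m m' m'', E c m m' → E c m' m'' → E c m m''
  step : ∀ z, E (z%2) (G z) (G (z+1))
  sg : ∀ z, σ z = 1 ∨ σ z = -1
  plusE : ∀ z m, σ z = 1 → z%2=0 → E 0 (G z) m → G z ≤ m ∧ m ≤ G (z+1)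
  plusO : ∀ z m, σ z = 1 → z%2=1 → E 1 (G z) m → G (z+1) ≤ m ∧ m ≤ G z
  minusE : ∀ z, σ z = -1 → z%2=0 → G (z+1) < G z
  minusO : ∀ z, σ z = -1 → z%2=1 → G z < G (z+1)
  inj : ∀ z z', z%2 = z'%2 → G z = G z' → z < z' → z + N ≤ z'

/-- Every position of `[a, b)` has its partner in `[a, b)`. -/
def Clo (G : ℕ → ℤ) (a b : ℕ) : Prop :=
  ∀ z, a ≤ z → z < b → ∃ z', a ≤ z' ∧ z' < b ∧ z'%2 ≠ z%2 ∧ G z' = G z

/-- Chords do not cross in windows of length `N`. -/
def NoX (N : ℕ) (G : ℕ → ℤ) : Prop :=
  ∀ a b c d, a < c → c < b → b < d → d < a + N → a%2 ≠ b%2 → G a = G b → c%2 ≠ d%2 → G c = G d →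
    False

/-- Two plus steps of the same class in the same face are at the same gap. -/
theorem plus_plus {N : ℕ} {G σ : ℕ → ℤ} {E : ℕ → ℤ → ℤ → Prop} (hF : Face N G σ E) {c z z' : ℕ}
    (hz : z % 2 = c) (hz' : z' % 2 = c) (h1 : σ z = 1) (h2 : σ z' = 1)
    (hE : E c (G z) (G z')) : G z = G z' := by
  rcases Nat.mod_two_eq_zero_or_one z with h0 | h0
  · have hc : c = 0 := by omega
    subst hc
    have k1 := (hF.plusE z (G z') h1 hz hE).1
    have k2 := (hF.plusE z' (G z) h2 hz' (hF.symm _ _ _ hE)).1
    omega
  · have hc : c = 1 := by omega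
    subst hc
    have k1 := (hF.plusO z (G z') h1 hz hE).2
    have k2 := (hF.plusO z' (G z) h2 hz' (hF.symm _ _ _ hE)).2
    omega

theorem face_aux {N : ℕ} {G σ : ℕ → ℤ} {E : ℕ → ℤ → ℤ → Prop} {th : ℕ → ℤ}
    (hF : Face N G σ E) (hX : NoX N G) (hth : ∀ z, th (z+1) = th z + σ z) (n : ℕ) :
    (∀ a b, b = a + n → a < b → b < a + N → a%2 ≠ b%2 → G a = G b → Clo G a (b+1) →
      th b = th a + 1) ∧
    (∀ a b, b = a + n → a < b → b ≤ a + N → Clo G a b →
      E ((a+1)%2) (G a) (G (b-1)) ∧
      ((th (b-1) = th a + 1 ∧ (a%2 = 1 → G (b-1) ≤ G a) ∧ (a%2 = 0 → G a ≤ G (b-1))) ∨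
       (th (b-1) = th a + 3 ∧ ∃ z, a < z ∧ z + 1 < b ∧ z%2 = (a+1)%2 ∧ σ z = 1 ∧
          E ((a+1)%2) (G a) (G z)))) := by
  induction n using Nat.strong_induction_on with
  | _ n ih =>
  constructor
  · -- P1
    intro a b hb hab hbN hp hG hc
    by_cases hb1 : b = a + 1
    · subst hb1
      have h1 : σ a = 1 := by
        rcases hF.sg a with h | h
        · exact h
        · exfalso
          rcases Nat.mod_two_eq_zero_or_one a with h0 | h0
          · have := hF.minusE a h h0
            omega
          · have := hF.minusO a h h0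
            omega
      rw [hth, h1]
    · have hab1 : a + 1 < b := by omega
      have hclo : Clo G (a+1) b := by
        intro z hz1 hz2
        obtain ⟨z', h1, h2, h3, h4⟩ := hc z (by omega) (by omega)
        refine ⟨z', ?_, ?_, h3, h4⟩
        · by_contra hcon
          have hz' : z' = a := by omega
          subst hz'
          have := hF.inj z b (by omega) (by rw [← h4, hG]) hz2
          omega
        · by_contra hcon
          have hz' : z' = b := by omega
          subst hz'
          have := hF.inj a z (by omega) (by rw [hG, h4]) (by omega)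
          omega
      have hcl : (a+1+1)%2 = a%2 := by omega
      have hpb : (b-1)%2 = a%2 := by omega
      have hbm : b - 1 + 1 = b := by omega
      obtain ⟨hE, hcase⟩ := (ih (n-1) (by omega)).2 (a+1) b (by omega) hab1 (by omega) hclo
      rw [hcl] at hE hcase
      have hstep := hF.step a
      have hEab : E (a%2) (G a) (G (b-1)) := hF.trans _ _ _ _ hstep hE
      have hthb : th b = th (b-1) + σ (b-1) := by
        have := hth (b-1)
        rw [hbm] at this
        exact this
      rcases hcase with ⟨h1, h2, h3⟩ | ⟨h1, z, hz1, hz2, hz3, hz4, hz5⟩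
      · rw [hthb, h1, hth]
        rcases hF.sg a with ha | ha <;> rcases hF.sg (b-1) with hb' | hb'
        · exfalso
          have h5 := plus_plus hF rfl hpb ha hb' hEab
          have := hF.inj a (b-1) hpb.symm h5 (by omega)
          omega
        · rw [ha, hb']; ring
        · rw [ha, hb']; ring
        · exfalso
          rcases Nat.mod_two_eq_zero_or_one a with h0 | h0
          · have k1 := hF.minusE a ha h0
            have k2 := hF.minusE (b-1) hb' (by omega)
            rw [hbm] at k2
            have k3 := h2 (by omega)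
            omega
          · have k1 := hF.minusO a ha h0
            have k2 := hF.minusO (b-1) hb' (by omega)
            rw [hbm] at k2
            have k3 := h3 (by omega)
            omega
      · rw [hthb, h1, hth]
        have ha : σ a = -1 := by
          rcases hF.sg a with ha | ha
          · exfalso
            have h5 := plus_plus hF rfl hz3 ha hz4 (hF.trans _ _ _ _ hstep hz5)
            have := hF.inj a z hz3.symm h5 (by omega)
            omega
          · exact ha
        have hb' : σ (b-1) = -1 := by
          rcases hF.sg (b-1) with hb' | hb'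
          · exfalso
            have h5 := plus_plus hF hz3 hpb hz4 hb'
              (hF.trans _ _ _ _ (hF.symm _ _ _ hz5) hE)
            have := hF.inj z (b-1) (by omega) h5 (by omega)
            omega
          · exact hb'
        rw [ha, hb']; ring
  · -- P2
    intro a b hb hab hbN hc
    obtain ⟨z1, hz1a, hz1b, hz1p, hz1G⟩ := hc a le_rfl hab
    have hz1a' : a < z1 := by
      rcases Nat.lt_or_ge a z1 with h | h
      · exact h
      · exfalso
        have : z1 = a := by omega
        subst this
        exact hz1p rfl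
    have hclo1 : Clo G a (z1+1) := by
      intro z hz hz'
      obtain ⟨z', h1, h2, h3, h4⟩ := hc z hz (by omega)
      by_cases hza : z = a
      · subst hza
        exact ⟨z1, hz1a, by omega, hz1p, hz1G⟩
      by_cases hzz : z = z1
      · subst hzz
        exact ⟨a, le_rfl, by omega, hz1p.symm, hz1G.symm⟩
      refine ⟨z', h1, ?_, h3, h4⟩
      by_contra hcon
      exact hX a z1 z z' (by omega) (by omega) (by omega) (by omega) hz1p.symm hz1G.symm
        h3.symm h4.symm
    have hclo2 : Clo G (z1+1) b := by
      intro z hz hz'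
      obtain ⟨z', h1, h2, h3, h4⟩ := hc z (by omega) (by omega)
      refine ⟨z', ?_, h2, h3, h4⟩
      by_contra hcon
      by_cases hza : z' = a
      · subst hza
        have := hF.inj z1 z (by omega) (by rw [hz1G, h4]) (by omega)
        omega
      by_cases hzz : z' = z1
      · subst hzz
        have := hF.inj a z (by omega) (by rw [← hz1G, h4]) (by omega)
        omega
      exact hX a z1 z' z (by omega) (by omega) (by omega) (by omega) hz1p.symm hz1G.symm
        h3 h4
    have hP1 := (ih (z1 - a) (by omega)).1 a z1 (by omega) hz1a' (by omega) hz1p.symm hz1G.symm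
      hclo1
    by_cases hzb : z1 + 1 = b
    · have hbz : b - 1 = z1 := by omega
      rw [hbz]
      refine ⟨?_, Or.inl ⟨hP1, fun _ => hz1G.le, fun _ => hz1G.ge⟩⟩
      rw [hz1G]
      exact hF.refl _ _
    · have hcl : (z1+1+1)%2 = (a+1)%2 := by omega
      have hcz : z1%2 = (a+1)%2 := by omega
      obtain ⟨hE, hcase⟩ := (ih (b - (z1+1)) (by omega)).2 (z1+1) b (by omega) (by omega)
        (by omega) hclo2
      rw [hcl] at hE hcase
      have hstep := hF.step z1
      rw [hcz, hz1G] at hstep
      refine ⟨hF.trans _ _ _ _ hstep hE, ?_⟩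
      have hthz := hth z1
      rcases hF.sg z1 with hs | hs
      · -- plus
        rcases hcase with ⟨h1, h2, h3⟩ | ⟨h1, z, hz1', hz2, hz3, hz4, hz5⟩
        · right
          refine ⟨by rw [h1, hthz, hP1, hs]; ring, z1, hz1a', by omega, hcz, hs, ?_⟩
          rw [hz1G]
          exact hF.refl _ _
        · exfalso
          have hE' : E ((a+1)%2) (G z1) (G z) := by
            rw [hz1G]
            exact hF.trans _ _ _ _ hstep hz5
          have h5 := plus_plus hF hcz hz3 hs hz4 hE'
          have := hF.inj z1 z (by omega) h5 (by omega)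
          omega
      · rcases hcase with ⟨h1, h2, h3⟩ | ⟨h1, z, hz1', hz2, hz3, hz4, hz5⟩
        · left
          refine ⟨by rw [h1, hthz, hP1, hs]; ring, ?_, ?_⟩
          · intro ha
            have k1 := hF.minusE z1 hs (by omega)
            have k2 := h2 (by omega)
            omega
          · intro ha
            have k1 := hF.minusO z1 hs (by omega)
            have k2 := h3 (by omega)
            omega
        · right
          exact ⟨by rw [h1, hthz, hP1, hs]; ring, z, by omega, hz2, hz3, hz4,
            hF.trans _ _ _ _ hstep hz5⟩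

theorem face_label {N : ℕ} {G σ : ℕ → ℤ} {E : ℕ → ℤ → ℤ → Prop} {th : ℕ → ℤ}
    (hF : Face N G σ E) (hX : NoX N G) (hth : ∀ z, th (z+1) = th z + σ z) {a b : ℕ}
    (hab : a < b) (hbN : b < a + N) (hp : a%2 ≠ b%2) (hG : G a = G b) (hc : Clo G a (b+1)) :
    th b = th a + 1 :=
  (face_aux hF hX hth (b - a)).1 a b (by omega) hab hbN hp hG hc

end Pool.Agent.MV68
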