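import Pool.Agent.MV68.KSDefs

/-!
# MV68/Imposs: the tip cannot be both top and bottom (helper22 for helper68)
-/

namespace Pool.Agent.MV68

open Pool.Agent.Results.MP_15ecc6_co.DoubleCatalan

/-- index of the upper side of `p` in the order `B_n, ..., B_0, A_0, ..., A_n` -/
def oU (n p : ℕ) : ℕ := if p % 2 = 0 then p + n + 1 else n - p

/-- index of the lower side of `q` -/
def oL (n q : ℕ) : ℕ := if q % 2 = 0 then n - q else q + n + 1

/-- the label at the index `o` -/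
noncomputable def lamo (δ : ℕ → Prop) (n o : ℕ) : ℤ :=
  if o ≤ n then hh δ (n - o) - 1 else hh δ (o - n - 1) - 2

/-- the index `a'` belongs to the position `a` -/
def Ix (L n a a' : ℕ) : Prop :=
  (a ≤ n ∧ a' = a + n + 1) ∨ (2 * L + 1 ≤ a + n ∧ a ≤ 2 * L + 1 ∧ a' + (2 * L + 1) = a + n)

theorem rot_nc {L n a c u v a' c' u' v' : ℕ} (hL : n + 1 ≤ L) (ha : Ix L n a a') (hc : Ix L n c c')
    (hu : Ix L n u u') (hv : Ix L n v v') (hua : u ≠ a) (huc : u ≠ c) (hva : v ≠ a) (hvc : v ≠ c)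
    (h : Btw a c u ↔ Btw a c v) : Btw a' c' u' ↔ Btw a' c' v' := by
  unfold Btw at *
  rcases ha with ⟨ha1, ha2⟩ | ⟨ha1, ha2, ha3⟩ <;> rcases hc with ⟨hc1, hc2⟩ | ⟨hc1, hc2, hc3⟩ <;>
    rcases hu with ⟨hu1, hu2⟩ | ⟨hu1, hu2, hu3⟩ <;>
    rcases hv with ⟨hv1, hv2⟩ | ⟨hv1, hv2, hv3⟩ <;> omega

theorem oU_spec (δ : ℕ → Prop) {L n p : ℕ} (hp : p ≤ n) (hL : n + 1 ≤ L) :
    Ix L n (Up L p) (oU n p) ∧
    ((Up L p ≤ n ∧ oU n p = Up L p + n + 1 ∧ labU δ p = lamo δ n (oU n p) + 2) ∨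
      (2 * L + 1 ≤ Up L p + n ∧ oU n p ≤ n ∧ oU n p + (2 * L + 1) = Up L p + n ∧
        labU δ p = lamo δ n (oU n p))) := by
  unfold Ix Up oU labU lamo
  by_cases h : p % 2 = 0
  · simp only [if_pos h]
    rw [if_neg (by omega), show p + n + 1 - n - 1 = p by omega]
    refine ⟨Or.inl ⟨hp, trivial⟩, Or.inl ⟨hp, trivial, by ring⟩⟩
  · simp only [if_neg h]
    rw [if_pos (by omega), show n - (n - p) = p by omega]
    refine ⟨Or.inr ⟨by omega, by omega, by omega⟩, Or.inr ⟨by omega, by omega, by omega, rfl⟩⟩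

theorem oL_spec (δ : ℕ → Prop) {L n p : ℕ} (hp : p ≤ n) (hL : n + 1 ≤ L) :
    Ix L n (Lo L p) (oL n p) ∧
    ((Lo L p ≤ n ∧ oL n p = Lo L p + n + 1 ∧ labL δ p = lamo δ n (oL n p) + 2) ∨
      (2 * L + 1 ≤ Lo L p + n ∧ oL n p ≤ n ∧ oL n p + (2 * L + 1) = Lo L p + n ∧
        labL δ p = lamo δ n (oL n p))) := by
  unfold Ix Lo oL labL lamo
  by_cases h : p % 2 = 0
  · simp only [if_pos h]
    rw [if_pos (by omega), show n - (n - p) = p by omega]
    refine ⟨Or.inr ⟨by omega, by omega, by omega⟩, Or.inr ⟨by omega, by omega, by omega, rfl⟩⟩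
  · simp only [if_neg h]
    rw [if_neg (by omega), show p + n + 1 - n - 1 = p by omega]
    refine ⟨Or.inl ⟨hp, trivial⟩, Or.inl ⟨hp, trivial, by ring⟩⟩

theorem oU_inj {n p q : ℕ} (hp : p ≤ n) (hq : q ≤ n) (h : oU n p = oU n q) : p = q := by
  unfold oU at h; split_ifs at h <;> omega

theorem oL_inj {n p q : ℕ} (hp : p ≤ n) (hq : q ≤ n) (h : oL n p = oL n q) : p = q := by
  unfold oL at h; split_ifs at h <;> omega

theorem oU_ne_oL {n p q : ℕ} (hp : p ≤ n) (hq : q ≤ n) : oU n p ≠ oL n q := by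
  intro h
  unfold oU oL at h; split_ifs at h <;> omega

theorem o_cases {n o : ℕ} (ho : o ≤ 2 * n + 1) : ∃ x, x ≤ n ∧ (o = oU n x ∨ o = oL n x) := by
  unfold oU oL
  rcases Nat.lt_or_ge n o with h | h
  · refine ⟨o - n - 1, by omega, ?_⟩
    split_ifs <;> omega
  · refine ⟨n - o, by omega, ?_⟩
    split_ifs <;> omega

theorem lamo_step (δ : ℕ → Prop) (n o : ℕ) : lamo δ n o - 1 ≤ lamo δ n (o + 1) := by
  unfold lamo
  rcases Nat.lt_trichotomy o n with h | h | h
  · rw [if_pos (by omega), if_pos (by omega)]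
    have h1 := hh_step δ (n - (o + 1))
    rw [show n - (o + 1) + 1 = n - o by omega] at h1
    omega
  · rw [if_pos (by omega), if_neg (by omega), h, Nat.sub_self, show n + 1 - n - 1 = 0 by omega]
    omega
  · rw [if_neg (by omega), if_neg (by omega)]
    have h1 := hh_step δ (o - n - 1)
    rw [show o - n - 1 + 1 = o + 1 - n - 1 by omega] at h1
    omega

/-- the matching in terms of the indices -/
def MM (K : ℕ → ℕ → Prop) (n o o' : ℕ) : Prop :=
  ∃ p q, K p q ∧ ((o = oU n p ∧ o' = oL n q) ∨ (o = oL n q ∧ o' = oU n p))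

/-- the label rule in terms of the indices -/
theorem lab_aux {L n x u l o1 o2 : ℕ} {la lb m1 m2 : ℤ} (hx : n + 1 ≤ x) (hx' : x + n ≤ 2 * L)
    (s1 : (u ≤ n ∧ o1 = u + n + 1 ∧ la = m1 + 2) ∨
      (2 * L + 1 ≤ u + n ∧ o1 ≤ n ∧ o1 + (2 * L + 1) = u + n ∧ la = m1))
    (s2 : (l ≤ n ∧ o2 = l + n + 1 ∧ lb = m2 + 2) ∨
      (2 * L + 1 ≤ l + n ∧ o2 ≤ n ∧ o2 + (2 * L + 1) = l + n ∧ lb = m2))
    (hl : Rl x u l la lb) : (o1 < o2 → m2 = m1 + 1) ∧ (o2 < o1 → m1 = m2 + 1) := by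
  obtain ⟨l1, l2⟩ := hl
  rcases s1 with ⟨a1, a2, a3⟩ | ⟨a1, a2, a3, a4⟩ <;>
    rcases s2 with ⟨b1, b2, b3⟩ | ⟨b1, b2, b3, b4⟩
  · refine ⟨fun ho => ?_, fun ho => ?_⟩
    · have c1 : u < l := by clear l1 l2; omega
      have c2 := (l1 c1).2 (by clear l1 l2; omega)
      clear l1 l2
      omega
    · have c1 : l < u := by clear l1 l2; omega
      have c2 := (l2 c1).2 (by clear l1 l2; omega)
      clear l1 l2
      omega
  · refine ⟨fun ho => by clear l1 l2; omega, fun ho => ?_⟩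
    have c1 : u < l := by clear l1 l2; omega
    have c2 := (l1 c1).1 (by clear l1 l2; omega)
    clear l1 l2
    omega
  · refine ⟨fun ho => ?_, fun ho => by clear l1 l2; omega⟩
    have c1 : l < u := by clear l1 l2; omega
    have c2 := (l2 c1).1 (by clear l1 l2; omega)
    clear l1 l2
    omega
  · refine ⟨fun ho => ?_, fun ho => ?_⟩
    · have c1 : u < l := by clear l1 l2; omega
      have c2 := (l1 c1).2 (by clear l1 l2; omega)
      clear l1 l2
      omega
    · have c1 : l < u := by clear l1 l2; omega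
      have c2 := (l2 c1).2 (by clear l1 l2; omega)
      clear l1 l2
      omega

theorem btw_comm (a c z : ℕ) : Btw a c z ↔ Btw c a z := by
  unfold Btw
  exact Or.comm

theorem KS.not_both {L n : ℕ} {δ : ℕ → Prop} {K : ℕ → ℕ → Prop}
    (hK : KS L (n+1) δ K (n+1) (n+1)) (hL : n + 1 ≤ L) : False := by
  have hdom : ∀ p q, K p q → p ≤ n ∧ q ≤ n := by
    intro p q h
    have h1 := hK.dom p q h
    have h2 : p ≠ n + 1 := fun e => hK.ntop q (e ▸ h)
    have h3 : q ≠ n + 1 := fun e => hK.nbot p (e ▸ h)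
    omega
  have hx : n + 1 ≤ Up L (n+1) ∧ Up L (n+1) + n ≤ 2 * L := by
    rcases side_tip δ hL (n := n) with ⟨h1, h2, _, _⟩ | ⟨h1, h2, _, _⟩ <;> omega
  -- symmetry, functionality, totality
  have hsym : ∀ o o', MM K n o o' → MM K n o' o := by
    rintro o o' ⟨p, q, h, h'⟩
    exact ⟨p, q, h, h'.symm.imp (fun h => ⟨h.2, h.1⟩) (fun h => ⟨h.2, h.1⟩)⟩
  have hfun : ∀ o o' o'', MM K n o o' → MM K n o o'' → o' = o'' := by
    rintro o o' o'' ⟨p, q, h, h'⟩ ⟨r, t, k, k'⟩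
    obtain ⟨d1, d2⟩ := hdom p q h
    obtain ⟨d3, d4⟩ := hdom r t k
    rcases h' with ⟨h1, h2⟩ | ⟨h1, h2⟩ <;> rcases k' with ⟨k1, k2⟩ | ⟨k1, k2⟩
    · have e := oU_inj d1 d3 (h1.symm.trans k1)
      subst e
      rw [h2, k2, hK.fn p q t h k]
    · exact absurd (h1.symm.trans k1) (oU_ne_oL d1 d4)
    · exact absurd (k1.symm.trans h1) (oU_ne_oL d3 d2)
    · have e := oL_inj d2 d4 (h1.symm.trans k1)
      subst e
      rw [h2, k2, hK.inj p r q h k]
  have hne : ∀ o o', MM K n o o' → o ≠ o' := by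
    rintro o o' ⟨p, q, h, h'⟩ e
    obtain ⟨d1, d2⟩ := hdom p q h
    rcases h' with ⟨h1, h2⟩ | ⟨h1, h2⟩
    · exact oU_ne_oL d1 d2 (h1.symm.trans (e.trans h2))
    · exact oU_ne_oL d1 d2 (h2.symm.trans (e.symm.trans h1))
  have hbd : ∀ o o', MM K n o o' → o ≤ 2 * n + 1 := by
    rintro o o' ⟨p, q, h, h'⟩
    obtain ⟨d1, d2⟩ := hdom p q h
    rcases h' with ⟨h1, _⟩ | ⟨h1, _⟩
    · rw [h1]; unfold oU; split_ifs <;> omega
    · rw [h1]; unfold oL; split_ifs <;> omega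
  have htot : ∀ o, o ≤ 2 * n + 1 → ∃ o', MM K n o o' := by
    intro o ho
    obtain ⟨x, hx, hox⟩ := o_cases ho
    rcases hox with h | h
    · obtain ⟨q, hq⟩ := hK.tot x (by omega) (by omega)
      exact ⟨oL n q, x, q, hq, Or.inl ⟨h, rfl⟩⟩
    · obtain ⟨p, hp⟩ := hK.sur x (by omega) (by omega)
      exact ⟨oU n p, p, x, hp, Or.inr ⟨h, rfl⟩⟩
  -- no crossing
  have hnc : ∀ a c u v, MM K n a c → MM K n u v → u ≠ a → u ≠ c → (Btw a c u ↔ Btw a c v) := by
    rintro a c u v ⟨p, q, h, h'⟩ ⟨r, t, k, k'⟩ hua huc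
    obtain ⟨d1, d2⟩ := hdom p q h
    obtain ⟨d3, d4⟩ := hdom r t k
    have hpr : p ≠ r := by
      rintro rfl
      have e := hK.fn p q t h k
      subst e
      rcases h' with ⟨h1, h2⟩ | ⟨h1, h2⟩ <;> rcases k' with ⟨k1, k2⟩ | ⟨k1, k2⟩
      · exact hua (k1.trans h1.symm)
      · exact huc (k1.trans h2.symm)
      · exact huc (k1.trans h2.symm)
      · exact hua (k1.trans h1.symm)
    have hqt : q ≠ t := fun e => hpr (hK.inj p r q h (e ▸ k))
    have h0 := hK.nc p q r t h k hpr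
    have i1 := (oU_spec δ d1 hL).1
    have i2 := (oL_spec δ d2 hL).1
    have i3 := (oU_spec δ d3 hL).1
    have i4 := (oL_spec δ d4 hL).1
    have n1 : Up L r ≠ Up L p := fun e => hpr (UpL_inj (by omega) (by omega) e.symm)
    have n2 : Up L r ≠ Lo L q := UpL_ne_Lo (by omega) (by omega)
    have n3 : Lo L t ≠ Up L p := fun e => UpL_ne_Lo (by omega) (by omega) e.symm
    have n4 : Lo L t ≠ Lo L q := fun e => hqt (LoL_inj (by omega) (by omega) e.symm)
    have h5 := rot_nc hL i1 i2 i3 i4 n1 n2 n3 n4 h0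
    rcases h' with ⟨h1, h2⟩ | ⟨h1, h2⟩ <;> rcases k' with ⟨k1, k2⟩ | ⟨k1, k2⟩
    · rw [h1, h2, k1, k2]; exact h5
    · rw [h1, h2, k1, k2]; exact h5.symm
    · rw [h1, h2, k1, k2, btw_comm, btw_comm (oL n q)]; exact h5
    · rw [h1, h2, k1, k2, btw_comm, btw_comm (oL n q)]; exact h5.symm
  -- labels
  have hlab : ∀ o o', MM K n o o' → o < o' → lamo δ n o' = lamo δ n o + 1 := by
    rintro o o' ⟨p, q, h, h'⟩ hoo
    obtain ⟨d1, d2⟩ := hdom p q h
    have h3 := lab_aux hx.1 hx.2 (oU_spec δ d1 hL (L := L)).2 (oL_spec δ d2 hL (L := L)).2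
      (hK.lab p q h)
    rcases h' with ⟨rfl, rfl⟩ | ⟨rfl, rfl⟩
    · exact h3.1 hoo
    · exact h3.2 hoo
  -- the induction
  have key : ∀ o, o ≤ 2 * n + 1 → (∀ v v', v ≤ o → MM K n v v' → v' ≤ o) →
      lamo δ n 0 + 1 ≤ lamo δ n o := by
    intro o
    induction o using Nat.strong_induction_on with
    | _ o ih =>
      intro ho hcl
      obtain ⟨w, hw⟩ := htot o ho
      have hwo : w ≤ o := hcl o w le_rfl hw
      have hne1 := hne o w hw
      have hwo' : w < o := by omega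
      have hl := hlab w o (hsym _ _ hw) hwo'
      rcases Nat.eq_zero_or_pos w with h0 | hpos
      · rw [h0] at hl
        omega
      · have h1 := ih (w - 1) (by omega) (by omega) (by
          intro v v' hv hvv
          have hv' := hcl v v' (by omega) hvv
          by_contra hcon
          have n1 : v' ≠ w := by
            rintro rfl
            have := hfun v' v o (hsym _ _ hvv) (hsym _ _ hw)
            omega
          have n2 : v' ≠ o := by
            rintro rfl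
            have := hfun v' v w (hsym _ _ hvv) hw
            omega
          have h2 := hnc w o v v' (hsym _ _ hw) hvv (by omega) (by omega)
          unfold Btw at h2
          omega)
        have h3 := lamo_step δ n (w - 1)
        rw [show w - 1 + 1 = w by omega] at h3
        omega
  have hfin := key (2 * n + 1) le_rfl (fun v v' _ hv => hbd v' v (hsym _ _ hv))
  unfold lamo at hfin
  rw [if_pos (by omega), if_neg (by omega), show 2 * n + 1 - n - 1 = n by omega, Nat.sub_zero] at hfin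
  omega

end Pool.Agent.MV68
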