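import Pool.Agent.MV68.Circle

namespace Pool.Agent.MV68

open Pool.Agent.Results.MP_15ecc6_co.DoubleCatalan

theorem vis_gp_even {n z : ℕ} {g : ℕ → ℕ} (h : z % 2 = 0) : gp n g z = (g (seg n z) : ℤ) := by
  unfold gp; rw [if_pos h]

theorem vis_gp_odd {n z : ℕ} {g : ℕ → ℕ} (h : z % 2 = 1) : gp n g z = (g (seg n z) : ℤ) - 1 := by
  unfold gp; rw [if_neg (by omega)]

/-- a segment different from the two segments of the arc: both sides see the same thing -/
theorem vis_out {M z x lo hi : ℕ} {g : ℕ → ℕ} (hs : seg M z = x) (h1 : g x ≠ lo) (h2 : g x ≠ hi) :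
    ((lo : ℤ) ≤ gp M g z ∧ gp M g z < (hi : ℤ)) ↔ (lo < g x ∧ g x < hi) := by
  rcases Nat.mod_two_eq_zero_or_one z with h | h
  · rw [vis_gp_even h, hs]; omega
  · rw [vis_gp_odd h, hs]; omega

/-- the two segments of the arc itself -/
theorem vis_in {M z z' i lo hi : ℕ} {g : ℕ → ℕ} (hs : seg M z = i) (hs' : seg M z' = i + 1)
    (hp : z % 2 ≠ z' % 2) (hlt : lo < hi)
    (hlh : (g i = lo ∧ g (i + 1) = hi) ∨ (g i = hi ∧ g (i + 1) = lo)) :
    ir M g lo hi z = ir M g lo hi z' := by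
  apply ir_eq
  rcases Nat.mod_two_eq_zero_or_one z with h | h
  · rw [vis_gp_even h, vis_gp_odd (show z' % 2 = 1 by omega), hs, hs']; omega
  · rw [vis_gp_odd h, vis_gp_even (show z' % 2 = 0 by omega), hs, hs']; omega

theorem vis_arc {a b lo hi : ℕ} (c d : ℕ) (hlt : lo < hi)
    (hlh : (c = lo ∧ d = hi) ∨ (c = hi ∧ d = lo)) (h : ¬ Interleave a b c d) (h1 : a ≠ lo)
    (h2 : a ≠ hi) (h3 : b ≠ lo) (h4 : b ≠ hi) (h5 : a ≠ b) :
    (lo < a ∧ a < hi) ↔ (lo < b ∧ b < hi) := by
  unfold Interleave at h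
  rcases hlh with ⟨rfl, rfl⟩ | ⟨rfl, rfl⟩ <;> omega

theorem vis_fin {a b lo hi : ℕ} (c d : ℕ) (hlt : lo < hi)
    (hlh : (c = lo ∧ d = hi) ∨ (c = hi ∧ d = lo))
    (h : (lo < a ∧ a < hi) ↔ (lo < b ∧ b < hi)) : ¬ Interleave c d a b := by
  unfold Interleave
  rcases hlh with ⟨rfl, rfl⟩ | ⟨rfl, rfl⟩ <;> omega

theorem visible {n : ℕ} {g : ℕ → ℕ} (hc : Cir (n+1) g)
    (harc : ∀ i j, i < n → j < n → i ≠ j → i % 2 = n % 2 → j % 2 = n % 2 →
      ¬ Interleave (g i) (g (i+1)) (g j) (g (j+1)))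
    {j : ℕ} (hj : j < n) (hjn : j % 2 = n % 2) :
    ¬ Interleave (g j) (g (j+1)) (g n) (g (n+1)) := by
  have hj2 : j + 2 ≤ n := by omega
  have inj := hc.inj
  have d0 : g j ≠ g (j+1) := fun h => by
    have := inj j (j+1) (by omega) (by omega) h
    omega
  obtain ⟨lo, hi, hlt, hlh⟩ : ∃ lo hi : ℕ, lo < hi ∧
      ((g j = lo ∧ g (j+1) = hi) ∨ (g j = hi ∧ g (j+1) = lo)) := by
    rcases Nat.lt_or_ge (g j) (g (j+1)) with h | h
    · exact ⟨g j, g (j+1), h, Or.inl ⟨rfl, rfl⟩⟩
    · exact ⟨g (j+1), g j, by omega, Or.inr ⟨rfl, rfl⟩⟩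
  have hhi : hi ≤ n + 1 := by
    have h1 := hc.le j (by omega)
    have h2 := hc.le (j+1) (by omega)
    rcases hlh with ⟨_, h⟩ | ⟨h, _⟩ <;> omega
  have hout : ∀ x, x ≤ n + 1 → x ≠ j → x ≠ j + 1 → g x ≠ lo ∧ g x ≠ hi := by
    intro x hx h1 h2
    have e1 : g x ≠ g j := fun h => h1 (inj x j hx (by omega) h)
    have e2 : g x ≠ g (j+1) := fun h => h2 (inj x (j+1) hx (by omega) h)
    rcases hlh with ⟨h3, h4⟩ | ⟨h3, h4⟩
    · rw [h3] at e1; rw [h4] at e2; exact ⟨e1, e2⟩
    · rw [h3] at e1; rw [h4] at e2; exact ⟨e2, e1⟩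
  -- the two positions of a step with the parity of `n`
  have step : ∀ i z z', i < n → i % 2 = n % 2 → seg (n+1) z = i → seg (n+1) z' = i + 1 →
      z % 2 ≠ z' % 2 → ir (n+1) g lo hi z = ir (n+1) g lo hi z' := by
    intro i z z' hi' hin hs hs' hp
    by_cases hij : i = j
    · subst hij
      exact vis_in hs hs' hp hlt hlh
    · obtain ⟨a1, a2⟩ := hout i (by omega) hij (by omega)
      obtain ⟨b1, b2⟩ := hout (i+1) (by omega) (by omega) (by omega)
      apply ir_eq
      rw [vis_out hs a1 a2, vis_out hs' b1 b2]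
      refine vis_arc (g j) (g (j+1)) hlt hlh (harc i j hi' hj hij hin hjn) a1 a2 b1 b2 ?_
      intro h
      have := inj i (i+1) (by omega) (by omega) h
      omega
  have P1 : ∀ z, z < n → z % 2 = n % 2 → ir (n+1) g lo hi z = ir (n+1) g lo hi (z+1) := by
    intro z hz hzn
    apply step z z (z+1) hz hzn
    · unfold seg; rw [if_pos (by omega)]
    · unfold seg; rw [if_pos (by omega)]
    · omega
  have P2 : ∀ z, n + 4 ≤ z → z ≤ 2 * n + 2 → z % 2 = n % 2 →
      ir (n+1) g lo hi z = ir (n+1) g lo hi (z+1) := by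
    intro z hz hz2 hzn
    symm
    apply step (2 * n + 2 - z) (z+1) z (by omega) (by omega)
    · unfold seg; rw [if_neg (by omega)]; omega
    · unfold seg; rw [if_neg (by omega)]; omega
    · omega
  -- the four positions near the tip
  have sA : seg (n+1) n = n := by unfold seg; rw [if_pos (by omega)]
  have sA1 : seg (n+1) (n+1) = n+1 := by unfold seg; rw [if_pos (by omega)]
  have sB1 : seg (n+1) (n+2) = n+1 := by unfold seg; rw [if_neg (by omega)]; omega
  have sB : seg (n+1) (n+3) = n := by unfold seg; rw [if_neg (by omega)]; omega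
  obtain ⟨n1, n2⟩ := hout n (by omega) (by omega) (by omega)
  obtain ⟨m1, m2⟩ := hout (n+1) (by omega) (by omega) (by omega)
  have eN : ir (n+1) g lo hi (n+3) = ir (n+1) g lo hi n := by
    apply ir_eq; rw [vis_out sB n1 n2, vis_out sA n1 n2]
  have eM : ir (n+1) g lo hi (n+2) = ir (n+1) g lo hi (n+1) := by
    apply ir_eq; rw [vis_out sB1 m1 m2, vis_out sA1 m1 m2]
  have hlo0 : (0 : ℤ) ≤ (lo : ℤ) := by omega
  have hhi0 : (hi : ℤ) ≤ ((n+1 : ℕ) : ℤ) := by exact_mod_cast hhi
  have hne : gp (n+1) g (n+1) ≠ gp (n+1) g (n+2) := by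
    rcases Nat.mod_two_eq_zero_or_one n with h | h
    · rw [vis_gp_odd (show (n+1) % 2 = 1 by omega), vis_gp_even (show (n+2) % 2 = 0 by omega), sA1, sB1]
      omega
    · rw [vis_gp_even (show (n+1) % 2 = 0 by omega), vis_gp_odd (show (n+2) % 2 = 1 by omega), sA1, sB1]
      omega
  have hsame : ∀ z z', gp (n+1) g z = gp (n+1) g z' →
      ir (n+1) g lo hi z = ir (n+1) g lo hi z' := by
    intro z z' h
    apply ir_eq; rw [h]
  have cancel : ∀ x y : ZMod 2, x + y = 0 → x = y := by decide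
  have key : ir (n+1) g lo hi n = ir (n+1) g lo hi (n+1) := by
    have hM := hc.le (n+1) le_rfl
    have hor : (0 ≤ gp (n+1) g (n+1) ∧ gp (n+1) g (n+1) < ((n+1 : ℕ) : ℤ)) ∨
        (0 ≤ gp (n+1) g (n+2) ∧ gp (n+1) g (n+2) < ((n+1 : ℕ) : ℤ)) := by
      rcases Nat.mod_two_eq_zero_or_one n with h | h
      · rw [vis_gp_odd (show (n+1) % 2 = 1 by omega), vis_gp_even (show (n+2) % 2 = 0 by omega), sA1, sB1]
        omega
      · rw [vis_gp_even (show (n+1) % 2 = 0 by omega), vis_gp_odd (show (n+2) % 2 = 1 by omega), sA1, sB1]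
        omega
    rcases hor with ⟨h0, h1⟩ | ⟨h0, h1⟩
    · obtain ⟨P, hP, hPp, hPg⟩ := gp_partner hc (z := n+1) (by omega) h0 h1
      have hPne : P ≠ n + 2 := by
        rintro rfl
        exact hne hPg.symm
      rcases Nat.lt_or_ge P (n+1) with hlt' | hge
      · -- case 1
        have hs := ir_sum hc hlo0 hhi0 (a := P) (b := n+1) (by omega) hlt' hPp hPg
        obtain ⟨d, hd⟩ : ∃ d, n = P + 2 * d := ⟨(n - P) / 2, by omega⟩
        have hpr := pair_sum (n := n+1) (g := g) (lo := lo) (hi := hi) P d (fun k hk =>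
          P1 (P + 2 * k) (by omega) (by omega))
        rw [← hd] at hpr
        have e1 : ∑ z ∈ Finset.Ico P (n+1), ir (n+1) g lo hi z =
            ir (n+1) g lo hi P + ∑ z ∈ Finset.Ico (P+1) (n+1), ir (n+1) g lo hi z :=
          Finset.sum_eq_sum_Ico_succ_bot (by omega) _
        have e2 : ∑ z ∈ Finset.Ico P (n+1), ir (n+1) g lo hi z =
            ∑ z ∈ Finset.Ico P n, ir (n+1) g lo hi z + ir (n+1) g lo hi n :=
          Finset.sum_Ico_succ_top (by omega) _
        rw [hs, add_zero] at e1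
        rw [hpr, zero_add] at e2
        rw [← e2, e1]
        exact hsame _ _ hPg
      · -- case 2
        have hPge : n + 4 ≤ P := by omega
        have hs := ir_sum hc hlo0 hhi0 (a := n+1) (b := P) hP (by omega) (Ne.symm hPp) hPg.symm
        obtain ⟨d, hd⟩ : ∃ d, P = n + 4 + 2 * d := ⟨(P - (n+4)) / 2, by omega⟩
        have hpr := pair_sum (n := n+1) (g := g) (lo := lo) (hi := hi) (n+4) d (fun k hk =>
          P2 (n + 4 + 2 * k) (by omega) (by omega) (by omega))
        rw [← hd] at hpr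
        rw [Finset.sum_eq_sum_Ico_succ_bot (show n + 1 + 1 < P by omega),
          Finset.sum_eq_sum_Ico_succ_bot (show n + 1 + 1 + 1 < P by omega)] at hs
        have e3 : n + 1 + 1 + 1 + 1 = n + 4 := by omega
        have e4 : n + 1 + 1 + 1 = n + 3 := by omega
        have e5 : n + 1 + 1 = n + 2 := by omega
        rw [e3, e4, e5, hpr, add_zero, eN, eM] at hs
        exact (cancel _ _ hs).symm
    · obtain ⟨P, hP, hPp, hPg⟩ := gp_partner hc (z := n+2) (by omega) h0 h1
      have hPne : P ≠ n + 1 := by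
        rintro rfl
        exact hne hPg
      rcases Nat.lt_or_ge P (n+1) with hlt' | hge
      · -- case 3
        have hs := ir_sum hc hlo0 hhi0 (a := P) (b := n+2) (by omega) (by omega) hPp hPg
        obtain ⟨d, hd⟩ : ∃ d, n = P + 1 + 2 * d := ⟨(n - (P+1)) / 2, by omega⟩
        have hpr := pair_sum (n := n+1) (g := g) (lo := lo) (hi := hi) (P+1) d (fun k hk =>
          P1 (P + 1 + 2 * k) (by omega) (by omega))
        rw [← hd] at hpr
        have e5 : n + 2 = n + 1 + 1 := by omega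
        rw [e5, Finset.sum_Ico_succ_top (show P + 1 ≤ n + 1 by omega),
          Finset.sum_Ico_succ_top (show P + 1 ≤ n by omega), hpr, zero_add] at hs
        exact cancel _ _ hs
      · -- case 4
        have hPge : n + 3 ≤ P := by omega
        rcases Nat.lt_or_ge P (n+4) with hP3 | hP4
        · have : P = n + 3 := by omega
          rw [this] at hPg
          rw [← eN, ← eM]
          exact hsame _ _ hPg
        · have hs := ir_sum hc hlo0 hhi0 (a := n+2) (b := P) hP (by omega) (Ne.symm hPp) hPg.symm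
          obtain ⟨d, hd⟩ : ∃ d, P = n + 4 + 2 * d + 1 := ⟨(P - (n+5)) / 2, by omega⟩
          have hpr := pair_sum (n := n+1) (g := g) (lo := lo) (hi := hi) (n+4) d (fun k hk =>
            P2 (n + 4 + 2 * k) (by omega) (by omega) (by omega))
          have hl := P2 (n + 4 + 2 * d) (by omega) (by omega) (by omega)
          rw [hd, Finset.sum_eq_sum_Ico_succ_bot (show n + 2 + 1 < n + 4 + 2 * d + 1 by omega),
            Finset.sum_Ico_succ_top (show n + 2 + 1 + 1 ≤ n + 4 + 2 * d by omega)] at hs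
          have e3 : n + 2 + 1 + 1 = n + 4 := by omega
          have e4 : n + 2 + 1 = n + 3 := by omega
          rw [e3, e4, hpr, zero_add] at hs
          have h5 := cancel _ _ hs
          rw [← eN, ← eM, h5, hl, ← hd]
          exact hsame _ _ hPg
  have hfin := ir_iff key
  rw [vis_out sA n1 n2, vis_out sA1 m1 m2] at hfin
  exact vis_fin (g j) (g (j+1)) hlt hlh hfin

end Pool.Agent.MV68
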