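import Pool.Agent.MV68.Remove
import Pool.Agent.MV68.Visible
import Pool.Agent.MV68.Imposs

namespace Pool.Agent.MV68

open Pool.Agent.Results.MP_15ecc6_co.DoubleCatalan

/-- Put the new segment `n+1` at the height `c`. -/
def insf (n c : ℕ) (g : ℕ → ℕ) (x : ℕ) : ℕ :=
  if x = n + 1 then c else if x ≤ n then (if g x < c then g x else g x + 1) else 0

theorem insf_tip (n c : ℕ) (g : ℕ → ℕ) : insf n c g (n+1) = c := by
  unfold insf; rw [if_pos rfl]

theorem insf_old {n c : ℕ} {g : ℕ → ℕ} {x : ℕ} (hx : x ≤ n) :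
    insf n c g x = if g x < c then g x else g x + 1 := by
  unfold insf; rw [if_neg (by omega), if_pos hx]

theorem insf_lt {n c : ℕ} {g : ℕ → ℕ} {x y : ℕ} (hx : x ≤ n) (hy : y ≤ n) :
    insf n c g x < insf n c g y ↔ g x < g y := by
  rw [insf_old hx, insf_old hy]; split_ifs <;> omega

theorem insf_il {n c : ℕ} {g : ℕ → ℕ} {a b x y : ℕ} (ha : a ≤ n) (hb : b ≤ n) (hx : x ≤ n)
    (hy : y ≤ n) : Interleave (insf n c g a) (insf n c g b) (insf n c g x) (insf n c g y) ↔
      Interleave (g a) (g b) (g x) (g y) := by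
  have m : ∀ u v : ℕ, u ≤ n → v ≤ n → (insf n c g u < insf n c g v ↔ g u < g v) :=
    fun u v hu hv => insf_lt hu hv
  have key : ∀ u v w z : ℕ, u ≤ n → v ≤ n → w ≤ n → z ≤ n →
      ((min (insf n c g u) (insf n c g v) < min (insf n c g w) (insf n c g z) ↔
        min (g u) (g v) < min (g w) (g z)) ∧
      (min (insf n c g u) (insf n c g v) < max (insf n c g w) (insf n c g z) ↔
        min (g u) (g v) < max (g w) (g z)) ∧
      (max (insf n c g u) (insf n c g v) < max (insf n c g w) (insf n c g z) ↔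
        max (g u) (g v) < max (g w) (g z))) := by
    intro u v w z hu hv hw hz
    simp only [lt_min_iff, min_lt_iff, lt_max_iff, max_lt_iff, m u w hu hw, m u z hu hz,
      m v w hv hw, m v z hv hz, and_self]
  unfold Interleave
  rw [(key a b x y ha hb hx hy).1, (key x y a b hx hy ha hb).2.1, (key a b x y ha hb hx hy).2.2,
    (key x y a b hx hy ha hb).1, (key a b x y ha hb hx hy).2.1, (key x y a b hx hy ha hb).2.2]

theorem insf_inj {n c : ℕ} {δ : ℕ → Prop} {g : ℕ → ℕ} (hs : St n δ g) {x y : ℕ}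
    (hx : x ≤ n + 1) (hy : y ≤ n + 1) (h : insf n c g x = insf n c g y) : x = y := by
  by_cases hx' : x = n + 1
  · by_cases hy' : y = n + 1
    · omega
    · subst hx'
      rw [insf_tip, insf_old (by omega)] at h
      split_ifs at h <;> omega
  · by_cases hy' : y = n + 1
    · subst hy'
      rw [insf_tip, insf_old (by omega)] at h
      split_ifs at h <;> omega
    · rw [insf_old (by omega), insf_old (by omega)] at h
      apply hs.inj x y (by omega) (by omega)
      split_ifs at h <;> omega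

theorem insf_le {n c : ℕ} {δ : ℕ → Prop} {g : ℕ → ℕ} (hs : St n δ g) (hc : c ≤ n + 1) {x : ℕ}
    (hx : x ≤ n + 1) : insf n c g x ≤ n + 1 := by
  by_cases hx' : x = n + 1
  · subst hx'; rw [insf_tip]; exact hc
  · rw [insf_old (by omega)]
    have := hs.le x (by omega)
    split_ifs <;> omega

theorem insf_surj {n c : ℕ} {δ : ℕ → Prop} {g : ℕ → ℕ} (hs : St n δ g) (hc : c ≤ n + 1) {d : ℕ}
    (hd : d ≤ n + 1) : ∃ x, x ≤ n + 1 ∧ insf n c g x = d := by
  rcases Nat.lt_trichotomy d c with h | h | h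
  · obtain ⟨x, hx, hgx⟩ := hs.surj d (by omega)
    refine ⟨x, by omega, ?_⟩
    rw [insf_old hx, if_pos (by omega)]
    exact hgx
  · exact ⟨n+1, le_rfl, by rw [insf_tip, h]⟩
  · obtain ⟨x, hx, hgx⟩ := hs.surj (d-1) (by omega)
    refine ⟨x, by omega, ?_⟩
    rw [insf_old hx, if_neg (by omega)]
    omega

/-! Change of the level of the positions -/

def shp (M L z : ℕ) : ℕ := if z ≤ M then z else z + 2 * (L - M)

theorem Up_shp {M L x : ℕ} (hM : M ≤ L) (hx : x ≤ M) : Up L x = shp M L (Up M x) := by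
  unfold Up shp; split_ifs <;> omega

theorem Lo_shp {M L x : ℕ} (hM : M ≤ L) (hx : x ≤ M) : Lo L x = shp M L (Lo M x) := by
  unfold Lo shp; split_ifs <;> omega

theorem shp_lt {M L a b : ℕ} : shp M L a < shp M L b ↔ a < b := by
  unfold shp; split_ifs <;> omega

theorem Btw_shp {M L a b c : ℕ} : Btw (shp M L a) (shp M L b) (shp M L c) ↔ Btw a b c := by
  unfold Btw
  rw [shp_lt, shp_lt, shp_lt, shp_lt]

theorem Rl_shp {M L x u l : ℕ} {a b : ℤ} :
    Rl (shp M L x) (shp M L u) (shp M L l) a b ↔ Rl x u l a b := by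
  unfold Rl
  rw [shp_lt, shp_lt, shp_lt, shp_lt, shp_lt, shp_lt]

theorem Rl_b {x u l : ℕ} {a b b' : ℤ} (hne : u ≠ l) (h : Rl x u l a b) (h' : Rl x u l a b') :
    b = b' := by
  unfold Rl at h h'
  rcases Nat.lt_or_gt_of_ne hne with h1 | h1
  · have k1 := h.1 h1
    have k2 := h'.1 h1
    by_cases h2 : u < x ∧ x < l
    · rw [k1.1 h2, k2.1 h2]
    · rw [k1.2 h2, k2.2 h2]
  · have k1 := h.2 h1
    have k2 := h'.2 h1
    by_cases h2 : l < x ∧ x < u
    · have := k1.1 h2; have := k2.1 h2; omega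
    · have := k1.2 h2; have := k2.2 h2; omega

theorem Rl_a {x u l : ℕ} {a a' b : ℤ} (hne : u ≠ l) (h : Rl x u l a b) (h' : Rl x u l a' b) :
    a = a' := by
  unfold Rl at h h'
  rcases Nat.lt_or_gt_of_ne hne with h1 | h1
  · have k1 := h.1 h1
    have k2 := h'.1 h1
    by_cases h2 : u < x ∧ x < l
    · have := k1.1 h2; have := k2.1 h2; omega
    · have := k1.2 h2; have := k2.2 h2; omega
  · have k1 := h.2 h1
    have k2 := h'.2 h1
    by_cases h2 : l < x ∧ x < u
    · rw [k1.1 h2, k2.1 h2]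
    · rw [k1.2 h2, k2.2 h2]

theorem hh_congr {δ δ' : ℕ → Prop} {n : ℕ} (h : ∀ i, i < n → (δ i ↔ δ' i)) :
    hh δ n = hh δ' n := by
  classical
  induction n with
  | zero => rfl
  | succ n ih =>
    show hh δ n + (if Vy δ n then 1 else -1) = hh δ' n + (if Vy δ' n then 1 else -1)
    have e : Vy δ n ↔ Vy δ' n := by
      unfold Vy; rw [h n (by omega)]
    rw [ih (fun i hi => h i (by omega))]
    by_cases hv : Vy δ n
    · rw [if_pos hv, if_pos (e.1 hv)]
    · rw [if_neg hv, if_neg (fun h => hv (e.2 h))]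

end Pool.Agent.MV68
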