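import Pool.Agent.MV68.Chords

namespace Pool.Agent.MV68

open Pool.Agent.Results.MP_15ecc6_co.DoubleCatalan

/-- The crease of index `i` is a valley when it leads up exactly as `δ i` says. -/
def Vy (δ : ℕ → Prop) (i : ℕ) : Prop := (i % 2 = 0 ∧ δ i) ∨ (i % 2 = 1 ∧ ¬ δ i)

open Classical in
/-- Valleys minus mountains among the first `i` creases. -/
noncomputable def hh (δ : ℕ → Prop) : ℕ → ℤ
  | 0 => 0
  | i+1 => hh δ i + (if Vy δ i then 1 else -1)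

theorem hh_step (δ : ℕ → Prop) (i : ℕ) : hh δ (i+1) = hh δ i + 1 ∨ hh δ (i+1) = hh δ i - 1 := by
  classical
  show hh δ i + (if Vy δ i then 1 else -1) = _ ∨ hh δ i + (if Vy δ i then 1 else -1) = _
  split_ifs
  · left; rfl
  · right; ring

/-- Labels of the upper and of the lower side. -/
noncomputable def labU (δ : ℕ → Prop) (p : ℕ) : ℤ := if p % 2 = 0 then hh δ p else hh δ p - 1

noncomputable def labL (δ : ℕ → Prop) (q : ℕ) : ℤ := if q % 2 = 0 then hh δ q - 1 else hh δ q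

/-- The label rule for a chord with the ends `u`, `l` and the labels `a`, `b`, where `x` is one of
the two outermost positions. -/
def Rl (x u l : ℕ) (a b : ℤ) : Prop :=
  (u < l → ((u < x ∧ x < l) → b = a - 3) ∧ (¬ (u < x ∧ x < l) → b = a + 1)) ∧
  (l < u → ((l < x ∧ x < u) → a = b - 3) ∧ (¬ (l < x ∧ x < u) → a = b + 1))

/-- A noncrossing matching of the sides of the segments `0, ..., n` (positions at level `L`) which
satisfies the label rule. `K p q` says that the upper side of `p` is matched with the lower side of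
`q`. -/
structure KS (L n : ℕ) (δ : ℕ → Prop) (K : ℕ → ℕ → Prop) (top bot : ℕ) : Prop where
  dom : ∀ p q, K p q → p ≤ n ∧ q ≤ n
  fn : ∀ p q q', K p q → K p q' → q = q'
  inj : ∀ p p' q, K p q → K p' q → p = p'
  tot : ∀ p, p ≤ n → p ≠ top → ∃ q, K p q
  sur : ∀ q, q ≤ n → q ≠ bot → ∃ p, K p q
  topn : top ≤ n
  botn : bot ≤ n
  ntop : ∀ q, ¬ K top q
  nbot : ∀ p, ¬ K p bot
  nc : ∀ p q r t, K p q → K r t → p ≠ r →
    (Btw (Up L p) (Lo L q) (Up L r) ↔ Btw (Up L p) (Lo L q) (Lo L t))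
  inf : ∀ p q, K p q → (Btw (Up L p) (Lo L q) (Up L top) ↔ Btw (Up L p) (Lo L q) (Lo L bot))
  lab : ∀ p q, K p q → Rl (Up L top) (Up L p) (Lo L q) (labU δ p) (labL δ q)

/-- The matching after the removal of the segment `n+1`. -/
def Kr (n : ℕ) (K : ℕ → ℕ → Prop) (p q : ℕ) : Prop :=
  (K p q ∧ p ≤ n ∧ q ≤ n) ∨ (K p (n+1) ∧ K (n+1) q)

theorem side_old {L n p : ℕ} (hp : p ≤ n) (hL : n + 1 ≤ L) :
    (Up L p ≤ n ∧ 2 * L + 1 ≤ Lo L p + n) ∨ (2 * L + 1 ≤ Up L p + n ∧ Lo L p ≤ n) := by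
  unfold Up Lo; split_ifs <;> omega

theorem side_tip (δ : ℕ → Prop) {L n : ℕ} (hL : n + 1 ≤ L) :
    (Up L (n+1) = n + 1 ∧ Lo L (n+1) + n = 2 * L ∧ labU δ (n+1) = hh δ (n+1) ∧
      labL δ (n+1) = hh δ (n+1) - 1) ∨
    (Lo L (n+1) = n + 1 ∧ Up L (n+1) + n = 2 * L ∧ labL δ (n+1) = hh δ (n+1) ∧
      labU δ (n+1) = hh δ (n+1) - 1) := by
  unfold Up Lo labU labL; split_ifs <;> simp <;> omega

theorem UpL_inj {L p q : ℕ} (hp : p ≤ L) (hq : q ≤ L) (h : Up L p = Up L q) : p = q := by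
  unfold Up at h; split_ifs at h <;> omega

theorem LoL_inj {L p q : ℕ} (hp : p ≤ L) (hq : q ≤ L) (h : Lo L p = Lo L q) : p = q := by
  unfold Lo at h; split_ifs at h <;> omega

theorem UpL_ne_Lo {L p q : ℕ} (hp : p ≤ L) (hq : q ≤ L) : Up L p ≠ Lo L q := by
  intro h
  unfold Up Lo at h; split_ifs at h <;> omega

theorem KS.tip {L n : ℕ} {δ : ℕ → Prop} {K : ℕ → ℕ → Prop} {top bot : ℕ}
    (hK : KS L (n+1) δ K top bot) (hL : n + 1 ≤ L) : ¬ K (n+1) (n+1) := by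
  intro h
  have h1 := hK.lab _ _ h
  have h2 := side_tip δ hL (n := n)
  unfold Rl at h1
  omega

theorem btw_xor {a c z t t' lo hi : ℕ} (ha : a < lo ∨ hi < a) (hc : c < lo ∨ hi < c)
    (hz : z < lo ∨ hi < z) (hza : z ≠ a) (hzc : z ≠ c) (hlh : lo < hi)
    (ht : (t = lo ∧ t' = hi) ∨ (t = hi ∧ t' = lo)) :
    Btw a c z ↔ ¬ (Btw a t z ↔ Btw t' c z) := by
  unfold Btw
  rcases ht with ⟨rfl, rfl⟩ | ⟨rfl, rfl⟩ <;> omega

theorem btw_adj {a c t t' lo hi : ℕ} (ha : a < lo ∨ hi < a) (hc : c < lo ∨ hi < c)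
    (hlh : lo < hi) (ht : (t = lo ∧ t' = hi) ∨ (t = hi ∧ t' = lo)) :
    Btw a c t ↔ Btw a c t' := by
  unfold Btw
  rcases ht with ⟨rfl, rfl⟩ | ⟨rfl, rfl⟩ <;> omega

theorem lab_mid {a c x t t' lo hi : ℕ} {la lc lt lt' : ℤ} (ha : a < lo ∨ hi < a)
    (hc : c < lo ∨ hi < c) (hx : x < lo ∨ hi < x) (hxa : x ≠ a) (hxc : x ≠ c) (hac : a ≠ c)
    (hlh : lo < hi)
    (ht : (t = lo ∧ t' = hi ∧ lt = lt' + 1) ∨ (t = hi ∧ t' = lo ∧ lt' = lt + 1))
    (a1 : Rl x a t la lt) (a2 : Rl x t' c lt' lc) (a3 : Btw a t t' ↔ Btw a t c) :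
    Rl x a c la lc := by
  unfold Btw at a3
  unfold Rl at *
  rcases ht with ⟨rfl, rfl, _⟩ | ⟨rfl, rfl, _⟩ <;> rcases ha with ha | ha <;>
    rcases hc with hc | hc <;> rcases hx with hx | hx <;> omega

end Pool.Agent.MV68
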