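import Pool.Agent.MV68.PMCount

/-!
# Generating functions of the matchings of a periodic string
-/

namespace Pool.Agent.MV68

noncomputable def Wg (T : ℕ → ℤ) (p : ℕ) (y : ENNReal) (a b : ℕ) : ENNReal :=
  ∑' m : ℕ, if (a + 2*m) % p = b then (cm T m a : ENNReal) * y ^ m else 0

end Pool.Agent.MV68
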