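import Pool.Agent.MV68.LbDefs

/-!
# Generating functions of the matchings of a periodic string: the recursion
-/

set_option autoImplicit false

namespace Pool.Agent.MV68

open Finset

theorem per_mul {T : ℕ → ℤ} {p : ℕ} (hT : ∀ z, T (z + p) = T z) (z k : ℕ) :
    T (z + p * k) = T z := by
  induction k with
  | zero => simp
  | succ k ih => rw [Nat.mul_succ, ← Nat.add_assoc, hT, ih]

theorem per_mod {T : ℕ → ℤ} {p : ℕ} (hT : ∀ z, T (z + p) = T z) (z : ℕ) : T (z % p) = T z := by
  conv_rhs => rw [← Nat.mod_add_div z p]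
  exact (per_mul hT _ _).symm

theorem cm_per {T : ℕ → ℤ} {p : ℕ} (hT : ∀ z, T (z + p) = T z) (m : ℕ) :
    ∀ a k : ℕ, cm T m (a + p * k) = cm T m a := by
  induction m using Nat.strong_induction_on with
  | _ m ih =>
    intro a k
    rcases m with _ | m
    · rw [cm_zero, cm_zero]
    · rw [cm_succ, cm_succ]
      refine Finset.sum_congr rfl fun i _ => ?_
      have e1 : T (a + p * k + 2 * (i : ℕ) + 1) = T (a + 2 * (i : ℕ) + 1) := by
        rw [← per_mul hT (a + 2 * (i : ℕ) + 1) k]
        congr 1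
        ring
      have e2 : cm T i (a + p * k + 1) = cm T i (a + 1) := by
        rw [← ih i i.isLt (a + 1) k]
        congr 1
        ring
      have e3 : cm T (m - i) (a + p * k + 2 * i + 2) = cm T (m - i) (a + 2 * i + 2) := by
        rw [← ih (m - i) (by omega) (a + 2 * i + 2) k]
        congr 1
        ring
      rw [e1, per_mul hT, e2, e3]

theorem cm_mod {T : ℕ → ℤ} {p : ℕ} (hT : ∀ z, T (z + p) = T z) (m a : ℕ) :
    cm T m (a % p) = cm T m a := by
  conv_rhs => rw [← Nat.mod_add_div a p]
  exact (cm_per hT m _ _).symm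

theorem Wg_mod {T : ℕ → ℤ} {p : ℕ} (hT : ∀ z, T (z + p) = T z) (y : ENNReal) (a b : ℕ) :
    Wg T p y (a % p) b = Wg T p y a b := by
  unfold Wg
  refine tsum_congr fun m => ?_
  rw [Nat.mod_add_mod, cm_mod hT]

/-- sums over pairs by antidiagonals -/
theorem tsum_anti (f : ℕ → ℕ → ENNReal) :
    ∑' i, ∑' j, f i j = ∑' m, ∑ i : Fin (m + 1), f i (m - i) := by
  have h1 : ∑' i, ∑' j, f i j = ∑' q : ℕ × ℕ, f q.1 q.2 := ENNReal.tsum_prod.symm
  rw [h1, ← (Finset.HasAntidiagonal.sigmaAntidiagonalEquivProd (A := ℕ)).tsum_eq (fun q : ℕ × ℕ => f q.1 q.2),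
    ENNReal.tsum_sigma']
  refine tsum_congr fun m => ?_
  have h2 : ∑' x : (antidiagonal m : Finset (ℕ × ℕ)),
      f (Finset.HasAntidiagonal.sigmaAntidiagonalEquivProd (A := ℕ) ⟨m, x⟩).1
        (Finset.HasAntidiagonal.sigmaAntidiagonalEquivProd (A := ℕ) ⟨m, x⟩).2 =
      ∑ x ∈ antidiagonal m, f x.1 x.2 := by
    rw [tsum_fintype]
    exact Finset.sum_coe_sort (antidiagonal m) (fun x : ℕ × ℕ => f x.1 x.2)
  rw [h2, Finset.Nat.sum_antidiagonal_eq_sum_range_succ_mk, Finset.sum_range]

theorem list_ind {l : List ℕ} (hl : l.Nodup) (r : ℕ) (u : ENNReal) :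
    (l.map fun c => if r = c then u else 0).sum = if r ∈ l then u else 0 := by
  induction l with
  | nil => simp
  | cons c l ih =>
    rw [List.nodup_cons] at hl
    rw [List.map_cons, List.sum_cons, ih hl.2]
    by_cases h : r = c
    · subst h
      rw [if_pos rfl, if_neg hl.1, if_pos (List.mem_cons_self ..), add_zero]
    · rw [if_neg h, zero_add]
      by_cases h' : r ∈ l
      · rw [if_pos h', if_pos (List.mem_cons_of_mem _ h')]
      · rw [if_neg h', if_neg]
        rw [List.mem_cons]
        tauto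

theorem list_tsum (l : List ℕ) (F : ℕ → ℕ → ENNReal) :
    (l.map fun c => ∑' i, F c i).sum = ∑' i, (l.map fun c => F c i).sum := by
  induction l with
  | nil => simp
  | cons c l ih =>
    rw [List.map_cons, List.sum_cons, ih, ← ENNReal.tsum_add]
    refine tsum_congr fun i => ?_
    rw [List.map_cons, List.sum_cons]

set_option linter.unusedVariables false in
theorem Wg_rec {T : ℕ → ℤ} {p : ℕ} (hp : 0 < p) (hT : ∀ z, T (z + p) = T z) (y : ENNReal)
    (a b : ℕ) (l : List ℕ) (hl : l.Nodup) (h : ∀ c ∈ l, c < p ∧ T c = T a + 1) :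
    (if a % p = b then 1 else 0) +
      y * (l.map fun c => Wg T p y (a + 1) c * Wg T p y (c + 1) b).sum ≤ Wg T p y a b := by
  -- the right side
  have hR : Wg T p y a b = (if a % p = b then 1 else 0) +
      ∑' m, ∑ i : Fin (m + 1), (if T (a + 2 * (i : ℕ) + 1) = T a + 1 then
        (if (a + 2 * (i : ℕ) + 2 + 2 * (m - (i : ℕ))) % p = b then
          (cm T i (a + 1) : ENNReal) * (cm T (m - i) (a + 2 * i + 2) : ENNReal) * y ^ (i : ℕ) *
            y ^ (m - (i : ℕ)) * y else 0) else 0) := by
    conv_lhs => unfold Wg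
    rw [tsum_eq_zero_add' ENNReal.summable]
    congr 1
    · rw [cm_zero]
      simp
    · refine tsum_congr fun m => ?_
      by_cases hb : (a + 2 * (m + 1)) % p = b
      · rw [if_pos hb, cm_succ, Nat.cast_sum, Finset.sum_mul]
        refine Finset.sum_congr rfl fun i _ => ?_
        have hi : a + 2 * (i : ℕ) + 2 + 2 * (m - (i : ℕ)) = a + 2 * (m + 1) := by
          have := i.isLt
          omega
        have hi' : (i : ℕ) + (m - (i : ℕ)) = m := by
          have := i.isLt
          omega
        rw [hi, if_pos hb]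
        by_cases hc : T (a + 2 * (i : ℕ) + 1) = T a + 1
        · rw [if_pos hc, if_pos hc, Nat.cast_mul, pow_succ]
          have e : y ^ m = y ^ (i : ℕ) * y ^ (m - (i : ℕ)) := by
            rw [← pow_add, hi']
          rw [e]
          ring
        · rw [if_neg hc, if_neg hc, Nat.cast_zero, zero_mul]
      · rw [if_neg hb]
        symm
        refine Finset.sum_eq_zero fun i _ => ?_
        have hi : a + 2 * (i : ℕ) + 2 + 2 * (m - (i : ℕ)) = a + 2 * (m + 1) := by
          have := i.isLt
          omega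
        rw [hi, if_neg hb, ite_self]
  rw [hR]
  refine add_le_add_right ?_ _
  -- the left side
  have hL : (l.map fun c => Wg T p y (a + 1) c * Wg T p y (c + 1) b).sum ≤
      ∑' i, ∑' j, (if T (a + 2 * i + 1) = T a + 1 then
        (if (a + 2 * i + 2 + 2 * j) % p = b then
          (cm T i (a + 1) : ENNReal) * (cm T j (a + 2 * i + 2) : ENNReal) * y ^ i *
            y ^ j else 0) else 0) := by
    have h1 : ∀ c ∈ l, Wg T p y (a + 1) c * Wg T p y (c + 1) b =
        ∑' i, (if (a + 1 + 2 * i) % p = c then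
          (cm T i (a + 1) : ENNReal) * y ^ i * Wg T p y (a + 2 * i + 2) b else 0) := by
      intro c _
      conv_lhs => rw [Wg]
      rw [← ENNReal.tsum_mul_right]
      refine tsum_congr fun i => ?_
      by_cases hc : (a + 1 + 2 * i) % p = c
      · rw [if_pos hc, if_pos hc]
        congr 1
        rw [← Wg_mod hT y (c + 1), ← hc, Nat.mod_add_mod, Wg_mod hT]
        congr 1
        ring
      · rw [if_neg hc, if_neg hc, zero_mul]
    rw [List.map_congr_left h1, list_tsum]
    refine ENNReal.tsum_le_tsum fun i => ?_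
    rw [list_ind hl]
    by_cases hi : (a + 1 + 2 * i) % p ∈ l
    · have h2 : T (a + 2 * i + 1) = T a + 1 := by
        have h3 := (h _ hi).2
        rw [per_mod hT] at h3
        rw [← h3]
        congr 1
        ring
      rw [if_pos hi]
      simp only [if_pos h2]
      rw [Wg, ← ENNReal.tsum_mul_left]
      refine ENNReal.tsum_le_tsum fun j => ?_
      by_cases hb : (a + 2 * i + 2 + 2 * j) % p = b
      · rw [if_pos hb, if_pos hb]
        refine le_of_eq ?_
        ring
      · rw [if_neg hb, if_neg hb, mul_zero]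
    · rw [if_neg hi]
      exact zero_le
  refine (mul_le_mul_right hL y).trans (le_of_eq ?_)
  rw [tsum_anti, ← ENNReal.tsum_mul_left]
  refine tsum_congr fun m => ?_
  rw [Finset.mul_sum]
  refine Finset.sum_congr rfl fun i _ => ?_
  split_ifs
  · ring
  · rw [mul_zero]
  · rw [mul_zero]

set_option linter.unusedVariables false in
theorem Wg_top {T : ℕ → ℤ} {p : ℕ} (hp : 0 < p) {x z : ℝ} (hx : 0 < x) (hxz : x < z)
    (h : Wg T p (ENNReal.ofReal (1 / z)) 0 0 = ⊤) :
    ∃ m : ℕ, 0 < m ∧ (2 * m) % p = 0 ∧ x ^ m ≤ (cm T m 0 : ℝ) := by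
  by_contra hcon
  push Not at hcon
  have hz : 0 < z := hx.trans hxz
  have hq0 : 0 ≤ x / z := by positivity
  have hq1 : x / z < 1 := (div_lt_one hz).2 hxz
  have h1 : Wg T p (ENNReal.ofReal (1 / z)) 0 0 ≤ ∑' m : ℕ, ENNReal.ofReal (x / z) ^ m := by
    unfold Wg
    refine ENNReal.tsum_le_tsum fun m => ?_
    rcases Nat.eq_zero_or_pos m with rfl | hm
    · rw [cm_zero]
      simp
    · by_cases hb : (0 + 2 * m) % p = 0
      · rw [if_pos hb]
        rw [zero_add] at hb
        have h2 := (hcon m hm hb).le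
        have h3 : (cm T m 0 : ENNReal) ≤ ENNReal.ofReal (x ^ m) := by
          rw [← ENNReal.ofReal_natCast]
          exact ENNReal.ofReal_le_ofReal h2
        calc (cm T m 0 : ENNReal) * ENNReal.ofReal (1 / z) ^ m
            ≤ ENNReal.ofReal (x ^ m) * ENNReal.ofReal (1 / z) ^ m := mul_le_mul_left h3 _
          _ = ENNReal.ofReal (x / z) ^ m := by
            rw [← ENNReal.ofReal_pow (by positivity), ← ENNReal.ofReal_mul (by positivity),
              ← mul_pow, ENNReal.ofReal_pow (by positivity)]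
            congr 2
            ring
      · rw [if_neg hb]
        exact zero_le
  rw [h, ENNReal.tsum_geometric, top_le_iff, ENNReal.inv_eq_top, tsub_eq_zero_iff_le] at h1
  have h4 : ENNReal.ofReal (x / z) < 1 := by
    rw [← ENNReal.ofReal_one]
    exact (ENNReal.ofReal_lt_ofReal_iff one_pos).2 hq1
  exact absurd h1 (not_le.2 h4)

end Pool.Agent.MV68
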