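import Mathlib

/-!
# Noncrossing perfect matchings with labels: the count

Proved by helper22 for helper68.
-/

namespace Pool.Agent.MV68

/-- Number of noncrossing perfect matchings of the `2m` consecutive positions `a, ..., a+2m-1` in
which the label `th` goes up by one from the first to the second end of every chord. -/
def cm (th : ℕ → ℤ) : ℕ → ℕ → ℕ
  | 0, _ => 1
  | m+1, a => ∑ k : Fin (m+1),
      if th (a + 2 * (k:ℕ) + 1) = th a + 1 then cm th k (a+1) * cm th (m - k) (a + 2 * k + 2) else 0
termination_by m => m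
decreasing_by
  · exact k.isLt
  · omega

/-- `f` is such a matching (extended by the identity). -/
structure PM (th : ℕ → ℤ) (a m : ℕ) (f : ℕ → ℕ) : Prop where
  out : ∀ z, (z < a ∨ a + 2*m ≤ z) → f z = z
  lo : ∀ z, a ≤ z → z < a+2*m → a ≤ f z
  hi : ∀ z, a ≤ z → z < a+2*m → f z < a+2*m
  ne : ∀ z, a ≤ z → z < a+2*m → f z ≠ z
  inv : ∀ z, a ≤ z → z < a+2*m → f (f z) = z
  nc : ∀ z w, a ≤ z → z < a+2*m → z < w → w < f z → z < f w ∧ f w < f z
  lab : ∀ z, a ≤ z → z < a + 2*m → z < f z → th (f z) = th z + 1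

theorem cm_zero (th : ℕ → ℤ) (a : ℕ) : cm th 0 a = 1 := by
  rw [cm]

theorem cm_succ (th : ℕ → ℤ) (m a : ℕ) : cm th (m+1) a = ∑ k : Fin (m+1),
      if th (a + 2 * (k:ℕ) + 1) = th a + 1 then cm th k (a+1) * cm th (m - k) (a + 2 * k + 2) else 0 := by
  rw [cm]

theorem PM_finite (th : ℕ → ℤ) (a m : ℕ) : {f : ℕ → ℕ | PM th a m f}.Finite := by
  apply Set.Finite.of_injOn
    (f := fun (f : ℕ → ℕ) (z : Fin (a+2*m)) => (⟨min (f z) (a+2*m), by omega⟩ : Fin (a+2*m+1)))
    (t := Set.univ)
  · intro f _
    exact Set.mem_univ _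
  · intro f hf g hg hfg
    have hf' : PM th a m f := hf
    have hg' : PM th a m g := hg
    funext z
    rcases Nat.lt_or_ge z (a+2*m) with hz | hz
    · have h1 := congrFun hfg ⟨z, hz⟩
      have h2 : min (f z) (a+2*m) = min (g z) (a+2*m) := congrArg Fin.val h1
      have key : ∀ f : ℕ → ℕ, PM th a m f → f z < a + 2*m := by
        intro f hf
        rcases Nat.lt_or_ge z a with h | h
        · rw [hf.out z (Or.inl h)]; exact hz
        · exact hf.hi z h hz
      have h3 := key f hf'
      have h4 := key g hg'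
      omega
    · rw [hf'.out z (Or.inr hz), hg'.out z (Or.inr hz)]
  · exact Set.finite_univ

/-- gluing of two matchings -/
def glue (a k : ℕ) (p : (ℕ → ℕ) × (ℕ → ℕ)) (z : ℕ) : ℕ :=
  if z = a then a + 2*k + 1 else if z = a + 2*k + 1 then a else if z < a + 2*k + 1 then p.1 z
  else p.2 z

theorem glue_a (a k : ℕ) (p : (ℕ → ℕ) × (ℕ → ℕ)) : glue a k p a = a + 2*k + 1 := by
  unfold glue; rw [if_pos rfl]

theorem glue_b (a k : ℕ) (p : (ℕ → ℕ) × (ℕ → ℕ)) : glue a k p (a + 2*k + 1) = a := by
  unfold glue; rw [if_neg (by omega), if_pos rfl]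

theorem glue_lt {a k : ℕ} {p : (ℕ → ℕ) × (ℕ → ℕ)} {z : ℕ} (h0 : z ≠ a) (h : z < a + 2*k + 1) :
    glue a k p z = p.1 z := by
  unfold glue; rw [if_neg h0, if_neg (by omega), if_pos h]

theorem glue_gt {a k : ℕ} {p : (ℕ → ℕ) × (ℕ → ℕ)} {z : ℕ} (h : a + 2*k + 1 < z) :
    glue a k p z = p.2 z := by
  unfold glue; rw [if_neg (by omega), if_neg (by omega), if_neg (by omega)]

theorem glue_pm {th : ℕ → ℤ} {a m k : ℕ} (hk : k ≤ m) {f1 f2 : ℕ → ℕ} (h1 : PM th (a+1) k f1)
    (h2 : PM th (a+2*k+2) (m-k) f2) (hlab : th (a+2*k+1) = th a + 1) :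
    PM th a (m+1) (glue a k (f1, f2)) := by
  have ga := glue_a a k (f1, f2)
  have gb := glue_b a k (f1, f2)
  have g1 : ∀ z, a < z → z < a + 2*k + 1 → glue a k (f1, f2) z = f1 z := by
    intro z hz hz'
    exact glue_lt (by omega) hz'
  have g2 : ∀ z, a + 2*k + 1 < z → glue a k (f1, f2) z = f2 z := by
    intro z hz
    exact glue_gt hz
  have r1 : ∀ z, a < z → z < a + 2*k + 1 → a < f1 z ∧ f1 z < a + 2*k + 1 := by
    intro z hz hz'
    have := h1.lo z (by omega) (by omega)
    have := h1.hi z (by omega) (by omega)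
    omega
  have r2 : ∀ z, a + 2*k + 1 < z → z < a + 2*(m+1) → a + 2*k + 1 < f2 z ∧ f2 z < a + 2*(m+1) := by
    intro z hz hz'
    have := h2.lo z (by omega) (by omega)
    have := h2.hi z (by omega) (by omega)
    omega
  have cases4 : ∀ z, a ≤ z → z < a + 2*(m+1) →
      z = a ∨ (a < z ∧ z < a + 2*k + 1) ∨ z = a + 2*k + 1 ∨ a + 2*k + 1 < z := by
    intro z _ _
    omega
  refine ⟨?_, ?_, ?_, ?_, ?_, ?_, ?_⟩
  · intro z hz
    rcases hz with hz | hz
    · rw [glue_lt (by omega) (by omega)]
      exact h1.out z (Or.inl (by omega))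
    · rw [g2 z (by omega)]
      exact h2.out z (Or.inr (by omega))
  · intro z hz hz'
    rcases cases4 z hz hz' with rfl | ⟨c1, c2⟩ | rfl | c
    · rw [ga]; omega
    · rw [g1 z c1 c2]; have := r1 z c1 c2; omega
    · rw [gb]
    · rw [g2 z c]; have := r2 z c hz'; omega
  · intro z hz hz'
    rcases cases4 z hz hz' with rfl | ⟨c1, c2⟩ | rfl | c
    · rw [ga]; omega
    · rw [g1 z c1 c2]; have := r1 z c1 c2; omega
    · rw [gb]; omega
    · rw [g2 z c]; have := r2 z c hz'; omega
  · intro z hz hz'
    rcases cases4 z hz hz' with rfl | ⟨c1, c2⟩ | rfl | c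
    · rw [ga]; omega
    · rw [g1 z c1 c2]; exact h1.ne z (by omega) (by omega)
    · rw [gb]; omega
    · rw [g2 z c]; exact h2.ne z (by omega) (by omega)
  · intro z hz hz'
    rcases cases4 z hz hz' with rfl | ⟨c1, c2⟩ | rfl | c
    · rw [ga, gb]
    · have := r1 z c1 c2
      rw [g1 z c1 c2, g1 (f1 z) this.1 this.2]
      exact h1.inv z (by omega) (by omega)
    · rw [gb, ga]
    · have := r2 z c hz'
      rw [g2 z c, g2 (f2 z) this.1]
      exact h2.inv z (by omega) (by omega)
  · intro z w hz hz' hzw hw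
    rcases cases4 z hz hz' with rfl | ⟨c1, c2⟩ | rfl | c
    · rw [ga] at hw ⊢
      rw [g1 w hzw hw]
      exact r1 w hzw hw
    · rw [g1 z c1 c2] at hw ⊢
      have h3 := r1 z c1 c2
      rw [g1 w (by omega) (by omega)]
      exact h1.nc z w (by omega) (by omega) hzw hw
    · rw [gb] at hw
      omega
    · rw [g2 z c] at hw ⊢
      rw [g2 w (by omega)]
      exact h2.nc z w (by omega) (by omega) hzw hw
  · intro z hz hz' hzf
    rcases cases4 z hz hz' with rfl | ⟨c1, c2⟩ | rfl | c
    · rw [ga]; exact hlab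
    · rw [g1 z c1 c2] at hzf ⊢
      exact h1.lab z (by omega) (by omega) hzf
    · rw [gb] at hzf
      omega
    · rw [g2 z c] at hzf ⊢
      exact h2.lab z (by omega) (by omega) hzf

theorem th_parity {th : ℕ → ℤ} (hth : ∀ z, th (z+1) = th z + 1 ∨ th (z+1) = th z - 1) (a : ℕ) :
    ∀ d : ℕ, (th (a + d) - th a - d) % 2 = 0 := by
  intro d
  induction d with
  | zero => simp
  | succ d ih =>
    have h := hth (a + d)
    have e : a + (d + 1) = a + d + 1 := by omega
    rw [e]
    push_cast
    omega

theorem split_pm {th : ℕ → ℤ} (hth : ∀ z, th (z+1) = th z + 1 ∨ th (z+1) = th z - 1) {a m : ℕ}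
    {f : ℕ → ℕ} (hf : PM th a (m+1) f) :
    ∃ k, k ≤ m ∧ th (a+2*k+1) = th a + 1 ∧ ∃ f1 f2, PM th (a+1) k f1 ∧
      PM th (a+2*k+2) (m-k) f2 ∧ glue a k (f1, f2) = f := by
  have ha1 := hf.lo a le_rfl (by omega)
  have ha2 := hf.hi a le_rfl (by omega)
  have ha3 := hf.ne a le_rfl (by omega)
  have ha4 : a < f a := by omega
  have ha5 := hf.lab a le_rfl (by omega) ha4
  have ha6 := hf.inv a le_rfl (by omega)
  obtain ⟨k, hk⟩ : ∃ k, f a = a + 2*k + 1 := by
    have h1 := th_parity hth a (f a - a)
    have h2 : a + (f a - a) = f a := by omega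
    rw [h2, ha5] at h1
    refine ⟨(f a - a) / 2, ?_⟩
    omega
  have hkm : k ≤ m := by omega
  rw [hk] at ha5 ha6
  -- the inside is closed
  have r1 : ∀ z, a < z → z < a + 2*k + 1 → a < f z ∧ f z < a + 2*k + 1 := by
    intro z hz hz'
    have := hf.nc a z le_rfl (by omega) hz (by omega)
    rw [hk] at this
    exact this
  have r2 : ∀ z, a + 2*k + 1 < z → z < a + 2*(m+1) → a + 2*k + 1 < f z := by
    intro z hz hz'
    have h1 := hf.lo z (by omega) hz'
    have h2 := hf.inv z (by omega) hz'
    by_contra hcon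
    have h3 : f z = a ∨ f z = a + 2*k + 1 ∨ (a < f z ∧ f z < a + 2*k + 1) := by omega
    rcases h3 with h3 | h3 | ⟨h3, h4⟩
    · rw [h3, hk] at h2; omega
    · rw [h3, ha6] at h2; omega
    · have := r1 (f z) h3 h4
      rw [h2] at this
      omega
  let f1 : ℕ → ℕ := fun z => if a < z ∧ z < a + 2*k + 1 then f z else z
  let f2 : ℕ → ℕ := fun z => if a + 2*k + 1 < z then f z else z
  have e1 : ∀ z, a < z → z < a + 2*k + 1 → f1 z = f z := by
    intro z hz hz'
    show (if a < z ∧ z < a + 2*k + 1 then f z else z) = f z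
    rw [if_pos ⟨hz, hz'⟩]
  have e1' : ∀ z, ¬ (a < z ∧ z < a + 2*k + 1) → f1 z = z := by
    intro z hz
    show (if a < z ∧ z < a + 2*k + 1 then f z else z) = z
    rw [if_neg hz]
  have e2 : ∀ z, a + 2*k + 1 < z → f2 z = f z := by
    intro z hz
    show (if a + 2*k + 1 < z then f z else z) = f z
    rw [if_pos hz]
  have e2' : ∀ z, ¬ (a + 2*k + 1 < z) → f2 z = z := by
    intro z hz
    show (if a + 2*k + 1 < z then f z else z) = z
    rw [if_neg hz]
  clear_value f1 f2
  refine ⟨k, hkm, ha5, f1, f2, ?_, ?_, ?_⟩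
  · refine ⟨?_, ?_, ?_, ?_, ?_, ?_, ?_⟩
    · intro z hz
      exact e1' z (by omega)
    · intro z hz hz'
      rw [e1 z (by omega) (by omega)]
      have := r1 z (by omega) (by omega)
      omega
    · intro z hz hz'
      rw [e1 z (by omega) (by omega)]
      have := r1 z (by omega) (by omega)
      omega
    · intro z hz hz'
      rw [e1 z (by omega) (by omega)]
      exact hf.ne z (by omega) (by omega)
    · intro z hz hz'
      have := r1 z (by omega) (by omega)
      rw [e1 z (by omega) (by omega), e1 (f z) this.1 this.2]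
      exact hf.inv z (by omega) (by omega)
    · intro z w hz hz' hzw hw
      have := r1 z (by omega) (by omega)
      rw [e1 z (by omega) (by omega)] at hw ⊢
      rw [e1 w (by omega) (by omega)]
      exact hf.nc z w (by omega) (by omega) hzw hw
    · intro z hz hz' hzf
      rw [e1 z (by omega) (by omega)] at hzf ⊢
      exact hf.lab z (by omega) (by omega) hzf
  · refine ⟨?_, ?_, ?_, ?_, ?_, ?_, ?_⟩
    · intro z hz
      rcases hz with hz | hz
      · exact e2' z (by omega)
      · rw [e2 z (by omega)]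
        exact hf.out z (Or.inr (by omega))
    · intro z hz hz'
      rw [e2 z (by omega)]
      have := r2 z (by omega) (by omega)
      omega
    · intro z hz hz'
      rw [e2 z (by omega)]
      have := hf.hi z (by omega) (by omega)
      omega
    · intro z hz hz'
      rw [e2 z (by omega)]
      exact hf.ne z (by omega) (by omega)
    · intro z hz hz'
      have := r2 z (by omega) (by omega)
      rw [e2 z (by omega), e2 (f z) this]
      exact hf.inv z (by omega) (by omega)
    · intro z w hz hz' hzw hw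
      rw [e2 z (by omega)] at hw ⊢
      rw [e2 w (by omega)]
      exact hf.nc z w (by omega) (by omega) hzw hw
    · intro z hz hz' hzf
      rw [e2 z (by omega)] at hzf ⊢
      exact hf.lab z (by omega) (by omega) hzf
  · funext z
    have h5 : z < a ∨ z = a ∨ (a < z ∧ z < a + 2*k + 1) ∨ z = a + 2*k + 1 ∨ a + 2*k + 1 < z := by
      omega
    rcases h5 with c | rfl | ⟨c1, c2⟩ | rfl | c
    · rw [glue_lt (by omega) (by omega)]
      show f1 z = f z
      rw [e1' z (by omega), hf.out z (Or.inl c)]
    · rw [glue_a, hk]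
    · rw [glue_lt (by omega) c2]
      exact e1 z c1 c2
    · rw [glue_b, ha6]
    · rw [glue_gt c]
      exact e2 z c

theorem glue_inj {th : ℕ → ℤ} {a m k k' : ℕ} {p p' : (ℕ → ℕ) × (ℕ → ℕ)}
    (h1 : PM th (a+1) k p.1) (h2 : PM th (a+2*k+2) (m-k) p.2)
    (h1' : PM th (a+1) k' p'.1) (h2' : PM th (a+2*k'+2) (m-k') p'.2)
    (h : glue a k p = glue a k' p') : k = k' ∧ p = p' := by
  have hk : k = k' := by
    have := congrFun h a
    rw [glue_a, glue_a] at this
    omega
  subst hk
  refine ⟨rfl, Prod.ext ?_ ?_⟩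
  · funext z
    by_cases hz : a < z ∧ z < a + 2*k + 1
    · have := congrFun h z
      rw [glue_lt (by omega) hz.2, glue_lt (by omega) hz.2] at this
      exact this
    · rw [h1.out z (by omega), h1'.out z (by omega)]
  · funext z
    by_cases hz : a + 2*k + 1 < z
    · have := congrFun h z
      rw [glue_gt hz, glue_gt hz] at this
      exact this
    · rw [h2.out z (by omega), h2'.out z (by omega)]

theorem PM_ncard (th : ℕ → ℤ) (hth : ∀ z, th (z+1) = th z + 1 ∨ th (z+1) = th z - 1) (m a : ℕ) :
    Set.ncard {f : ℕ → ℕ | PM th a m f} = cm th m a := by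
  classical
  induction m using Nat.strong_induction_on generalizing a with
  | _ m ih =>
    rcases m with _ | m
    · rw [cm_zero]
      have : {f : ℕ → ℕ | PM th a 0 f} = {id} := by
        ext f
        constructor
        · intro hf
          have hf' : PM th a 0 f := hf
          rw [Set.mem_singleton_iff]
          funext z
          exact hf'.out z (by omega)
        · intro hf
          rw [Set.mem_singleton_iff] at hf
          subst hf
          show PM th a 0 id
          exact ⟨fun z _ => rfl, fun z _ _ => by omega, fun z _ _ => by omega,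
            fun z _ _ => by omega, fun z _ _ => by omega, fun z w _ _ => by omega,
            fun z _ _ => by omega⟩
      rw [this, Set.ncard_singleton]
    · rw [cm_succ]
      let F : ℕ → ℕ → Finset (ℕ → ℕ) := fun m a => (PM_finite th a m).toFinset
      have hF : ∀ m a f, f ∈ F m a ↔ PM th a m f := by
        intro m a f
        exact Set.Finite.mem_toFinset _
      have hFc : ∀ m a, Set.ncard {f : ℕ → ℕ | PM th a m f} = (F m a).card := by
        intro m a
        exact Set.ncard_eq_toFinset_card _ _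
      let U : Fin (m+1) → Finset (ℕ → ℕ) := fun k =>
        if th (a + 2 * (k:ℕ) + 1) = th a + 1 then
          (F k (a+1) ×ˢ F (m - k) (a + 2 * k + 2)).image (glue a k) else ∅
      have hU : ∀ k f, f ∈ U k ↔ th (a + 2 * (k:ℕ) + 1) = th a + 1 ∧ ∃ f1 f2,
          PM th (a+1) k f1 ∧ PM th (a + 2*k + 2) (m - k) f2 ∧ glue a k (f1, f2) = f := by
        intro k f
        show f ∈ (if th (a + 2 * (k:ℕ) + 1) = th a + 1 then
          (F k (a+1) ×ˢ F (m - k) (a + 2 * k + 2)).image (glue a k) else ∅) ↔ _
        by_cases hc : th (a + 2 * (k:ℕ) + 1) = th a + 1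
        · rw [if_pos hc, Finset.mem_image]
          constructor
          · rintro ⟨⟨f1, f2⟩, hp, hg⟩
            rw [Finset.mem_product, hF, hF] at hp
            exact ⟨hc, f1, f2, hp.1, hp.2, hg⟩
          · rintro ⟨_, f1, f2, h1, h2, hg⟩
            refine ⟨(f1, f2), ?_, hg⟩
            rw [Finset.mem_product, hF, hF]
            exact ⟨h1, h2⟩
        · rw [if_neg hc]
          constructor
          · intro h
            exact absurd h (Finset.notMem_empty f)
          · rintro ⟨h, _⟩
            exact absurd h hc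
      have hset : F (m+1) a = Finset.univ.biUnion U := by
        ext f
        rw [hF, Finset.mem_biUnion]
        constructor
        · intro hf
          obtain ⟨k, hk, hl, f1, f2, h1, h2, hg⟩ := split_pm hth hf
          refine ⟨⟨k, by omega⟩, Finset.mem_univ _, ?_⟩
          rw [hU]
          exact ⟨hl, f1, f2, h1, h2, hg⟩
        · rintro ⟨k, _, hk⟩
          rw [hU] at hk
          obtain ⟨hl, f1, f2, h1, h2, hg⟩ := hk
          rw [← hg]
          exact glue_pm (by omega) h1 h2 hl
      rw [hFc, hset, Finset.card_biUnion]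
      · apply Finset.sum_congr rfl
        intro k _
        show (if th (a + 2 * (k:ℕ) + 1) = th a + 1 then
          (F k (a+1) ×ˢ F (m - k) (a + 2 * k + 2)).image (glue a k) else ∅).card = _
        by_cases hc : th (a + 2 * (k:ℕ) + 1) = th a + 1
        · rw [if_pos hc, if_pos hc, Finset.card_image_of_injOn, Finset.card_product, ← hFc, ← hFc,
            ih k (by omega), ih (m - k) (by omega)]
          intro p hp p' hp' hg
          rw [Finset.mem_coe, Finset.mem_product, hF, hF] at hp hp'
          exact (glue_inj hp.1 hp.2 hp'.1 hp'.2 hg).2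
        · rw [if_neg hc, if_neg hc, Finset.card_empty]
      · intro k _ k' _ hkk
        show Disjoint (U k) (U k')
        rw [Finset.disjoint_left]
        intro f hf hf'
        rw [hU] at hf hf'
        obtain ⟨_, f1, f2, h1, h2, hg⟩ := hf
        obtain ⟨_, f1', f2', h1', h2', hg'⟩ := hf'
        apply hkk
        apply Fin.ext
        exact (glue_inj (p := (f1, f2)) (p' := (f1', f2')) h1 h2 h1' h2' (hg.trans hg'.symm)).1

end Pool.Agent.MV68
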