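import Pool.Agent.MV68.Lift
import Pool.Agent.MV68.PMCount

namespace Pool.Agent.MV68

open Pool.Agent.Results.MP_15ecc6_co.DoubleCatalan

/-- Sign of the step from the side at position `z` to the next side (period `2n+2`). -/
def sgs {n : ℕ} (s : Fin n → Bool) (z : ℕ) : ℤ :=
  if h : z % (2*n+2) < n then (if s ⟨z % (2*n+2), h⟩ then 1 else -1)
  else if h : n < z % (2*n+2) ∧ z % (2*n+2) < 2*n+1 then
    (if s ⟨2*n - z % (2*n+2), by omega⟩ then -1 else 1)
  else -1

/-- Labels of the sides. -/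
def lbs {n : ℕ} (s : Fin n → Bool) : ℕ → ℤ
  | 0 => 0
  | z+1 => lbs s z + sgs s z

/-- The directions (up or down) prescribed by a mountain-valley string. -/
def dirS {n : ℕ} (s : Fin n → Bool) (i : ℕ) : Prop :=
  ∃ h : i < n, (i % 2 = 0 ∧ s ⟨i, h⟩ = true) ∨ (i % 2 = 1 ∧ s ⟨i, h⟩ = false)

theorem dirS_iff {n : ℕ} (s : Fin n → Bool) (i : ℕ) (h : i < n) :
    dirS s i ↔ ((i % 2 = 0 ∧ s ⟨i, h⟩ = true) ∨ (i % 2 = 1 ∧ s ⟨i, h⟩ = false)) :=
  ⟨fun ⟨_, h'⟩ => h', fun h' => ⟨h, h'⟩⟩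

theorem Vy_dirS {n : ℕ} (s : Fin n → Bool) (i : ℕ) (h : i < n) :
    Vy (dirS s) i ↔ s ⟨i, h⟩ = true := by
  unfold Vy
  rw [dirS_iff s i h]
  rcases Nat.mod_two_eq_zero_or_one i with hp | hp <;> cases s ⟨i, h⟩ <;> simp [hp]

theorem lbs_eq {n : ℕ} (s : Fin n → Bool) (z : ℕ) : thz n (dirS s) z = lbs s z := by
  classical
  induction z with
  | zero => rfl
  | succ z ih =>
    show thz n (dirS s) z + sgz n (dirS s) z = lbs s z + sgs s z
    rw [ih]
    congr 1
    unfold sgz sgs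
    by_cases h1 : z % (2*n+2) < n
    · rw [if_pos h1, dif_pos h1]
      by_cases h2 : s ⟨z % (2*n+2), h1⟩ = true
      · rw [if_pos ((Vy_dirS s _ h1).2 h2), if_pos h2]
      · rw [if_neg (fun h => h2 ((Vy_dirS s _ h1).1 h)), if_neg h2]
    · rw [if_neg h1, dif_neg h1]
      by_cases h3 : n < z % (2*n+2) ∧ z % (2*n+2) < 2*n+1
      · rw [if_pos h3, dif_pos h3]
        have h4 : 2*n - z % (2*n+2) < n := by omega
        by_cases h2 : s ⟨2*n - z % (2*n+2), h4⟩ = true
        · rw [if_pos ((Vy_dirS s _ h4).2 h2), if_pos h2]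
        · rw [if_neg (fun h => h2 ((Vy_dirS s _ h4).1 h)), if_neg h2]
      · rw [if_neg h3, dif_neg h3]

theorem hts_dirS {n : ℕ} {s : Fin n → Bool} {σ : Equiv.Perm (Fin (n+1))}
    (h1 : IsFoldedState σ) (h2 : Consistent s σ) : St n (dirS s) (hts σ) := by
  have hcs : ∀ i : ℕ, ∀ hi : i < n, ((σ (⟨i, hi⟩ : Fin n).castSucc : Fin (n+1)) : ℕ) = hts σ i := by
    intro i hi
    rw [hts_val σ i (by omega)]
    rfl
  have hsc : ∀ i : ℕ, ∀ hi : i < n, ((σ (⟨i, hi⟩ : Fin n).succ : Fin (n+1)) : ℕ) = hts σ (i+1) := by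
    intro i hi
    rw [hts_val σ (i+1) (by omega)]
    rfl
  have hinj : ∀ x y, x ≤ n → y ≤ n → hts σ x = hts σ y → x = y := by
    intro x y hx hy hxy
    rw [hts_val σ x (by omega), hts_val σ y (by omega)] at hxy
    have := σ.injective (Fin.ext hxy)
    exact congrArg Fin.val this
  refine ⟨?_, ?_, hinj, ?_, ?_⟩
  · intro x hx
    unfold hts; rw [dif_neg (by omega)]
  · intro x hx
    rw [hts_val σ x (by omega)]
    have := (σ ⟨x, by omega⟩ : Fin (n+1)).isLt
    omega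
  · intro i j hij hj hp
    have := h1 ⟨i, by omega⟩ ⟨j, hj⟩ (fun hq => by
      have := congrArg Fin.val hq
      simp only at this
      omega) hp
    rw [hcs, hsc, hcs, hsc] at this
    exact this
  · intro i hi
    have h3 := h2 ⟨i, hi⟩
    unfold IsValley at h3
    simp only [Fin.lt_def] at h3
    rw [hcs, hsc] at h3
    have h4 : hts σ i ≠ hts σ (i+1) := fun hq => by
      have := hinj i (i+1) (by omega) (by omega) hq
      omega
    rw [dirS_iff s i hi]
    rcases Nat.mod_two_eq_zero_or_one i with hp | hp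
    · constructor
      · intro h5
        exact Or.inl ⟨hp, h3.2 (Or.inl ⟨hp, h5⟩)⟩
      · rintro (⟨_, h6⟩ | ⟨h6, _⟩)
        · have := h3.1 h6
          omega
        · omega
    · constructor
      · intro h5
        refine Or.inr ⟨hp, ?_⟩
        rw [Bool.eq_false_iff]
        intro h6
        have := h3.1 h6
        omega
      · rintro (⟨h6, _⟩ | ⟨_, h6⟩)
        · omega
        · by_contra h7
          have := h3.2 (Or.inr ⟨hp, by omega⟩)
          rw [this] at h6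
          exact Bool.noConfusion h6

theorem perm_dirS {n : ℕ} {s : Fin n → Bool} {g : ℕ → ℕ} (hg : St n (dirS s) g) :
    ∃ σ : Equiv.Perm (Fin (n+1)), IsFoldedState σ ∧ Consistent s σ ∧ hts σ = g := by
  let f : Fin (n+1) → Fin (n+1) := fun i => ⟨g i, by
    have := hg.le i (by omega)
    omega⟩
  have hf : Function.Injective f := by
    intro a b hab
    have h1 : g a = g b := congrArg Fin.val hab
    exact Fin.ext (hg.inj a b (by omega) (by omega) h1)
  let σ : Equiv.Perm (Fin (n+1)) := Equiv.ofBijective f (Finite.injective_iff_bijective.1 hf)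
  have hσ : ∀ i : Fin (n+1), ((σ i : Fin (n+1)) : ℕ) = g i := fun i => rfl
  refine ⟨σ, ?_, ?_, ?_⟩
  · intro i j hij hp
    rw [hσ, hσ, hσ, hσ]
    show ¬ Interleave (g (i:ℕ)) (g ((i:ℕ)+1)) (g (j:ℕ)) (g ((j:ℕ)+1))
    have hne : (i : ℕ) ≠ (j : ℕ) := fun hq => hij (Fin.ext hq)
    rcases Nat.lt_or_ge (i : ℕ) (j : ℕ) with h1 | h1
    · exact hg.nc i j h1 j.isLt hp
    · intro hI
      exact hg.nc j i (by omega) i.isLt hp.symm (interleave_comm.1 hI)
  · intro i
    unfold IsValley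
    simp only [Fin.lt_def]
    rw [hσ, hσ]
    show (s i = true) ↔ (((i:ℕ) % 2 = 0 ∧ g (i:ℕ) < g ((i:ℕ)+1)) ∨
      ((i:ℕ) % 2 = 1 ∧ g ((i:ℕ)+1) < g (i:ℕ)))
    have h1 := hg.dir i i.isLt
    have h2 : g (i:ℕ) ≠ g ((i:ℕ)+1) := fun hq => by
      have := hg.inj i (i+1) (by omega) (by omega) hq
      omega
    rw [dirS_iff s i i.isLt] at h1
    have e : (⟨(i:ℕ), i.isLt⟩ : Fin n) = i := rfl
    rw [e] at h1
    rcases Nat.mod_two_eq_zero_or_one (i:ℕ) with hp | hp
    · constructor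
      · intro h3
        exact Or.inl ⟨hp, h1.2 (Or.inl ⟨hp, h3⟩)⟩
      · rintro (⟨_, h3⟩ | ⟨h3, _⟩)
        · rcases h1.1 h3 with ⟨_, h4⟩ | ⟨h4, _⟩
          · exact h4
          · omega
        · omega
    · constructor
      · intro h3
        refine Or.inr ⟨hp, ?_⟩
        by_contra h4
        rcases h1.1 (by omega) with ⟨h5, _⟩ | ⟨_, h5⟩
        · omega
        · rw [h3] at h5
          exact Bool.noConfusion h5
      · rintro (⟨h3, _⟩ | ⟨_, h3⟩)
        · omega
        · by_contra h4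
          have := h1.2 (Or.inr ⟨hp, (Bool.eq_false_iff).2 h4⟩)
          omega
  · funext x
    by_cases hx : x < n + 1
    · rw [hts_val σ x hx]
      rfl
    · unfold hts
      rw [dif_neg hx, hg.zero x (by omega)]

theorem numStates_eq {n : ℕ} (s : Fin n → Bool) :
    numStates s = Set.ncard {g : ℕ → ℕ | St n (dirS s) g} := by
  unfold numStates
  rw [← Nat.card_coe_set_eq]
  apply Nat.card_congr
  refine Equiv.ofBijective (fun σ => ⟨hts σ.1, hts_dirS σ.2.1 σ.2.2⟩) ⟨?_, ?_⟩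
  · intro σ τ h
    have : hts σ.1 = hts τ.1 := congrArg Subtype.val h
    exact Subtype.ext (hts_injective this)
  · rintro ⟨g, hg⟩
    obtain ⟨σ, h1, h2, h3⟩ := perm_dirS hg
    exact ⟨⟨σ, h1, h2⟩, Subtype.ext h3⟩

end Pool.Agent.MV68
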