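import Pool.Agent.MV68.CardSt
import Pool.Agent.MV68.Transfer

/-!
# A lower bound for the maximal number of folded states from a periodic symmetric height function

Proved by helper37 for helper68.
-/

namespace Pool.Agent.MV68

open Pool.Agent.Results.MP_15ecc6_co.DoubleCatalan

theorem lw_cm_succ (th : ℕ → ℤ) (m a : ℕ) :
    cm th (m+1) a = ∑ i ∈ Finset.range (m+1),
      if th (a+2*i+1) = th a + 1 then cm th i (a+1) * cm th (m-i) (a+2*i+2) else 0 := by
  rw [cm_succ, Finset.sum_range]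

theorem lw_congr {th1 th2 : ℕ → ℤ} (m : ℕ) : ∀ a1 a2 : ℕ,
    (∀ i, i < 2*m → th1 (a1+i) - th1 a1 = th2 (a2+i) - th2 a2) →
    cm th1 m a1 = cm th2 m a2 := by
  induction m using Nat.strong_induction_on with
  | _ m ih =>
    intro a1 a2 h
    rcases m with _ | m
    · rw [cm_zero, cm_zero]
    · rw [lw_cm_succ, lw_cm_succ]
      apply Finset.sum_congr rfl
      intro i hi
      rw [Finset.mem_range] at hi
      have h1 := h (2*i+1) (by omega)
      have e1 : a1 + (2*i+1) = a1 + 2*i+1 := by omega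
      have e2 : a2 + (2*i+1) = a2 + 2*i+1 := by omega
      rw [e1, e2] at h1
      have h2 : cm th1 i (a1+1) = cm th2 i (a2+1) := by
        apply ih i (by omega)
        intro j hj
        have h3 := h (1+j) (by omega)
        have h4 := h 1 (by omega)
        rw [← add_assoc, ← add_assoc] at h3
        omega
      have h5 : cm th1 (m-i) (a1+2*i+2) = cm th2 (m-i) (a2+2*i+2) := by
        rcases Nat.eq_zero_or_pos (m-i) with h0 | h0
        · rw [h0, cm_zero, cm_zero]
        · apply ih (m-i) (by omega)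
          intro j hj
          have h3 := h (2*i+2+j) (by omega)
          have h4 := h (2*i+2) (by omega)
          rw [← add_assoc, ← add_assoc, ← add_assoc, ← add_assoc] at h3
          rw [← add_assoc, ← add_assoc] at h4
          omega
      rw [h2, h5]
      by_cases hc : th1 (a1+2*i+1) = th1 a1 + 1
      · rw [if_pos hc, if_pos (by omega)]
      · rw [if_neg hc, if_neg (by omega)]

theorem lw_super (th : ℕ → ℤ) (m' : ℕ) (m : ℕ) : ∀ a : ℕ,
    cm th m a * cm th m' (a+2*m) ≤ cm th (m+m') a := by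
  induction m using Nat.strong_induction_on with
  | _ m ih =>
    intro a
    rcases m with _ | m
    · rw [cm_zero, one_mul, zero_add, mul_zero, add_zero]
    · have e0 : m + 1 + m' = (m + m') + 1 := by omega
      rw [e0, lw_cm_succ, lw_cm_succ, Finset.sum_mul]
      refine le_trans (Finset.sum_le_sum (g := fun i =>
        if th (a+2*i+1) = th a + 1 then cm th i (a+1) * cm th (m+m'-i) (a+2*i+2) else 0) ?_) ?_
      · intro i hi
        rw [Finset.mem_range] at hi
        by_cases hc : th (a+2*i+1) = th a + 1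
        · simp only [if_pos hc]
          rw [mul_assoc]
          apply Nat.mul_le_mul_left
          have h1 := ih (m-i) (by omega) (a+2*i+2)
          have e1 : a + 2*i+2 + 2*(m-i) = a + 2*(m+1) := by omega
          have e2 : m - i + m' = m + m' - i := by omega
          rw [e1, e2] at h1
          exact h1
        · simp only [if_neg hc, zero_mul, le_refl]
      · apply Finset.sum_le_sum_of_subset
        intro i hi
        rw [Finset.mem_range] at hi ⊢
        omega

theorem lw_one (th : ℕ → ℤ) (a : ℕ) (h : th (a+1) = th a + 1) : cm th 1 a = 1 := by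
  rw [lw_cm_succ, zero_add, Finset.sum_range_one]
  rw [mul_zero, add_zero, if_pos h, Nat.sub_self, cm_zero, cm_zero]

theorem lw_pad (th : ℕ → ℤ) (m : ℕ) : ∀ a : ℕ,
    (∀ i, i < m → th (a+2*i+1) = th (a+2*i) + 1) → 1 ≤ cm th m a := by
  induction m with
  | zero => intro a _; rw [cm_zero]
  | succ m ih =>
    intro a h
    have h1 := lw_super th m 1 a
    have h2 : th (a+1) = th a + 1 := by
      have := h 0 (by omega)
      rw [mul_zero, add_zero] at this
      exact this
    rw [lw_one th a h2, one_mul, add_comm 1 m, mul_one] at h1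
    refine le_trans (ih (a+2) ?_) h1
    intro i hi
    have h3 := h (i+1) (by omega)
    have e1 : a + 2*(i+1) = a + 2 + 2*i := by omega
    rw [e1] at h3
    exact h3

section word

variable {T : ℕ → ℤ} {p : ℕ}

theorem lw_per (hT : ∀ z, T (z+p) = T z) (k : ℕ) : ∀ z, T (z + p*k) = T z := by
  induction k with
  | zero => intro z; rw [mul_zero, add_zero]
  | succ k ih =>
    intro z
    rw [mul_add, mul_one, ← add_assoc, hT, ih]

theorem lw_sym (hp : 0 < p) (hT : ∀ z, T (z+p) = T z) (hs : ∀ z, z ≤ p → T (p-z) = T z)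
    (c z : ℕ) (hz : z ≤ p*c) : T (p*c - z) = T z := by
  have h0 : z % p < p := Nat.mod_lt _ hp
  have h1 : z % p + p*(z/p) = z := Nat.mod_add_div z p
  have h2 : T z = T (z % p) := by
    have := lw_per hT (z/p) (z % p)
    rw [h1] at this
    exact this
  rcases Nat.eq_zero_or_pos (z % p) with h3 | h3
  · -- z is a multiple
    have h4 : p*c - z = 0 + p*(c - z/p) := by
      rw [Nat.mul_sub, zero_add]
      omega
    rw [h4, lw_per hT, h2, h3]
  · have h5 : z/p < c := by
      by_contra h6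
      have h7 : p*c ≤ p*(z/p) := Nat.mul_le_mul_left p (by omega)
      omega
    have h8 : p*c - z = (p - z % p) + p*(c - z/p - 1) := by
      have h9 : p*c = p*(c - z/p - 1) + p*(z/p) + p := by
        have : c = (c - z/p - 1) + z/p + 1 := by omega
        calc p*c = p*((c - z/p - 1) + z/p + 1) := by rw [← this]
          _ = _ := by ring
      omega
    rw [h8, lw_per hT, hs _ (le_of_lt h0), h2]

theorem lw_pow {m : ℕ} (hT : ∀ z, T (z+p) = T z) (hmp : (2*m) % p = 0) (r : ℕ) :
    (cm T m 0)^r ≤ cm T (m*r) 0 := by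
  obtain ⟨c, hc⟩ := Nat.dvd_of_mod_eq_zero hmp
  induction r with
  | zero => rw [pow_zero, mul_zero, cm_zero]
  | succ r ih =>
    have h1 := lw_super T m (m*r) 0
    rw [zero_add] at h1
    have h2 : cm T m (2*(m*r)) = cm T m 0 := by
      apply lw_congr
      intro i _
      have e : 2*(m*r) = p*(c*r) := by
        calc 2*(m*r) = (2*m)*r := by ring
          _ = p*(c*r) := by rw [hc]; ring
      have h3 := lw_per hT (c*r) i
      have h4 := lw_per hT (c*r) 0
      rw [e, add_comm (p*(c*r)) i, h3]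
      rw [zero_add] at h4
      rw [h4, zero_add]
    rw [h2] at h1
    calc (cm T m 0)^(r+1) = (cm T m 0)^r * cm T m 0 := pow_succ _ _
      _ ≤ cm T (m*r) 0 * cm T m 0 := Nat.mul_le_mul_right _ ih
      _ ≤ cm T (m*r + m) 0 := h1
      _ = cm T (m*(r+1)) 0 := by rw [mul_add, mul_one]

end word

/-- the string: the steps of `T` up to `Q`, then `V M V M ...` -/
def lwS (T : ℕ → ℤ) (Q n : ℕ) : Fin n → Bool := fun i =>
  if (i:ℕ) < Q then decide (T ((i:ℕ)+1) = T (i:ℕ) + 1) else decide ((i:ℕ) % 2 = 0)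

theorem lw_sgs_lt {n : ℕ} (s : Fin n → Bool) {z : ℕ} (hz : z < n) :
    sgs s z = if s ⟨z, hz⟩ then 1 else -1 := by
  have h0 : z % (2*n+2) = z := Nat.mod_eq_of_lt (by omega)
  unfold sgs
  have h1 : z % (2*n+2) < n := by rw [h0]; exact hz
  rw [dif_pos h1]
  simp only [h0]

theorem lw_sgs_n {n : ℕ} (s : Fin n → Bool) : sgs s n = -1 := by
  have h0 : n % (2*n+2) = n := Nat.mod_eq_of_lt (by omega)
  unfold sgs
  rw [dif_neg (by omega), dif_neg (by omega)]

theorem lw_sgs_top {n : ℕ} (s : Fin n → Bool) : sgs s (2*n+1) = -1 := by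
  have h0 : (2*n+1) % (2*n+2) = 2*n+1 := Nat.mod_eq_of_lt (by omega)
  unfold sgs
  rw [dif_neg (by omega), dif_neg (by omega)]

theorem lw_sgs_back {n : ℕ} (s : Fin n → Bool) {i : ℕ} (hi : i < n) :
    sgs s (n+1+i) = if s ⟨n-1-i, by omega⟩ then -1 else 1 := by
  have h0 : (n+1+i) % (2*n+2) = n+1+i := Nat.mod_eq_of_lt (by omega)
  unfold sgs
  have h1 : ¬ (n+1+i) % (2*n+2) < n := by omega
  have h2 : n < (n+1+i) % (2*n+2) ∧ (n+1+i) % (2*n+2) < 2*n+1 := by omega
  rw [dif_neg h1, dif_pos h2]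
  have h3 : 2*n - (n+1+i) % (2*n+2) = n-1-i := by omega
  simp only [h3]

theorem lw_sgs_per {n : ℕ} (s : Fin n → Bool) (z : ℕ) : sgs s (2*n+2+z) = sgs s z := by
  have h0 : (2*n+2+z) % (2*n+2) = z % (2*n+2) := Nat.add_mod_left _ _
  unfold sgs
  simp only [h0]

theorem lw_lbs_succ {n : ℕ} (s : Fin n → Bool) (z : ℕ) : lbs s (z+1) = lbs s z + sgs s z := rfl

theorem lw_lbs_zero {n : ℕ} (s : Fin n → Bool) : lbs s 0 = 0 := rfl

theorem lw_lbs_back {n : ℕ} (s : Fin n → Bool) (i : ℕ) (hi : i ≤ n) :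
    lbs s (n+1+i) = lbs s (n-i) - 1 := by
  induction i with
  | zero =>
    rw [add_zero, lw_lbs_succ, lw_sgs_n, Nat.sub_zero]
    ring
  | succ i ih =>
    have h1 := ih (by omega)
    have h2 : lbs s (n+1+(i+1)) = lbs s (n+1+i) + sgs s (n+1+i) := lw_lbs_succ s (n+1+i)
    have e : n - i = (n - (i+1)) + 1 := by omega
    have h3 : lbs s (n-i) = lbs s (n-(i+1)) + sgs s (n-(i+1)) := by
      rw [e]
      exact lw_lbs_succ s (n-(i+1))
    rw [lw_sgs_back s (by omega)] at h2
    rw [lw_sgs_lt s (by omega)] at h3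
    have e2 : (⟨n - (i+1), by omega⟩ : Fin n) = ⟨n-1-i, by omega⟩ := Fin.ext (by
      show n - (i+1) = n-1-i
      omega)
    rw [e2] at h3
    rw [h2, h1, h3]
    split_ifs <;> ring

theorem lw_lbs_per {n : ℕ} (s : Fin n → Bool) (z : ℕ) : lbs s (2*n+2+z) = lbs s z - 2 := by
  induction z with
  | zero =>
    have h1 := lw_lbs_back s n le_rfl
    have e : n + 1 + n = 2*n+1 := by omega
    rw [e, Nat.sub_self, lw_lbs_zero] at h1
    have h2 : lbs s (2*n+2) = lbs s (2*n+1) + sgs s (2*n+1) := lw_lbs_succ s (2*n+1)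
    rw [add_zero, h2, h1, lw_sgs_top, lw_lbs_zero]
    norm_num
  | succ z ih =>
    have h2 : lbs s (2*n+2+(z+1)) = lbs s (2*n+2+z) + sgs s (2*n+2+z) :=
      lw_lbs_succ s (2*n+2+z)
    rw [h2, ih, lw_sgs_per, lw_lbs_succ]
    ring

theorem lw_lbs_one {T : ℕ → ℤ} {Q n : ℕ} (hst : ∀ z, T (z+1) = T z + 1 ∨ T (z+1) = T z - 1)
    (hQ : Q ≤ n) (z : ℕ) (hz : z ≤ Q) : lbs (lwS T Q n) z = T z - T 0 := by
  induction z with
  | zero => rw [lw_lbs_zero, sub_self]
  | succ z ih =>
    rw [lw_lbs_succ, ih (by omega), lw_sgs_lt _ (show z < n by omega)]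
    have h1 : lwS T Q n ⟨z, by omega⟩ = decide (T (z+1) = T z + 1) := by
      unfold lwS
      rw [if_pos (show z < Q by omega)]
    rw [h1]
    rcases hst z with h | h
    · rw [if_pos (decide_eq_true h), h]
      ring
    · have h2 : ¬ T (z+1) = T z + 1 := by omega
      rw [decide_eq_false h2]
      rw [if_neg (by decide), h]
      ring

theorem lw_lbs_two {T : ℕ → ℤ} {Q n : ℕ} (hst : ∀ z, T (z+1) = T z + 1 ∨ T (z+1) = T z - 1)
    (hQ : Q ≤ n) (hQ2 : Q % 2 = 0) (hTQ : T Q = T 0) (i : ℕ) (hi : Q + i ≤ n) :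
    lbs (lwS T Q n) (Q+i) = ((i % 2 : ℕ) : ℤ) := by
  induction i with
  | zero =>
    rw [add_zero, lw_lbs_one hst hQ Q le_rfl, hTQ]
    norm_num
  | succ i ih =>
    have h0 : lbs (lwS T Q n) (Q+(i+1)) = lbs (lwS T Q n) (Q+i) + sgs (lwS T Q n) (Q+i) :=
      lw_lbs_succ _ _
    rw [h0, ih (by omega), lw_sgs_lt _ (show Q+i < n by omega)]
    have h1 : lwS T Q n ⟨Q+i, by omega⟩ = decide ((Q+i) % 2 = 0) := by
      unfold lwS
      rw [if_neg (show ¬ Q+i < Q by omega)]
    rw [h1]
    rcases Nat.mod_two_eq_zero_or_one i with h | h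
    · rw [decide_eq_true (show (Q+i) % 2 = 0 by omega), if_pos rfl]
      have h2 : (i+1) % 2 = 1 := by omega
      rw [h2, h]
      norm_num
    · rw [decide_eq_false (show ¬ (Q+i) % 2 = 0 by omega), if_neg (by decide)]
      have h2 : (i+1) % 2 = 0 := by omega
      rw [h2, h]
      norm_num

theorem word_bound {T : ℕ → ℤ} {p : ℕ} (hp : 0 < p) (hT : ∀ z, T (z+p) = T z)
    (hs : ∀ z, z ≤ p → T (p-z) = T z)
    (hst : ∀ z, T (z+1) = T z + 1 ∨ T (z+1) = T z - 1)
    {m : ℕ} (hm : 0 < m) (hmp : (2*m) % p = 0) (n : ℕ) :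
    (cm T m 0) ^ (2 * (n / (2*m))) ≤ maxStates n := by
  obtain ⟨c, hc⟩ := Nat.dvd_of_mod_eq_zero hmp
  set r := n / (2*m) with hr
  set M := m*r with hM
  have hMn : 2*M ≤ n := by
    have h1 : (2*m) * (n/(2*m)) ≤ n := Nat.mul_div_le n (2*m)
    rw [← hr, mul_assoc] at h1
    exact h1
  have hMp : 2*M = p*(c*r) := by
    calc 2*M = (2*m)*r := by rw [hM]; ring
      _ = p*(c*r) := by rw [hc]; ring
  have hTQ : T (2*M) = T 0 := by
    rw [hMp]
    have := lw_per hT (c*r) 0
    rw [zero_add] at this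
    exact this
  set s : Fin n → Bool := lwS T (2*M) n with hsdef
  have hL1 : ∀ z, z ≤ 2*M → lbs s z = T z - T 0 := fun z hz => lw_lbs_one hst hMn z hz
  have hL2 : ∀ i, 2*M + i ≤ n → lbs s (2*M+i) = ((i % 2 : ℕ) : ℤ) :=
    fun i hi => lw_lbs_two hst hMn (by omega) hTQ i hi
  have hL3 : ∀ i, i ≤ n → lbs s (n+1+i) = lbs s (n-i) - 1 := lw_lbs_back s
  have hL4 : ∀ z, lbs s (2*n+2+z) = lbs s z - 2 := lw_lbs_per s
  set k := n/2 with hk
  -- second factor
  have hF2 : cm T M 0 ≤ cm (lbs s) (n-k) (2*n+2) := by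
    have h1 := lw_super (lbs s) (n-k-M) M (2*n+2)
    have e1 : M + (n-k-M) = n-k := by omega
    rw [e1] at h1
    have h2 : cm (lbs s) M (2*n+2) = cm T M 0 := by
      apply lw_congr
      intro i hi
      have h3 := hL4 i
      have h4 := hL4 0
      rw [add_zero] at h4
      rw [h3, h4, hL1 i (by omega), hL1 0 (by omega), zero_add]
      ring
    have h5 : 1 ≤ cm (lbs s) (n-k-M) (2*n+2+2*M) := by
      apply lw_pad
      intro i hi
      have h6 := hL4 (2*M + (2*i+1))
      have h7 := hL4 (2*M + 2*i)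
      rw [hL2 (2*i+1) (by omega)] at h6
      rw [hL2 (2*i) (by omega)] at h7
      have e6 : 2*n+2+(2*M+(2*i+1)) = 2*n+2+2*M+2*i+1 := by omega
      have e7 : 2*n+2+(2*M+2*i) = 2*n+2+2*M+2*i := by omega
      rw [e6] at h6
      rw [e7] at h7
      rw [h6, h7]
      have e8 : (2*i+1) % 2 = 1 := by omega
      have e9 : (2*i) % 2 = 0 := by omega
      rw [e8, e9]
      norm_num
    rw [h2] at h1
    calc cm T M 0 = cm T M 0 * 1 := (mul_one _).symm
      _ ≤ cm T M 0 * cm (lbs s) (n-k-M) (2*n+2+2*M) := Nat.mul_le_mul_left _ h5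
      _ ≤ _ := h1
  -- first factor
  have hF1 : cm T M 0 ≤ cm (lbs s) k (2*(n-k)+1) := by
    have hlab : ∀ i, i ≤ 2*k → lbs s (2*(n-k)+1+i) = lbs s (2*k-i) - 1 := by
      intro i hi
      have h1 := hL3 (n-2*k+i) (by omega)
      have e1 : n + 1 + (n-2*k+i) = 2*(n-k)+1+i := by omega
      have e2 : n - (n-2*k+i) = 2*k-i := by omega
      rw [e1, e2] at h1
      exact h1
    have h1 := lw_super (lbs s) M (k-M) (2*(n-k)+1)
    have e1 : k - M + M = k := by omega
    rw [e1] at h1
    have h2 : cm (lbs s) M (2*(n-k)+1+2*(k-M)) = cm T M 0 := by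
      apply lw_congr
      intro i hi
      have h3 := hlab (2*(k-M)+i) (by omega)
      have h4 := hlab (2*(k-M)) (by omega)
      have e3 : 2*(n-k)+1+(2*(k-M)+i) = 2*(n-k)+1+2*(k-M)+i := by omega
      have e4 : 2*k-(2*(k-M)+i) = 2*M-i := by omega
      have e5 : 2*k-2*(k-M) = 2*M := by omega
      rw [e3, e4] at h3
      rw [e5] at h4
      rw [h3, h4, hL1 (2*M-i) (by omega), hL1 (2*M) le_rfl, hTQ, zero_add]
      have h6 : T (2*M-i) = T i := by
        rw [hMp]
        exact lw_sym hp hT hs (c*r) i (by rw [← hMp]; omega)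
      rw [h6]
      ring
    have h5 : 1 ≤ cm (lbs s) (k-M) (2*(n-k)+1) := by
      apply lw_pad
      intro i hi
      have h6 := hlab (2*i+1) (by omega)
      have h7 := hlab (2*i) (by omega)
      have e6 : 2*k-(2*i+1) = 2*M + (2*(k-M-i-1)+1) := by omega
      have e7 : 2*k-2*i = 2*M + 2*(k-M-i) := by omega
      rw [e6, hL2 _ (by omega)] at h6
      rw [e7, hL2 _ (by omega)] at h7
      have e8 : (2*(k-M-i-1)+1) % 2 = 1 := by omega
      have e9 : (2*(k-M-i)) % 2 = 0 := by omega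
      rw [e8] at h6
      rw [e9] at h7
      rw [← add_assoc] at h6
      rw [h6, h7]
      norm_num
    rw [h2] at h1
    calc cm T M 0 = 1 * cm T M 0 := (one_mul _).symm
      _ ≤ cm (lbs s) (k-M) (2*(n-k)+1) * cm T M 0 := Nat.mul_le_mul_right _ h5
      _ ≤ _ := h1
  -- the count
  have hN : cm (lbs s) k (2*(n-k)+1) * cm (lbs s) (n-k) (2*n+2) ≤ numStates s := by
    have e : thz n (dirS s) = lbs s := funext (lbs_eq s)
    rw [numStates_eq, card_St', e]
    have h1 : cm (lbs s) k (2*(n-k)+1) * cm (lbs s) (n-k) (2*n+2) ≤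
        ∑ m ∈ Finset.range (n+1), cm (lbs s) m (2*(n-k)+1) *
          cm (lbs s) (n-m) (2*(n-k)+2*m+2) := by
      have h2 := Finset.single_le_sum (f := fun m => cm (lbs s) m (2*(n-k)+1) *
          cm (lbs s) (n-m) (2*(n-k)+2*m+2)) (s := Finset.range (n+1))
          (fun i _ => Nat.zero_le _) (Finset.mem_range.2 (show k < n+1 by omega))
      have e2 : 2*(n-k)+2*k+2 = 2*n+2 := by omega
      simp only [e2] at h2
      exact h2
    refine le_trans h1 ?_
    exact Finset.single_le_sum (f := fun j => ∑ m ∈ Finset.range (n+1),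
      cm (lbs s) m (2*j+1) * cm (lbs s) (n-m) (2*j+2*m+2)) (s := Finset.range (n+1))
      (fun i _ => Nat.zero_le _) (Finset.mem_range.2 (show n-k < n+1 by omega))
  have hmax : numStates s ≤ maxStates n := by
    unfold maxStates
    exact Finset.le_sup (f := fun s : Fin n → Bool => numStates s) (Finset.mem_univ s)
  have hpow := lw_pow hT hmp r
  calc (cm T m 0) ^ (2*r) = (cm T m 0)^r * (cm T m 0)^r := by rw [two_mul, pow_add]
    _ ≤ cm T M 0 * cm T M 0 := Nat.mul_le_mul hpow hpow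
    _ ≤ cm (lbs s) k (2*(n-k)+1) * cm (lbs s) (n-k) (2*n+2) := Nat.mul_le_mul hF1 hF2
    _ ≤ numStates s := hN
    _ ≤ maxStates n := hmax

end Pool.Agent.MV68
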