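import Pool.Agent.MV68.LcSound

namespace Pool.Agent.MV68.Lc

theorem idx_pos (l : List Bool) : 1 ≤ idx l := by
  induction l with
  | nil => simp [idx]
  | cons b l ih => simp only [idx]; omega

theorem idx_lt (l : List Bool) : idx l < 2^(l.length+1) := by
  induction l with
  | nil => simp [idx]
  | cons b l ih =>
    simp only [idx, List.length_cons]
    have := Bool.toNat_lt b
    rw [pow_succ]
    omega

theorem idx_take_lt (k : ℕ) (l : List Bool) : idx (l.take k) < 2^(k+1) :=
  lt_of_lt_of_le (idx_lt _) (Nat.pow_le_pow_right (by norm_num) (by simp))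

theorem dw_nonneg (F1 F0 D : ℕ) (l : List Bool) : 0 ≤ dw (Fq F1 F0 D) l := by
  induction l with
  | nil => simp [dw]
  | cons b l ih =>
    have : dw (Fq F1 F0 D) (b :: l) = Fq F1 F0 D b * dw (Fq F1 F0 D) l := by simp [dw]
    rw [this]
    exact mul_nonneg (by unfold Fq; positivity) ih

/-- The inequality at a code of at most six letters. -/
def mainOK (s : Bool) (A B E : ℕ → ℕ) (F1 F0 D RN RD : ℕ) (j : ℕ) : Prop :=
  (pushN s A j * (D*D) + popN s B j * PP F1 F0 D j) * RD ≤ RN * (E (t5 j) * QQ F1 F0 D j)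

theorem main_sound (s : Bool) (A B E : ℕ → ℕ) (F1 F0 D RN RD : ℕ) (hD : 0 < D) (hR : 0 < RD)
    (h : ∀ j, 1 ≤ j → j < 128 → mainOK s A B E F1 F0 D RN RD j) (w : List Bool) :
    pushV s (val A (Fq F1 F0 D)) w + popV s (val B (Fq F1 F0 D)) w ≤
      ((RN:ℚ)/RD) * val E (Fq F1 F0 D) w := by
  have h1 := h _ (idx_pos (w.take 6)) (idx_take_lt 6 w)
  unfold mainOK at h1
  have h2 : (((pushN s A (idx (w.take 6)) : ℚ) * (D*D) + (popN s B (idx (w.take 6)) : ℚ) *
      PP F1 F0 D (idx (w.take 6))) * RD) ≤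
      RN * ((E (t5 (idx (w.take 6))) : ℚ) * QQ F1 F0 D (idx (w.take 6))) := by
    exact_mod_cast h1
  have h3 := mul_le_mul_of_nonneg_right h2 (dw_nonneg F1 F0 D (w.drop 6))
  have e1 := push_eq s A (Fq F1 F0 D) w
  have e2 := pop_eq s B F1 F0 D hD w
  have e3 := val_eq E F1 F0 D hD w
  have hD' : (0:ℚ) < D := by exact_mod_cast hD
  have hR' : (0:ℚ) < RD := by exact_mod_cast hR
  have h4 : (pushV s (val A (Fq F1 F0 D)) w + popV s (val B (Fq F1 F0 D)) w) * ((D*D)*RD) ≤
      ((RN:ℚ)/RD) * val E (Fq F1 F0 D) w * ((D*D)*RD) := by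
    have e4 : ((RN:ℚ)/RD) * val E (Fq F1 F0 D) w * ((D*D)*RD) =
        RN * (val E (Fq F1 F0 D) w * (D*D)) := by
      field_simp
    rw [e4, e3]
    calc (pushV s (val A (Fq F1 F0 D)) w + popV s (val B (Fq F1 F0 D)) w) * ((D*D)*RD)
        = (pushV s (val A (Fq F1 F0 D)) w * (D*D) +
          popV s (val B (Fq F1 F0 D)) w * (D*D)) * RD := by ring
      _ = (((pushN s A (idx (w.take 6)) : ℚ) * (D*D) + (popN s B (idx (w.take 6)) : ℚ) *
      PP F1 F0 D (idx (w.take 6))) * RD) * dw (Fq F1 F0 D) (w.drop 6) := by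
          rw [e1, e2]; ring
      _ ≤ _ := h3
      _ = _ := by ring
  exact le_of_mul_le_mul_right h4 (by positivity)

/-- Can the stacks of the class `i` be closed before a step with the sign `s`? -/
def popable (s : Bool) (i : ℕ) : Bool :=
  i % 2 == 1 && (i != 1 && (!s || (i == 3 || i / 2 % 2 == 0)))

theorem popable_iff (s : Bool) (u : List Bool) :
    popable s (idx (u.take 5)) = (popS s u).isSome := by
  rcases u with _ | ⟨a, _ | ⟨b, u⟩⟩
  · cases s <;> simp [popable, idx, popS]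
  · cases s <;> cases a <;> simp [popable, idx, popS, popr]
  · have h0 := idx_pos (u.take 3)
    have e : idx ((a :: b :: u).take 5) = 2 * (2 * idx (u.take 3) + b.toNat) + a.toNat := by
      simp [idx]
    rw [e]
    generalize idx (u.take 3) = q at *
    cases a
    · simp [popable, popS]
    · have h1 : (2 * (2 * q + b.toNat) + true.toNat) % 2 = 1 := by simp only [Bool.toNat_true]; omega
      have h2 : (2 * (2 * q + b.toNat) + true.toNat) / 2 % 2 = b.toNat := by
        cases b <;> simp <;> omega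
      have h3 : (2 * (2 * q + b.toNat) + true.toNat) ≠ 1 := by simp; omega
      have h4 : (2 * (2 * q + b.toNat) + true.toNat) ≠ 3 := by simp; omega
      cases s <;> cases b <;> simp_all [popable, popS, popr]

/-- The Schur test at a class. -/
def schurOK (s : Bool) (A B E : ℕ → ℕ) (i : ℕ) : Prop :=
  if popable s i = true then E i * (A i + B i) ≤ A i * B i ∧ 1 ≤ A i + B i else E i ≤ A i

theorem schur_push (s : Bool) (A B E : ℕ → ℕ) (F1 F0 D : ℕ)
    (h : ∀ i, 1 ≤ i → i < 64 → schurOK s A B E i) (u : List Bool) (hu : popS s u = none)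
    (x : ℚ) : val E (Fq F1 F0 D) u * x^2 ≤ val A (Fq F1 F0 D) u * x^2 := by
  have h1 := h _ (idx_pos (u.take 5)) (idx_take_lt 5 u)
  unfold schurOK at h1
  rw [popable_iff, hu] at h1
  simp only [Option.isSome_none, Bool.false_eq_true, if_false] at h1
  have h2 : (E (idx (u.take 5)) : ℚ) ≤ A (idx (u.take 5)) := by exact_mod_cast h1
  exact mul_le_mul_of_nonneg_right (mul_le_mul_of_nonneg_right h2 (dw_nonneg _ _ _ _)) (sq_nonneg x)

theorem schur_both (s : Bool) (A B E : ℕ → ℕ) (F1 F0 D : ℕ)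
    (h : ∀ i, 1 ≤ i → i < 64 → schurOK s A B E i) (u w : List Bool) (hu : popS s u = some w)
    (x y : ℚ) : val E (Fq F1 F0 D) u * (x+y)^2 ≤
      val A (Fq F1 F0 D) u * x^2 + val B (Fq F1 F0 D) u * y^2 := by
  have h1 := h _ (idx_pos (u.take 5)) (idx_take_lt 5 u)
  unfold schurOK at h1
  rw [popable_iff, hu] at h1
  simp only [Option.isSome_some, if_true] at h1
  obtain ⟨h1, h2⟩ := h1
  unfold val
  generalize idx (u.take 5) = i at *
  have h3 : (E i : ℚ) * (A i + B i) ≤ A i * B i := by exact_mod_cast h1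
  have h4 : (1:ℚ) ≤ (A i : ℚ) + B i := by exact_mod_cast h2
  have hd := dw_nonneg F1 F0 D (u.drop 5)
  have k : (E i : ℚ) * (x+y)^2 ≤ A i * x^2 + B i * y^2 := by
    have k1 : (E i : ℚ) * (x+y)^2 * (A i + B i) ≤ (A i * x^2 + B i * y^2) * (A i + B i) := by
      have := mul_le_mul_of_nonneg_right h3 (sq_nonneg (x+y))
      nlinarith [sq_nonneg ((A i : ℚ) * x - B i * y)]
    exact le_of_mul_le_mul_right k1 (by linarith)
  have := mul_le_mul_of_nonneg_right k hd
  nlinarith

end Pool.Agent.MV68.Lc
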