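import Pool.Agent.MV68.LcTab
import Pool.Agent.MV68.LcMain

/-!
The certificate: 24000 inequalities between integers, checked by the kernel.
-/

namespace Pool.Agent.MV68.Lc

def lt3 (X : ℕ) : Bool := Nat.beq (X / 8 % 2) 1

def ckMain (X j : ℕ) : Bool :=
  Nat.ble ((pushN (lt3 X) (cA X) j * (FD*FD) + popN (lt3 X) (cB X) j * PP F1 F0 FD j) * RD)
    (cR X * (cE (X/2) (t5 j) * QQ F1 F0 FD j))

def ckSchur (X i : ℕ) : Bool :=
  if popable (lt3 X) i = true then
    Nat.ble (cE (X % 64) i * (cA X i + cB X i)) (cA X i * cB X i) &&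
      Nat.ble 1 (cA X i + cB X i)
  else Nat.ble (cE (X % 64) i) (cA X i)

def allB (f : ℕ → Bool) : ℕ → Bool
  | 0 => true
  | n+1 => f n && allB f n

def ckX (X : ℕ) : Bool := allB (fun j => ckMain X (j+1)) 127 && allB (fun i => ckSchur X (i+1)) 63

theorem ck_all : allB ckX 128 = true := by decide +kernel

theorem allB_iff (f : ℕ → Bool) (n : ℕ) : allB f n = true ↔ ∀ i, i < n → f i = true := by
  induction n with
  | zero => simp [allB]
  | succ n ih =>
    simp only [allB, Bool.and_eq_true, ih]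
    constructor
    · rintro ⟨h1, h2⟩ i hi
      rcases Nat.lt_succ_iff_lt_or_eq.mp hi with h | h
      · exact h2 i h
      · exact h ▸ h1
    · intro h
      exact ⟨h n (Nat.lt_succ_self n), fun i hi => h i (Nat.lt_succ_of_lt hi)⟩

theorem mainOK_all (X : ℕ) (hX : X < 128) (j : ℕ) (h1 : 1 ≤ j) (h2 : j < 128) :
    mainOK (lt3 X) (cA X) (cB X) (cE (X/2)) F1 F0 FD (cR X) RD j := by
  have h := (allB_iff _ _).mp ck_all X hX
  unfold ckX at h
  rw [Bool.and_eq_true] at h
  have h3 := (allB_iff _ _).mp h.1 (j-1) (by omega)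
  rw [Nat.sub_add_cancel h1] at h3
  exact Nat.ble_eq.mp h3

theorem schurOK_all (X : ℕ) (hX : X < 128) (i : ℕ) (h1 : 1 ≤ i) (h2 : i < 64) :
    schurOK (lt3 X) (cA X) (cB X) (cE (X%64)) i := by
  have h := (allB_iff _ _).mp ck_all X hX
  unfold ckX at h
  rw [Bool.and_eq_true] at h
  have h3 := (allB_iff _ _).mp h.2 (i-1) (by omega)
  rw [Nat.sub_add_cancel h1] at h3
  unfold ckSchur at h3
  unfold schurOK
  split
  · rename_i hp
    rw [if_pos hp, Bool.and_eq_true] at h3
    exact ⟨Nat.ble_eq.mp h3.1, Nat.ble_eq.mp h3.2⟩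
  · rename_i hp
    rw [if_neg hp] at h3
    exact Nat.ble_eq.mp h3

def F : Bool → ℚ := Fq F1 F0 FD

def tE (h : ℕ) (w : List Bool) : ℚ := val (cE h) F w

def tA (X : ℕ) (w : List Bool) : ℚ := val (cA X) F w

def tB (X : ℕ) (w : List Bool) : ℚ := val (cB X) F w

def rt (X : ℕ) : ℚ := (cR X : ℚ) / (RD : ℚ)

/-- The code of seven signs. -/
def win (f : ℕ → Bool) : ℕ := (f 0).toNat + 2*(f 1).toNat + 4*(f 2).toNat + 8*(f 3).toNat +
  16*(f 4).toNat + 32*(f 5).toNat + 64*(f 6).toNat

/-- The code of six signs. -/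
def win6 (f : ℕ → Bool) : ℕ := (f 0).toNat + 2*(f 1).toNat + 4*(f 2).toNat + 8*(f 3).toNat +
  16*(f 4).toNat + 32*(f 5).toNat

theorem win_lt (f : ℕ → Bool) : win f < 128 := by
  have h0 := Bool.toNat_lt (f 0)
  have h1 := Bool.toNat_lt (f 1)
  have h2 := Bool.toNat_lt (f 2)
  have h3 := Bool.toNat_lt (f 3)
  have h4 := Bool.toNat_lt (f 4)
  have h5 := Bool.toNat_lt (f 5)
  have h6 := Bool.toNat_lt (f 6)
  unfold win
  omega

theorem win_mod (f : ℕ → Bool) : win f % 64 = win6 f := by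
  have h0 := Bool.toNat_lt (f 0)
  have h1 := Bool.toNat_lt (f 1)
  have h2 := Bool.toNat_lt (f 2)
  have h3 := Bool.toNat_lt (f 3)
  have h4 := Bool.toNat_lt (f 4)
  have h5 := Bool.toNat_lt (f 5)
  unfold win win6
  omega

theorem win_div (f : ℕ → Bool) : win f / 2 = win6 (fun k => f (k+1)) := by
  have h0 := Bool.toNat_lt (f 0)
  unfold win win6
  simp only [Nat.zero_add, Nat.reduceAdd]
  omega

theorem lt3_win (f : ℕ → Bool) : lt3 (win f) = f 3 := by
  have h0 := Bool.toNat_lt (f 0)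
  have h1 := Bool.toNat_lt (f 1)
  have h2 := Bool.toNat_lt (f 2)
  have h3 := Bool.toNat_lt (f 3)
  have e : win f / 8 % 2 = (f 3).toNat := by
    unfold win
    omega
  unfold lt3
  rw [e]
  cases f 3 <;> rfl

theorem key_main (f : ℕ → Bool) (w : List Bool) :
    pushV (f 3) (tA (win f)) w + popV (f 3) (tB (win f)) w ≤
      rt (win f) * tE (win6 fun k => f (k+1)) w := by
  have h := main_sound (f 3) (cA (win f)) (cB (win f)) (cE (win f / 2)) F1 F0 FD (cR (win f)) RD
    (by decide) (by decide) (fun j h1 h2 => by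
      have := mainOK_all (win f) (win_lt f) j h1 h2
      rwa [lt3_win] at this) w
  rw [win_div] at h
  exact h

theorem key_both (f : ℕ → Bool) (u w : List Bool) (h : popS (f 3) u = some w) (x y : ℚ) :
    tE (win6 f) u * (x+y)^2 ≤ tA (win f) u * x^2 + tB (win f) u * y^2 := by
  have h := schur_both (f 3) (cA (win f)) (cB (win f)) (cE (win f % 64)) F1 F0 FD
    (fun j h1 h2 => by
      have := schurOK_all (win f) (win_lt f) j h1 h2
      rwa [lt3_win] at this) u w h x y
  rw [win_mod] at h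
  exact h

theorem key_push (f : ℕ → Bool) (u : List Bool) (h : popS (f 3) u = none) (x : ℚ) :
    tE (win6 f) u * x^2 ≤ tA (win f) u * x^2 := by
  have h := schur_push (f 3) (cA (win f)) (cB (win f)) (cE (win f % 64)) F1 F0 FD
    (fun j h1 h2 => by
      have := schurOK_all (win f) (win_lt f) j h1 h2
      rwa [lt3_win] at this) u h x
  rw [win_mod] at h
  exact h

/-- Reversed and negated. -/
def rn7 (X : ℕ) : ℕ := 127 - (X % 2 * 64 + X / 2 % 2 * 32 + X / 4 % 2 * 16 + X / 8 % 2 * 8 +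
  X / 16 % 2 * 4 + X / 32 % 2 * 2 + X / 64 % 2)

theorem ck_rate : allB (fun X => Nat.ble (cR X * cR (rn7 X) * 1000) (4838 * (RD * RD))) 128 = true := by
  decide +kernel

theorem win_rn (f : ℕ → Bool) : win (fun k => !(f (6-k))) = rn7 (win f) := by
  unfold win rn7
  simp only [Nat.sub_zero, Nat.reduceSub, Nat.sub_self]
  generalize f 0 = a
  generalize f 1 = b
  generalize f 2 = c
  generalize f 3 = d
  generalize f 4 = e
  generalize f 5 = g
  generalize f 6 = h
  revert a b c d e g h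
  decide

theorem key_rate (f : ℕ → Bool) : rt (win f) * rt (win fun k => !(f (6-k))) ≤ 4838/1000 := by
  have h := (allB_iff _ _).mp ck_rate (win f) (win_lt f)
  have h1 : cR (win f) * cR (rn7 (win f)) * 1000 ≤ 4838 * (RD * RD) := Nat.ble_eq.mp h
  rw [win_rn]
  unfold rt
  have h2 : (cR (win f) : ℚ) * cR (rn7 (win f)) * 1000 ≤ 4838 * (RD * RD) := by exact_mod_cast h1
  have h3 : (0:ℚ) < RD := by
    have : 0 < RD := by decide
    exact_mod_cast this
  rw [div_mul_div_comm, div_le_div_iff₀ (by positivity) (by norm_num)]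
  linarith

theorem ck_nil : allB (fun h => Nat.ble 1 (cE h 1) && Nat.ble 1 (cR h) && Nat.ble 1 (cR (64+h))) 64
    = true := by
  decide +kernel

end Pool.Agent.MV68.Lc
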