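import Pool.Agent.MV68.StackDefs

/-! Tables for potentials on stacks: the classes are given by the five top letters. -/

namespace Pool.Agent.MV68.Lc

/-- Code of a stack: the top letter is the lowest bit, the leading 1 marks the end. -/
def idx : List Bool → ℕ
  | [] => 1
  | b :: l => 2 * idx l + b.toNat

/-- Product of the weights of the deep letters. -/
def dw (F : Bool → ℚ) (l : List Bool) : ℚ := (l.map F).prod

/-- Value of a table `T` (over the codes of at most five letters) at a stack. -/
def val (T : ℕ → ℕ) (F : Bool → ℚ) (w : List Bool) : ℚ :=
  (T (idx (w.take 5)) : ℚ) * dw F (w.drop 5)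

/-- The stack which becomes `w` if its top is closed before a step with the sign `s`. -/
def pre (s : Bool) : List Bool → Option (List Bool)
  | [] => some [true]
  | x :: v => if s then (if x then some (true :: false :: v) else none) else some (true :: x :: v)

theorem popS_iff (s : Bool) (u w : List Bool) : popS s u = some w ↔ pre s w = some u := by
  cases s <;> rcases u with _ | ⟨a, _ | ⟨b, u⟩⟩ <;> rcases w with _ | ⟨c, w⟩ <;>
    (try cases a) <;> (try cases b) <;> (try cases c) <;> simp [popS, popr, pre, eq_comm]

/-- Contribution of the push to the stack `w`. -/
def pushV (s : Bool) (f : List Bool → ℚ) : List Bool → ℚ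
  | [] => 0
  | b :: v => if b = s then f v else 0

/-- Contribution of the closing to the stack `w`. -/
def popV (s : Bool) (f : List Bool → ℚ) (w : List Bool) : ℚ :=
  match pre s w with
  | none => 0
  | some u => f u

end Pool.Agent.MV68.Lc
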