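import Pool.Agent.MV68.CardSt
import Pool.Agent.MV68.Transfer

/-!
# From the bound on the squares of the terms to the bound on `maxStates`

Proved by helper37 for helper68.
-/

namespace Pool.Agent.MV68.Lc

open Pool.Agent.Results.MP_15ecc6_co.DoubleCatalan
open Filter Topology

theorem fin_poly : ∃ K : ℝ, 0 ≤ K ∧ ∀ n : ℕ, ((n:ℝ)+1)^4 * (4838/1000 : ℝ)^n ≤ K * (121/25 : ℝ)^n := by
  have h := tendsto_pow_const_mul_const_pow_of_abs_lt_one 4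
    (show |(2419/2420 : ℝ)| < 1 by rw [abs_of_nonneg (by norm_num)]; norm_num)
  obtain ⟨K, hK⟩ := h.bddAbove_range
  have hK' : ∀ n : ℕ, (n:ℝ)^4 * (2419/2420 : ℝ)^n ≤ K := fun n => hK ⟨n, rfl⟩
  have hK0 : 0 ≤ K := le_trans (by positivity) (hK' 0)
  refine ⟨K * (2420/2419), by positivity, fun n => ?_⟩
  have h1 := hK' (n+1)
  have h2 : (4838/1000 : ℝ)^n = (2419/2420 : ℝ)^n * (121/25 : ℝ)^n := by
    rw [← mul_pow]
    norm_num
  rw [h2, ← mul_assoc]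
  apply mul_le_mul_of_nonneg_right _ (by positivity)
  push_cast at h1
  rw [pow_succ (2419/2420 : ℝ) n] at h1
  have h3 : ((n:ℝ)+1)^4 * (2419/2420 : ℝ)^n = (((n:ℝ)+1)^4 * ((2419/2420 : ℝ)^n * (2419/2420))) *
      (2420/2419) := by
    field_simp
  rw [h3]
  exact mul_le_mul_of_nonneg_right h1 (by norm_num)

theorem lc_finR {C : ℝ} (hC : 0 ≤ C)
    (H : ∀ (n : ℕ) (s : Fin n → Bool) (j m : ℕ), j ≤ n → m ≤ n →
      ((cm (lbs s) m (2*j+1) * cm (lbs s) (n-m) (2*j+2*m+2) : ℕ) : ℝ)^2 ≤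
        C * (4838/1000 : ℝ)^n) :
    ∃ C' : ℝ, ∀ n : ℕ, (maxStates n : ℝ) ≤ C' * (11/5 : ℝ)^n := by
  obtain ⟨K, hK0, hK⟩ := fin_poly
  refine ⟨C * K + 1, fun n => ?_⟩
  have h11 : (0:ℝ) < (11/5 : ℝ)^n := by positivity
  have hx : ∀ (s : Fin n → Bool) (j m : ℕ), j ≤ n → m ≤ n →
      ((n:ℝ)+1)^2 * ((cm (lbs s) m (2*j+1) * cm (lbs s) (n-m) (2*j+2*m+2) : ℕ) : ℝ) ≤
        (C * K + 1) * (11/5 : ℝ)^n := by
    intro s j m hj hm
    set x := ((cm (lbs s) m (2*j+1) * cm (lbs s) (n-m) (2*j+2*m+2) : ℕ) : ℝ) with hxd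
    have h1 := H n s j m hj hm
    rw [← hxd] at h1
    have hx0 : 0 ≤ x := Nat.cast_nonneg _
    by_contra hlt
    rw [not_le] at hlt
    set G := (11/5 : ℝ)^n with hG
    have hG2 : (121/25 : ℝ)^n = G^2 := by
      rw [hG, ← pow_mul, mul_comm n 2, pow_mul]
      norm_num
    have h2 : (((n:ℝ)+1)^2 * x)^2 ≤ C * K * G^2 := by
      have h3 := hK n
      rw [hG2] at h3
      calc (((n:ℝ)+1)^2 * x)^2 = ((n:ℝ)+1)^4 * x^2 := by ring
        _ ≤ ((n:ℝ)+1)^4 * (C * (4838/1000 : ℝ)^n) := mul_le_mul_of_nonneg_left h1 (by positivity)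
        _ = C * (((n:ℝ)+1)^4 * (4838/1000 : ℝ)^n) := by ring
        _ ≤ C * (K * G^2) := mul_le_mul_of_nonneg_left h3 hC
        _ = C * K * G^2 := by ring
    have hCK : 0 ≤ C * K := mul_nonneg hC hK0
    have h4 : ((C*K+1)*G)^2 < (((n:ℝ)+1)^2 * x)^2 :=
      pow_lt_pow_left₀ hlt (by positivity) (by norm_num)
    have h5 : C * K * G^2 ≤ ((C*K+1)*G)^2 := by
      have h6 : 0 < G^2 := by positivity
      nlinarith [mul_nonneg hCK h6.le, mul_nonneg (mul_nonneg hCK hCK) h6.le]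
    linarith
  unfold maxStates
  obtain ⟨s, _, hs⟩ := Finset.exists_mem_eq_sup Finset.univ Finset.univ_nonempty
    (fun s : Fin n → Bool => numStates s)
  rw [hs]
  have e : thz n (dirS s) = lbs s := funext (lbs_eq s)
  show ((numStates s : ℕ) : ℝ) ≤ _
  rw [numStates_eq, card_St', e, Nat.cast_sum]
  have hn1 : (0:ℝ) < ((n:ℝ)+1)^2 := by positivity
  have hN : ∀ j ∈ Finset.range (n+1), ((∑ m ∈ Finset.range (n+1),
      cm (lbs s) m (2*j+1) * cm (lbs s) (n-m) (2*j+2*m+2) : ℕ) : ℝ) ≤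
      ((n:ℝ)+1) * ((C * K + 1) * (11/5 : ℝ)^n / ((n:ℝ)+1)^2) := by
    intro j hj
    rw [Finset.mem_range] at hj
    rw [Nat.cast_sum]
    calc ∑ m ∈ Finset.range (n+1),
          ((cm (lbs s) m (2*j+1) * cm (lbs s) (n-m) (2*j+2*m+2) : ℕ) : ℝ)
        ≤ ∑ _m ∈ Finset.range (n+1), ((C * K + 1) * (11/5 : ℝ)^n / ((n:ℝ)+1)^2) := by
          apply Finset.sum_le_sum
          intro m hm
          rw [Finset.mem_range] at hm
          rw [le_div_iff₀ hn1, mul_comm]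
          exact hx s j m (by omega) (by omega)
      _ = ((n:ℝ)+1) * ((C * K + 1) * (11/5 : ℝ)^n / ((n:ℝ)+1)^2) := by
          rw [Finset.sum_const, Finset.card_range, nsmul_eq_mul]
          push_cast
          ring
  calc ∑ j ∈ Finset.range (n+1), ((∑ m ∈ Finset.range (n+1),
        cm (lbs s) m (2*j+1) * cm (lbs s) (n-m) (2*j+2*m+2) : ℕ) : ℝ)
      ≤ ∑ _j ∈ Finset.range (n+1),
          ((n:ℝ)+1) * ((C * K + 1) * (11/5 : ℝ)^n / ((n:ℝ)+1)^2) := Finset.sum_le_sum hN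
    _ = (C * K + 1) * (11/5 : ℝ)^n := by
        rw [Finset.sum_const, Finset.card_range, nsmul_eq_mul]
        push_cast
        field_simp

theorem lc_fin (H : ∃ C : ℚ, 0 ≤ C ∧ ∀ (n : ℕ) (s : Fin n → Bool) (j m : ℕ), j ≤ n → m ≤ n →
      ((cm (lbs s) m (2*j+1) * cm (lbs s) (n-m) (2*j+2*m+2) : ℕ) : ℚ)^2 ≤
        C * (4838/1000)^n) :
    ∃ C : ℝ, ∀ n : ℕ, (maxStates n : ℝ) ≤ C * (11/5 : ℝ)^n := by
  obtain ⟨C, hC, h⟩ := H
  apply lc_finR (C := (C : ℝ)) (by exact_mod_cast hC)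
  intro n s j m hj hm
  have h1 := h n s j m hj hm
  have h2 : ((((cm (lbs s) m (2*j+1) * cm (lbs s) (n-m) (2*j+2*m+2) : ℕ) : ℚ)^2 : ℚ) : ℝ) ≤
      ((C * (4838/1000)^n : ℚ) : ℝ) := by exact_mod_cast h1
  push_cast at h2 ⊢
  exact h2

end Pool.Agent.MV68.Lc
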