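import Pool.Agent.MV68.StackDefs

namespace Pool.Agent.MV68

/-- `Dn` with a possibly failed stack -/
def stE (σ : ℕ → Bool) (t z : ℕ) : Option (List Bool) → ℕ
  | none => 0
  | some w => Dn σ t z w

theorem stk_Dn_succ (σ : ℕ → Bool) (t z : ℕ) (x : Bool) (u : List Bool) :
    Dn σ (t+1) z (x :: u) = Dn σ t (z+1) (σ z :: x :: u) +
      (if x = true then stE σ t (z+1) (popr (σ z) u) else 0) := by
  cases x
  · rw [Dn]
    simp [popS]
  · rw [Dn]
    simp only [popS, if_true]
    cases popr (σ z) u <;> rfl

theorem stk_Dn_nil (σ : ℕ → Bool) (t z : ℕ) :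
    Dn σ (t+1) z [] = Dn σ t (z+1) [σ z] := by
  rw [Dn]
  simp [popS]

theorem stk_cm_succ (th : ℕ → ℤ) (m a : ℕ) :
    cm th (m+1) a = ∑ i ∈ Finset.range (m+1),
      if th (a+2*i+1) = th a + 1 then cm th i (a+1) * cm th (m-i) (a+2*i+2) else 0 := by
  rw [cm_succ, Finset.sum_range]

/-- labels do not go down over a matching -/
theorem stk_mono {th : ℕ → ℤ} {σ : ℕ → Bool}
    (hth : ∀ z, th (z+1) = th z + (if σ z then 1 else -1)) (k : ℕ) :
    ∀ z, cm th k z ≠ 0 → th z ≤ th (z+2*k) := by
  induction k using Nat.strong_induction_on with
  | _ k ih =>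
    intro z h
    rcases k with _ | k
    · exact le_rfl
    · rw [stk_cm_succ] at h
      obtain ⟨i, hi, h1⟩ := Finset.exists_ne_zero_of_sum_ne_zero h
      rw [Finset.mem_range] at hi
      split_ifs at h1 with h2
      · have h4 : cm th (k-i) (z+2*i+2) ≠ 0 := fun h5 => h1 (by rw [h5, mul_zero])
        have h5 := ih (k-i) (by omega) (z+2*i+2) h4
        have e : z + 2*i+2 + 2*(k-i) = z + 2*(k+1) := by omega
        rw [e] at h5
        have h6 := hth (z+2*i+1)
        have h7 : th (z+2*i+2) = th (z+2*i+1) + (if σ (z+2*i+1) then 1 else -1) := h6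
        split_ifs at h7 <;> omega
      · exact absurd rfl h1

/-- the sum of (FR) -/
def stF (th : ℕ → ℤ) (σ : ℕ → Bool) (K T z : ℕ) (l : ℤ) (u : List Bool) : ℕ :=
  ∑ k ∈ Finset.range K, if 2*k+1 ≤ T ∧ th (z+2*k) = l + 1 then
    cm th k z * stE σ (T-2*k-1) (z+2*k+1) (popr (σ (z+2*k)) u) else 0

theorem stk_FR {th : ℕ → ℤ} {σ : ℕ → Bool}
    (hth : ∀ z, th (z+1) = th z + (if σ z then 1 else -1)) (T : ℕ) :
    ∀ (K z : ℕ) (x : Bool) (l : ℤ) (u : List Bool), th z - l = (if x then 1 else -1) →
      stF th σ K T z l u ≤ Dn σ T z (x :: u) := by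
  induction T using Nat.strong_induction_on with
  | _ T ih =>
    intro K z x l u hx
    rcases K with _ | K
    · unfold stF
      rw [Finset.range_zero, Finset.sum_empty]
      exact Nat.zero_le _
    rcases T with _ | T'
    · unfold stF
      rw [Finset.sum_eq_zero (fun k _ => if_neg (by omega))]
      exact Nat.zero_le _
    rw [stk_Dn_succ]
    unfold stF
    rw [Finset.sum_range_succ']
    set f : ℕ → ℕ → ℕ := fun i k' =>
      if 2*(i+k'+1)+1 ≤ T'+1 ∧ th (z+2*(i+k'+1)) = l+1 ∧ th (z+2*i+1) = th z + 1 then
        cm th i (z+1) * cm th k' (z+2*i+2) *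
          stE σ (T'+1-2*(i+k'+1)-1) (z+2*(i+k'+1)+1) (popr (σ (z+2*(i+k'+1))) u) else 0 with hf
    have hA : ∑ k ∈ Finset.range K, (if 2*(k+1)+1 ≤ T'+1 ∧ th (z+2*(k+1)) = l + 1 then
        cm th (k+1) z * stE σ (T'+1-2*(k+1)-1) (z+2*(k+1)+1) (popr (σ (z+2*(k+1))) u) else 0) ≤
        Dn σ T' (z+1) (σ z :: x :: u) := by
      calc ∑ k ∈ Finset.range K, (if 2*(k+1)+1 ≤ T'+1 ∧ th (z+2*(k+1)) = l + 1 then
            cm th (k+1) z * stE σ (T'+1-2*(k+1)-1) (z+2*(k+1)+1) (popr (σ (z+2*(k+1))) u) else 0)
          = ∑ k ∈ Finset.range K, ∑ i ∈ Finset.range (k+1), f i (k-i) := by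
            apply Finset.sum_congr rfl
            intro k _
            by_cases hc : 2*(k+1)+1 ≤ T'+1 ∧ th (z+2*(k+1)) = l + 1
            · rw [if_pos hc, stk_cm_succ, Finset.sum_mul]
              apply Finset.sum_congr rfl
              intro i hi
              rw [Finset.mem_range] at hi
              have e : i + (k-i) + 1 = k + 1 := by omega
              simp only [hf]
              rw [e]
              by_cases h2 : th (z+2*i+1) = th z + 1
              · rw [if_pos h2, if_pos ⟨hc.1, hc.2, h2⟩]
              · rw [if_neg h2, if_neg (fun h => h2 h.2.2), zero_mul]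
            · rw [if_neg hc]
              symm
              apply Finset.sum_eq_zero
              intro i hi
              rw [Finset.mem_range] at hi
              have e : i + (k-i) + 1 = k + 1 := by omega
              simp only [hf]
              rw [e]
              exact if_neg (fun h => hc ⟨h.1, h.2.1⟩)
        _ = ∑ i ∈ Finset.range K, ∑ k' ∈ Finset.range (K-i), f i k' :=
            Finset.sum_range_diag_flip K f
        _ ≤ ∑ i ∈ Finset.range K, (if 2*i+1 ≤ T' ∧ th (z+1+2*i) = th z + 1 then
              cm th i (z+1) * stE σ (T'-2*i-1) (z+1+2*i+1) (popr (σ (z+1+2*i)) (x :: u))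
              else 0) := by
            apply Finset.sum_le_sum
            intro i _
            have e1 : z+1+2*i = z+2*i+1 := by omega
            have e2 : z+2*i+1+1 = z+2*i+2 := by omega
            rw [e1, e2]
            by_cases hc : 2*i+1 ≤ T' ∧ th (z+2*i+1) = th z + 1
            · rw [if_pos hc]
              have hsum : ∑ k' ∈ Finset.range (K-i), f i k' =
                  cm th i (z+1) * stF th σ (K-i) (T'-2*i-1) (z+2*i+2) l u := by
                unfold stF
                rw [Finset.mul_sum]
                apply Finset.sum_congr rfl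
                intro k' _
                have e3 : z+2*(i+k'+1) = z+2*i+2+2*k' := by omega
                have e4 : T'+1-2*(i+k'+1)-1 = T'-2*i-1-2*k'-1 := by omega
                simp only [hf]
                rw [e3, e4]
                by_cases h2 : 2*k'+1 ≤ T'-2*i-1 ∧ th (z+2*i+2+2*k') = l+1
                · rw [if_pos h2, if_pos ⟨by omega, h2.2, hc.2⟩, mul_assoc]
                · rw [if_neg h2, if_neg (fun h => h2 ⟨by omega, h.2.1⟩), mul_zero]
              rw [hsum]
              apply Nat.mul_le_mul_left
              have h6 : th (z+2*i+2) = th (z+2*i+1) + (if σ (z+2*i+1) then 1 else -1) :=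
                hth (z+2*i+1)
              rcases hσ : σ (z+2*i+1) with _ | _
              · -- minus
                rw [hσ] at h6
                have hd : th (z+2*i+2) - l = (if x then 1 else -1) := by
                  rw [← hx, h6, hc.2]
                  simp
                exact ih (T'-2*i-1) (by omega) (K-i) (z+2*i+2) x l u hd
              · rw [hσ] at h6
                cases x
                · have hd : th (z+2*i+2) - l = (if true then 1 else -1) := by
                    rw [h6, hc.2]
                    simp at hx ⊢
                    omega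
                  exact ih (T'-2*i-1) (by omega) (K-i) (z+2*i+2) true l u hd
                · -- everything vanishes
                  have hz : stF th σ (K-i) (T'-2*i-1) (z+2*i+2) l u = 0 := by
                    unfold stF
                    apply Finset.sum_eq_zero
                    intro k' _
                    by_cases h2 : 2*k'+1 ≤ T'-2*i-1 ∧ th (z+2*i+2+2*k') = l+1
                    · rw [if_pos h2]
                      have h7 : cm th k' (z+2*i+2) = 0 := by
                        by_contra h8
                        have h9 := stk_mono hth k' _ h8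
                        have h10 := hc.2
                        have h11 := h2.2
                        simp at hx h6
                        omega
                      rw [h7, zero_mul]
                    · rw [if_neg h2]
                  rw [hz]
                  exact Nat.zero_le _
            · rw [if_neg hc]
              rw [Finset.sum_eq_zero]
              intro k' _
              simp only [hf]
              exact if_neg (fun h => hc ⟨by omega, h.2.2⟩)
        _ = stF th σ K T' (z+1) (th z) (x :: u) := rfl
        _ ≤ Dn σ T' (z+1) (σ z :: x :: u) := by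
            apply ih T' (by omega)
            rw [hth z]
            ring
    have hB : (if 2*0+1 ≤ T'+1 ∧ th (z+2*0) = l + 1 then
        cm th 0 z * stE σ (T'+1-2*0-1) (z+2*0+1) (popr (σ (z+2*0)) u) else 0) ≤
        (if x = true then stE σ T' (z+1) (popr (σ z) u) else 0) := by
      have e : T'+1-2*0-1 = T' := by omega
      rw [cm_zero, one_mul, e, mul_zero, add_zero]
      cases x
      · simp at hx
        rw [if_neg (by omega)]
        exact Nat.zero_le _
      · simp at hx
        rw [if_pos ⟨by omega, by omega⟩, if_pos rfl]
    exact Nat.add_le_add hA hB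

theorem cm_le_Dn {th : ℕ → ℤ} {σ : ℕ → Bool}
    (hth : ∀ z, th (z+1) = th z + (if σ z then 1 else -1)) (m a : ℕ) :
    cm th m a ≤ Dn σ (2*m) a [] := by
  induction m using Nat.strong_induction_on generalizing a with
  | _ m ih =>
    rcases m with _ | m
    · rw [cm_zero]
      simp [Dn]
    · have e : 2*(m+1) = (2*m+1)+1 := by ring
      rw [e, stk_Dn_nil]
      refine le_trans ?_ (stk_FR hth (2*m+1) (m+1) (a+1) (σ a) (th a) [] (by rw [hth a]; ring))
      rw [stk_cm_succ]
      unfold stF
      apply Finset.sum_le_sum
      intro i hi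
      rw [Finset.mem_range] at hi
      have e1 : a+1+2*i = a+2*i+1 := by omega
      have e2 : a+2*i+1+1 = a+2*i+2 := by omega
      have e3 : 2*m+1-2*i-1 = 2*(m-i) := by omega
      rw [e1, e2, e3]
      by_cases h2 : th (a+2*i+1) = th a + 1
      · rw [if_pos h2, if_pos ⟨by omega, h2⟩]
        apply Nat.mul_le_mul_left
        exact ih (m-i) (by omega) (a+2*i+2)
      · rw [if_neg h2]
        exact Nat.zero_le _

end Pool.Agent.MV68
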