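import Pool.Agent.MV68.StackDefs
import Pool.Agent.MV68.Transfer

namespace Pool.Agent.MV68

/-- The sign of the step at `z` is `+`. -/
def sgb {n : ℕ} (s : Fin n → Bool) (z : ℕ) : Bool := decide (sgs s z = 1)

theorem sgs_pm {n : ℕ} (s : Fin n → Bool) (z : ℕ) : sgs s z = 1 ∨ sgs s z = -1 := by
  unfold sgs
  split_ifs <;> simp

theorem lbs_sgb {n : ℕ} (s : Fin n → Bool) (z : ℕ) :
    lbs s (z+1) = lbs s z + (if sgb s z then 1 else -1) := by
  show lbs s z + sgs s z = _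
  congr 1
  unfold sgb
  rcases sgs_pm s z with h | h <;> rw [h] <;> simp

theorem sgb_per {n : ℕ} (s : Fin n → Bool) (z : ℕ) : sgb s (z + (2*n+2)) = sgb s z := by
  unfold sgb sgs
  simp only [Nat.add_mod_right]

theorem sgb_n {n : ℕ} (s : Fin n → Bool) : sgb s n = false := by
  unfold sgb sgs
  have e : n % (2*n+2) = n := Nat.mod_eq_of_lt (by omega)
  rw [dif_neg (by rw [e]; omega), dif_neg (by rw [e]; omega)]
  rfl

theorem sgb_end {n : ℕ} (s : Fin n → Bool) : sgb s (2*n+1) = false := by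
  unfold sgb sgs
  have e : (2*n+1) % (2*n+2) = 2*n+1 := Nat.mod_eq_of_lt (by omega)
  rw [dif_neg (by rw [e]; omega), dif_neg (by rw [e]; omega)]
  rfl

theorem sgb_low {n : ℕ} (s : Fin n → Bool) (i : ℕ) (hi : i < n) : sgb s i = s ⟨i, hi⟩ := by
  have e : i % (2*n+2) = i := Nat.mod_eq_of_lt (by omega)
  have h : sgs s i = if s ⟨i, hi⟩ then 1 else -1 := by
    unfold sgs
    rw [dif_pos (by rw [e]; exact hi)]
    simp only [e]
  unfold sgb
  rw [h]
  cases s ⟨i, hi⟩ <;> rfl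

theorem sgb_high {n : ℕ} (s : Fin n → Bool) (i : ℕ) (hi : i < n) :
    sgb s (2*n-i) = !(s ⟨i, hi⟩) := by
  have e : (2*n-i) % (2*n+2) = 2*n-i := Nat.mod_eq_of_lt (by omega)
  have e2 : 2*n - (2*n-i) = i := by omega
  have h : sgs s (2*n-i) = if s ⟨i, hi⟩ then -1 else 1 := by
    unfold sgs
    rw [dif_neg (by rw [e]; omega), dif_pos (by rw [e]; omega)]
    simp only [e, e2]
  unfold sgb
  rw [h]
  cases s ⟨i, hi⟩ <;> rfl

theorem rr_half (b : Bool) : (3/2 : ℚ) ≤ rr b := by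
  cases b <;> simp [rr] <;> norm_num

theorem rr_mul (b : Bool) : rr b * rr (!b) = 5/2 := by
  cases b <;> simp [rr] <;> norm_num

/-- Product of the growth factors of `t` steps. -/
def PP {n : ℕ} (s : Fin n → Bool) (z t : ℕ) : ℚ := ∏ i ∈ Finset.range t, rr (sgb s (z+i))

theorem PP_add {n : ℕ} (s : Fin n → Bool) (z t u : ℕ) :
    PP s z (t+u) = PP s z t * PP s (z+t) u := by
  unfold PP
  rw [Finset.prod_range_add]
  congr 1
  apply Finset.prod_congr rfl
  intro i _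
  rw [add_assoc]

theorem PP_one {n : ℕ} (s : Fin n → Bool) (z : ℕ) : PP s z 1 = rr (sgb s z) := by
  unfold PP
  rw [Finset.prod_range_one, add_zero]

theorem PP_pos {n : ℕ} (s : Fin n → Bool) (z t : ℕ) : 0 < PP s z t := by
  unfold PP
  apply Finset.prod_pos
  intro i _
  have := rr_half (sgb s (z+i))
  linarith

theorem PP_shift {n : ℕ} (s : Fin n → Bool) (z : ℕ) :
    PP s (z+1) (2*n+2) = PP s z (2*n+2) := by
  have h1 := PP_add s z (2*n+2) 1
  have h2 := PP_add s z 1 (2*n+2)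
  have e : 2*n+2+1 = 1 + (2*n+2) := by omega
  rw [e, h2, PP_one, PP_one, sgb_per, mul_comm] at h1
  have h3 := rr_half (sgb s z)
  exact mul_right_cancel₀ (by linarith) h1

theorem PP_all {n : ℕ} (s : Fin n → Bool) (z : ℕ) : PP s z (2*n+2) = PP s 0 (2*n+2) := by
  induction z with
  | zero => rfl
  | succ z ih => rw [PP_shift, ih]

theorem PP_zero {n : ℕ} (s : Fin n → Bool) : PP s 0 (2*n+2) = (3/2)^2 * (5/2)^n := by
  have e : 2*n+2 = n + (1 + (n + 1)) := by omega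
  rw [e, PP_add, PP_add, PP_add, PP_one, PP_one]
  have e1 : 0 + n = n := by omega
  have e2 : n + 1 + n = 2*n+1 := by omega
  rw [e1, e2, sgb_n, sgb_end]
  have h1 : PP s (n+1) n = ∏ i ∈ Finset.range n, rr (sgb s (2*n-i)) := by
    unfold PP
    rw [← Finset.prod_range_reflect]
    apply Finset.prod_congr rfl
    intro i hi
    rw [Finset.mem_range] at hi
    have : n + 1 + (n - 1 - i) = 2*n-i := by omega
    rw [this]
  have h2 : PP s 0 n * PP s (n+1) n = (5/2)^n := by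
    rw [h1]
    unfold PP
    rw [← Finset.prod_mul_distrib]
    rw [Finset.prod_congr rfl (g := fun _ => (5/2 : ℚ)), Finset.prod_const, Finset.card_range]
    intro i hi
    rw [Finset.mem_range] at hi
    have e3 : 0 + i = i := by omega
    rw [e3, sgb_low s i hi, sgb_high s i hi]
    exact rr_mul _
  have h3 : rr false = 3/2 := by simp [rr]
  rw [h3]
  calc PP s 0 n * (3 / 2 * (PP s (n + 1) n * (3 / 2)))
      = (3/2)^2 * (PP s 0 n * PP s (n+1) n) := by ring
    _ = (3/2)^2 * (5/2)^n := by rw [h2]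

theorem PP_two {n : ℕ} (s : Fin n → Bool) (j m : ℕ) (hm : m ≤ n) :
    PP s (2*j+1) (2*m) * PP s (2*j+2*m+2) (2*(n-m)) ≤ (5/2)^n := by
  have e : 2*n+2 = 1 + (2*m + (1 + 2*(n-m))) := by omega
  have h1 := PP_all s (2*j)
  rw [PP_zero, e, PP_add, PP_add, PP_add, PP_one, PP_one] at h1
  have e1 : 2*j+1+2*m = 2*j+2*m+1 := by omega
  have e2 : 2*j+2*m+1+1 = 2*j+2*m+2 := by omega
  rw [e1, e2] at h1
  have h2 := rr_half (sgb s (2*j))
  have h3 := rr_half (sgb s (2*j+2*m+1))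
  have h4 := PP_pos s (2*j+1) (2*m)
  have h5 := PP_pos s (2*j+2*m+2) (2*(n-m))
  have h6 : (3/2 : ℚ)^2 ≤ rr (sgb s (2*j)) * rr (sgb s (2*j+2*m+1)) := by
    rw [pow_two]; exact mul_le_mul h2 h3 (by norm_num) (by linarith)
  have h7 : (3/2 : ℚ)^2 * (PP s (2*j+1) (2*m) * PP s (2*j+2*m+2) (2*(n-m))) ≤
      (3/2)^2 * (5/2)^n := by
    rw [← h1]
    calc (3/2 : ℚ)^2 * (PP s (2*j+1) (2*m) * PP s (2*j+2*m+2) (2*(n-m)))
        ≤ (rr (sgb s (2*j)) * rr (sgb s (2*j+2*m+1))) *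
            (PP s (2*j+1) (2*m) * PP s (2*j+2*m+2) (2*(n-m))) :=
          mul_le_mul_of_nonneg_right h6 (mul_pos h4 h5).le
      _ = _ := by ring
  exact le_of_mul_le_mul_left h7 (by norm_num)

theorem sum_bound
    (H : ∀ (th : ℕ → ℤ) (σ : ℕ → Bool), (∀ z, th (z+1) = th z + (if σ z then 1 else -1)) →
      ∀ m a : ℕ, (cm th m a : ℚ) ≤ ∏ i ∈ Finset.range (2*m), rr (σ (a+i)))
    {n : ℕ} (s : Fin n → Bool) :
    ((∑ j ∈ Finset.range (n+1), ∑ m ∈ Finset.range (n+1),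
      cm (lbs s) m (2*j+1) * cm (lbs s) (n-m) (2*j+2*m+2) : ℕ) : ℚ) ≤ ((n:ℚ)+1)^2 * (5/2)^n := by
  have hc : ∀ m a, (cm (lbs s) m a : ℚ) ≤ PP s a (2*m) :=
    fun m a => H (lbs s) (sgb s) (lbs_sgb s) m a
  have h1 : ∀ j m, m ≤ n → ((cm (lbs s) m (2*j+1) * cm (lbs s) (n-m) (2*j+2*m+2) : ℕ) : ℚ) ≤
      (5/2)^n := by
    intro j m hm
    refine le_trans ?_ (PP_two s j m hm)
    rw [Nat.cast_mul]
    exact mul_le_mul (hc _ _) (hc _ _) (Nat.cast_nonneg _) (PP_pos _ _ _).le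
  rw [Nat.cast_sum]
  calc ∑ j ∈ Finset.range (n+1), ((∑ m ∈ Finset.range (n+1),
        cm (lbs s) m (2*j+1) * cm (lbs s) (n-m) (2*j+2*m+2) : ℕ) : ℚ)
      ≤ ∑ _j ∈ Finset.range (n+1), ((n:ℚ)+1) * (5/2)^n := by
        apply Finset.sum_le_sum
        intro j _
        rw [Nat.cast_sum]
        calc ∑ m ∈ Finset.range (n+1),
              ((cm (lbs s) m (2*j+1) * cm (lbs s) (n-m) (2*j+2*m+2) : ℕ) : ℚ)
            ≤ ∑ _m ∈ Finset.range (n+1), (5/2 : ℚ)^n := by
              apply Finset.sum_le_sum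
              intro m hm
              rw [Finset.mem_range] at hm
              exact h1 j m (by omega)
          _ = ((n:ℚ)+1) * (5/2)^n := by
              rw [Finset.sum_const, Finset.card_range, nsmul_eq_mul]
              push_cast
              ring
    _ = ((n:ℚ)+1)^2 * (5/2)^n := by
        rw [Finset.sum_const, Finset.card_range, nsmul_eq_mul]
        push_cast
        ring

end Pool.Agent.MV68
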