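import Pool.Agent.MV68.LcStep
import Pool.Agent.MV68.SumBound
import Pool.Agent.MV68.Stack

/-! Product of the rates over one period of the signs. -/

namespace Pool.Agent.MV68.Lc

theorem tE_nil (h : ℕ) : tE h [] = (cE h 1 : ℚ) := by
  simp [tE, val, idx, dw]

theorem ck_nil2 : allB (fun h => Nat.ble 1 (cE h 1) && Nat.ble (cE h 1) 268435456) 64 = true := by
  decide +kernel

theorem ck_rt : allB (fun X => Nat.ble RD (2 * cR X) && Nat.ble (cR X) (7 * RD)) 128 = true := by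
  decide +kernel

theorem tE_nil_ge (h : ℕ) (hh : h < 64) : 1 ≤ tE h [] := by
  rw [tE_nil]
  have h1 := (allB_iff _ _).mp ck_nil2 h hh
  rw [Bool.and_eq_true] at h1
  exact_mod_cast Nat.ble_eq.mp h1.1

theorem tE_nil_le (h : ℕ) (hh : h < 64) : tE h [] ≤ 268435456 := by
  rw [tE_nil]
  have h1 := (allB_iff _ _).mp ck_nil2 h hh
  rw [Bool.and_eq_true] at h1
  exact_mod_cast Nat.ble_eq.mp h1.2

theorem RD_pos : (0:ℚ) < RD := by
  have : 0 < RD := by decide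
  exact_mod_cast this

theorem rt_win_ge (f : ℕ → Bool) : (1/2 : ℚ) ≤ rt (win f) := by
  have h1 := (allB_iff _ _).mp ck_rt (win f) (win_lt f)
  rw [Bool.and_eq_true] at h1
  have h2 : (RD:ℚ) ≤ 2 * cR (win f) := by exact_mod_cast Nat.ble_eq.mp h1.1
  unfold rt
  rw [div_le_div_iff₀ (by norm_num) RD_pos]
  linarith

theorem rt_win_le (f : ℕ → Bool) : rt (win f) ≤ 7 := by
  have h1 := (allB_iff _ _).mp ck_rt (win f) (win_lt f)
  rw [Bool.and_eq_true] at h1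
  have h2 : (cR (win f) : ℚ) ≤ 7 * RD := by exact_mod_cast Nat.ble_eq.mp h1.2
  unfold rt
  rw [div_le_iff₀ RD_pos]
  linarith

theorem win_congr {f g : ℕ → Bool} (h : ∀ k, k ≤ 6 → f k = g k) : win f = win g := by
  unfold win
  rw [h 0 (by omega), h 1 (by omega), h 2 (by omega), h 3 (by omega), h 4 (by omega),
    h 5 (by omega), h 6 (by omega)]

/-- The rate of the step at `y+3`. -/
def qr (σ : ℕ → Bool) (y : ℕ) : ℚ := rt (win fun k => σ (y+k))

theorem qr_ge (σ : ℕ → Bool) (y : ℕ) : 1/2 ≤ qr σ y := rt_win_ge _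

theorem qr_le (σ : ℕ → Bool) (y : ℕ) : qr σ y ≤ 7 := rt_win_le _

theorem qr_pos (σ : ℕ → Bool) (y : ℕ) : 0 < qr σ y := lt_of_lt_of_le (by norm_num) (qr_ge σ y)

theorem qr_per {σ : ℕ → Bool} {P : ℕ} (hP : ∀ z, σ (z+P) = σ z) (y : ℕ) :
    qr σ (y+P) = qr σ y := by
  unfold qr
  congr 1
  congr 1
  funext k
  rw [← hP (y+k)]
  congr 1
  omega

theorem RP_eq (σ : ℕ → Bool) (z t : ℕ) : RP σ z t = ∏ i ∈ Finset.range t, qr σ (z+i) := rfl

theorem RP_pos (σ : ℕ → Bool) (z t : ℕ) : 0 < RP σ z t :=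
  Finset.prod_pos fun _ _ => qr_pos _ _

theorem RP_add (σ : ℕ → Bool) (z t u : ℕ) : RP σ z (t+u) = RP σ z t * RP σ (z+t) u := by
  rw [RP_eq, RP_eq, RP_eq, Finset.prod_range_add]
  congr 1
  apply Finset.prod_congr rfl
  intro i _
  rw [add_assoc]

theorem RP_one (σ : ℕ → Bool) (z : ℕ) : RP σ z 1 = qr σ z := by
  rw [RP_eq, Finset.prod_range_one, add_zero]

theorem RP_le (σ : ℕ → Bool) (z t : ℕ) : RP σ z t ≤ 7^t := by
  rw [RP_eq]
  calc ∏ i ∈ Finset.range t, qr σ (z+i) ≤ ∏ _i ∈ Finset.range t, (7:ℚ) :=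
        Finset.prod_le_prod (fun i _ => (qr_pos _ _).le) (fun i _ => qr_le _ _)
    _ = 7^t := by rw [Finset.prod_const, Finset.card_range]

theorem RP_shift {σ : ℕ → Bool} {P : ℕ} (hP : ∀ z, σ (z+P) = σ z) (z : ℕ) :
    RP σ (z+1) P = RP σ z P := by
  have h1 := RP_add σ z P 1
  have h2 := RP_add σ z 1 P
  rw [Nat.add_comm P 1, h2, RP_one, RP_one, qr_per hP, mul_comm] at h1
  exact mul_right_cancel₀ (qr_pos σ z).ne' h1

theorem RP_all {σ : ℕ → Bool} {P : ℕ} (hP : ∀ z, σ (z+P) = σ z) (z : ℕ) :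
    RP σ z P = RP σ 0 P := by
  induction z with
  | zero => rfl
  | succ z ih => rw [RP_shift hP, ih]

theorem qr_pair {n : ℕ} (s : Fin n → Bool) (u : ℕ) (hu : u + 6 < n) :
    qr (sgb s) u * qr (sgb s) (2*n-6-u) ≤ 4838/1000 := by
  have h1 := key_rate (fun k => sgb s (u+k))
  have e : win (fun k => sgb s (2*n-6-u+k)) = win (fun k => !(sgb s (u+(6-k)))) := by
    apply win_congr
    intro k hk
    have h2 := sgb_high s (u+(6-k)) (by omega)
    have h3 := sgb_low s (u+(6-k)) (by omega)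
    have e2 : 2*n-6-u+k = 2*n-(u+(6-k)) := by omega
    rw [e2, h2, h3]
  unfold qr
  rw [e]
  exact h1

theorem RP_zero {n : ℕ} (s : Fin n → Bool) : RP (sgb s) 0 (2*n+2) ≤ 7^14 * (4838/1000)^n := by
  rcases Nat.lt_or_ge n 6 with hn | hn
  · have h1 := RP_le (sgb s) 0 (2*n+2)
    have h2 : (7:ℚ)^(2*n+2) ≤ 7^14 := pow_le_pow_right₀ (by norm_num) (by omega)
    have h3 : (1:ℚ) ≤ (4838/1000)^n := one_le_pow₀ (by norm_num)
    nlinarith
  · obtain ⟨k, rfl⟩ := Nat.exists_eq_add_of_le hn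
    have e : 2*(6+k)+2 = k + (7 + (k + 7)) := by omega
    rw [e, RP_add, RP_add, RP_add]
    have h1 : RP (sgb s) (0+k) 7 ≤ 7^7 := RP_le _ _ _
    have h2 : RP (sgb s) (0+k+7+k) 7 ≤ 7^7 := RP_le _ _ _
    have h3 : RP (sgb s) 0 k * RP (sgb s) (0+k+7) k ≤ (4838/1000)^k := by
      have e2 : RP (sgb s) (0+k+7) k = ∏ i ∈ Finset.range k, qr (sgb s) (2*(6+k)-6-i) := by
        rw [RP_eq, ← Finset.prod_range_reflect]
        apply Finset.prod_congr rfl
        intro i hi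
        rw [Finset.mem_range] at hi
        congr 1
        omega
      rw [e2, RP_eq, ← Finset.prod_mul_distrib]
      calc ∏ i ∈ Finset.range k, qr (sgb s) (0+i) * qr (sgb s) (2*(6+k)-6-i)
          ≤ ∏ _i ∈ Finset.range k, (4838/1000 : ℚ) := by
            apply Finset.prod_le_prod
            · intro i _
              exact (mul_pos (qr_pos _ _) (qr_pos _ _)).le
            · intro i hi
              rw [Finset.mem_range] at hi
              rw [Nat.zero_add]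
              exact qr_pair s i (by omega)
        _ = (4838/1000)^k := by rw [Finset.prod_const, Finset.card_range]
    have p1 := RP_pos (sgb s) 0 k
    have p2 := RP_pos (sgb s) (0+k+7) k
    have p3 := RP_pos (sgb s) (0+k) 7
    have p4 := RP_pos (sgb s) (0+k+7+k) 7
    have h4 : (4838/1000 : ℚ)^k ≤ (4838/1000)^(6+k) := pow_le_pow_right₀ (by norm_num) (by omega)
    have h5 : RP (sgb s) (0+k) 7 * RP (sgb s) (0+k+7+k) 7 ≤ 7^7 * 7^7 :=
      mul_le_mul h1 h2 p4.le (by norm_num)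
    calc RP (sgb s) 0 k * (RP (sgb s) (0+k) 7 * (RP (sgb s) (0+k+7) k * RP (sgb s) (0+k+7+k) 7))
        = (RP (sgb s) (0+k) 7 * RP (sgb s) (0+k+7+k) 7) *
          (RP (sgb s) 0 k * RP (sgb s) (0+k+7) k) := by ring
      _ ≤ (7^7 * 7^7) * (4838/1000)^(6+k) :=
          mul_le_mul h5 (h3.trans h4) (mul_pos p1 p2).le (by norm_num)
      _ = 7^14 * (4838/1000)^(6+k) := by norm_num

theorem Dn_congr {σ τ : ℕ → Bool} (t : ℕ) : ∀ (z z' : ℕ) (w : List Bool),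
    (∀ k, σ (z+k) = τ (z'+k)) → Dn σ t z w = Dn τ t z' w := by
  induction t with
  | zero => intro z z' w _; rfl
  | succ t ih =>
    intro z z' w h
    have h0 : σ z = τ z' := h 0
    have h1 : ∀ k, σ (z+1+k) = τ (z'+1+k) := by
      intro k
      have := h (1+k)
      rwa [← Nat.add_assoc, ← Nat.add_assoc] at this
    rw [Dn, Dn, h0, ih (z+1) (z'+1) _ h1]
    congr 1
    cases popS (τ z') w with
    | none => rfl
    | some w' => exact ih (z+1) (z'+1) w' h1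

theorem cm_sq_le {n : ℕ} (s : Fin n → Bool) (m a : ℕ) (z : ℕ) (hz : z + 3 = a + (2*n+2)) :
    (cm (lbs s) m a : ℚ)^2 ≤ RP (sgb s) z (2*m) * 268435456 := by
  have h1 := cm_le_Dn (lbs_sgb s) m a
  have h2 : Dn (sgb s) (2*m) a [] = Dn (sgb s) (2*m) (z+3) [] := by
    apply Dn_congr
    intro k
    rw [← sgb_per s (a+k)]
    congr 1
    omega
  have h3 := Dn_sq_le (sgb s) 268435456 tE_nil_le tE_nil_ge (2*m) z
  rw [← h2] at h3
  have h4 : (cm (lbs s) m a : ℚ) ≤ (Dn (sgb s) (2*m) a [] : ℚ) := by exact_mod_cast h1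
  have h5 : (0:ℚ) ≤ (cm (lbs s) m a : ℚ) := Nat.cast_nonneg _
  calc (cm (lbs s) m a : ℚ)^2 ≤ (Dn (sgb s) (2*m) a [] : ℚ)^2 := pow_le_pow_left₀ h5 h4 2
    _ ≤ _ := h3

theorem pair_bound (n : ℕ) (s : Fin n → Bool) (j m : ℕ) (hm : m ≤ n) :
    ((cm (lbs s) m (2*j+1) * cm (lbs s) (n-m) (2*j+2*m+2) : ℕ) : ℚ)^2 ≤
      (268435456^2 * 4 * 7^14) * (4838/1000)^n := by
  have h1 := cm_sq_le s m (2*j+1) (2*j+2*n) (by omega)
  have h2 := cm_sq_le s (n-m) (2*j+2*m+2) (2*j+2*n+2*m+1) (by omega)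
  have hP := RP_all (sgb_per s) (2*j+2*n)
  have hZ := RP_zero s
  have e : 2*n+2 = 2*m + (1 + (2*(n-m) + 1)) := by omega
  rw [← hP] at hZ
  conv at hZ => lhs; rw [e]
  rw [RP_add, RP_add, RP_add, RP_one, RP_one] at hZ
  have e1 : 2*j+2*n+2*m+1 = 2*j+2*n+2*m+1 := rfl
  have q1 := qr_ge (sgb s) (2*j+2*n+2*m)
  have q2 := qr_ge (sgb s) (2*j+2*n+2*m+1+2*(n-m))
  have p1 := RP_pos (sgb s) (2*j+2*n) (2*m)
  have p2 := RP_pos (sgb s) (2*j+2*n+2*m+1) (2*(n-m))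
  set a := RP (sgb s) (2*j+2*n) (2*m) with ha
  set b := RP (sgb s) (2*j+2*n+2*m+1) (2*(n-m)) with hb
  set x := qr (sgb s) (2*j+2*n+2*m) with hx
  set y := qr (sgb s) (2*j+2*n+2*m+1+2*(n-m)) with hy
  have h3 : a * b ≤ 4 * (7^14 * (4838/1000)^n) := by
    have h4 : (1/4:ℚ) ≤ x * y := by nlinarith
    have h5 : a * b * (1/4) ≤ a * b * (x*y) :=
      mul_le_mul_of_nonneg_left h4 (mul_pos p1 p2).le
    nlinarith
  push_cast
  calc ((cm (lbs s) m (2*j+1) : ℚ) * (cm (lbs s) (n-m) (2*j+2*m+2) : ℚ))^2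
      = (cm (lbs s) m (2*j+1) : ℚ)^2 * (cm (lbs s) (n-m) (2*j+2*m+2) : ℚ)^2 := by ring
    _ ≤ (a * 268435456) * (b * 268435456) :=
        mul_le_mul h1 h2 (sq_nonneg _) (mul_nonneg p1.le (by norm_num))
    _ = 268435456^2 * (a * b) := by ring
    _ ≤ 268435456^2 * (4 * (7^14 * (4838/1000)^n)) :=
        mul_le_mul_of_nonneg_left h3 (by norm_num)
    _ = 268435456^2 * 4 * 7^14 * (4838/1000)^n := by ring

theorem per_bound : ∃ C : ℚ, 0 ≤ C ∧ ∀ (n : ℕ) (s : Fin n → Bool) (j m : ℕ), j ≤ n → m ≤ n →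
    ((cm (lbs s) m (2*j+1) * cm (lbs s) (n-m) (2*j+2*m+2) : ℕ) : ℚ)^2 ≤ C * (4838/1000)^n :=
  ⟨268435456^2 * 4 * 7^14, by norm_num, fun n s j m _ hm => pair_bound n s j m hm⟩

/-- The square of the polynomial factor is absorbed. -/
theorem poly_le (n : ℕ) : ((n:ℚ)+1)^4 * (4838/1000)^n ≤ 9680^4 * (484/100)^n := by
  have h1 : 1 + (n:ℚ) * (1/9680) ≤ (1 + 1/9680)^n := one_add_mul_le_pow (by norm_num) n
  have h2 : ((n:ℚ)+1) ≤ 9680 * (1+1/9680)^n := by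
    have : (0:ℚ) ≤ (n:ℚ) := Nat.cast_nonneg n
    linarith
  have h3 : ((n:ℚ)+1)^4 ≤ (9680 * (1+1/9680)^n)^4 :=
    pow_le_pow_left₀ (by positivity) h2 4
  have h4 : ((9680:ℚ) * (1+1/9680)^n)^4 = 9680^4 * ((1+1/9680)^4)^n := by
    rw [mul_pow, ← pow_mul, ← pow_mul, Nat.mul_comm]
  rw [h4] at h3
  calc ((n:ℚ)+1)^4 * (4838/1000)^n ≤ (9680^4 * ((1+1/9680)^4)^n) * (4838/1000)^n :=
        mul_le_mul_of_nonneg_right h3 (by positivity)
    _ = 9680^4 * ((1+1/9680)^4 * (4838/1000))^n := by rw [mul_pow]; ring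
    _ ≤ 9680^4 * (484/100)^n := by
        apply mul_le_mul_of_nonneg_left _ (by norm_num)
        exact pow_le_pow_left₀ (by norm_num) (by norm_num) n

theorem pair_le (n : ℕ) (s : Fin n → Bool) (j m : ℕ) (hm : m ≤ n) :
    ((n:ℚ)+1)^2 * ((cm (lbs s) m (2*j+1) * cm (lbs s) (n-m) (2*j+2*m+2) : ℕ) : ℚ) ≤
      10^23 * (11/5)^n := by
  have h1 := pair_bound n s j m hm
  set x : ℚ := ((cm (lbs s) m (2*j+1) * cm (lbs s) (n-m) (2*j+2*m+2) : ℕ) : ℚ) with hx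
  have h2 : (((n:ℚ)+1)^2 * x)^2 ≤ (10^23 * (11/5)^n)^2 := by
    calc (((n:ℚ)+1)^2 * x)^2 = ((n:ℚ)+1)^4 * x^2 := by ring
      _ ≤ ((n:ℚ)+1)^4 * ((268435456^2 * 4 * 7^14) * (4838/1000)^n) :=
          mul_le_mul_of_nonneg_left h1 (by positivity)
      _ = (268435456^2 * 4 * 7^14) * (((n:ℚ)+1)^4 * (4838/1000)^n) := by ring
      _ ≤ (268435456^2 * 4 * 7^14) * (9680^4 * (484/100)^n) :=
          mul_le_mul_of_nonneg_left (poly_le n) (by norm_num)
      _ = (268435456^2 * 4 * 7^14 * 9680^4) * (484/100)^n := by ring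
      _ ≤ (10^23)^2 * (484/100)^n :=
          mul_le_mul_of_nonneg_right (by norm_num) (by positivity)
      _ = (10^23 * (11/5)^n)^2 := by
          have e : ((11/5:ℚ)^n)^2 = (484/100)^n := by
            rw [← pow_mul, Nat.mul_comm, pow_mul]
            norm_num
          rw [mul_pow, e]
  exact le_of_sq_le_sq h2 (by positivity)

theorem sum_le (n : ℕ) (s : Fin n → Bool) :
    ((∑ j ∈ Finset.range (n+1), ∑ m ∈ Finset.range (n+1),
      cm (lbs s) m (2*j+1) * cm (lbs s) (n-m) (2*j+2*m+2) : ℕ) : ℚ) ≤ 10^23 * (11/5)^n := by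
  have hn : (0:ℚ) < ((n:ℚ)+1)^2 := by positivity
  rw [Nat.cast_sum]
  have h : ∀ j ∈ Finset.range (n+1), ((∑ m ∈ Finset.range (n+1),
      cm (lbs s) m (2*j+1) * cm (lbs s) (n-m) (2*j+2*m+2) : ℕ) : ℚ) ≤
      ((n:ℚ)+1) * (10^23 * (11/5)^n / ((n:ℚ)+1)^2) := by
    intro j _
    rw [Nat.cast_sum]
    calc ∑ m ∈ Finset.range (n+1),
          ((cm (lbs s) m (2*j+1) * cm (lbs s) (n-m) (2*j+2*m+2) : ℕ) : ℚ)
        ≤ ∑ _m ∈ Finset.range (n+1), (10^23 * (11/5)^n / ((n:ℚ)+1)^2) := by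
          apply Finset.sum_le_sum
          intro m hm
          rw [Finset.mem_range] at hm
          rw [le_div_iff₀ hn, mul_comm]
          exact pair_le n s j m (by omega)
      _ = ((n:ℚ)+1) * (10^23 * (11/5)^n / ((n:ℚ)+1)^2) := by
          rw [Finset.sum_const, Finset.card_range, nsmul_eq_mul]
          push_cast
          ring
  calc _ ≤ ∑ _j ∈ Finset.range (n+1), ((n:ℚ)+1) * (10^23 * (11/5)^n / ((n:ℚ)+1)^2) :=
        Finset.sum_le_sum h
    _ = ((n:ℚ)+1) * (((n:ℚ)+1) * (10^23 * (11/5)^n / ((n:ℚ)+1)^2)) := by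
        rw [Finset.sum_const, Finset.card_range, nsmul_eq_mul]
        push_cast
        ring
    _ = 10^23 * (11/5)^n := by
        field_simp

end Pool.Agent.MV68.Lc
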