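import Pool.Agent.MV68.LcCore

namespace Pool.Agent.MV68.Lc

def t5 (j : ℕ) : ℕ := if j < 64 then j else j % 32 + 32

def preC (s : Bool) (j : ℕ) : ℕ :=
  if s then (if j = 1 then 3 else if j % 2 = 1 then 4*(j/2)+1 else 0) else 2*j+1

def pushN (s : Bool) (A : ℕ → ℕ) (j : ℕ) : ℕ := if 2 ≤ j ∧ j % 2 = s.toNat then A (j/2) else 0

def popN (s : Bool) (B : ℕ → ℕ) (j : ℕ) : ℕ := if preC s j = 0 then 0 else B (t5 (preC s j))

def fb (F1 F0 : ℕ) (q : ℕ) : ℕ := if q = 0 then F0 else F1

def PP (F1 F0 D j : ℕ) : ℕ :=
  if j < 32 then D*D else if j < 64 then fb F1 F0 (j/16%2) * D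
    else fb F1 F0 (j/16%2) * fb F1 F0 (j/32%2)

def QQ (F1 F0 D j : ℕ) : ℕ := if j < 64 then D*D else fb F1 F0 (j/32%2) * D

def Fq (F1 F0 D : ℕ) (b : Bool) : ℚ := ((if b then F1 else F0 : ℕ) : ℚ) / (D:ℚ)

theorem push_eq (s : Bool) (A : ℕ → ℕ) (F : Bool → ℚ) (w : List Bool) :
    pushV s (val A F) w = (pushN s A (idx (w.take 6)) : ℚ) * dw F (w.drop 6) := by
  rcases w with _ | ⟨a, v⟩
  · simp [pushV, pushN, idx]
  · have h1 : idx ((a :: v).take 6) = 2 * idx (v.take 5) + a.toNat := by simp [idx]
    have h0 : 1 ≤ idx (v.take 5) := by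
      cases v.take 5 with
      | nil => simp [idx]
      | cons b l =>
        have : ∀ l : List Bool, 1 ≤ idx l := by
          intro l
          induction l with
          | nil => simp [idx]
          | cons b l ih => simp only [idx]; omega
        exact this _
    rw [h1]
    have h2 : (2 * idx (v.take 5) + a.toNat) / 2 = idx (v.take 5) := by
      have := Bool.toNat_lt a
      omega
    have h3 : (2 * idx (v.take 5) + a.toNat) % 2 = a.toNat := by
      have := Bool.toNat_lt a
      omega
    unfold pushV pushN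
    rw [h2, h3]
    by_cases hs : a = s
    · subst hs
      have h4 : 2 ≤ 2 * idx (v.take 5) + a.toNat := by omega
      simp [h4, val]
    · have h5 : a.toNat ≠ s.toNat := by
        intro h
        apply hs
        cases a <;> cases s <;> simp_all
      simp [hs, h5]

theorem idx_snoc (l : List Bool) (f : Bool) :
    idx (l ++ [f]) = idx l + 2^l.length * (1 + f.toNat) := by
  induction l with
  | nil => simp [idx]; ring
  | cons b l ih =>
    simp only [List.cons_append, idx, List.length_cons, ih]
    ring

theorem idx_ge (l : List Bool) : 2^l.length ≤ idx l := by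
  induction l with
  | nil => simp [idx]
  | cons b l ih =>
    simp only [idx, List.length_cons, pow_succ]
    omega

theorem idx_lt' (l : List Bool) : idx l < 2 * 2^l.length := by
  induction l with
  | nil => simp [idx]
  | cons b l ih =>
    simp only [idx, List.length_cons, pow_succ]
    have := Bool.toNat_lt b
    omega

theorem shape (m : ℕ) (w : List Bool) : w.length ≤ m ∨ (∃ l e, l.length = m ∧ w = l ++ [e]) ∨
    ∃ l e f r, l.length = m ∧ w = l ++ e :: f :: r := by
  rcases Nat.lt_or_ge m w.length with h | h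
  · right
    have h1 : (w.take m).length = m := by simp; omega
    have h2 : w.take m ++ w.drop m = w := List.take_append_drop m w
    rcases h3 : w.drop m with _ | ⟨e, _ | ⟨f, r⟩⟩
    · have := congrArg List.length h3
      simp at this
      omega
    · exact Or.inl ⟨w.take m, e, h1, by rw [← h3, h2]⟩
    · exact Or.inr ⟨w.take m, e, f, r, h1, by rw [← h3, h2]⟩
  · exact Or.inl h

theorem fb_toNat (F1 F0 D : ℕ) (hD : 0 < D) (b : Bool) :
    (fb F1 F0 b.toNat : ℚ) = Fq F1 F0 D b * D := by
  have hD' : (D:ℚ) ≠ 0 := by positivity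
  cases b <;> simp [fb, Fq, hD']

theorem dw_cons (F : Bool → ℚ) (b : Bool) (l : List Bool) : dw F (b :: l) = F b * dw F l := by
  simp [dw]

theorem dw_nil (F : Bool → ℚ) : dw F [] = 1 := by
  simp [dw]

theorem take_pre {l r : List Bool} {m n : ℕ} (h : l.length = m) (hn : m ≤ n) :
    (l ++ r).take n = l ++ r.take (n - m) := by
  subst h
  rw [List.take_append, List.take_of_length_le hn]

theorem val_eq (T : ℕ → ℕ) (F1 F0 D : ℕ) (hD : 0 < D) (w : List Bool) :
    val T (Fq F1 F0 D) w * (D*D) = (T (t5 (idx (w.take 6))) : ℚ) * QQ F1 F0 D (idx (w.take 6)) *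
      dw (Fq F1 F0 D) (w.drop 6) := by
  have key : ∀ (l : List Bool) (e : Bool) (r : List Bool), l.length = 5 →
      val T (Fq F1 F0 D) (l ++ e :: r) * (D*D) =
        (T (t5 (idx ((l ++ e :: r).take 6))) : ℚ) * QQ F1 F0 D (idx ((l ++ e :: r).take 6)) *
        dw (Fq F1 F0 D) ((l ++ e :: r).drop 6) := by
    intro l e r hl
    have e1 : (l ++ e :: r).take 6 = l ++ [e] := by
      rw [take_pre hl (by norm_num)]
      simp
    have e2 : (l ++ e :: r).drop 6 = r := by
      rw [show l ++ e :: r = (l ++ [e]) ++ r by simp, List.drop_left' (by simp [hl])]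
    have e3 : (l ++ e :: r).take 5 = l := List.take_left' hl
    have e4 : (l ++ e :: r).drop 5 = e :: r := List.drop_left' hl
    have h1 := idx_snoc l e
    have h2 := idx_ge l
    have h3 := idx_lt' l
    have h4 := Bool.toNat_lt e
    rw [hl] at h1 h2 h3
    norm_num at h1 h2 h3
    have h5 : t5 (idx (l ++ [e])) = idx l := by
      unfold t5
      split_ifs <;> omega
    have h6 : QQ F1 F0 D (idx (l ++ [e])) = fb F1 F0 e.toNat * D := by
      unfold QQ
      rw [if_neg (by omega)]
      congr 2
      omega
    unfold val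
    rw [e1, e2, e3, e4, h5, h6, dw_cons]
    push_cast
    rw [fb_toNat F1 F0 D hD]
    ring
  rcases shape 5 w with h | ⟨l, e, hl, rfl⟩ | ⟨l, e, f, r, hl, rfl⟩
  · have h2 := idx_lt' w
    have h3 : 2^w.length ≤ 2^5 := Nat.pow_le_pow_right (by norm_num) h
    have tk5 : w.take 5 = w := List.take_of_length_le h
    have tk6 : w.take 6 = w := List.take_of_length_le (by omega)
    have dr5 : w.drop 5 = [] := List.drop_of_length_le h
    have dr6 : w.drop 6 = [] := List.drop_of_length_le (by omega)
    unfold val
    rw [tk5, tk6, dr5, dr6]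
    have h4 : t5 (idx w) = idx w := by
      unfold t5
      rw [if_pos (by omega)]
    have h5 : QQ F1 F0 D (idx w) = D*D := by
      unfold QQ
      rw [if_pos (by omega)]
    rw [h4, h5, dw_nil]
    push_cast
    ring
  · exact key l e [] hl
  · exact key l e (f :: r) hl

/-- The codes and the weights of the letters at the places `m+1` and `m+2`. -/
theorem deep (m : ℕ) (F1 F0 D : ℕ) (hD : 0 < D) (w : List Bool) :
    (w.length ≤ m ∧ w.take m = w ∧ w.take (m+2) = w ∧ dw (Fq F1 F0 D) (w.drop m) = 1 ∧
      dw (Fq F1 F0 D) (w.drop (m+2)) = 1) ∨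
    (∃ i e : ℕ, 2^m ≤ i ∧ i < 2 * 2^m ∧ e < 2 ∧ idx (w.take m) = i ∧
      idx (w.take (m+2)) = i + 2^m * (1 + e) ∧
      dw (Fq F1 F0 D) (w.drop m) * D = fb F1 F0 e ∧
      dw (Fq F1 F0 D) (w.drop (m+2)) = 1) ∨
    (∃ i e f : ℕ, 2^m ≤ i ∧ i < 2 * 2^m ∧ e < 2 ∧ f < 2 ∧ idx (w.take m) = i ∧
      idx (w.take (m+2)) = i + 2^m * (1 + e) + 2 * 2^m * (1 + f) ∧
      dw (Fq F1 F0 D) (w.drop m) * (D*D) = fb F1 F0 e * fb F1 F0 f *
        dw (Fq F1 F0 D) (w.drop (m+2))) := by
  rcases shape m w with h | ⟨l, e, hl, rfl⟩ | ⟨l, e, f, r, hl, rfl⟩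
  · left
    refine ⟨h, List.take_of_length_le h, List.take_of_length_le (by omega), ?_, ?_⟩
    · rw [List.drop_of_length_le h, dw_nil]
    · rw [List.drop_of_length_le (by omega), dw_nil]
  · right; left
    refine ⟨idx l, e.toNat, hl ▸ idx_ge l, hl ▸ idx_lt' l, Bool.toNat_lt e, ?_, ?_, ?_, ?_⟩
    · rw [List.take_left' hl]
    · rw [List.take_of_length_le (by simp [hl]), idx_snoc, hl]
    · rw [List.drop_left' hl, dw_cons, dw_nil, fb_toNat F1 F0 D hD]
      ring
    · rw [List.drop_of_length_le (by simp [hl]), dw_nil]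
  · right; right
    refine ⟨idx l, e.toNat, f.toNat, hl ▸ idx_ge l, hl ▸ idx_lt' l, Bool.toNat_lt e,
      Bool.toNat_lt f, ?_, ?_, ?_⟩
    · rw [List.take_left' hl]
    · have e1 : (l ++ e :: f :: r).take (m+2) = (l ++ [e]) ++ [f] := by
        rw [take_pre hl (by omega)]
        simp
      rw [e1, idx_snoc, idx_snoc, List.length_append, hl]
      simp only [List.length_cons, List.length_nil]
      ring
    · have e2 : (l ++ e :: f :: r).drop (m+2) = r := by
        rw [show l ++ e :: f :: r = (l ++ [e, f]) ++ r by simp, List.drop_left' (by simp [hl])]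
      rw [List.drop_left' hl, e2, dw_cons, dw_cons, fb_toNat F1 F0 D hD, fb_toNat F1 F0 D hD]
      ring

theorem pop_eq (s : Bool) (B : ℕ → ℕ) (F1 F0 D : ℕ) (hD : 0 < D) (w : List Bool) :
    popV s (val B (Fq F1 F0 D)) w * (D*D) = (popN s B (idx (w.take 6)) : ℚ) *
      PP F1 F0 D (idx (w.take 6)) * dw (Fq F1 F0 D) (w.drop 6) := by
  cases s
  · have hp : popV false (val B (Fq F1 F0 D)) w =
        (B (2 * idx (w.take 4) + 1) : ℚ) * dw (Fq F1 F0 D) (w.drop 4) := by
      cases w <;> simp [popV, pre, val, idx]
    have hN : ∀ j, popN false B j = B (t5 (2*j+1)) := by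
      intro j
      simp [popN, preC]
    rw [hp, hN]
    rcases deep 4 F1 F0 D hD w with ⟨h, h1, h2, h3, h4⟩ | ⟨i, e, h1, h2, h3, h4, h5, h6, h7⟩ |
      ⟨i, e, f, h1, h2, h3, h4, h5, h6, h7⟩
    · have h5 := idx_lt' w
      have h6 : 2^w.length ≤ 2^4 := Nat.pow_le_pow_right (by norm_num) h
      rw [h1, h2, h3, h4]
      have h7 : t5 (2 * idx w + 1) = 2 * idx w + 1 := by
        unfold t5
        rw [if_pos (by omega)]
      have h8 : PP F1 F0 D (idx w) = D*D := by
        unfold PP
        rw [if_pos (by omega)]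
      rw [h7, h8]
      push_cast
      ring
    · norm_num at h1 h2 h5 h7
      rw [h4, h5, h7]
      have h8 : t5 (2 * (i + 16 * (1 + e)) + 1) = 2 * i + 1 := by
        unfold t5
        rw [if_neg (by omega)]
        omega
      have h9 : PP F1 F0 D (i + 16 * (1 + e)) = fb F1 F0 e * D := by
        unfold PP
        rw [if_neg (by omega), if_pos (by omega)]
        congr 2
        omega
      rw [h8, h9]
      push_cast
      rw [← h6]
      ring
    · norm_num at h1 h2 h6 h7
      rw [h5, h6]
      have h8 : t5 (2 * (i + 16 * (1 + e) + 32 * (1 + f)) + 1) = 2 * i + 1 := by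
        unfold t5
        rw [if_neg (by omega)]
        omega
      have h9 : PP F1 F0 D (i + 16 * (1 + e) + 32 * (1 + f)) = fb F1 F0 e * fb F1 F0 f := by
        unfold PP
        rw [if_neg (by omega), if_neg (by omega)]
        congr 2 <;> omega
      rw [h8, h9]
      push_cast
      calc (B (2*i+1) : ℚ) * dw (Fq F1 F0 D) (w.drop 4) * (D*D)
          = (B (2*i+1) : ℚ) * (dw (Fq F1 F0 D) (w.drop 4) * (D*D)) := by ring
        _ = _ := by rw [h7]; ring
  · rcases w with _ | ⟨x, v⟩
    · simp [popV, pre, val, popN, preC, t5, idx, PP, dw]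
    · cases x
      · have h1 : popV true (val B (Fq F1 F0 D)) (false :: v) = 0 := by simp [popV, pre]
        have h2 : popN true B (idx ((false :: v).take 6)) = 0 := by
          have h3 : idx ((false :: v).take 6) = 2 * idx (v.take 5) := by simp [idx]
          have h4 : preC true (idx ((false :: v).take 6)) = 0 := by
            rw [h3]
            unfold preC
            rw [if_pos rfl, if_neg (by omega), if_neg (by omega)]
          unfold popN
          rw [h4, if_pos rfl]
        rw [h1, h2]
        simp
      · have hp : popV true (val B (Fq F1 F0 D)) (true :: v) =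
            (B (4 * idx (v.take 3) + 1) : ℚ) * dw (Fq F1 F0 D) (v.drop 3) := by
          simp only [popV, pre, if_true, val, List.take_succ_cons, List.drop_succ_cons, idx,
            Bool.toNat_true, Bool.toNat_false]
          congr 2
          congr 1
          ring
        have hj : idx ((true :: v).take 6) = 2 * idx (v.take 5) + 1 := by simp [idx]
        have hd : (true :: v).drop 6 = v.drop 5 := by simp
        have h0 := idx_ge (v.take 5)
        have h0' : 1 ≤ 2^(v.take 5).length := Nat.one_le_two_pow
        have hN : popN true B (2 * idx (v.take 5) + 1) = B (t5 (4 * idx (v.take 5) + 1)) := by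
          have h4 : preC true (2 * idx (v.take 5) + 1) = 4 * idx (v.take 5) + 1 := by
            unfold preC
            rw [if_pos rfl, if_neg (by omega), if_pos (by omega)]
            omega
          unfold popN
          rw [h4, if_neg (by omega)]
        rw [hp, hj, hd, hN]
        rcases deep 3 F1 F0 D hD v with ⟨h, h1, h2, h3, h4⟩ | ⟨i, e, h1, h2, h3, h4, h5, h6, h7⟩ |
          ⟨i, e, f, h1, h2, h3, h4, h5, h6, h7⟩
        · have h5 := idx_lt' v
          have h6 : 2^v.length ≤ 2^3 := Nat.pow_le_pow_right (by norm_num) h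
          norm_num at h2 h4
          rw [h1, List.take_of_length_le (by omega), h3, h4]
          have h7 : t5 (4 * idx v + 1) = 4 * idx v + 1 := by
            unfold t5
            rw [if_pos (by omega)]
          have h8 : PP F1 F0 D (2 * idx v + 1) = D*D := by
            unfold PP
            rw [if_pos (by omega)]
          rw [h7, h8]
          push_cast
          ring
        · norm_num at h1 h2 h5 h7
          rw [h4, h5, h7]
          have h8 : t5 (4 * (i + 8 * (1 + e)) + 1) = 4 * i + 1 := by
            unfold t5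
            rw [if_neg (by omega)]
            omega
          have h9 : PP F1 F0 D (2 * (i + 8 * (1 + e)) + 1) = fb F1 F0 e * D := by
            unfold PP
            rw [if_neg (by omega), if_pos (by omega)]
            congr 2
            omega
          rw [h8, h9]
          push_cast
          rw [← h6]
          ring
        · norm_num at h1 h2 h6 h7
          rw [h5, h6]
          have h8 : t5 (4 * (i + 8 * (1 + e) + 16 * (1 + f)) + 1) = 4 * i + 1 := by
            unfold t5
            rw [if_neg (by omega)]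
            omega
          have h9 : PP F1 F0 D (2 * (i + 8 * (1 + e) + 16 * (1 + f)) + 1) =
              fb F1 F0 e * fb F1 F0 f := by
            unfold PP
            rw [if_neg (by omega), if_neg (by omega)]
            congr 2 <;> omega
          rw [h8, h9]
          push_cast
          calc (B (4*i+1) : ℚ) * dw (Fq F1 F0 D) (v.drop 3) * (D*D)
              = (B (4*i+1) : ℚ) * (dw (Fq F1 F0 D) (v.drop 3) * (D*D)) := by ring
            _ = _ := by rw [h7]; ring

end Pool.Agent.MV68.Lc
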