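import Pool.Agent.MV68.LcChk

/-! Growth of the weighted sum of squares over all stacks. -/

namespace Pool.Agent.MV68.Lc

theorem val_nonneg (T : ℕ → ℕ) (w : List Bool) : 0 ≤ val T F w := by
  unfold val
  exact mul_nonneg (by positivity) (dw_nonneg F1 F0 FD _)

theorem tE_nonneg (h : ℕ) (w : List Bool) : 0 ≤ tE h w := val_nonneg _ _

theorem tA_nonneg (h : ℕ) (w : List Bool) : 0 ≤ tA h w := val_nonneg _ _

theorem tB_nonneg (h : ℕ) (w : List Bool) : 0 ≤ tB h w := val_nonneg _ _

theorem rt_nonneg (X : ℕ) : 0 ≤ rt X := by unfold rt; positivity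

theorem pushV_nonneg (s : Bool) (f : List Bool → ℚ) (hf : ∀ w, 0 ≤ f w) (w : List Bool) :
    0 ≤ pushV s f w := by
  cases w with
  | nil => exact le_rfl
  | cons b v =>
    show 0 ≤ if b = s then f v else 0
    split_ifs
    · exact hf v
    · exact le_rfl

theorem popV_nonneg (s : Bool) (f : List Bool → ℚ) (hf : ∀ w, 0 ≤ f w) (w : List Bool) :
    0 ≤ popV s f w := by
  unfold popV
  cases pre s w with
  | none => exact le_rfl
  | some u => exact hf u

/-- The value of a function at the stack after closing. -/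
def gp (s : Bool) (g : List Bool → ℚ) (u : List Bool) : ℚ :=
  match popS s u with
  | none => 0
  | some w => g w

theorem push_sum (s : Bool) (A G : List Bool → ℚ) (hA : ∀ w, 0 ≤ A w) (hG : ∀ w, 0 ≤ G w)
    (T T' : Finset (List Bool)) (hT : ∀ u ∈ T, s :: u ∈ T') :
    ∑ u ∈ T, A u * G (s :: u) ≤ ∑ w ∈ T', pushV s A w * G w := by
  have h1 : ∑ u ∈ T, A u * G (s :: u) = ∑ w ∈ T.image (fun u => s :: u), pushV s A w * G w := by
    rw [Finset.sum_image (fun a _ b _ h => by simpa using h)]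
    apply Finset.sum_congr rfl
    intro u _
    simp [pushV]
  rw [h1]
  apply Finset.sum_le_sum_of_subset_of_nonneg
  · intro w hw
    rw [Finset.mem_image] at hw
    obtain ⟨u, hu, rfl⟩ := hw
    exact hT u hu
  · intro w _ _
    exact mul_nonneg (pushV_nonneg s A hA w) (hG w)

theorem pop_sum (s : Bool) (B G : List Bool → ℚ) (hB : ∀ w, 0 ≤ B w) (hG : ∀ w, 0 ≤ G w)
    (T T' : Finset (List Bool)) (hT : ∀ u ∈ T, ∀ w, popS s u = some w → w ∈ T') :
    ∑ u ∈ T, B u * gp s G u ≤ ∑ w ∈ T', popV s B w * G w := by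
  classical
  have h1 : ∑ u ∈ T, B u * gp s G u = ∑ u ∈ T.filter (fun u => (popS s u).isSome), B u * gp s G u := by
    rw [Finset.sum_filter]
    apply Finset.sum_congr rfl
    intro u _
    split
    · rfl
    · rename_i h
      have : popS s u = none := by simpa using h
      simp [gp, this]
  have h2 : ∑ u ∈ T.filter (fun u => (popS s u).isSome), B u * gp s G u =
      ∑ w ∈ (T.filter (fun u => (popS s u).isSome)).image (fun u => (popS s u).getD []),
        popV s B w * G w := by
    rw [Finset.sum_image]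
    · apply Finset.sum_congr rfl
      intro u hu
      rw [Finset.mem_filter] at hu
      obtain ⟨w, hw⟩ := Option.isSome_iff_exists.mp hu.2
      have hp := (popS_iff s u w).mp hw
      simp [gp, hw, popV, hp]
    · intro u hu v hv h
      rw [Finset.mem_coe, Finset.mem_filter] at hu hv
      obtain ⟨w, hw⟩ := Option.isSome_iff_exists.mp hu.2
      obtain ⟨w', hw'⟩ := Option.isSome_iff_exists.mp hv.2
      have e : w = w' := by simpa [hw, hw'] using h
      subst e
      have h3 := (popS_iff s u w).mp hw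
      have h4 := (popS_iff s v w).mp hw'
      rw [h3] at h4
      exact Option.some.inj h4
  rw [h1, h2]
  apply Finset.sum_le_sum_of_subset_of_nonneg
  · intro w hw
    rw [Finset.mem_image] at hw
    obtain ⟨u, hu, rfl⟩ := hw
    rw [Finset.mem_filter] at hu
    obtain ⟨w, hw⟩ := Option.isSome_iff_exists.mp hu.2
    have := hT u hu.1 w hw
    simpa [hw] using this
  · intro w _ _
    exact mul_nonneg (popV_nonneg s B hB w) (hG w)

theorem energy_step (f : ℕ → Bool) (g : List Bool → ℚ) (T : Finset (List Bool)) :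
    ∃ T' : Finset (List Bool),
      ∑ u ∈ T, tE (win6 f) u * (g (f 3 :: u) + gp (f 3) g u)^2 ≤
        rt (win f) * ∑ w ∈ T', tE (win6 fun k => f (k+1)) w * g w ^ 2 := by
  classical
  refine ⟨T.image (fun u => f 3 :: u) ∪ T.image (fun u => (popS (f 3) u).getD []), ?_⟩
  set T' := T.image (fun u => f 3 :: u) ∪ T.image (fun u => (popS (f 3) u).getD []) with hT'
  have h1 : ∀ u ∈ T, tE (win6 f) u * (g (f 3 :: u) + gp (f 3) g u)^2 ≤
      tA (win f) u * (fun w => g w ^ 2) (f 3 :: u) + tB (win f) u * gp (f 3) (fun w => g w ^ 2) u := by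
    intro u _
    cases hu : popS (f 3) u with
    | none =>
      have := key_push f u hu (g (f 3 :: u))
      simpa [gp, hu] using this
    | some w =>
      have := key_both f u w hu (g (f 3 :: u)) (g w)
      simpa [gp, hu] using this
  have hG : ∀ w, 0 ≤ (fun w => g w ^ 2) w := fun w => sq_nonneg _
  have h2 := push_sum (f 3) (tA (win f)) (fun w => g w ^ 2) (tA_nonneg _) hG T T' (fun u hu => by
    rw [hT', Finset.mem_union]
    exact Or.inl (Finset.mem_image_of_mem _ hu))
  have h3 := pop_sum (f 3) (tB (win f)) (fun w => g w ^ 2) (tB_nonneg _) hG T T' (fun u hu w hw => by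
    rw [hT', Finset.mem_union]
    refine Or.inr (Finset.mem_image.mpr ⟨u, hu, ?_⟩)
    simp [hw])
  calc ∑ u ∈ T, tE (win6 f) u * (g (f 3 :: u) + gp (f 3) g u)^2
      ≤ ∑ u ∈ T, (tA (win f) u * (fun w => g w ^ 2) (f 3 :: u) +
          tB (win f) u * gp (f 3) (fun w => g w ^ 2) u) := Finset.sum_le_sum h1
    _ = ∑ u ∈ T, tA (win f) u * (fun w => g w ^ 2) (f 3 :: u) +
          ∑ u ∈ T, tB (win f) u * gp (f 3) (fun w => g w ^ 2) u := Finset.sum_add_distrib
    _ ≤ ∑ w ∈ T', pushV (f 3) (tA (win f)) w * (fun w => g w ^ 2) w +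
          ∑ w ∈ T', popV (f 3) (tB (win f)) w * (fun w => g w ^ 2) w := add_le_add h2 h3
    _ = ∑ w ∈ T', (pushV (f 3) (tA (win f)) w + popV (f 3) (tB (win f)) w) * g w ^ 2 := by
          rw [← Finset.sum_add_distrib]
          exact Finset.sum_congr rfl fun w _ => by ring
    _ ≤ ∑ w ∈ T', (rt (win f) * tE (win6 fun k => f (k+1)) w) * g w ^ 2 :=
          Finset.sum_le_sum fun w _ => mul_le_mul_of_nonneg_right (key_main f w) (sq_nonneg _)
    _ = rt (win f) * ∑ w ∈ T', tE (win6 fun k => f (k+1)) w * g w ^ 2 := by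
          rw [Finset.mul_sum]
          exact Finset.sum_congr rfl fun w _ => by ring

/-- Product of the rates of `t` steps; the window of the step at `z+3+i` starts at `z+i`. -/
def RP (σ : ℕ → Bool) (z t : ℕ) : ℚ := ∏ i ∈ Finset.range t, rt (win fun k => σ (z+i+k))

theorem RP_nonneg (σ : ℕ → Bool) (z t : ℕ) : 0 ≤ RP σ z t :=
  Finset.prod_nonneg fun _ _ => rt_nonneg _

theorem RP_succ (σ : ℕ → Bool) (z t : ℕ) :
    RP σ z (t+1) = rt (win fun k => σ (z+k)) * RP σ (z+1) t := by
  unfold RP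
  rw [Finset.prod_range_succ', mul_comm]
  congr 1
  apply Finset.prod_congr rfl
  intro i _
  congr 1
  congr 1
  funext k
  congr 1
  omega

theorem Dn_gp (σ : ℕ → Bool) (t z : ℕ) (u : List Bool) :
    (Dn σ (t+1) z u : ℚ) = (Dn σ t (z+1) (σ z :: u) : ℚ) +
      gp (σ z) (fun w => (Dn σ t (z+1) w : ℚ)) u := by
  rw [Dn]
  unfold gp
  cases popS (σ z) u <;> simp

theorem energy (σ : ℕ → Bool) (K : ℚ) (hK : ∀ h, h < 64 → tE h [] ≤ K) (t : ℕ) :
    ∀ (z : ℕ) (T : Finset (List Bool)),
      ∑ u ∈ T, tE (win6 fun k => σ (z+k)) u * (Dn σ t (z+3) u : ℚ)^2 ≤ RP σ z t * K := by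
  induction t with
  | zero =>
    intro z T
    have hw : win6 (fun k => σ (z+k)) < 64 := by
      have := win_mod (fun k => σ (z+k))
      omega
    have h0 := hK _ hw
    have e1 : RP σ z 0 = 1 := by simp [RP]
    rw [e1, one_mul]
    calc ∑ u ∈ T, tE (win6 fun k => σ (z+k)) u * (Dn σ 0 (z+3) u : ℚ)^2
        = ∑ u ∈ T, if u = [] then tE (win6 fun k => σ (z+k)) u else 0 := by
          apply Finset.sum_congr rfl
          intro u _
          by_cases hu : u = [] <;> simp [Dn, hu]
      _ ≤ tE (win6 fun k => σ (z+k)) [] := by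
          rw [Finset.sum_ite_eq']
          split
          · exact le_rfl
          · exact tE_nonneg _ _
      _ ≤ K := h0
  | succ t ih =>
    intro z T
    obtain ⟨T', hT'⟩ := energy_step (fun k => σ (z+k)) (fun w => (Dn σ t (z+3+1) w : ℚ)) T
    have h1 := ih (z+1) T'
    have e1 : (fun k => σ (z+(k+1))) = (fun k => σ (z+1+k)) := by
      funext k
      congr 1
      omega
    have e2 : z + 1 + 3 = z + 3 + 1 := by omega
    rw [e2] at h1
    calc ∑ u ∈ T, tE (win6 fun k => σ (z+k)) u * (Dn σ (t+1) (z+3) u : ℚ)^2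
        = ∑ u ∈ T, tE (win6 fun k => σ (z+k)) u * ((Dn σ t (z+3+1) (σ (z+3) :: u) : ℚ) +
          gp (σ (z+3)) (fun w => (Dn σ t (z+3+1) w : ℚ)) u)^2 := by
          apply Finset.sum_congr rfl
          intro u _
          rw [Dn_gp]
      _ ≤ rt (win fun k => σ (z+k)) * ∑ w ∈ T', tE (win6 fun k => σ (z+(k+1))) w *
          (Dn σ t (z+3+1) w : ℚ)^2 := hT'
      _ ≤ rt (win fun k => σ (z+k)) * (RP σ (z+1) t * K) := by
          rw [e1]
          exact mul_le_mul_of_nonneg_left h1 (rt_nonneg _)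
      _ = RP σ z (t+1) * K := by rw [RP_succ]; ring

theorem Dn_sq_le (σ : ℕ → Bool) (K : ℚ) (hK : ∀ h, h < 64 → tE h [] ≤ K)
    (hE : ∀ h, h < 64 → 1 ≤ tE h []) (t z : ℕ) :
    (Dn σ t (z+3) [] : ℚ)^2 ≤ RP σ z t * K := by
  have h := energy σ K hK t z {[]}
  rw [Finset.sum_singleton] at h
  have hw : win6 (fun k => σ (z+k)) < 64 := by
    have := win_mod (fun k => σ (z+k))
    omega
  have h1 := hE _ hw
  nlinarith [sq_nonneg ((Dn σ t (z+3) [] : ℚ))]

end Pool.Agent.MV68.Lc
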