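import Pool.Agent.MV68.Circle
import Pool.Agent.MV68.KSDefs
import Pool.Agent.MV68.Face

namespace Pool.Agent.MV68

open Pool.Agent.Results.MP_15ecc6_co.DoubleCatalan

open Classical in
/-- Sign of the step from the side at position `z` to the next side, with period `2n+2`. -/
noncomputable def sgz (n : ℕ) (δ : ℕ → Prop) (z : ℕ) : ℤ :=
  if z % (2*n+2) < n then (if Vy δ (z % (2*n+2)) then 1 else -1)
  else if n < z % (2*n+2) ∧ z % (2*n+2) < 2*n+1 then
    (if Vy δ (2*n - z % (2*n+2)) then -1 else 1)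
  else -1

/-- Labels of the positions. -/
noncomputable def thz (n : ℕ) (δ : ℕ → Prop) : ℕ → ℤ
  | 0 => 0
  | z+1 => thz n δ z + sgz n δ z

/-- The gap at position `z`, with period `2n+2`. -/
def GG (n : ℕ) (g : ℕ → ℕ) (z : ℕ) : ℤ := gp n g (z % (2*n+2))

/-- Two gaps are not separated by an arc of a crease `j` with `j % 2 = c`. -/
def EE (n : ℕ) (g : ℕ → ℕ) (c : ℕ) (m m' : ℤ) : Prop :=
  ∀ j, j < n → j % 2 = c →
    ((((min (g j) (g (j+1)) : ℕ) : ℤ) ≤ m ∧ m < ((max (g j) (g (j+1)) : ℕ) : ℤ)) ↔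
      (((min (g j) (g (j+1)) : ℕ) : ℤ) ≤ m' ∧ m' < ((max (g j) (g (j+1)) : ℕ) : ℤ)))

end Pool.Agent.MV68
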