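import Pool.Agent.MV68.StackDefs

/-!
# A potential on the stacks of open faces

`pot h w` bounds the weighted number of ways to close all the faces of `w` when the next six signs
are given by the bits of `h`. It is `tb[h][c] / 100000` for the three innermost faces, times `5/4`
(sign `+` not yet met) or `3/4` (met) for every other face.
-/

namespace Pool.Agent.MV68

/-- The table of the potential. -/
def tb : List (List ℕ) := [
  [100000, 26942, 82899, 33678, 41761, 20207, 69590, 42097, 52201, 25258, 48563, 25258, 31320, 15155, 91266],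
  [100000, 30068, 104847, 37585, 86685, 22551, 55467, 46981, 73775, 28188, 69334, 28188, 100180, 16913, 41600],
  [100000, 30068, 84774, 37585, 46605, 22551, 85892, 46981, 58256, 28188, 108840, 28188, 34954, 16913, 47427],
  [100000, 57628, 93612, 53118, 107065, 62051, 25164, 66397, 135159, 77564, 31455, 39838, 65006, 46538, 18873],
  [100000, 30068, 84774, 37585, 46605, 22551, 72496, 46981, 58256, 28188, 54197, 28188, 34954, 16913, 71661],
  [100000, 33555, 114985, 41944, 122271, 25167, 28485, 52430, 120058, 31458, 35606, 31458, 107263, 18875, 21364],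
  [100000, 42494, 109502, 53118, 96369, 31871, 94209, 66397, 109320, 39838, 113203, 39838, 82864, 23903, 40597],
  [100000, 64352, 75173, 82246, 75115, 39043, 11335, 102807, 89056, 48803, 14169, 61684, 29282, 29282, 8501],
  [100000, 30068, 84774, 37585, 46605, 22551, 72496, 46981, 58256, 28188, 54197, 28188, 34954, 16913, 82246],
  [100000, 33555, 106940, 41944, 92091, 25167, 48666, 52430, 82333, 31458, 60833, 31458, 94155, 18875, 36500],
  [100000, 33555, 86867, 41944, 52011, 25167, 95698, 52430, 65014, 31458, 125721, 31458, 39008, 18875, 30640],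
  [100000, 79954, 77444, 82322, 94268, 72121, 13038, 102903, 123324, 90152, 16297, 61742, 33681, 54091, 9778],
  [100000, 47511, 95240, 59389, 73642, 35633, 97382, 74236, 92052, 44541, 108019, 44541, 55231, 26725, 79790],
  [100000, 67268, 117439, 78460, 139583, 54873, 24981, 98076, 162141, 68592, 31226, 58845, 110765, 41155, 18735],
  [100000, 56467, 92788, 70584, 75512, 42350, 69707, 88230, 95596, 52938, 74553, 52938, 50481, 31763, 22220],
  [100000, 45114, 66868, 54109, 53659, 17587, 5106, 67636, 55751, 21983, 6382, 40582, 13190, 13190, 3829],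
  [100000, 34070, 87175, 42587, 52808, 25552, 76218, 53234, 66010, 31940, 61411, 31940, 39606, 19164, 93013],
  [100000, 38022, 109620, 47527, 99014, 28516, 55022, 59409, 93291, 35645, 68778, 35645, 106525, 21387, 41267],
  [100000, 38022, 89546, 47527, 58934, 28516, 94680, 59409, 73667, 35645, 122678, 35645, 44200, 21387, 48192],
  [100000, 69739, 91884, 71213, 109593, 68371, 23868, 89016, 140886, 85464, 29835, 53410, 61659, 51278, 17901],
  [100000, 40739, 91177, 50924, 63145, 30554, 83812, 63654, 78931, 38193, 77025, 38193, 47359, 22916, 88223],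
  [100000, 47578, 123747, 58787, 142714, 36524, 19575, 73484, 153427, 45655, 24469, 44090, 129863, 27393, 14681],
  [100000, 65121, 118782, 81401, 122844, 48840, 88088, 101751, 146447, 61051, 114122, 61051, 100845, 36630, 36006],
  [100000, 56617, 67891, 74068, 56301, 20229, 5873, 92586, 71490, 25286, 7341, 55551, 15172, 15172, 4405],
  [100000, 46417, 94583, 58021, 71946, 34813, 87701, 72526, 89933, 43516, 83666, 43516, 53960, 26110, 86189],
  [100000, 51801, 122350, 64752, 132376, 38851, 47922, 80939, 142106, 48564, 59902, 48564, 117654, 29138, 35941],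
  [100000, 58696, 107152, 73370, 99759, 44022, 105835, 91713, 121851, 55028, 132886, 55028, 78311, 33017, 37268],
  [100000, 84013, 75063, 99960, 89288, 66526, 11252, 124950, 112143, 83157, 14066, 74970, 29069, 49894, 8439],
  [100000, 47103, 94995, 58879, 73010, 35327, 83117, 73598, 91262, 44159, 77531, 44159, 54757, 26495, 62415],
  [100000, 45353, 101926, 57415, 100505, 30319, 13345, 71768, 101902, 37898, 16682, 43061, 75448, 22739, 10009],
  [100000, 36109, 78470, 45136, 44776, 27081, 53425, 56420, 54447, 33852, 46811, 33852, 22739, 20311, 10009],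
  [100000, 32227, 63127, 33484, 43994, 7922, 2300, 41855, 37019, 9902, 2875, 25113, 5941, 5941, 1725],
  [100000, 32298, 86112, 40373, 50063, 24224, 74571, 50466, 62578, 30280, 58218, 30280, 37547, 18168, 92352],
  [100000, 36045, 108434, 45056, 95950, 27034, 55863, 56320, 88441, 33792, 69829, 33792, 103315, 20275, 41898],
  [100000, 36045, 88360, 45056, 55870, 27034, 91451, 56320, 69837, 33792, 115222, 33792, 41902, 20275, 47422],
  [100000, 64298, 93106, 63678, 107146, 64089, 24785, 79597, 136940, 80111, 30981, 47758, 64027, 48067, 18589],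
  [100000, 36045, 88360, 45056, 55870, 27034, 78055, 56320, 69837, 33792, 64971, 33792, 41902, 20275, 81030],
  [100000, 40226, 120776, 50283, 133124, 30170, 28944, 62854, 137067, 37712, 36180, 37712, 120082, 22627, 21708],
  [100000, 56956, 113889, 71195, 112001, 42717, 95537, 88994, 130637, 53396, 118517, 53396, 91364, 32038, 41593],
  [100000, 65822, 74395, 84616, 73104, 37032, 10751, 105770, 90091, 46290, 13439, 63462, 27774, 27774, 8063],
  [100000, 40843, 91239, 51053, 63306, 30632, 82517, 63817, 79133, 38290, 73619, 38290, 47480, 22974, 91612],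
  [100000, 45581, 116240, 56976, 116115, 34185, 52987, 71220, 118569, 42732, 66233, 42732, 113838, 25639, 39740],
  [100000, 48838, 98121, 61047, 79218, 36628, 106039, 76309, 97880, 45785, 139498, 45785, 60813, 27471, 32593],
  [100000, 86587, 73503, 97583, 91053, 77996, 10083, 121979, 122364, 97495, 12603, 73187, 26047, 58497, 7562],
  [100000, 55645, 100120, 69556, 86249, 41733, 103712, 86945, 107811, 52167, 120286, 52167, 64687, 31300, 79260],
  [100000, 73780, 112966, 87956, 139883, 60568, 21625, 109945, 166434, 75710, 27032, 65967, 106240, 45426, 16219],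
  [100000, 49428, 80233, 61785, 54657, 37071, 55430, 77232, 70521, 46339, 50822, 46339, 26155, 27803, 11513],
  [100000, 33814, 63587, 42937, 45184, 9112, 2645, 53671, 39861, 11390, 3307, 32203, 6834, 6834, 1984],
  [100000, 38719, 89965, 48399, 60015, 29040, 80542, 60499, 75019, 36299, 69792, 36299, 45011, 21780, 89757],
  [100000, 43211, 112733, 54014, 107057, 32408, 51765, 67517, 106023, 40510, 64706, 40510, 106708, 24306, 38824],
  [100000, 43211, 92660, 54014, 66977, 32408, 101093, 67517, 83721, 40510, 128992, 40510, 50233, 24306, 46563],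
  [100000, 79505, 88842, 85349, 109460, 70663, 21586, 106686, 139189, 88329, 26983, 64012, 55765, 52997, 16190],
  [100000, 48962, 96111, 61203, 75892, 36722, 93539, 76504, 94865, 45902, 97221, 45902, 56919, 27541, 87468],
  [100000, 59915, 123625, 73183, 144167, 47034, 22383, 91479, 162476, 58792, 27979, 54888, 123708, 35275, 16788],
  [100000, 66707, 111128, 83384, 111558, 50030, 83388, 104229, 136074, 62538, 101490, 62538, 86015, 37523, 32481],
  [100000, 53627, 66818, 67353, 53531, 17459, 5069, 84192, 64442, 21823, 6336, 50515, 13094, 13094, 3802],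
  [100000, 39292, 90308, 49115, 60902, 29469, 81075, 61393, 76128, 36836, 70823, 36836, 45677, 22102, 68796],
  [100000, 43850, 109980, 54812, 103619, 32887, 37486, 68515, 102056, 41109, 46858, 41109, 84905, 24665, 28115],
  [100000, 38315, 86966, 47893, 55556, 28736, 83193, 59867, 69928, 35920, 86100, 35920, 39201, 21552, 20287],
  [100000, 60363, 68075, 61202, 71236, 45314, 6011, 76503, 72942, 56643, 7514, 45902, 15529, 33986, 4509],
  [100000, 30121, 84806, 37651, 46687, 22590, 65920, 47063, 58359, 28238, 46824, 28238, 35015, 16943, 45818],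
  [100000, 26893, 92147, 32701, 75244, 13657, 6011, 40876, 62036, 17071, 7514, 24525, 53173, 10243, 4509],
  [100000, 22345, 72020, 27931, 28115, 16759, 46091, 34914, 30605, 20948, 34315, 20948, 10243, 12569, 4509],
  [100000, 26423, 61441, 22234, 39640, 3568, 1036, 27792, 28581, 4461, 1295, 16675, 2676, 2676, 777]]

def Tt (h c : ℕ) : ℕ := (tb.getD h []).getD c 0

def bt (b : Bool) : ℕ := if b then 1 else 0

/-- Number of a list. -/
def cid : List Bool → ℕ
  | [] => 0
  | b :: t => 2 * cid t + 1 + bt b

/-- `4` times the weight of a deep face. -/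
def w4 (b : Bool) : ℕ := if b then 3 else 5

/-- `6` times the growth factor. -/
def ro (b : Bool) : ℕ := if b then 10 else 9

/-- Contribution of closing the innermost face. -/
def PPt (h : ℕ) (s : Bool) (v : List Bool) : ℕ :=
  match popS s v with
  | none => 0
  | some v' => Tt h (cid v')

def ck0 (h h' : ℕ) (s : Bool) : Bool :=
  decide (6 * Tt h' (cid [s]) ≤ ro s * Tt h 0 ∧ Tt h 0 = 100000)

def ck1 (h h' : ℕ) (s x : Bool) : Bool :=
  decide (6 * Tt h' (cid [s, x]) + 6 * PPt h' s [x] ≤ ro s * Tt h (cid [x]))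

def ck2 (h h' : ℕ) (s x y : Bool) : Bool :=
  decide (6 * Tt h' (cid [s, x, y]) + 6 * PPt h' s [x, y] ≤ ro s * Tt h (cid [x, y]))

def ck3 (h h' : ℕ) (s x y z : Bool) : Bool :=
  decide (6 * (Tt h' (cid [s, x, y]) * w4 z) + 24 * PPt h' s [x, y, z] ≤
    4 * (ro s * Tt h (cid [x, y, z])))

def ck4 (h h' : ℕ) (s x y z t : Bool) : Bool :=
  decide (6 * (Tt h' (cid [s, x, y]) * w4 z * w4 t) + 96 * PPt h' s [x, y, z, t] ≤
    4 * (ro s * Tt h (cid [x, y, z]) * w4 t))

def bools : List Bool := [true, false]

/-- All the inequalities for the look-ahead `a` (five signs), the next sign `s` and the new sign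
`e`. -/
def ckh (a : ℕ) (s e : Bool) : Bool :=
  let h := 2 * a + bt s
  let h' := a + 32 * bt e
  ck0 h h' s && bools.all fun x => ck1 h h' s x && bools.all fun y => ck2 h h' s x y &&
    bools.all fun z => ck3 h h' s x y z && bools.all fun t => ck4 h h' s x y z t

def ckall : Bool := (List.range 32).all fun a => bools.all fun s => bools.all fun e => ckh a s e

theorem ckall_true : ckall = true := by decide +kernel

theorem mem_bools (b : Bool) : b ∈ bools := by cases b <;> decide

theorem ckh_true {a : ℕ} (ha : a < 32) (s e : Bool) : ckh a s e = true := by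
  have h := ckall_true
  unfold ckall at h
  rw [List.all_eq_true] at h
  have h1 := h a (List.mem_range.2 ha)
  rw [List.all_eq_true] at h1
  have h2 := h1 s (mem_bools s)
  rw [List.all_eq_true] at h2
  exact h2 e (mem_bools e)

theorem cks {a : ℕ} (ha : a < 32) (s e : Bool) :
    ck0 (2 * a + bt s) (a + 32 * bt e) s = true ∧
    (∀ x, ck1 (2 * a + bt s) (a + 32 * bt e) s x = true) ∧
    (∀ x y, ck2 (2 * a + bt s) (a + 32 * bt e) s x y = true) ∧
    (∀ x y z, ck3 (2 * a + bt s) (a + 32 * bt e) s x y z = true) ∧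
    (∀ x y z t, ck4 (2 * a + bt s) (a + 32 * bt e) s x y z t = true) := by
  have h := ckh_true ha s e
  unfold ckh at h
  simp only [Bool.and_eq_true, List.all_eq_true] at h
  obtain ⟨h0, h1⟩ := h
  have k1 := fun x => h1 x (mem_bools x)
  have k2 := fun x y => (k1 x).2 y (mem_bools y)
  have k3 := fun x y z => (k2 x y).2 z (mem_bools z)
  have k4 := fun x y z t => (k3 x y z).2 t (mem_bools t)
  exact ⟨h0, fun x => (k1 x).1, fun x y => (k2 x y).1, fun x y z => (k3 x y z).1, k4⟩

/-- Weight of a deep face. -/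
def wt (b : Bool) : ℚ := if b then 3/4 else 5/4

theorem wt_w4 (b : Bool) : (w4 b : ℚ) = 4 * wt b := by
  cases b <;> simp [w4, wt] <;> norm_num

theorem wt_pos (b : Bool) : 0 < wt b := by
  cases b <;> simp [wt] <;> norm_num

theorem rr_ro (b : Bool) : (ro b : ℚ) = 6 * rr b := by
  cases b <;> simp [ro, rr] <;> norm_num

theorem rr_pos (b : Bool) : 0 < rr b := by
  cases b <;> simp [rr] <;> norm_num

/-- The potential. -/
def pot (h : ℕ) : List Bool → ℚ
  | [] => (Tt h 0 : ℚ) / 100000
  | [x] => (Tt h (cid [x]) : ℚ) / 100000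
  | [x, y] => (Tt h (cid [x, y]) : ℚ) / 100000
  | x :: y :: z :: r => (Tt h (cid [x, y, z]) : ℚ) / 100000 * (r.map wt).prod

/-- The contribution of closing the innermost face to the potential. -/
def ppot (h : ℕ) (s : Bool) (w : List Bool) : ℚ :=
  match popS s w with
  | none => 0
  | some w' => pot h w'

theorem prod_wt_pos (r : List Bool) : 0 < (r.map wt).prod := by
  induction r with
  | nil => simp
  | cons x r ih =>
    rw [List.map_cons, List.prod_cons]
    exact mul_pos (wt_pos x) ih

theorem pot_nonneg (h : ℕ) (w : List Bool) : 0 ≤ pot h w := by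
  match w with
  | [] => unfold pot; positivity
  | [x] => unfold pot; positivity
  | [x, y] => unfold pot; positivity
  | x :: y :: z :: r =>
    unfold pot
    have := prod_wt_pos r
    positivity

/-- Closing the innermost face of a long stack. -/
theorem ppot_long (h : ℕ) (s x y z t : Bool) (r : List Bool) :
    ppot h s (x :: y :: z :: t :: r) = (PPt h s [x, y, z, t] : ℚ) / 100000 * (r.map wt).prod := by
  unfold ppot PPt
  cases x <;> cases s <;> cases y <;> simp [popS, popr, pot]

theorem ppot_three (h : ℕ) (s x y z : Bool) :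
    ppot h s [x, y, z] = (PPt h s [x, y, z] : ℚ) / 100000 := by
  unfold ppot PPt
  cases x <;> cases s <;> cases y <;> simp [popS, popr, pot]

theorem ppot_two (h : ℕ) (s x y : Bool) :
    ppot h s [x, y] = (PPt h s [x, y] : ℚ) / 100000 := by
  unfold ppot PPt
  cases x <;> cases s <;> cases y <;> simp [popS, popr, pot]

theorem ppot_one (h : ℕ) (s x : Bool) :
    ppot h s [x] = (PPt h s [x] : ℚ) / 100000 := by
  unfold ppot PPt
  cases x <;> cases s <;> simp [popS, popr, pot, cid]

theorem ppot_zero (h : ℕ) (s : Bool) : ppot h s [] = 0 := rfl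

theorem pot_step {a : ℕ} (ha : a < 32) (s e : Bool) (w : List Bool) :
    pot (a + 32 * bt e) (s :: w) + ppot (a + 32 * bt e) s w ≤ rr s * pot (2 * a + bt s) w := by
  obtain ⟨c0, c1, c2, c3, c4⟩ := cks ha s e
  generalize hh' : a + 32 * bt e = h' at *
  generalize hh : 2 * a + bt s = h at *
  match w with
  | [] =>
    have k := of_decide_eq_true c0
    have k1 : (6 * (Tt h' (cid [s])) : ℚ) ≤ ro s * Tt h 0 := by exact_mod_cast k.1
    rw [ppot_zero, rr_ro] at *
    show (Tt h' (cid [s]) : ℚ) / 100000 + 0 ≤ rr s * ((Tt h 0 : ℚ) / 100000)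
    linarith
  | [x] =>
    have k := of_decide_eq_true (c1 x)
    have k1 : (6 * (Tt h' (cid [s, x])) + 6 * PPt h' s [x] : ℚ) ≤ ro s * Tt h (cid [x]) := by
      exact_mod_cast k
    rw [rr_ro] at k1
    rw [ppot_one]
    show (Tt h' (cid [s, x]) : ℚ) / 100000 + _ ≤ rr s * ((Tt h (cid [x]) : ℚ) / 100000)
    linarith
  | [x, y] =>
    have k := of_decide_eq_true (c2 x y)
    have k1 : (6 * (Tt h' (cid [s, x, y])) + 6 * PPt h' s [x, y] : ℚ) ≤
        ro s * Tt h (cid [x, y]) := by exact_mod_cast k
    rw [rr_ro] at k1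
    rw [ppot_two]
    show (Tt h' (cid [s, x, y]) : ℚ) / 100000 * (([] : List Bool).map wt).prod + _ ≤
      rr s * ((Tt h (cid [x, y]) : ℚ) / 100000)
    simp only [List.map_nil, List.prod_nil]
    linarith
  | [x, y, z] =>
    have k := of_decide_eq_true (c3 x y z)
    have k1 : (6 * ((Tt h' (cid [s, x, y])) * w4 z) + 24 * PPt h' s [x, y, z] : ℚ) ≤
        4 * (ro s * Tt h (cid [x, y, z])) := by exact_mod_cast k
    rw [rr_ro, wt_w4] at k1
    rw [ppot_three]
    show (Tt h' (cid [s, x, y]) : ℚ) / 100000 * (([z] : List Bool).map wt).prod + _ ≤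
      rr s * ((Tt h (cid [x, y, z]) : ℚ) / 100000 * (([] : List Bool).map wt).prod)
    simp only [List.map_cons, List.map_nil, List.prod_cons, List.prod_nil]
    linarith
  | x :: y :: z :: t :: r =>
    have k := of_decide_eq_true (c4 x y z t)
    have k1 : (6 * ((Tt h' (cid [s, x, y])) * w4 z * w4 t) + 96 * PPt h' s [x, y, z, t] : ℚ) ≤
        4 * (ro s * Tt h (cid [x, y, z]) * w4 t) := by exact_mod_cast k
    rw [rr_ro, wt_w4, wt_w4] at k1
    rw [ppot_long]
    show (Tt h' (cid [s, x, y]) : ℚ) / 100000 * ((z :: t :: r).map wt).prod + _ ≤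
      rr s * ((Tt h (cid [x, y, z]) : ℚ) / 100000 * ((t :: r).map wt).prod)
    simp only [List.map_cons, List.prod_cons]
    have hr := prod_wt_pos r
    have k2 : (Tt h' (cid [s, x, y]) : ℚ) / 100000 * (wt z * wt t) +
        (PPt h' s [x, y, z, t] : ℚ) / 100000 ≤
        rr s * ((Tt h (cid [x, y, z]) : ℚ) / 100000 * wt t) := by linarith
    calc (Tt h' (cid [s, x, y]) : ℚ) / 100000 * (wt z * (wt t * (r.map wt).prod)) +
          (PPt h' s [x, y, z, t] : ℚ) / 100000 * (r.map wt).prod
        = ((Tt h' (cid [s, x, y]) : ℚ) / 100000 * (wt z * wt t) +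
            (PPt h' s [x, y, z, t] : ℚ) / 100000) * (r.map wt).prod := by ring
      _ ≤ (rr s * ((Tt h (cid [x, y, z]) : ℚ) / 100000 * wt t)) * (r.map wt).prod :=
          mul_le_mul_of_nonneg_right k2 hr.le
      _ = rr s * ((Tt h (cid [x, y, z]) : ℚ) / 100000 * (wt t * (r.map wt).prod)) := by ring

/-- The next five signs after the position `z`. -/
def hc5 (σ : ℕ → Bool) (z : ℕ) : ℕ :=
  bt (σ (z+1)) + 2 * bt (σ (z+2)) + 4 * bt (σ (z+3)) + 8 * bt (σ (z+4)) + 16 * bt (σ (z+5))

theorem hc5_lt (σ : ℕ → Bool) (z : ℕ) : hc5 σ z < 32 := by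
  unfold hc5 bt
  split_ifs <;> omega

theorem hc5_next (σ : ℕ → Bool) (z : ℕ) :
    2 * hc5 σ (z+1) + bt (σ (z+1)) = hc5 σ z + 32 * bt (σ (z+6)) := by
  unfold hc5
  have e1 : z + 1 + 1 = z + 2 := by omega
  have e2 : z + 1 + 2 = z + 3 := by omega
  have e3 : z + 1 + 3 = z + 4 := by omega
  have e4 : z + 1 + 4 = z + 5 := by omega
  have e5 : z + 1 + 5 = z + 6 := by omega
  rw [e1, e2, e3, e4, e5]
  ring

theorem Dn_pot (σ : ℕ → Bool) : ∀ (t z : ℕ) (w : List Bool),
    (Dn σ t z w : ℚ) ≤ (∏ i ∈ Finset.range t, rr (σ (z+i))) * pot (2 * hc5 σ z + bt (σ z)) w := by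
  intro t
  induction t with
  | zero =>
    intro z w
    rw [Finset.prod_range_zero, one_mul]
    by_cases hw : w = []
    · subst hw
      have k := of_decide_eq_true (cks (hc5_lt σ z) (σ z) true).1
      have e : (Tt (2 * hc5 σ z + bt (σ z)) 0 : ℚ) = 100000 := by exact_mod_cast k.2
      show ((if ([] : List Bool) = [] then 1 else 0 : ℕ) : ℚ) ≤
        (Tt (2 * hc5 σ z + bt (σ z)) 0 : ℚ) / 100000
      rw [e]
      norm_num
    · have : Dn σ 0 z w = 0 := by
        unfold Dn
        rw [if_neg hw]
      rw [this]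
      exact_mod_cast pot_nonneg _ _
  | succ t ih =>
    intro z w
    rw [Finset.prod_range_succ']
    have hP : (0:ℚ) ≤ ∏ i ∈ Finset.range t, rr (σ (z+1+i)) :=
      Finset.prod_nonneg (fun i _ => (rr_pos _).le)
    have e : ∏ i ∈ Finset.range t, rr (σ (z+(i+1))) = ∏ i ∈ Finset.range t, rr (σ (z+1+i)) := by
      apply Finset.prod_congr rfl
      intro i _
      have : z + (i+1) = z + 1 + i := by omega
      rw [this]
    rw [e]
    have h1 := ih (z+1) (σ z :: w)
    have h2 : ((match popS (σ z) w with
        | none => 0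
        | some w' => Dn σ t (z+1) w' : ℕ) : ℚ) ≤ (∏ i ∈ Finset.range t, rr (σ (z+1+i))) *
          ppot (2 * hc5 σ (z+1) + bt (σ (z+1))) (σ z) w := by
      unfold ppot
      cases hp : popS (σ z) w with
      | none => simp
      | some w' => exact ih (z+1) w'
    have h3 := pot_step (hc5_lt σ z) (σ z) (σ (z+6)) w
    rw [← hc5_next] at h3
    have h4 : (Dn σ (t+1) z w : ℚ) = (Dn σ t (z+1) (σ z :: w) : ℚ) + ((match popS (σ z) w with
        | none => 0
        | some w' => Dn σ t (z+1) w' : ℕ) : ℚ) := by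
      rw [← Nat.cast_add]
      rfl
    rw [h4]
    calc (Dn σ t (z+1) (σ z :: w) : ℚ) + ((match popS (σ z) w with
          | none => 0
          | some w' => Dn σ t (z+1) w' : ℕ) : ℚ)
        ≤ (∏ i ∈ Finset.range t, rr (σ (z+1+i))) *
            (pot (2 * hc5 σ (z+1) + bt (σ (z+1))) (σ z :: w) +
              ppot (2 * hc5 σ (z+1) + bt (σ (z+1))) (σ z) w) := by
          rw [mul_add]; exact add_le_add h1 h2
      _ ≤ (∏ i ∈ Finset.range t, rr (σ (z+1+i))) * (rr (σ z) * pot (2 * hc5 σ z + bt (σ z)) w) :=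
          mul_le_mul_of_nonneg_left h3 hP
      _ = (∏ i ∈ Finset.range t, rr (σ (z+1+i))) * rr (σ (z+0)) *
            pot (2 * hc5 σ z + bt (σ z)) w := by
          rw [add_zero]; ring

theorem Dn_bound (σ : ℕ → Bool) (t z : ℕ) :
    (Dn σ t z [] : ℚ) ≤ ∏ i ∈ Finset.range t, rr (σ (z+i)) := by
  have h := Dn_pot σ t z []
  have k := of_decide_eq_true (cks (hc5_lt σ z) (σ z) true).1
  have e : (Tt (2 * hc5 σ z + bt (σ z)) 0 : ℚ) = 100000 := by exact_mod_cast k.2
  have e2 : pot (2 * hc5 σ z + bt (σ z)) [] = 1 := by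
    show (Tt (2 * hc5 σ z + bt (σ z)) 0 : ℚ) / 100000 = 1
    rw [e]; norm_num
  rw [e2, mul_one] at h
  exact h

end Pool.Agent.MV68
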