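import Pool.Agent.MV68.KSDefs

namespace Pool.Agent.MV68

open Pool.Agent.Results.MP_15ecc6_co.DoubleCatalan

theorem old_U {L n p : ℕ} (hp : p ≤ n) (hL : n + 1 ≤ L) : Up L p < n + 1 ∨ 2 * L - n < Up L p := by
  unfold Up; split_ifs <;> omega

theorem old_L {L n p : ℕ} (hp : p ≤ n) (hL : n + 1 ≤ L) : Lo L p < n + 1 ∨ 2 * L - n < Lo L p := by
  unfold Lo; split_ifs <;> omega

theorem tip_c {L n : ℕ} (hL : n + 1 ≤ L) :
    (Lo L (n+1) = n + 1 ∧ Up L (n+1) = 2 * L - n) ∨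
      (Lo L (n+1) = 2 * L - n ∧ Up L (n+1) = n + 1) := by
  unfold Up Lo; split_ifs <;> omega

theorem tip_lab (δ : ℕ → Prop) {L n : ℕ} (hL : n + 1 ≤ L) :
    (Lo L (n+1) = n + 1 ∧ Up L (n+1) = 2 * L - n ∧ labL δ (n+1) = labU δ (n+1) + 1) ∨
      (Lo L (n+1) = 2 * L - n ∧ Up L (n+1) = n + 1 ∧ labU δ (n+1) = labL δ (n+1) + 1) := by
  unfold Up Lo labU labL; split_ifs <;> simp <;> omega

theorem Rl_congr {x x' u l : ℕ} {a b : ℤ} (e : Btw u l x ↔ Btw u l x') (h : Rl x' u l a b) :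
    Rl x u l a b := by
  unfold Btw at e
  unfold Rl at *
  obtain ⟨h1, h2⟩ := h
  refine ⟨fun hul => ?_, fun hul => ?_⟩
  · obtain ⟨k1, k2⟩ := h1 hul
    refine ⟨fun h => k1 (by omega), fun h => k2 (by omega)⟩
  · obtain ⟨k1, k2⟩ := h2 hul
    refine ⟨fun h => k1 (by omega), fun h => k2 (by omega)⟩

theorem KS.remove_mid {L n : ℕ} {δ : ℕ → Prop} {K : ℕ → ℕ → Prop} {top bot : ℕ}
    (hK : KS L (n+1) δ K top bot) (hL : n + 1 ≤ L) (h1 : top ≠ n + 1) (h2 : bot ≠ n + 1) :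
    KS L n δ (Kr n K) top bot := by
  have htip := hK.tip hL
  have htopn := hK.topn
  have hbotn := hK.botn
  have htopn' : top ≤ n := by omega
  have hbotn' : bot ≤ n := by omega
  have hlh : n + 1 < 2 * L - n := by omega
  obtain ⟨pd, hpd⟩ := hK.sur (n+1) le_rfl (Ne.symm h2)
  obtain ⟨qu, hqu⟩ := hK.tot (n+1) le_rfl (Ne.symm h1)
  have hold : ∀ p q, K p q → q ≠ n + 1 → p ≠ n + 1 → p ≤ n ∧ q ≤ n := by
    intro p q h hq hp
    have := hK.dom p q h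
    omega
  have hpdn : pd ≤ n := by
    have := (hK.dom _ _ hpd).1
    have : pd ≠ n + 1 := fun h => htip (h ▸ hpd)
    omega
  have hqun : qu ≤ n := by
    have := (hK.dom _ _ hqu).2
    have : qu ≠ n + 1 := fun h => htip (h ▸ hqu)
    omega
  refine ⟨?_, ?_, ?_, ?_, ?_, by omega, by omega, ?_, ?_, ?_, ?_, ?_⟩
  · rintro p q (⟨_, h, h'⟩ | ⟨h, h'⟩)
    · exact ⟨h, h'⟩
    · rw [hK.inj _ _ _ h hpd, hK.fn _ _ _ h' hqu]
      exact ⟨hpdn, hqun⟩
  · rintro p q q' (⟨h, hp, hq⟩ | ⟨h, h'⟩) (⟨k, kp, kq⟩ | ⟨k, k'⟩)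
    · exact hK.fn _ _ _ h k
    · have := hK.fn _ _ _ h k; omega
    · have := hK.fn _ _ _ h k; omega
    · exact hK.fn _ _ _ h' k'
  · rintro p p' q (⟨h, hp, hq⟩ | ⟨h, h'⟩) (⟨k, kp, kq⟩ | ⟨k, k'⟩)
    · exact hK.inj _ _ _ h k
    · have := hK.inj _ _ _ h k'; omega
    · have := hK.inj _ _ _ k h'; omega
    · exact hK.inj _ _ _ h k
  · intro p hp hpt
    obtain ⟨q, hq⟩ := hK.tot p (by omega) hpt
    by_cases hqn : q = n + 1
    · subst hqn
      exact ⟨qu, Or.inr ⟨hq, hqu⟩⟩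
    · have := (hK.dom _ _ hq).2
      exact ⟨q, Or.inl ⟨hq, hp, by omega⟩⟩
  · intro q hq hqt
    obtain ⟨p, hp⟩ := hK.sur q (by omega) hqt
    by_cases hpn : p = n + 1
    · subst hpn
      exact ⟨pd, Or.inr ⟨hpd, hp⟩⟩
    · have := (hK.dom _ _ hp).1
      exact ⟨p, Or.inl ⟨hp, by omega, hq⟩⟩
  · rintro q (⟨h, _, _⟩ | ⟨h, _⟩) <;> exact hK.ntop _ h
  · rintro p (⟨h, _, _⟩ | ⟨_, h⟩) <;> exact hK.nbot _ h
  · rintro p q r t (⟨h, hp, hq⟩ | ⟨h, h'⟩) (⟨k, kr, kt⟩ | ⟨k, k'⟩) hne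
    · exact hK.nc _ _ _ _ h k hne
    · have a1 := hK.nc _ _ _ _ h k hne
      have a2 := hK.nc _ _ _ _ h k' (by omega)
      exact a1.trans ((btw_adj (old_U hp hL) (old_L hq hL) hlh (tip_c hL)).trans a2)
    · have hpn := (hK.inj _ _ _ h hpd) ▸ hpdn
      have hqn := (hK.fn _ _ _ h' hqu) ▸ hqun
      have a1 := hK.nc _ _ _ _ h k hne
      have a2 := hK.nc _ _ _ _ h' k (by omega)
      have d1 : Up L r ≠ Up L p := fun hh => hne (UpL_inj (by omega) (by omega) hh).symm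
      have d2 : Lo L t ≠ Lo L q := fun hh => by
        have := LoL_inj (by omega) (by omega) hh
        subst this
        have := hK.inj _ _ _ h' k
        omega
      have d3 := UpL_ne_Lo (L := L) (p := r) (q := q) (by omega) (by omega)
      have d4 := UpL_ne_Lo (L := L) (p := p) (q := t) (by omega) (by omega)
      rw [btw_xor (old_U hpn hL) (old_L hqn hL) (old_U kr hL) d1 d3 hlh (tip_c hL),
        btw_xor (old_U hpn hL) (old_L hqn hL) (old_L kt hL) (Ne.symm d4) d2 hlh (tip_c hL), a1, a2]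
    · exact absurd (hK.inj _ _ _ h k) hne
  · rintro p q (⟨h, hp, hq⟩ | ⟨h, h'⟩)
    · exact hK.inf _ _ h
    · have hpn := (hK.inj _ _ _ h hpd) ▸ hpdn
      have hqn := (hK.fn _ _ _ h' hqu) ▸ hqun
      have a1 := hK.inf _ _ h
      have a2 := hK.inf _ _ h'
      have d1 : Up L top ≠ Up L p := fun hh => by
        have := UpL_inj (by omega) (by omega) hh
        subst this
        exact hK.ntop _ h
      have d2 : Lo L bot ≠ Lo L q := fun hh => by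
        have := LoL_inj (by omega) (by omega) hh
        subst this
        exact hK.nbot _ h'
      have d3 := UpL_ne_Lo (L := L) (p := top) (q := q) (by omega) (by omega)
      have d4 := UpL_ne_Lo (L := L) (p := p) (q := bot) (by omega) (by omega)
      rw [btw_xor (old_U hpn hL) (old_L hqn hL) (old_U htopn' hL) d1 d3 hlh (tip_c hL),
        btw_xor (old_U hpn hL) (old_L hqn hL) (old_L hbotn' hL) (Ne.symm d4) d2 hlh (tip_c hL),
        a1, a2]
  · rintro p q (⟨h, hp, hq⟩ | ⟨h, h'⟩)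
    · exact hK.lab _ _ h
    · have hpn := (hK.inj _ _ _ h hpd) ▸ hpdn
      have hqn := (hK.fn _ _ _ h' hqu) ▸ hqun
      have a1 := hK.lab _ _ h
      have a2 := hK.lab _ _ h'
      have a3 := hK.nc _ _ _ _ h h' (by omega)
      have d1 : Up L top ≠ Up L p := fun hh => by
        have := UpL_inj (by omega) (by omega) hh
        subst this
        exact hK.ntop _ h
      have d3 := UpL_ne_Lo (L := L) (p := top) (q := q) (by omega) (by omega)
      have d4 := UpL_ne_Lo (L := L) (p := p) (q := q) (by omega) (by omega)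
      exact lab_mid (old_U hpn hL) (old_L hqn hL) (old_U htopn' hL) d1 d3 d4 hlh (tip_lab δ hL)
        a1 a2 a3

theorem KS.remove_top {L n : ℕ} {δ : ℕ → Prop} {K : ℕ → ℕ → Prop} {top bot : ℕ}
    (hK : KS L (n+1) δ K top bot) (hL : n + 1 ≤ L) (h1 : top = n + 1) (h2 : bot ≠ n + 1) {pd : ℕ}
    (hpd : K pd (n+1)) : KS L n δ (Kr n K) pd bot := by
  subst h1
  have htip := hK.tip hL
  have hbotn := hK.botn
  have hlh : n + 1 < 2 * L - n := by omega
  have hpdn : pd ≤ n := by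
    have := (hK.dom _ _ hpd).1
    have : pd ≠ n + 1 := fun h => htip (h ▸ hpd)
    omega
  refine ⟨?_, ?_, ?_, ?_, ?_, by omega, by omega, ?_, ?_, ?_, ?_, ?_⟩
  · rintro p q (⟨_, h, h'⟩ | ⟨h, h'⟩)
    · exact ⟨h, h'⟩
    · exact absurd h' (hK.ntop _)
  · rintro p q q' (⟨h, hp, hq⟩ | ⟨h, h'⟩) (⟨k, kp, kq⟩ | ⟨k, k'⟩)
    · exact hK.fn _ _ _ h k
    · exact absurd k' (hK.ntop _)
    · exact absurd h' (hK.ntop _)
    · exact absurd h' (hK.ntop _)
  · rintro p p' q (⟨h, hp, hq⟩ | ⟨h, h'⟩) (⟨k, kp, kq⟩ | ⟨k, k'⟩)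
    · exact hK.inj _ _ _ h k
    · exact absurd k' (hK.ntop _)
    · exact absurd h' (hK.ntop _)
    · exact absurd h' (hK.ntop _)
  · intro p hp hpt
    obtain ⟨q, hq⟩ := hK.tot p (by omega) (by omega)
    have hqn : q ≠ n + 1 := by
      rintro rfl
      exact hpt (hK.inj _ _ _ hq hpd)
    have := (hK.dom _ _ hq).2
    exact ⟨q, Or.inl ⟨hq, hp, by omega⟩⟩
  · intro q hq hqt
    obtain ⟨p, hp⟩ := hK.sur q (by omega) hqt
    have hpn : p ≠ n + 1 := by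
      rintro rfl
      exact hK.ntop _ hp
    have := (hK.dom _ _ hp).1
    exact ⟨p, Or.inl ⟨hp, by omega, hq⟩⟩
  · rintro q (⟨h, _, hq⟩ | ⟨_, h⟩)
    · have := hK.fn _ _ _ h hpd
      omega
    · exact hK.ntop _ h
  · rintro p (⟨h, _, _⟩ | ⟨_, h⟩) <;> exact hK.nbot _ h
  · rintro p q r t (⟨h, hp, hq⟩ | ⟨h, h'⟩) (⟨k, kr, kt⟩ | ⟨k, k'⟩) hne
    · exact hK.nc _ _ _ _ h k hne
    · exact absurd k' (hK.ntop _)
    · exact absurd h' (hK.ntop _)
    · exact absurd h' (hK.ntop _)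
  · rintro p q (⟨h, hp, hq⟩ | ⟨h, h'⟩)
    · have hne : p ≠ pd := by
        rintro rfl
        have := hK.fn _ _ _ h hpd
        omega
      have a1 := hK.inf _ _ h
      have a2 := hK.nc _ _ _ _ h hpd hne
      exact a2.trans ((btw_adj (old_U hp hL) (old_L hq hL) hlh (tip_c hL)).trans a1)
    · exact absurd h' (hK.ntop _)
  · rintro p q (⟨h, hp, hq⟩ | ⟨h, h'⟩)
    · have hne : p ≠ pd := by
        rintro rfl
        have := hK.fn _ _ _ h hpd
        omega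
      have a1 := hK.lab _ _ h
      have a2 := hK.nc _ _ _ _ h hpd hne
      have e := a2.trans (btw_adj (old_U hp hL) (old_L hq hL) hlh (tip_c hL))
      exact Rl_congr e a1
    · exact absurd h' (hK.ntop _)

theorem KS.remove_bot {L n : ℕ} {δ : ℕ → Prop} {K : ℕ → ℕ → Prop} {top bot : ℕ}
    (hK : KS L (n+1) δ K top bot) (hL : n + 1 ≤ L) (h1 : top ≠ n + 1) (h2 : bot = n + 1) {qu : ℕ}
    (hqu : K (n+1) qu) : KS L n δ (Kr n K) top qu := by
  subst h2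
  have htip := hK.tip hL
  have htopn := hK.topn
  have hlh : n + 1 < 2 * L - n := by omega
  have hqun : qu ≤ n := by
    have := (hK.dom _ _ hqu).2
    have : qu ≠ n + 1 := fun h => htip (h ▸ hqu)
    omega
  refine ⟨?_, ?_, ?_, ?_, ?_, by omega, by omega, ?_, ?_, ?_, ?_, ?_⟩
  · rintro p q (⟨_, h, h'⟩ | ⟨h, h'⟩)
    · exact ⟨h, h'⟩
    · exact absurd h (hK.nbot _)
  · rintro p q q' (⟨h, hp, hq⟩ | ⟨h, h'⟩) (⟨k, kp, kq⟩ | ⟨k, k'⟩)
    · exact hK.fn _ _ _ h k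
    · exact absurd k (hK.nbot _)
    · exact absurd h (hK.nbot _)
    · exact absurd h (hK.nbot _)
  · rintro p p' q (⟨h, hp, hq⟩ | ⟨h, h'⟩) (⟨k, kp, kq⟩ | ⟨k, k'⟩)
    · exact hK.inj _ _ _ h k
    · exact absurd k (hK.nbot _)
    · exact absurd h (hK.nbot _)
    · exact absurd h (hK.nbot _)
  · intro p hp hpt
    obtain ⟨q, hq⟩ := hK.tot p (by omega) hpt
    have hqn : q ≠ n + 1 := by
      rintro rfl
      exact hK.nbot _ hq
    have := (hK.dom _ _ hq).2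
    exact ⟨q, Or.inl ⟨hq, hp, by omega⟩⟩
  · intro q hq hqt
    obtain ⟨p, hp⟩ := hK.sur q (by omega) (by omega)
    have hpn : p ≠ n + 1 := by
      rintro rfl
      exact hqt (hK.fn _ _ _ hp hqu)
    have := (hK.dom _ _ hp).1
    exact ⟨p, Or.inl ⟨hp, by omega, hq⟩⟩
  · rintro q (⟨h, _, _⟩ | ⟨h, _⟩) <;> exact hK.ntop _ h
  · rintro p (⟨h, hp, _⟩ | ⟨h, _⟩)
    · have := hK.inj _ _ _ h hqu
      omega
    · exact hK.nbot _ h
  · rintro p q r t (⟨h, hp, hq⟩ | ⟨h, h'⟩) (⟨k, kr, kt⟩ | ⟨k, k'⟩) hne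
    · exact hK.nc _ _ _ _ h k hne
    · exact absurd k (hK.nbot _)
    · exact absurd h (hK.nbot _)
    · exact absurd h (hK.nbot _)
  · rintro p q (⟨h, hp, hq⟩ | ⟨h, h'⟩)
    · have a1 := hK.inf _ _ h
      have a2 := hK.nc _ _ _ _ h hqu (by omega)
      exact a1.trans ((btw_adj (old_U hp hL) (old_L hq hL) hlh (tip_c hL)).trans a2)
    · exact absurd h (hK.nbot _)
  · rintro p q (⟨h, hp, hq⟩ | ⟨h, h'⟩)
    · exact hK.lab _ _ h
    · exact absurd h (hK.nbot _)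

end Pool.Agent.MV68
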