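import Pool.Agent.MV68.SpecDefs
import Pool.Agent.MV68.Forward

namespace Pool.Agent.MV68

open Pool.Agent.Results.MP_15ecc6_co.DoubleCatalan

theorem spe_mod {n X z : ℕ} (hX : X ≤ 2*n+1) (hz : z < X + (2*n+2)) :
    (z < 2*n+2 ∧ z % (2*n+2) = z) ∨ (2*n+2 ≤ z ∧ z % (2*n+2) + (2*n+2) = z) := by
  rcases Nat.lt_or_ge z (2*n+2) with h | h
  · exact Or.inl ⟨h, Nat.mod_eq_of_lt h⟩
  · right
    refine ⟨h, ?_⟩
    have h1 : z % (2*n+2) = z - (2*n+2) := by
      rw [Nat.mod_eq_sub_mod h, Nat.mod_eq_of_lt (by omega)]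
    omega

theorem spe_mod2 (n z : ℕ) : z % (2*n+2) % 2 = z % 2 := by
  have h : 2 ∣ 2*n+2 := ⟨n+1, by ring⟩
  exact Nat.mod_mod_of_dvd z h

theorem spe_modlt (n z : ℕ) : z % (2*n+2) ≤ 2*n+1 := by
  have := Nat.mod_lt z (show 0 < 2*n+2 by omega)
  omega

/-- A chord does not separate the two outermost sides, in the window starting at the top. -/
theorem spe_inf {n : ℕ} {δ : ℕ → Prop} {g : ℕ → ℕ} (hs : St n δ g) {top bot : ℕ}
    (htop : top ≤ n) (hbot : bot ≤ n) (hgt : g top = n) (hgb : g bot = 0) {a b y : ℕ}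
    (hxa : Up n top < a) (hay : a < y) (hyb : y < b) (hbx : b < Up n top + (2*n+2))
    (hp : a % 2 ≠ b % 2) (hG : GG n g a = GG n g b) (hy : y % (2*n+2) = Lo n bot) : False := by
  have hX := Up_bd htop
  have ka := spe_mod hX (show a < Up n top + (2*n+2) by omega)
  have kb := spe_mod hX hbx
  have ky := spe_mod hX (show y < Up n top + (2*n+2) by omega)
  have pa := spe_mod2 n a
  have pb := spe_mod2 n b
  have la := spe_modlt n a
  have lb := spe_modlt n b
  rw [hy] at ky
  have hinj := hs.inj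
  have core : ∀ a' b', a' ≤ 2*n+1 → b' ≤ 2*n+1 → a' % 2 = 0 → b' % 2 = 1 →
      gp n g a' = gp n g b' → (Btw a' b' (Up n top) ↔ Btw a' b' (Lo n bot)) := by
    intro a' b' ha hb h0 h1 hg
    have e1 := eq_Up ha h0
    have e2 := eq_Lo hb h1
    unfold gp at hg
    rw [if_pos h0, if_neg (by omega)] at hg
    have := chord_inf hs (seg_le ha) (seg_le hb) htop hbot
      (show g (seg n b') = g (seg n a') + 1 by omega) hgt hgb
    rwa [e1, e2] at this
  unfold GG at hG
  rcases Nat.mod_two_eq_zero_or_one a with h | h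
  · have := core (a % (2*n+2)) (b % (2*n+2)) la lb (by omega) (by omega) hG
    unfold Btw at this
    omega
  · have := core (b % (2*n+2)) (a % (2*n+2)) lb la (by omega) (by omega) hG.symm
    unfold Btw at this
    omega

theorem sp_exists {n : ℕ} {δ : ℕ → Prop} {g : ℕ → ℕ} (hs : St n δ g) :
    ∃ j m f₁ f₂, TS n δ j m f₁ f₂ ∧ SP n g j m f₁ f₂ := by
  obtain ⟨top, htop, hgt⟩ := hs.surj n le_rfl
  obtain ⟨bot, hbot, hgb⟩ := hs.surj 0 (Nat.zero_le _)
  have hc := Cir.of_St hs
  have hF := face_of_St hs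
  have hX := Up_bd htop
  have hXm := Up_mod htop
  have hYb := Lo_bd hbot
  have hYm := Lo_mod hbot
  set X := Up n top with hXdef
  -- the position of the lower side of the bottom segment
  obtain ⟨y, hy1, hy2, hy3⟩ : ∃ y, X < y ∧ y < X + (2*n+2) ∧ y % (2*n+2) = Lo n bot := by
    rcases Nat.lt_or_ge X (Lo n bot) with h | h
    · exact ⟨Lo n bot, h, by omega, Nat.mod_eq_of_lt (by omega)⟩
    · refine ⟨Lo n bot + (2*n+2), by omega, by omega, ?_⟩
      rw [Nat.add_mod_right, Nat.mod_eq_of_lt (by omega)]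
  have hym : y % 2 = 1 := by rw [← spe_mod2 n y, hy3, hYm]
  have GX : GG n g X = n := by
    unfold GG
    rw [Nat.mod_eq_of_lt (by omega), hXdef, gp_Up htop, hgt]
  have GY : GG n g y = -1 := by
    unfold GG
    rw [hy3, gp_Lo hbot, hgb]
    rfl
  have uniq : ∀ z z', X < z → z < X + (2*n+2) → X < z' → z' < X + (2*n+2) → z % 2 = z' % 2 →
      GG n g z = GG n g z' → z = z' := by
    intro z z' h1 h2 h3 h4 h5 h6
    rcases Nat.lt_trichotomy z z' with h | h | h
    · have := hF.inj z z' h5 h6 h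
      omega
    · exact h
    · have := hF.inj z' z h5.symm h6.symm h
      omega
  have range : ∀ z, X < z → z < X + (2*n+2) → z ≠ y → 0 ≤ GG n g z ∧ GG n g z < n := by
    intro z h1 h2 h3
    have hl := seg_le (spe_modlt n z)
    have hle := hc.le _ hl
    rcases Nat.mod_two_eq_zero_or_one z with h | h
    · have e : GG n g z = g (seg n (z % (2*n+2))) := by
        unfold GG gp
        rw [if_pos (by rw [spe_mod2]; exact h)]
      have hne : GG n g z ≠ n := by
        intro hh
        have := hF.inj X z (by omega) (by rw [GX, hh]) h1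
        omega
      omega
    · have e : GG n g z = (g (seg n (z % (2*n+2))) : ℤ) - 1 := by
        unfold GG gp
        rw [if_neg (by rw [spe_mod2]; omega)]
      have hne : GG n g z ≠ -1 := by
        intro hh
        exact h3 (uniq z y h1 h2 hy1 hy2 (by omega) (by rw [GY, hh]))
      omega
  have part : ∀ z, ∃ z', (X < z → z < X + (2*n+2) → z ≠ y →
      (X < z' ∧ z' < X + (2*n+2) ∧ z' % 2 ≠ z % 2 ∧ GG n g z' = GG n g z)) := by
    intro z
    by_cases hz : X < z ∧ z < X + (2*n+2) ∧ z ≠ y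
    · obtain ⟨h1, h2, h3⟩ := hz
      obtain ⟨k1, k2⟩ := range z h1 h2 h3
      obtain ⟨r, hr, hrp, hrg⟩ := gp_partner hc (z := z % (2*n+2)) (spe_modlt n z) k1 k2
      rw [spe_mod2] at hrp
      have hrg' : gp n g r = GG n g z := hrg
      have hrX : r ≠ X := by
        intro hh
        have h5 : GG n g X = gp n g X := by
          unfold GG
          rw [Nat.mod_eq_of_lt (by omega)]
        rw [hh, ← h5, GX] at hrg'
        omega
      rcases Nat.lt_or_ge X r with h | h
      · refine ⟨r, fun _ _ _ => ⟨h, by omega, hrp, ?_⟩⟩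
        unfold GG at hrg' ⊢
        rw [Nat.mod_eq_of_lt (show r < 2*n+2 by omega)]
        exact hrg'
      · refine ⟨r + (2*n+2), fun _ _ _ => ⟨by omega, by omega, by omega, ?_⟩⟩
        unfold GG at hrg' ⊢
        rw [Nat.add_mod_right, Nat.mod_eq_of_lt (show r < 2*n+2 by omega)]
        exact hrg'
    · exact ⟨z, fun h1 h2 h3 => absurd ⟨h1, h2, h3⟩ hz⟩
  choose F hFs using part
  have Fne : ∀ z, X < z → z < X + (2*n+2) → z ≠ y → F z ≠ y := by
    intro z h1 h2 h3 h4
    obtain ⟨_, _, _, k4⟩ := hFs z h1 h2 h3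
    have := (range z h1 h2 h3).1
    rw [h4, GY] at k4
    omega
  have Finv : ∀ z, X < z → z < X + (2*n+2) → z ≠ y → F (F z) = z := by
    intro z h1 h2 h3
    obtain ⟨k1, k2, k3, k4⟩ := hFs z h1 h2 h3
    obtain ⟨l1, l2, l3, l4⟩ := hFs (F z) k1 k2 (Fne z h1 h2 h3)
    exact uniq _ _ l1 l2 h1 h2 (by omega) (l4.trans k4)
  have Flow : ∀ z, X < z → z < y → F z < y := by
    intro z h1 h2
    obtain ⟨k1, k2, k3, k4⟩ := hFs z h1 (by omega) (by omega)
    by_contra hcon
    have hne := Fne z h1 (by omega) (by omega)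
    exact spe_inf hs htop hbot hgt hgb h1 h2 (show y < F z by omega) k2 k3.symm k4.symm hy3
  have Fhigh : ∀ z, y < z → z < X + (2*n+2) → y < F z := by
    intro z h1 h2
    obtain ⟨k1, k2, k3, k4⟩ := hFs z (by omega) h2 (by omega)
    by_contra hcon
    have hne := Fne z (by omega) h2 (by omega)
    exact spe_inf hs htop hbot hgt hgb k1 (show F z < y by omega) h1 h2 k3 k4 hy3
  have hnx := nox_of_Cir hc
  have mk : ∀ (lo k : ℕ) (f : ℕ → ℕ), (∀ z, (z < lo ∨ lo + 2*k ≤ z) → f z = z) →
      (∀ z, lo ≤ z → z < lo + 2*k → f z = F z) → X < lo → lo + 2*k ≤ X + (2*n+2) →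
      (∀ z, lo ≤ z → z < lo + 2*k → z ≠ y ∧ lo ≤ F z ∧ F z < lo + 2*k) →
      PM (thz n δ) lo k f := by
    intro lo k f hout val hlo hhi hcl
    refine ⟨hout, ?_, ?_, ?_, ?_, ?_, ?_⟩
    · intro z h1 h2
      rw [val z h1 h2]
      exact (hcl z h1 h2).2.1
    · intro z h1 h2
      rw [val z h1 h2]
      exact (hcl z h1 h2).2.2
    · intro z h1 h2
      rw [val z h1 h2]
      intro h3
      have := (hFs z (by omega) (by omega) (hcl z h1 h2).1).2.2.1
      rw [h3] at this
      exact this rfl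
    · intro z h1 h2
      rw [val z h1 h2, val (F z) (hcl z h1 h2).2.1 (hcl z h1 h2).2.2]
      exact Finv z (by omega) (by omega) (hcl z h1 h2).1
    · intro z w h1 h2 hzw hwf
      rw [val z h1 h2] at hwf ⊢
      obtain ⟨c1, c2, c3⟩ := hcl z h1 h2
      have hw1 : lo ≤ w := by omega
      have hw2 : w < lo + 2*k := by omega
      rw [val w hw1 hw2]
      obtain ⟨d1, d2, d3⟩ := hcl w hw1 hw2
      obtain ⟨k1, k2, k3, k4⟩ := hFs z (by omega) (by omega) c1
      obtain ⟨l1, l2, l3, l4⟩ := hFs w (by omega) (by omega) d1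
      have n1 : F w ≠ z := by
        intro hh
        have := Finv w (by omega) (by omega) d1
        rw [hh] at this
        omega
      have n2 : F w ≠ F z := by
        intro hh
        have e1 := Finv w (by omega) (by omega) d1
        have e2 := Finv z (by omega) (by omega) c1
        rw [hh, e2] at e1
        omega
      constructor
      · by_contra hcon
        exact hnx (F w) w z (F z) (by omega) hzw hwf (by omega) l3 l4 k3.symm k4.symm
      · by_contra hcon
        exact hnx z (F z) w (F w) hzw hwf (by omega) (by omega) k3.symm k4.symm l3.symm l4.symm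
    · intro z h1 h2 h3
      rw [val z h1 h2] at h3 ⊢
      obtain ⟨c1, c2, c3⟩ := hcl z h1 h2
      obtain ⟨k1, k2, k3, k4⟩ := hFs z (by omega) (by omega) c1
      exact fwd_lift hs htop hbot hgt hgb (show Up n top < z by omega) h3
        (show F z < Up n top + (2*n+2) by omega) k3.symm k4.symm
  obtain ⟨j, hj⟩ : ∃ j, X = 2*j := ⟨X / 2, by omega⟩
  obtain ⟨m, hm⟩ : ∃ m, y = 2*j + 2*m + 1 := ⟨(y - 2*j) / 2, by omega⟩
  refine ⟨j, m, fun z => if 2*j+1 ≤ z ∧ z < 2*j+1 + 2*m then F z else z,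
    fun z => if 2*j+2*m+2 ≤ z ∧ z < 2*j+2*m+2 + 2*(n-m) then F z else z, ?_, ?_⟩
  · refine ⟨by omega, by omega, ?_, ?_⟩
    · apply mk (2*j+1) m _ (fun z hz => if_neg (by omega)) (fun z h1 h2 => if_pos ⟨h1, h2⟩)
        (by omega) (by omega)
      intro z h1 h2
      have h3 := Flow z (by omega) (by omega)
      have h4 := (hFs z (by omega) (by omega) (by omega)).1
      exact ⟨by omega, by omega, by omega⟩
    · apply mk (2*j+2*m+2) (n-m) _ (fun z hz => if_neg (by omega))
        (fun z h1 h2 => if_pos ⟨h1, h2⟩) (by omega) (by omega)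
      intro z h1 h2
      have h3 := Fhigh z (by omega) (by omega)
      have h4 := (hFs z (by omega) (by omega) (by omega)).2.1
      exact ⟨by omega, by omega, by omega⟩
  · refine ⟨by rw [← hj]; exact GX, by rw [← hm]; exact GY, ?_, ?_⟩
    · intro z h1 h2
      rw [if_pos ⟨h1, h2⟩]
      exact (hFs z (by omega) (by omega) (by omega)).2.2.2
    · intro z h1 h2
      rw [if_pos ⟨h1, h2⟩]
      exact (hFs z (by omega) (by omega) (by omega)).2.2.2

end Pool.Agent.MV68
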