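import Pool.Agent.MV68.Lift
import Pool.Agent.MV68.PMCount

namespace Pool.Agent.MV68

open Pool.Agent.Results.MP_15ecc6_co.DoubleCatalan

/-- Two label-consistent matchings, on the two arcs cut out by the positions `2j` and `2j+2m+1`. -/
structure TS (n : ℕ) (δ : ℕ → Prop) (j m : ℕ) (f₁ f₂ : ℕ → ℕ) : Prop where
  hj : j ≤ n
  hm : m ≤ n
  p₁ : PM (thz n δ) (2*j+1) m f₁
  p₂ : PM (thz n δ) (2*j+2*m+2) (n-m) f₂

/-- The matchings are the adjacencies of the stack `g`; `2j` is the upper side of the top segment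
and `2j+2m+1` the lower side of the bottom segment. -/
structure SP (n : ℕ) (g : ℕ → ℕ) (j m : ℕ) (f₁ f₂ : ℕ → ℕ) : Prop where
  top : GG n g (2*j) = n
  bot : GG n g (2*j+2*m+1) = -1
  e₁ : ∀ z, 2*j+1 ≤ z → z < 2*j+1+2*m → GG n g (f₁ z) = GG n g z
  e₂ : ∀ z, 2*j+2*m+2 ≤ z → z < 2*j+2*m+2+2*(n-m) → GG n g (f₂ z) = GG n g z

end Pool.Agent.MV68
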