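import Pool.Agent.MV68.PMCount

namespace Pool.Agent.MV68

/-- The faces which are open are listed from the innermost one; `true` means that the step with the
sign `+` has been met. `popr s u` is the list after the innermost face above `u` has been closed at
a position after which the step has the sign `s`. -/
def popr (s : Bool) : List Bool → Option (List Bool)
  | [] => some []
  | x :: v => if s then (if x then none else some (true :: v)) else some (x :: v)

def popS (s : Bool) : List Bool → Option (List Bool)
  | true :: u => popr s u
  | _ => none

/-- Number of ways to close all the faces of `w` in `t` steps from the position `z` on. -/
def Dn (σ : ℕ → Bool) : ℕ → ℕ → List Bool → ℕ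
  | 0, _, w => if w = [] then 1 else 0
  | t+1, z, w => Dn σ t (z+1) (σ z :: w) +
      (match popS (σ z) w with
        | none => 0
        | some w' => Dn σ t (z+1) w')

def rr (s : Bool) : ℚ := if s then 5/3 else 3/2

end Pool.Agent.MV68
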