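import Mathlib

namespace Pool.Agent.MV68

/-- A noncrossing matching on the natural numbers, given by the relation `Ch`. -/
structure NCM (Ch : ℕ → ℕ → Prop) : Prop where
  symm : ∀ a b, Ch a b → Ch b a
  irrefl : ∀ a, ¬ Ch a a
  func : ∀ a b c, Ch a b → Ch a c → b = c
  nc : ∀ a b c d, Ch a b → a < b → Ch c d → c < d → a < c → c < b → d < b

open Classical in
/-- openers in `(a, y]` -/
noncomputable def Ops (Ch : ℕ → ℕ → Prop) (a y : ℕ) : Finset ℕ :=
  (Finset.Ioc a y).filter (fun z => ∃ z', z < z' ∧ Ch z z')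

open Classical in
/-- closers in `(a, y]` -/
noncomputable def Cls (Ch : ℕ → ℕ → Prop) (a y : ℕ) : Finset ℕ :=
  (Finset.Ioc a y).filter (fun z => ∃ z', z' < z ∧ Ch z z')

theorem mem_Ops {Ch : ℕ → ℕ → Prop} {a y z : ℕ} :
    z ∈ Ops Ch a y ↔ a < z ∧ z ≤ y ∧ ∃ z', z < z' ∧ Ch z z' := by
  classical
  unfold Ops
  rw [Finset.mem_filter, Finset.mem_Ioc]
  tauto

theorem mem_Cls {Ch : ℕ → ℕ → Prop} {a y z : ℕ} :
    z ∈ Cls Ch a y ↔ a < z ∧ z ≤ y ∧ ∃ z', z' < z ∧ Ch z z' := by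
  classical
  unfold Cls
  rw [Finset.mem_filter, Finset.mem_Ioc]
  tauto

open Classical in
noncomputable def mate (Ch : ℕ → ℕ → Prop) (z : ℕ) : ℕ :=
  if h : ∃ z', Ch z z' then Classical.choose h else 0

theorem mate_eq {Ch : ℕ → ℕ → Prop} (H : NCM Ch) {z z' : ℕ} (h : Ch z z') : mate Ch z = z' := by
  unfold mate
  rw [dif_pos ⟨z', h⟩]
  exact H.func _ _ _ (Classical.choose_spec (⟨z', h⟩ : ∃ z', Ch z z')) h

theorem cls_le_ops {Ch : ℕ → ℕ → Prop} (H : NCM Ch) {a b y : ℕ} (hab : Ch a b) (_hlt : a < b)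
    (hy : y < b) : (Cls Ch a y).card ≤ (Ops Ch a y).card := by
  apply Finset.card_le_card_of_injOn (mate Ch)
  · intro z hz
    rw [Finset.mem_coe, mem_Cls] at hz
    obtain ⟨h1, h2, z', h3, h4⟩ := hz
    rw [Finset.mem_coe, mate_eq H h4, mem_Ops]
    have hs := H.symm _ _ h4
    refine ⟨?_, by omega, z, h3, hs⟩
    rcases Nat.lt_trichotomy z' a with h | h | h
    · have := H.nc z' z a b hs h3 hab (by omega) h h1
      omega
    · subst h
      have := H.func _ _ _ hs hab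
      omega
    · exact h
  · intro z hz w hw hzw
    rw [Finset.mem_coe, mem_Cls] at hz hw
    obtain ⟨_, _, z', _, h4⟩ := hz
    obtain ⟨_, _, w', _, h5⟩ := hw
    rw [mate_eq H h4, mate_eq H h5] at hzw
    subst hzw
    exact H.func _ _ _ (H.symm _ _ h4) (H.symm _ _ h5)

theorem ops_le_cls {Ch : ℕ → ℕ → Prop} (H : NCM Ch) {a b : ℕ} (hab : Ch a b) (hlt : a < b) :
    (Ops Ch a b).card + 1 ≤ (Cls Ch a b).card := by
  have hb : b ∈ Cls Ch a b := mem_Cls.2 ⟨hlt, le_rfl, a, hlt, H.symm _ _ hab⟩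
  have hsub : (Ops Ch a b).card ≤ ((Cls Ch a b).erase b).card := by
    apply Finset.card_le_card_of_injOn (mate Ch)
    · intro z hz
      rw [Finset.mem_coe, mem_Ops] at hz
      obtain ⟨h1, h2, z', h3, h4⟩ := hz
      have hzb : z ≠ b := by
        rintro rfl
        have := H.func _ _ _ h4 (H.symm _ _ hab)
        omega
      have h5 := H.nc a b z z' hab hlt h4 h3 h1 (by omega)
      rw [Finset.mem_coe, mate_eq H h4, Finset.mem_erase, mem_Cls]
      exact ⟨by omega, by omega, by omega, z, h3, H.symm _ _ h4⟩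
    · intro z hz w hw hzw
      rw [Finset.mem_coe, mem_Ops] at hz hw
      obtain ⟨_, _, z', _, h4⟩ := hz
      obtain ⟨_, _, w', _, h5⟩ := hw
      rw [mate_eq H h4, mate_eq H h5] at hzw
      subst hzw
      exact H.func _ _ _ (H.symm _ _ h4) (H.symm _ _ h5)
  rw [Finset.card_erase_of_mem hb] at hsub
  have : 1 ≤ (Cls Ch a b).card := Finset.card_pos.2 ⟨b, hb⟩
  omega

theorem ops_congr {Ch Ch' : ℕ → ℕ → Prop}
    (ho : ∀ z, (∃ z', z < z' ∧ Ch z z') ↔ (∃ z', z < z' ∧ Ch' z z')) (a y : ℕ) :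
    Ops Ch a y = Ops Ch' a y := by
  ext z
  rw [mem_Ops, mem_Ops, ho]

theorem cls_congr {Ch Ch' : ℕ → ℕ → Prop}
    (hc : ∀ z, (∃ z', z' < z ∧ Ch z z') ↔ (∃ z', z' < z ∧ Ch' z z')) (a y : ℕ) :
    Cls Ch a y = Cls Ch' a y := by
  ext z
  rw [mem_Cls, mem_Cls, hc]

theorem not_lt_mate {Ch Ch' : ℕ → ℕ → Prop} (H : NCM Ch) (H' : NCM Ch')
    (ho : ∀ z, (∃ z', z < z' ∧ Ch z z') ↔ (∃ z', z < z' ∧ Ch' z z'))
    (hc : ∀ z, (∃ z', z' < z ∧ Ch z z') ↔ (∃ z', z' < z ∧ Ch' z z'))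
    {a b b' : ℕ} (hab : Ch a b) (hlt : a < b) (hab' : Ch' a b') (hlt' : a < b') : ¬ b < b' := by
  intro hbb
  have h1 := ops_le_cls H hab hlt
  have h2 := cls_le_ops H' hab' hlt' hbb
  rw [ops_congr ho, cls_congr hc] at h1
  omega

/-- A noncrossing matching is determined by its openers and closers. -/
theorem ncm_ext {Ch Ch' : ℕ → ℕ → Prop} (H : NCM Ch) (H' : NCM Ch')
    (ho : ∀ z, (∃ z', z < z' ∧ Ch z z') ↔ (∃ z', z < z' ∧ Ch' z z'))
    (hc : ∀ z, (∃ z', z' < z ∧ Ch z z') ↔ (∃ z', z' < z ∧ Ch' z z')) (a b : ℕ) :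
    Ch a b ↔ Ch' a b := by
  have key : ∀ {C C' : ℕ → ℕ → Prop}, NCM C → NCM C' →
      (∀ z, (∃ z', z < z' ∧ C z z') ↔ (∃ z', z < z' ∧ C' z z')) →
      (∀ z, (∃ z', z' < z ∧ C z z') ↔ (∃ z', z' < z ∧ C' z z')) →
      ∀ a b, a < b → C a b → C' a b := by
    intro C C' K K' ko kc a b hlt h
    obtain ⟨b', hlt', h'⟩ := (ko a).1 ⟨b, hlt, h⟩
    have h1 := not_lt_mate K K' ko kc h hlt h' hlt'
    have h2 := not_lt_mate K' K (fun z => (ko z).symm) (fun z => (kc z).symm) h' hlt' h hlt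
    have : b = b' := by omega
    rw [this]
    exact h'
  constructor
  · intro h
    rcases Nat.lt_trichotomy a b with hlt | heq | hgt
    · exact key H H' ho hc a b hlt h
    · subst heq; exact absurd h (H.irrefl a)
    · exact H'.symm _ _ (key H H' ho hc b a hgt (H.symm _ _ h))
  · intro h
    rcases Nat.lt_trichotomy a b with hlt | heq | hgt
    · exact key H' H (fun z => (ho z).symm) (fun z => (hc z).symm) a b hlt h
    · subst heq; exact absurd h (H'.irrefl a)
    · exact H.symm _ _ (key H' H (fun z => (ho z).symm) (fun z => (hc z).symm) b a hgt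
        (H'.symm _ _ h))

/-! Counting words -/

open Classical in
/-- subsets of `[0, N]` closed under successor at the steps where `ρ` holds -/
noncomputable def FS (ρ : ℕ → Prop) (N : ℕ) : Finset (Finset ℕ) :=
  (Finset.range (N+1)).powerset.filter (fun W => ∀ z, z < N → ρ z → z ∈ W → z + 1 ∈ W)

theorem mem_FS {ρ : ℕ → Prop} {N : ℕ} {W : Finset ℕ} :
    W ∈ FS ρ N ↔ (∀ z, z ∈ W → z ≤ N) ∧ (∀ z, z < N → ρ z → z ∈ W → z + 1 ∈ W) := by
  classical
  unfold FS
  rw [Finset.mem_filter, Finset.mem_powerset]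
  constructor
  · rintro ⟨h1, h2⟩
    refine ⟨fun z hz => ?_, h2⟩
    have := Finset.mem_range.1 (h1 hz)
    omega
  · rintro ⟨h1, h2⟩
    refine ⟨fun z hz => ?_, h2⟩
    have := h1 z hz
    exact Finset.mem_range.2 (by omega)

open Classical in
/-- counts of words: ending open, ending closed -/
noncomputable def cnt (ρ : ℕ → Prop) : ℕ → ℕ × ℕ
  | 0 => (1, 1)
  | N+1 => ((cnt ρ N).1 + (cnt ρ N).2, if ρ N then (cnt ρ N).2 else (cnt ρ N).1 + (cnt ρ N).2)

theorem cnt_le (ρ : ℕ → Prop) (N : ℕ) : (cnt ρ N).2 ≤ (cnt ρ N).1 := by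
  classical
  cases N with
  | zero => exact le_rfl
  | succ N =>
    show (if ρ N then (cnt ρ N).2 else (cnt ρ N).1 + (cnt ρ N).2) ≤ (cnt ρ N).1 + (cnt ρ N).2
    split_ifs <;> omega

theorem card_FS (ρ : ℕ → Prop) (N : ℕ) :
    ((FS ρ N).filter (fun W => N ∈ W)).card ≤ (cnt ρ N).1 ∧
    ((FS ρ N).filter (fun W => N ∉ W)).card ≤ (cnt ρ N).2 := by
  classical
  induction N with
  | zero =>
    constructor
    · show _ ≤ 1
      rw [Finset.card_le_one]
      intro W hW W' hW'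
      rw [Finset.mem_filter, mem_FS] at hW hW'
      have e : ∀ W : Finset ℕ, (∀ z, z ∈ W → z ≤ 0) → 0 ∈ W → W = {0} := by
        intro W h1 h2
        ext z
        rw [Finset.mem_singleton]
        constructor
        · intro hz; have := h1 z hz; omega
        · rintro rfl; exact h2
      rw [e W hW.1.1 hW.2, e W' hW'.1.1 hW'.2]
    · show _ ≤ 1
      rw [Finset.card_le_one]
      intro W hW W' hW'
      rw [Finset.mem_filter, mem_FS] at hW hW'
      have e : ∀ W : Finset ℕ, (∀ z, z ∈ W → z ≤ 0) → 0 ∉ W → W = ∅ := by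
        intro W h1 h2
        rw [Finset.eq_empty_iff_forall_notMem]
        intro z hz
        have := h1 z hz
        obtain rfl : z = 0 := by omega
        exact h2 hz
      rw [e W hW.1.1 hW.2, e W' hW'.1.1 hW'.2]
  | succ N ih =>
    have hsplit : (FS ρ N).card ≤ (cnt ρ N).1 + (cnt ρ N).2 := by
      rw [← Finset.card_filter_add_card_filter_not (s := FS ρ N) (fun W => N ∈ W)]
      exact Nat.add_le_add ih.1 ih.2
    constructor
    · show _ ≤ (cnt ρ N).1 + (cnt ρ N).2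
      refine le_trans ?_ hsplit
      apply Finset.card_le_card_of_injOn (fun W => W.erase (N+1))
      · intro W hW
        rw [Finset.mem_coe, Finset.mem_filter, mem_FS] at hW
        rw [Finset.mem_coe, mem_FS]
        refine ⟨fun z hz => ?_, fun z hz hρ hzW => ?_⟩
        · rw [Finset.mem_erase] at hz
          have := hW.1.1 z hz.2
          have := hz.1
          omega
        · rw [Finset.mem_erase] at hzW ⊢
          exact ⟨by omega, hW.1.2 z (by omega) hρ hzW.2⟩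
      · intro W hW W' hW' h
        rw [Finset.mem_coe, Finset.mem_filter] at hW hW'
        have h' : W.erase (N+1) = W'.erase (N+1) := h
        rw [← Finset.insert_erase hW.2, ← Finset.insert_erase hW'.2, h']
    · show _ ≤ if ρ N then (cnt ρ N).2 else (cnt ρ N).1 + (cnt ρ N).2
      split_ifs with hρN
      · refine le_trans (Finset.card_le_card ?_) ih.2
        intro W hW
        rw [Finset.mem_filter, mem_FS] at hW ⊢
        obtain ⟨⟨h1, h2⟩, h3⟩ := hW
        refine ⟨⟨fun z hz => ?_, fun z hz hρ hzW => h2 z (by omega) hρ hzW⟩, fun hN => ?_⟩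
        · have := h1 z hz
          have hne : z ≠ N + 1 := fun hq => h3 (hq ▸ hz)
          omega
        · exact h3 (h2 N (by omega) hρN hN)
      · refine le_trans (Finset.card_le_card ?_) hsplit
        intro W hW
        rw [Finset.mem_filter, mem_FS] at hW
        rw [mem_FS]
        obtain ⟨⟨h1, h2⟩, h3⟩ := hW
        refine ⟨fun z hz => ?_, fun z hz hρ hzW => h2 z (by omega) hρ hzW⟩
        have := h1 z hz
        have hne : z ≠ N + 1 := fun hq => h3 (hq ▸ hz)
        omega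

open Classical in
theorem cnt_bound (ρ : ℕ → Prop) (N : ℕ) :
    2 ^ N * ((cnt ρ N).1 + (cnt ρ N).2) ≤ 2 * ∏ k ∈ Finset.range N, (if ρ k then 3 else 4) := by
  induction N with
  | zero => show 1 * (1 + 1) ≤ 2 * 1; norm_num
  | succ N ih =>
    rw [Finset.prod_range_succ]
    have hle := cnt_le ρ N
    have hstep : 2 * ((cnt ρ (N+1)).1 + (cnt ρ (N+1)).2) ≤
        (if ρ N then 3 else 4) * ((cnt ρ N).1 + (cnt ρ N).2) := by
      show 2 * ((cnt ρ N).1 + (cnt ρ N).2 +
        (if ρ N then (cnt ρ N).2 else (cnt ρ N).1 + (cnt ρ N).2)) ≤ _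
      split_ifs <;> omega
    calc 2 ^ (N+1) * ((cnt ρ (N+1)).1 + (cnt ρ (N+1)).2)
        = 2 ^ N * (2 * ((cnt ρ (N+1)).1 + (cnt ρ (N+1)).2)) := by ring
      _ ≤ 2 ^ N * ((if ρ N then 3 else 4) * ((cnt ρ N).1 + (cnt ρ N).2)) :=
          Nat.mul_le_mul_left _ hstep
      _ = (if ρ N then 3 else 4) * (2 ^ N * ((cnt ρ N).1 + (cnt ρ N).2)) := by ring
      _ ≤ (if ρ N then 3 else 4) * (2 * ∏ k ∈ Finset.range N, (if ρ k then 3 else 4)) :=
          Nat.mul_le_mul_left _ ih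
      _ = 2 * ((∏ k ∈ Finset.range N, (if ρ k then 3 else 4)) * (if ρ N then 3 else 4)) := by ring

theorem FS_bound (ρ : ℕ → Prop) (N : ℕ) : (FS ρ N).card ≤ (cnt ρ N).1 + (cnt ρ N).2 := by
  classical
  rw [← Finset.card_filter_add_card_filter_not (s := FS ρ N) (fun W => N ∈ W)]
  exact Nat.add_le_add (card_FS ρ N).1 (card_FS ρ N).2

end Pool.Agent.MV68
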